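import Pool.Agent.MP_1392dc_co.St

/-! Sums over neighbourhoods, Perron vectors, edge counts (the basic layer, as in the case `k = 2`). -/

namespace WQ

open W5 Finset
open scoped Classical

section
variable {V : Type} [Fintype V]

/-- Sum of `x` over the neighbours of `u`. -/
noncomputable def ns (G : SimpleGraph V) (x : V → ℝ) (u : V) : ℝ :=
  ∑ v, if G.Adj u v then x v else 0
/-- The quadratic form of the adjacency matrix. -/
noncomputable def qf (G : SimpleGraph V) (x : V → ℝ) : ℝ := ∑ u, x u * ns G x u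
/-- Squared norm. -/
noncomputable def nn (x : V → ℝ) : ℝ := ∑ u, x u ^ 2
/-- Degree, as a real number. -/
noncomputable def dg (G : SimpleGraph V) (u : V) : ℝ := ns G (fun _ => 1) u
/-- Number of edges, as a real number. -/
noncomputable def ed (G : SimpleGraph V) : ℝ := (∑ u, dg G u) / 2
/-- Weight of a set of vertices. -/
noncomputable def wt (x : V → ℝ) (S : V → Prop) : ℝ := ∑ v, if S v then x v ^ 2 else 0
/-- Not isolated. -/
def NI (G : SimpleGraph V) (u : V) : Prop := ∃ v, G.Adj u v

noncomputable def eps : ℝ := 1 / 20480000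
noncomputable def kap : ℝ := 1 / 640000

/-- A Perron vector with squared norm `2 l - 1`. -/
structure Per (H : SimpleGraph V) (l : ℝ) (x : V → ℝ) : Prop where
  pos : ∀ u, 0 ≤ x u
  eig : ∀ u, ns H x u = l * x u
  nrm : nn x = 2 * l - 1
  ray : ∀ y, qf H y ≤ l * nn y

theorem qf_eq (G : SimpleGraph V) (x : V → ℝ) :
    qf G x = ∑ u, ∑ v, if G.Adj u v then x u * x v else 0 := by
  unfold qf ns
  refine sum_congr rfl fun u _ => ?_
  rw [mul_sum]
  refine sum_congr rfl fun v _ => ?_
  split_ifs <;> simp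

theorem two_ed (G : SimpleGraph V) :
    2 * ed G = ∑ u, ∑ v, if G.Adj u v then (1 : ℝ) else 0 := by
  unfold ed dg ns; ring

theorem wt_nonneg (x : V → ℝ) (S : V → Prop) : 0 ≤ wt x S :=
  sum_nonneg fun v _ => by split_ifs <;> positivity

theorem wt_mono (x : V → ℝ) {S T : V → Prop} (h : ∀ v, S v → T v) : wt x S ≤ wt x T :=
  sum_le_sum fun v _ => by
    by_cases hs : S v
    · simp [hs, h v hs]
    · simp only [hs, if_false]; split_ifs <;> positivity

theorem wt_le_nn (x : V → ℝ) (S : V → Prop) : wt x S ≤ nn x :=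
  sum_le_sum fun v _ => by split_ifs <;> [exact le_rfl; positivity]

theorem wt_split (x : V → ℝ) (S T : V → Prop) :
    wt x S = wt x (fun v => S v ∧ T v) + wt x (fun v => S v ∧ ¬ T v) := by
  unfold wt
  rw [← sum_add_distrib]
  refine sum_congr rfl fun v _ => ?_
  by_cases hs : S v <;> by_cases ht : T v <;> simp [hs, ht]

theorem wt_compl (x : V → ℝ) (S : V → Prop) : wt x S + wt x (fun v => ¬ S v) = nn x := by
  unfold wt nn
  rw [← sum_add_distrib]
  refine sum_congr rfl fun v _ => ?_
  by_cases hs : S v <;> simp [hs]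

theorem wt_le_of_sub (x : V → ℝ) (S : V → Prop) (c : ℝ) (hc : 0 ≤ c) (hx : ∀ v, x v ^ 2 ≤ c)
    (h : ∀ p q, S p → S q → p = q) : wt x S ≤ c := by
  by_cases he : ∃ p, S p
  · obtain ⟨p, hp⟩ := he
    have : wt x S = x p ^ 2 := by
      unfold wt
      rw [sum_eq_single p]
      · simp [hp]
      · intro b _ hb
        have : ¬ S b := fun hb' => hb (h _ _ hb' hp)
        simp [this]
      · simp
    rw [this]; exact hx p
  · push Not at he
    have : wt x S = 0 := by unfold wt; simp [he]
    rw [this]; exact hc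

theorem ns_sq_le (G : SimpleGraph V) (x : V → ℝ) (u : V) :
    ns G x u ^ 2 ≤ dg G u * wt x (G.Adj u) := by
  have h := sum_mul_sq_le_sq_mul_sq univ (fun v => if G.Adj u v then (1 : ℝ) else 0)
    (fun v => if G.Adj u v then x v else 0)
  have e1 : ns G x u = ∑ v, (if G.Adj u v then (1 : ℝ) else 0) * (if G.Adj u v then x v else 0) :=
    sum_congr rfl fun v _ => by split_ifs <;> simp
  have e2 : dg G u = ∑ v, (if G.Adj u v then (1 : ℝ) else 0) ^ 2 :=
    sum_congr rfl fun v _ => by split_ifs <;> simp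
  have e3 : wt x (G.Adj u) = ∑ v, (if G.Adj u v then x v else 0) ^ 2 :=
    sum_congr rfl fun v _ => by split_ifs <;> simp
  rw [e1, e2, e3]; exact h

theorem Per.zero {H : SimpleGraph V} {l : ℝ} {x : V → ℝ} (h : Per H l x) (hl : 0 < l) {u : V}
    (hu : ¬ NI H u) : x u = 0 := by
  have h1 := h.eig u
  have h2 : ns H x u = 0 := by
    unfold ns
    refine sum_eq_zero fun v _ => ?_
    have : ¬ H.Adj u v := fun hv => hu ⟨v, hv⟩
    simp [this]
  rw [h2] at h1
  rcases mul_eq_zero.1 h1.symm with h3 | h3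
  · exact absurd h3 hl.ne'
  · exact h3

theorem Per.qf_val {H : SimpleGraph V} {l : ℝ} {x : V → ℝ} (h : Per H l x) :
    qf H x = l * (2 * l - 1) := by
  rw [← h.nrm]; unfold qf nn
  rw [mul_sum]
  exact sum_congr rfl fun u _ => by rw [h.eig]; ring

theorem ray_F {H : SimpleGraph V} {l : ℝ} (h : ∀ y, qf H y ≤ l * nn y) (y : V → ℝ) :
    qf H y - (nn y + 1) ^ 2 / 4 ≤ l ^ 2 - l := by
  have := h y
  nlinarith [sq_nonneg ((nn y + 1) / 2 - l)]

end

def PerS : Prop := ∀ (V : Type) [Fintype V] (G : SimpleGraph V),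
  0 ≤ lam G ∧ (∀ y, qf G y ≤ lam G * nn y) ∧ (1 ≤ lam G → ∃ x, Per G (lam G) x)

def EdS : Prop := ∀ (V : Type) [Fintype V] (G : SimpleGraph V),
  ed G = (G.edgeSet.ncard : ℝ) ∧ ∀ H : SimpleGraph V, H ≤ G →
    (∃ ν : ℕ, ed G = ed H + ν) ∧ (ed G = ed H → G = H) ∧
    (ed G = ed H + 1 → ∃ p w, G.Adj p w ∧ ¬ H.Adj p w ∧
      ∀ u v, G.Adj u v ↔ H.Adj u v ∨ (u = p ∧ v = w) ∨ (u = w ∧ v = p))

def OpS : Prop := ∀ (V : Type) [Fintype V] (G : SimpleGraph V),
  (∀ (H : SimpleGraph V) (p w : V), p ≠ w → ¬ H.Adj p w →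
    (∀ u v, G.Adj u v ↔ H.Adj u v ∨ (u = p ∧ v = w) ∨ (u = w ∧ v = p)) →
    (∀ y, qf G y = qf H y + 2 * y p * y w) ∧ ed G = ed H + 1) ∧
  (∀ (H : SimpleGraph V) (w : V), (∀ u v, H.Adj u v ↔ G.Adj u v ∧ u ≠ w ∧ v ≠ w) →
    (∀ y, qf H (Function.update y w 0) = qf G y - 2 * y w * ns G y w) ∧ ed H = ed G - dg G w) ∧
  (∀ (y : V → ℝ) (w : V), nn (Function.update y w 0) = nn y - y w ^ 2)

section
variable {V : Type} [Fintype V]

theorem mulVec_Per (G : SimpleGraph V) (x : V → ℝ) (u : V) :
    (G.adjMatrix ℝ).mulVec x u = ns G x u := by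
  unfold ns Matrix.mulVec dotProduct
  refine sum_congr rfl fun v _ => ?_
  show G.adjMatrix ℝ u v * x v = _
  rw [SimpleGraph.adjMatrix_apply]
  split_ifs <;> simp

theorem qf_smul_Per (G : SimpleGraph V) (c : ℝ) (x : V → ℝ) :
    qf G (fun v => c * x v) = c ^ 2 * qf G x := by
  rw [qf_eq, qf_eq, mul_sum]
  refine sum_congr rfl fun u _ => ?_
  rw [mul_sum]
  refine sum_congr rfl fun v _ => ?_
  split_ifs <;> ring

theorem nn_smul_Per (c : ℝ) (x : V → ℝ) : nn (fun v => c * x v) = c ^ 2 * nn x := by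
  unfold nn
  rw [mul_sum]
  exact sum_congr rfl fun u _ => by ring

theorem ns_smul_Per (G : SimpleGraph V) (c : ℝ) (x : V → ℝ) (u : V) :
    ns G (fun v => c * x v) u = c * ns G x u := by
  unfold ns
  rw [mul_sum]
  exact sum_congr rfl fun v _ => by split_ifs <;> simp

theorem nn_pos_Per {x : V → ℝ} (hx : x ≠ 0) : 0 < nn x := by
  obtain ⟨u, hu⟩ := Function.ne_iff.1 hx
  refine sum_pos' (fun v _ => sq_nonneg _) ⟨u, mem_univ _, ?_⟩
  have : x u ≠ 0 := hu
  positivity

theorem qf_add_Per (G : SimpleGraph V) (x : V → ℝ) (u : V) (t : ℝ) :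
    qf G (fun v => x v + if v = u then t else 0) = qf G x + 2 * t * ns G x u := by
  rw [qf_eq, qf_eq]
  have e : ∀ a b, (if G.Adj a b then (x a + if a = u then t else 0) * (x b + if b = u then t else 0)
      else 0) = (if G.Adj a b then x a * x b else 0) +
        (if a = u then (if G.Adj u b then t * x b else 0) else 0) +
        (if b = u then (if G.Adj u a then t * x a else 0) else 0) := by
    intro a b
    by_cases ha : a = u
    · by_cases hb : b = u
      · subst ha; subst hb; simp
      · subst ha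
        by_cases h : G.Adj a b <;> simp [h, hb]
        ring
    · by_cases hb : b = u
      · subst hb
        by_cases h : G.Adj a b
        · simp [h, ha, h.symm]; ring
        · have h' : ¬ G.Adj b a := fun h2 => h h2.symm
          simp [h, ha, h']
      · simp [ha, hb]
  simp only [e, sum_add_distrib, sum_ite_eq', mem_univ, if_true]
  have e2 : (∑ b, if G.Adj u b then t * x b else 0) = t * ns G x u := by
    unfold ns
    rw [mul_sum]
    exact sum_congr rfl fun v _ => by split_ifs <;> simp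
  have e3 : (∑ a, ∑ b, if a = u then (if G.Adj u b then t * x b else 0) else 0) = t * ns G x u := by
    rw [sum_comm]
    simp only [sum_ite_eq', mem_univ, if_true]
    exact e2
  rw [e3, e2]
  ring

theorem nn_add_Per (x : V → ℝ) (u : V) (t : ℝ) :
    nn (fun v => x v + if v = u then t else 0) = nn x + 2 * t * x u + t ^ 2 := by
  unfold nn
  have e : ∀ a, (x a + if a = u then t else 0) ^ 2 =
      x a ^ 2 + if a = u then 2 * t * x u + t ^ 2 else 0 := by
    intro a
    by_cases ha : a = u
    · subst ha; simp; ring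
    · simp [ha]
  simp only [e, sum_add_distrib, sum_ite_eq', mem_univ, if_true]
  ring

theorem max_Per (G : SimpleGraph V) (u0 : V) : ∃ (M : ℝ) (x : V → ℝ), 0 ≤ M ∧
    (∀ y, qf G y ≤ M * nn y) ∧ (∀ u, 0 ≤ x u) ∧ nn x = 1 ∧ ∀ u, ns G x u = M * x u := by
  have hcq : Continuous (qf G) := by
    have : qf G = fun x => ∑ u, ∑ v, if G.Adj u v then x u * x v else 0 := funext (qf_eq G)
    rw [this]
    refine continuous_finsetSum _ fun u _ => continuous_finsetSum _ fun v _ => ?_
    split_ifs
    · fun_prop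
    · exact continuous_const
  have hcn : Continuous (nn : (V → ℝ) → ℝ) := by
    unfold nn
    fun_prop
  have hK : IsCompact {x : V → ℝ | nn x = 1} := by
    refine (isCompact_closedBall (0 : V → ℝ) 1).of_isClosed_subset
      (isClosed_eq hcn continuous_const) fun x hx => ?_
    rw [mem_closedBall_zero_iff, pi_norm_le_iff_of_nonneg zero_le_one]
    intro u
    have h1 : x u ^ 2 ≤ nn x :=
      single_le_sum (f := fun v => x v ^ 2) (fun v _ => sq_nonneg _) (mem_univ u)
    have h2 : nn x = 1 := hx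
    rw [Real.norm_eq_abs]
    exact abs_le_of_sq_le_sq (by linarith) zero_le_one
  have he1 : nn (fun v => (0 : V → ℝ) v + if v = u0 then (1 : ℝ) else 0) = 1 := by
    rw [nn_add_Per]; simp [nn]
  have he2 : qf G (fun v => (0 : V → ℝ) v + if v = u0 then (1 : ℝ) else 0) = 0 := by
    rw [qf_add_Per]; simp [qf, ns]
  obtain ⟨x0, hx0, hmax⟩ := hK.exists_isMaxOn ⟨_, he1⟩ hcq.continuousOn
  have hx1 : nn x0 = 1 := hx0
  have hM : 0 ≤ qf G x0 := by
    have := hmax he1
    rw [← he2]
    exact this
  have hray : ∀ y, qf G y ≤ qf G x0 * nn y := by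
    intro y
    by_cases hy : y = 0
    · subst hy; simp [qf, nn]
    · have hp := nn_pos_Per hy
      have hs : 0 < √(nn y) := Real.sqrt_pos.2 hp
      have h1 : ((√(nn y))⁻¹) ^ 2 = (nn y)⁻¹ := by rw [inv_pow, Real.sq_sqrt hp.le]
      have h2 : nn (fun v => (√(nn y))⁻¹ * y v) = 1 := by
        rw [nn_smul_Per, h1]; field_simp
      have h3 : qf G (fun v => (√(nn y))⁻¹ * y v) ≤ qf G x0 := hmax h2
      rw [qf_smul_Per, h1, inv_mul_le_iff₀ hp] at h3
      linarith
  have ha1 : nn (fun v => |x0 v|) = 1 := by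
    rw [← hx1]; unfold nn
    exact sum_congr rfl fun v _ => sq_abs _
  have ha2 : qf G (fun v => |x0 v|) = qf G x0 := by
    refine le_antisymm (hmax ha1) ?_
    rw [qf_eq, qf_eq]
    refine sum_le_sum fun u _ => sum_le_sum fun v _ => ?_
    split_ifs
    · rw [← abs_mul]; exact le_abs_self _
    · exact le_rfl
  refine ⟨qf G x0, fun v => |x0 v|, hM, hray, fun u => abs_nonneg _, ha1, fun u => ?_⟩
  set M := qf G x0
  set d := ns G (fun v => |x0 v|) u - M * |x0 u| with hd
  have h1 : ∀ t : ℝ, 2 * t * d ≤ M * t ^ 2 := by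
    intro t
    have := hray (fun v => |x0 v| + if v = u then t else 0)
    rw [qf_add_Per, nn_add_Per, ha1, ha2] at this
    rw [hd]
    linarith
  have h2 := h1 (d / (M + 1))
  have h3 : d = d / (M + 1) * (M + 1) := by field_simp
  set s := d / (M + 1)
  have h4 : s ^ 2 * (M + 2) ≤ 0 := by rw [h3] at h2; nlinarith
  have h5 : s = 0 := by
    by_contra h
    have : 0 < s ^ 2 * (M + 2) := by positivity
    linarith
  rw [h5, zero_mul] at h3
  linarith

end

theorem perS : PerS := by
  intro V _ G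
  rcases isEmpty_or_nonempty V with hV | hV
  · have h0 : lam G = 0 := by
      unfold lam
      rw [← Real.sSup_empty]
      congr 1
      ext μ
      simp only [Set.mem_ofPred_eq, Set.mem_empty_iff_false, iff_false, not_exists, not_and]
      intro x hx
      exact absurd (Subsingleton.elim x 0) hx
    rw [h0]
    refine ⟨le_rfl, fun y => ?_, fun h => absurd h (by norm_num)⟩
    simp [qf]
  · obtain ⟨u0⟩ := hV
    obtain ⟨M, x, hM, hray, hpos, hn, heig⟩ := max_Per G u0
    have hl : lam G = M := by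
      unfold lam
      refine IsGreatest.csSup_eq ⟨⟨x, ?_, ?_⟩, ?_⟩
      · intro h
        rw [h] at hn
        simp [nn] at hn
      · funext u
        rw [mulVec_Per, heig]
        rfl
      · rintro μ ⟨y, hy, hμ⟩
        have h1 : qf G y = μ * nn y := by
          unfold qf nn
          rw [mul_sum]
          refine sum_congr rfl fun u _ => ?_
          rw [← mulVec_Per, hμ]
          simp only [Pi.smul_apply, smul_eq_mul]
          ring
        have h2 := hray y
        rw [h1] at h2
        exact le_of_mul_le_mul_right h2 (nn_pos_Per hy)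
    rw [hl]
    refine ⟨hM, hray, fun h1 => ⟨fun v => √(2 * M - 1) * x v, ?_, ?_, ?_, hray⟩⟩
    · intro u
      exact mul_nonneg (Real.sqrt_nonneg _) (hpos u)
    · intro u
      rw [ns_smul_Per, heig]
      ring
    · rw [nn_smul_Per, hn, Real.sq_sqrt (by linarith), mul_one]

theorem ed_eq_Ed {V : Type} [Fintype V] (G : SimpleGraph V) :
    ed G = (G.edgeSet.ncard : ℝ) := by
  have h1 := two_ed G
  have h2 : ∀ u, (∑ v, if G.Adj u v then (1 : ℝ) else 0) = (G.degree u : ℝ) := by
    intro u
    rw [Finset.sum_boole, ← SimpleGraph.card_neighborFinset_eq_degree,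
      SimpleGraph.neighborFinset_eq_filter]
  have h3 := G.sum_degrees_eq_twice_card_edges
  have h4 : G.edgeSet.ncard = G.edgeFinset.card := by
    rw [← SimpleGraph.coe_edgeFinset, Set.ncard_coe_finset]
  have h5 : (∑ u, (G.degree u : ℝ)) = 2 * (G.edgeFinset.card : ℝ) := by exact_mod_cast h3
  simp only [h2] at h1
  rw [h4]; linarith

theorem edS : EdS := by
  intro V _ G
  refine ⟨ed_eq_Ed G, fun H hHG => ?_⟩
  have hsub : H.edgeSet ⊆ G.edgeSet := SimpleGraph.edgeSet_mono hHG
  have hfin : G.edgeSet.Finite := Set.toFinite _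
  have hle : H.edgeSet.ncard ≤ G.edgeSet.ncard := Set.ncard_le_ncard hsub hfin
  rw [ed_eq_Ed G, ed_eq_Ed H]
  refine ⟨⟨G.edgeSet.ncard - H.edgeSet.ncard, ?_⟩, fun h => ?_, fun h => ?_⟩
  · rw [Nat.cast_sub hle]; ring
  · have h' : G.edgeSet.ncard = H.edgeSet.ncard := by exact_mod_cast h
    have := Set.eq_of_subset_of_ncard_le hsub h'.le hfin
    exact SimpleGraph.edgeSet_injective this.symm
  · have h' : G.edgeSet.ncard = H.edgeSet.ncard + 1 := by exact_mod_cast h
    have hd : (G.edgeSet \ H.edgeSet).ncard = 1 := by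
      rw [Set.ncard_sdiff hsub]; omega
    obtain ⟨e, he⟩ := Set.ncard_eq_one.1 hd
    induction e using Sym2.ind with
    | _ p w =>
      have hm : s(p, w) ∈ G.edgeSet \ H.edgeSet := by rw [he]; exact Set.mem_singleton _
      have hG : G.Adj p w := hm.1
      have hH : ¬ H.Adj p w := hm.2
      refine ⟨p, w, hG, hH, fun u v => ⟨fun huv => ?_, ?_⟩⟩
      · by_cases hh : H.Adj u v
        · exact Or.inl hh
        · have hm' : s(u, v) ∈ G.edgeSet \ H.edgeSet := ⟨huv, hh⟩
          rw [he] at hm'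
          exact Or.inr (Sym2.eq_iff.1 (Set.mem_singleton_iff.1 hm'))
      · rintro (hh | ⟨rfl, rfl⟩ | ⟨rfl, rfl⟩)
        · exact hHG hh
        · exact hG
        · exact hG.symm

theorem ed_qf_Ed {V : Type} [Fintype V] (G : SimpleGraph V) :
    2 * ed G = qf G (fun _ => 1) := by
  rw [two_ed, qf_eq]; simp

theorem pt_Ed {V : Type} [Fintype V] (p w : V) (c : ℝ) :
    (∑ u, ∑ v, if u = p ∧ v = w then c else 0) = c := by
  rw [sum_eq_single p]
  · rw [sum_eq_single w]
    · simp
    · intro b _ hb; simp [hb]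
    · simp
  · intro b _ hb; simp [hb]
  · simp

theorem add_Ed {V : Type} [Fintype V] (G H : SimpleGraph V) (p w : V) (hpw : p ≠ w)
    (hH : ¬ H.Adj p w)
    (h : ∀ u v, G.Adj u v ↔ H.Adj u v ∨ (u = p ∧ v = w) ∨ (u = w ∧ v = p)) (y : V → ℝ) :
    qf G y = qf H y + 2 * y p * y w := by
  have key : ∀ u v, (if G.Adj u v then y u * y v else 0) =
      (if H.Adj u v then y u * y v else 0) + (if u = p ∧ v = w then y p * y w else 0) +
        (if u = w ∧ v = p then y p * y w else 0) := by
    intro u v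
    have hH' : ¬ H.Adj w p := fun hh => hH hh.symm
    by_cases h1 : u = p ∧ v = w
    · obtain ⟨rfl, rfl⟩ := h1
      have hg : G.Adj u v := (h u v).2 (Or.inr (Or.inl ⟨rfl, rfl⟩))
      simp [hg, hH, hpw]
    · by_cases h2 : u = w ∧ v = p
      · obtain ⟨rfl, rfl⟩ := h2
        have hg : G.Adj u v := (h u v).2 (Or.inr (Or.inr ⟨rfl, rfl⟩))
        simp [hg, hH', hpw.symm, mul_comm]
      · have hi : G.Adj u v ↔ H.Adj u v := by
          rw [h]; tauto
        simp only [hi, if_neg h1, if_neg h2, add_zero]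
  rw [qf_eq, qf_eq]
  simp only [key, sum_add_distrib, pt_Ed]
  ring

theorem del_Ed {V : Type} [Fintype V] (G H : SimpleGraph V) (w : V)
    (h : ∀ u v, H.Adj u v ↔ G.Adj u v ∧ u ≠ w ∧ v ≠ w) (y : V → ℝ) :
    qf H y = qf G y - 2 * y w * ns G y w := by
  have key : ∀ u v, (if G.Adj u v then y u * y v else 0) =
      (if H.Adj u v then y u * y v else 0) +
        (if u = w then (if G.Adj w v then y w * y v else 0) else 0) +
        (if v = w then (if G.Adj w u then y w * y u else 0) else 0) := by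
    intro u v
    by_cases h1 : u = w
    · subst h1
      have hh : ¬ H.Adj u v := fun hh => ((h u v).1 hh).2.1 rfl
      by_cases h2 : v = u
      · subst h2; simp
      · simp [hh, h2]
    · by_cases h2 : v = w
      · subst h2
        have hh : ¬ H.Adj u v := fun hh => ((h u v).1 hh).2.2 rfl
        simp only [if_neg hh, if_neg h1, if_true, G.adj_comm v u, mul_comm (y v), zero_add]
      · have hi : H.Adj u v ↔ G.Adj u v := by
          rw [h]; tauto
        simp only [hi, if_neg h1, if_neg h2, add_zero]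
  have e1 : (∑ u, ∑ v, if u = w then (if G.Adj w v then y w * y v else 0) else 0) =
      y w * ns G y w := by
    rw [sum_eq_single w]
    · unfold ns
      rw [mul_sum]
      refine sum_congr rfl fun v _ => ?_
      by_cases hv : G.Adj w v <;> simp [hv]
    · intro b _ hb; simp [hb]
    · simp
  have e2 : (∑ u, ∑ v, if v = w then (if G.Adj w u then y w * y u else 0) else 0) =
      y w * ns G y w := by
    rw [sum_comm]; exact e1
  have e3 : qf G y = ∑ u, ∑ v, ((if H.Adj u v then y u * y v else 0) +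
        (if u = w then (if G.Adj w v then y w * y v else 0) else 0) +
        (if v = w then (if G.Adj w u then y w * y u else 0) else 0)) := by
    rw [qf_eq G]
    exact sum_congr rfl fun u _ => sum_congr rfl fun v _ => key u v
  rw [e3, qf_eq H]
  simp only [sum_add_distrib]
  rw [e1, e2]
  ring

theorem upd_Ed {V : Type} [Fintype V] (H : SimpleGraph V) (w : V)
    (h : ∀ u v, H.Adj u v → u ≠ w ∧ v ≠ w) (y : V → ℝ) :
    qf H (Function.update y w 0) = qf H y := by
  rw [qf_eq, qf_eq]
  refine sum_congr rfl fun u _ => sum_congr rfl fun v _ => ?_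
  by_cases hh : H.Adj u v
  · rw [if_pos hh, if_pos hh, Function.update_of_ne (h u v hh).1,
      Function.update_of_ne (h u v hh).2]
  · rw [if_neg hh, if_neg hh]

theorem opS : OpS := by
  intro V _ G
  refine ⟨fun H p w hpw hH h => ⟨add_Ed G H p w hpw hH h, ?_⟩, fun H w h => ⟨fun y => ?_, ?_⟩,
    fun y w => ?_⟩
  · have h1 := add_Ed G H p w hpw hH h (fun _ => 1)
    have h2 := ed_qf_Ed G
    have h3 := ed_qf_Ed H
    linarith
  · rw [upd_Ed H w (fun u v hh => ((h u v).1 hh).2) y]
    exact del_Ed G H w h y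
  · have h1 := del_Ed G H w h (fun _ => 1)
    have h2 := ed_qf_Ed G
    have h3 := ed_qf_Ed H
    unfold dg
    linarith
  · unfold nn
    have key : ∀ u, y u ^ 2 = Function.update y w 0 u ^ 2 + (if u = w then y w ^ 2 else 0) := by
      intro u
      by_cases hu : u = w
      · subst hu; simp
      · simp [hu]
    have e : (∑ u, y u ^ 2) =
        ∑ u, (Function.update y w 0 u ^ 2 + (if u = w then y w ^ 2 else 0)) :=
      sum_congr rfl fun u _ => key u
    rw [e, sum_add_distrib, sum_ite_eq']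
    simp

end WQ
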