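import Pool.Agent.MP_1392dc_co.QSt

/-! The core: a subgraph maximising the potential, with its Perron vector. -/

namespace WQ

open W5 Finset
open scoped Classical

theorem scale_Core {V : Type} [Fintype V] {H : SimpleGraph V} {l K : ℝ} {y : V → ℝ}
    (hy : Per H l y) (h1 : 1 ≤ l) (hK : K ≤ 2 * l) :
    ∃ x : V → ℝ, (∀ u, 0 ≤ x u) ∧ (∀ u, ns H x u = l * x u) ∧ nn x = 2 * l - K ∧
      qf H x = l * (2 * l - K) := by
  have p1 : 0 < 2 * l - 1 := by linarith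
  have p2 : 0 ≤ (2 * l - K) / (2 * l - 1) := div_nonneg (by linarith) p1.le
  refine ⟨fun v => √((2 * l - K) / (2 * l - 1)) * y v,
    fun u => mul_nonneg (Real.sqrt_nonneg _) (hy.pos u), fun u => ?_, ?_, ?_⟩
  · rw [ns_smul_Per, hy.eig]; ring
  · rw [nn_smul_Per, Real.sq_sqrt p2, hy.nrm, div_mul_cancel₀ _ p1.ne']
  · rw [qf_smul_Per, Real.sq_sqrt p2, hy.qf_val, mul_comm l, ← mul_assoc,
      div_mul_cancel₀ _ p1.ne', mul_comm]

theorem coreS : CoreS := by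
  intro V _ k G hk hK hm hl
  have kR : (3 : ℝ) ≤ k := by exact_mod_cast hk
  obtain ⟨H, hHG, hmax⟩ := Set.exists_max_image {H : SimpleGraph V | H ≤ G}
    (fun H => lam H ^ 2 - ((k : ℝ) - 1) * lam H - (1 - eps) * ed H) (Set.toFinite _)
    ⟨G, le_refl G⟩
  have hHG' : H ≤ G := hHG
  have e0 : eps = 1 / 20480000 := rfl
  have h1 := hmax G (le_refl G)
  have h2 : 0 ≤ ed H := ed_nonneg H
  have h3 := (perS V H).1
  have h4 : ed H ≤ ed G := by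
    obtain ⟨ν, hν⟩ := ((edS V G).2 H hHG').1
    have := Nat.cast_nonneg (α := ℝ) ν
    linarith
  have hbig : 10 ^ 20 * (k : ℝ) ≤ lam H := by
    refine abs_le_of_sq_le_sq' ?_ h3 |>.2
    rw [e0] at h1
    have a1 : (10 ^ 20 * (k : ℝ)) ^ 2 = 10 ^ 40 * (k : ℝ) ^ 2 := by ring
    have a2 : 0 ≤ ((k : ℝ) - 1) * lam H := mul_nonneg (by linarith) h3
    have a3 : (k : ℝ) * ((k : ℝ) - 1) ≤ (k : ℝ) ^ 2 := by nlinarith
    have a4 : 0 ≤ (k : ℝ) ^ 2 := sq_nonneg _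
    rw [a1]
    linarith
  have l1 : 1 ≤ lam H := by linarith
  obtain ⟨y, hy⟩ := (perS V H).2.2 l1
  obtain ⟨x, x0, xe, q2, q1⟩ := scale_Core (K := (k : ℝ) - 1) hy l1 (by linarith)
  have key : ∀ H' : SimpleGraph V, H' ≤ G → ∀ y, qf H' y - (nn y + ((k : ℝ) - 1)) ^ 2 / 4 ≤
      lam H ^ 2 - ((k : ℝ) - 1) * lam H - (1 - eps) * (ed H - ed H') := by
    intro H' hH' y
    have a0 := (perS V H').2.1 y
    have a1 : qf H' y - (nn y + ((k : ℝ) - 1)) ^ 2 / 4 ≤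
        lam H' ^ 2 - ((k : ℝ) - 1) * lam H' := by
      nlinarith [sq_nonneg ((nn y + ((k : ℝ) - 1)) / 2 - lam H')]
    have a2 := hmax H' hH'
    linarith
  refine ⟨H, lam H, x, hHG', ⟨hk, x0, xe, q2, fun n hn hc => hK n hn (hc.mono_right hHG'), hbig,
    fun u v huv => ?_, fun u => ?_, ?_⟩, by linarith⟩
  · obtain ⟨H', hH'⟩ : ∃ H' : SimpleGraph V, ∀ a b, H'.Adj a b ↔
        H.Adj a b ∧ ¬ (a = u ∧ b = v) ∧ ¬ (a = v ∧ b = u) :=
      ⟨⟨fun a b => H.Adj a b ∧ ¬ (a = u ∧ b = v) ∧ ¬ (a = v ∧ b = u),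
        ⟨fun a b h => ⟨h.1.symm, fun g => h.2.2 ⟨g.2, g.1⟩, fun g => h.2.1 ⟨g.2, g.1⟩⟩⟩,
        ⟨fun a h => h.1.ne rfl⟩⟩, fun _ _ => Iff.rfl⟩
    obtain ⟨a1, a2⟩ := (opS V H).1 H' u v huv.ne (fun h => ((hH' u v).1 h).2.1 ⟨rfl, rfl⟩) (by
      intro a b
      rw [hH']
      constructor
      · tauto
      · rintro (h | ⟨rfl, rfl⟩ | ⟨rfl, rfl⟩)
        · exact h.1
        · exact huv
        · exact huv.symm)
    have a3 := key H' (fun a b h => hHG' ((hH' a b).1 h).1) x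
    have a4 := a1 x
    rw [q2, a2] at a3
    nlinarith
  · obtain ⟨H', hH'⟩ : ∃ H' : SimpleGraph V, ∀ a b, H'.Adj a b ↔ H.Adj a b ∧ a ≠ u ∧ b ≠ u :=
      ⟨⟨fun a b => H.Adj a b ∧ a ≠ u ∧ b ≠ u, ⟨fun a b h => ⟨h.1.symm, h.2.2, h.2.1⟩⟩,
        ⟨fun a h => h.1.ne rfl⟩⟩, fun _ _ => Iff.rfl⟩
    obtain ⟨a1, a2⟩ := (opS V H).2.1 H' u hH'
    have a3 := key H' (fun a b h => hHG' ((hH' a b).1 h).1) (Function.update x u 0)
    rw [a1, (opS V H).2.2, q1, q2, a2, xe] at a3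
    nlinarith
  · have := mul_nonneg (show 0 ≤ eps by rw [e0]; norm_num) (sub_nonneg.2 h4)
    linarith

end WQ
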