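import Pool.Agent.MP_1392dc_co.QSt

/-! A vertex has fewer than `k` neighbours in a set whose pairs have many common neighbours. -/

namespace WQ

open W5 Finset
open scoped Classical

theorem pick_Cy2 {V : Type} (S : Finset V) (k : ℕ) (hk : 0 < k) (h : k ≤ S.card) :
    ∃ u : ℕ → V, (∀ i, u i ∈ S) ∧ ∀ i < k, ∀ j < k, u i = u j → i = j := by
  have h0 : 0 < S.card := by omega
  refine ⟨fun i => (S.equivFin.symm ⟨i % S.card, Nat.mod_lt _ h0⟩ : S), fun i => Subtype.prop _,
    fun i hi j hj e => ?_⟩
  have e1 := congrArg Fin.val (S.equivFin.symm.injective (Subtype.ext e))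
  simp only at e1
  rwa [Nat.mod_eq_of_lt (by omega), Nat.mod_eq_of_lt (by omega)] at e1

theorem greedy_Cy2 {V : Type} (k : ℕ) (C : ℕ → Finset V) (u : ℕ → V)
    (h : ∀ t, 2 * k ≤ (C t).card) : ∀ i ≤ k, ∃ b : ℕ → V,
      (∀ s < i, ∀ t < i, b s = b t → s = t) ∧ ∀ t < i, b t ∈ C t ∧ ∀ s < k, b t ≠ u s := by
  intro i
  induction i with
  | zero => exact fun _ => ⟨u, fun s hs => by omega, fun s hs => by omega⟩
  | succ i ih =>
    intro hi
    obtain ⟨b, hb, hb'⟩ := ih (by omega)
    have h1 : ((range k).image u ∪ (range i).image b).card < (C i).card := by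
      have a1 := card_union_le ((range k).image u) ((range i).image b)
      have a2 := card_image_le (s := range k) (f := u)
      have a3 := card_image_le (s := range i) (f := b)
      have a4 := h i
      rw [card_range] at a2 a3
      omega
    obtain ⟨v, hv, hv'⟩ := exists_mem_notMem_of_card_lt_card h1
    rw [mem_union, not_or] at hv'
    have n1 : ∀ s < k, v ≠ u s := fun s hs e =>
      hv'.1 (mem_image.2 ⟨s, mem_range.2 hs, e.symm⟩)
    have n2 : ∀ s < i, b s ≠ v := fun s hs e => hv'.2 (mem_image.2 ⟨s, mem_range.2 hs, e⟩)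
    refine ⟨fun t => if t = i then v else b t, fun s hs t ht e => ?_, fun t ht => ?_⟩
    · by_cases c1 : s = i <;> by_cases c2 : t = i
      · omega
      · simp only [c1, c2, if_true, if_false] at e
        exact absurd e.symm (n2 t (by omega))
      · simp only [c1, c2, if_true, if_false] at e
        exact absurd e (n2 s (by omega))
      · simp only [c1, c2, if_false] at e
        exact hb s (by omega) t (by omega) e
    · by_cases c : t = i
      · simp only [c, if_true]
        exact ⟨hv, n1⟩
      · simp only [c, if_false]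
        exact hb' t (by omega)

theorem cy2S (hW : WheelS) : Cy2S := by
  intro V _ k H hk hF w P h
  by_contra hc
  rw [not_le, ct_eq] at hc
  have h1 : k ≤ (univ.filter fun v => H.Adj w v ∧ P v).card := by
    have hc' : (k : ℝ) - 1 < ((univ.filter fun v => H.Adj w v ∧ P v).card : ℕ) := by
      refine lt_of_lt_of_eq hc ?_
      congr
    have : (k : ℝ) < ((univ.filter fun v => H.Adj w v ∧ P v).card + 1 : ℕ) := by
      push_cast
      linarith
    have := Nat.cast_lt.1 this
    omega
  obtain ⟨u, hu, hi⟩ := pick_Cy2 _ k (by omega) h1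
  simp only [mem_filter, mem_univ, true_and] at hu
  obtain ⟨b, hb, hb'⟩ := greedy_Cy2 k
    (fun t => univ.filter fun v => H.Adj w v ∧ H.Adj (u t) v ∧ H.Adj (u ((t + 1) % k)) v) u
    (fun t => by
      have := h (u t) (u ((t + 1) % k)) (hu _).1 (hu _).1 (hu _).2 (hu _).2
      rw [ct_eq] at this
      have h2 : ((2 * k : ℕ) : ℝ) ≤ ((univ.filter fun v =>
          H.Adj w v ∧ H.Adj (u t) v ∧ H.Adj (u ((t + 1) % k)) v).card : ℕ) := by
        push_cast
        convert this
      exact Nat.cast_le.1 h2) k le_rfl
  simp only [mem_filter, mem_univ, true_and] at hb'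
  refine hF (2 * k) le_rfl (hW V H w (fun n => if n % 2 = 0 then u (n / 2) else b (n / 2)) (2 * k)
    (by omega) (fun i hi' j hj e => ?_) (fun i hi' => ?_) ?_ fun i hi' => ?_)
  · by_cases c1 : i % 2 = 0 <;> by_cases c2 : j % 2 = 0 <;>
      simp only [c1, c2, if_true, if_false] at e
    · have := hi _ (by omega) _ (by omega) e
      omega
    · exact absurd e.symm ((hb' _ (by omega)).2 _ (by omega))
    · exact absurd e ((hb' _ (by omega)).2 _ (by omega))
    · have := hb _ (by omega) _ (by omega) e
      omega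
  · by_cases c : i % 2 = 0
    · rw [if_pos c, if_neg (by omega), show (i + 1) / 2 = i / 2 by omega]
      exact (hb' _ (by omega)).1.2.1
    · rw [if_neg c, if_pos (by omega), show (i + 1) / 2 = (i / 2 + 1) % k by
        rw [Nat.mod_eq_of_lt (by omega)]; omega]
      exact (hb' _ (by omega)).1.2.2.symm
  · rw [if_neg (by omega), if_pos (by omega), show 0 / 2 = ((2 * k - 1) / 2 + 1) % k by
      rw [show (2 * k - 1) / 2 + 1 = k by omega, Nat.mod_self]]
    exact (hb' _ (by omega)).1.2.2.symm
  · by_cases c : i % 2 = 0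
    · rw [if_pos c]
      exact (hu _).1
    · rw [if_neg c]
      exact (hb' _ (by omega)).1.1

end WQ
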