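import Pool.Agent.MP_1392dc_co.QSt

namespace WQ

open W5 Finset
open scoped Classical

theorem sub_Deg (hM : MinS) (V : Type) [Fintype V] (k : ℕ) (H : SimpleGraph V) (hk : 2 ≤ k)
    (hF : Free k H) (w : V) (f : V → ℝ) (hf : ∀ v, 0 ≤ f v) (S : Finset V) :
    (∀ v ∈ S, H.Adj w v) →
      (∑ p ∈ S, ∑ q ∈ S, if H.Adj p q then min (f p) (f q) else 0) ≤ 4 * k * ∑ p ∈ S, f p := by
  induction S using Finset.strongInduction with
  | H S ih =>
    intro hS
    rcases S.eq_empty_or_nonempty with rfl | hne
    · simp
    obtain ⟨q, hq, hc⟩ := hM V k H hk hF w S hne hS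
    have h1 := ih (S.erase q) (erase_ssubset hq) fun v hv => hS v (mem_of_mem_erase hv)
    have h2 : (∑ p ∈ S, if H.Adj q p then f q else 0) ≤ 2 * k * f q := by
      rw [← sum_filter, sum_const, nsmul_eq_mul]
      exact mul_le_mul_of_nonneg_right (by exact_mod_cast hc) (hf q)
    have h3 : (∑ p ∈ S, if H.Adj q p then min (f q) (f p) else 0) ≤
        ∑ p ∈ S, if H.Adj q p then f q else 0 :=
      sum_le_sum fun p _ => by
        split_ifs
        · exact min_le_left _ _
        · exact le_rfl
    have h4 : (∑ p ∈ S.erase q, if H.Adj p q then min (f p) (f q) else 0) ≤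
        ∑ p ∈ S, if H.Adj q p then f q else 0 := by
      refine (sum_le_sum fun p _ => ?_).trans
        (sum_le_sum_of_subset_of_nonneg (erase_subset q S) fun p _ _ => ?_)
      · by_cases h : H.Adj p q
        · rw [if_pos h, if_pos h.symm]
          exact min_le_right _ _
        · rw [if_neg h, if_neg fun h' => h h'.symm]
      · split_ifs
        · exact hf q
        · exact le_rfl
    have h5 : (∑ p ∈ S.erase q, ∑ r ∈ S, if H.Adj p r then min (f p) (f r) else 0) =
        (∑ p ∈ S.erase q, if H.Adj p q then min (f p) (f q) else 0) +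
          ∑ p ∈ S.erase q, ∑ r ∈ S.erase q, if H.Adj p r then min (f p) (f r) else 0 := by
      rw [← sum_add_distrib]
      exact sum_congr rfl fun p _ => (add_sum_erase S _ hq).symm
    rw [← add_sum_erase S _ hq, ← add_sum_erase S f hq, h5]
    linarith

theorem degS (hM : MinS) : DegS := by
  intro V _ k H hk hF w f hf
  have h := sub_Deg hM V k H hk hF w f hf (univ.filter (H.Adj w)) fun v hv => (mem_filter.1 hv).2
  rw [ns, ← sum_filter]
  refine le_trans (le_of_eq ?_) h
  rw [sum_filter]
  refine sum_congr rfl fun p _ => ?_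
  by_cases hp : H.Adj w p
  · rw [if_pos hp, sum_filter]
    refine sum_congr rfl fun q _ => ?_
    by_cases hq : H.Adj w q <;> simp [hp, hq]
  · simp [hp]

end WQ
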