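import Pool.Agent.MP_1392dc_co.QSt

namespace WQ

open W5 Finset
open scoped Classical

theorem h1S (hD : DegS) : H1S := by
  intro V _ k H l x u0 hc hm
  obtain ⟨u, hu⟩ := hc.exNI
  have h0 : 0 < x u0 := (hc.xpos hu).trans_le (hm u)
  have e1 : l ^ 2 * x u0 = ∑ p, ∑ q, if H.Adj p q ∧ H.Adj u0 p then x q else 0 := by
    rw [show l ^ 2 * x u0 = l * (l * x u0) by ring, ← hc.eig u0, ns, mul_sum]
    refine sum_congr rfl fun p _ => ?_
    by_cases h : H.Adj u0 p
    · simp only [h, if_true, and_true, ← hc.eig p, ns]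
    · simp [h]
  have e2 : l ^ 2 * x u0 = ∑ p, ∑ q, if H.Adj p q ∧ H.Adj u0 q then x p else 0 := by
    rw [e1, sum_comm]
    simp only [H.adj_comm]
  have e3 : ∀ p q, (if H.Adj p q ∧ H.Adj u0 p then x q else 0) +
      (if H.Adj p q ∧ H.Adj u0 q then x p else 0) +
      0.9 * x u0 * (if (sg H (hs x u0) false).Adj p q then 1 else 0) ≤
      x u0 * (if H.Adj p q then 1 else 0) +
      (if H.Adj u0 p ∧ H.Adj u0 q ∧ H.Adj p q then min (x p) (x q) else 0) := fun p q => by
    have h1 := hm p
    have h2 := hm q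
    by_cases h : H.Adj p q
    · by_cases h3 : (sg H (hs x u0) false).Adj p q
      · have h4 : 10 * x p < x u0 := by simpa [hs] using h3.2.1
        have h5 : 10 * x q < x u0 := by simpa [hs] using h3.2.2
        by_cases h6 : H.Adj u0 p <;> by_cases h7 : H.Adj u0 q <;>
          simp only [h, h3, h6, h7, if_true, if_false, and_true, and_false,
            min_def] <;> (try split_ifs) <;> linarith
      · by_cases h6 : H.Adj u0 p <;> by_cases h7 : H.Adj u0 q <;>
          simp only [h, h3, h6, h7, if_true, if_false, and_true, and_false,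
            min_def] <;> (try split_ifs) <;> linarith
    · have h3 : ¬ (sg H (hs x u0) false).Adj p q := fun g => h g.1
      simp [h, h3]
  have e4 := sum_le_sum fun p (_ : p ∈ univ) => sum_le_sum fun q (_ : q ∈ univ) => e3 p q
  simp only [sum_add_distrib, ← mul_sum] at e4
  rw [← e1, ← e2, ← two_ed, ← two_ed] at e4
  have e5 := hD V k H (by have := hc.k3; omega) hc.free u0 x hc.pos
  rw [hc.eig] at e5
  have e6 := mul_le_mul_of_nonneg_left hc.ed_le h0.le
  have e7 : 0 ≤ k * l * x u0 := by have := hc.l0; positivity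
  refine le_of_mul_le_mul_left ?_ h0
  nlinarith

end WQ
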