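import Pool.Agent.MP_1392dc_co.QSt

/-! Heavy case, step 2: few large entries, and both sides have weight about `l`. -/

namespace WQ

open W5 Finset
open scoped Classical

theorem qf_nonneg_H2 {V : Type} [Fintype V] (G : SimpleGraph V) (x : V → ℝ) (hx : ∀ u, 0 ≤ x u) :
    0 ≤ qf G x := by
  rw [qf_eq]
  refine sum_nonneg fun u _ => sum_nonneg fun v _ => ?_
  split_ifs
  · exact mul_nonneg (hx u) (hx v)
  · exact le_rfl

theorem ari_H2 (l W W' Q Q' M : ℝ) (hl : 0 < l)
    (hs : W + W' ≤ 2 * l) (hQ' : 0 ≤ Q') (h1 : Q ≤ l / 10 ^ 4 * W)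
    (e1 : l * W = Q + M) (e2 : l * W' = Q' + M) : W ≤ 1.001 * l := by
  have h2 : l * (W - W') ≤ l * (W / 10 ^ 4) := by
    have : l * (W - W') = Q - Q' := by rw [mul_sub, e1, e2]; ring
    rw [this]
    have : l * (W / 10 ^ 4) = l / 10 ^ 4 * W := by ring
    linarith
  have h3 : W - W' ≤ W / 10 ^ 4 := le_of_mul_le_mul_left h2 hl
  linarith

theorem h2S (hP : PartS) (hS : StanS) (h1 : H1S) : H2S := by
  intro V _ k H l x u0 hc hmax hheavy
  have hl := hc.l0
  have hk := hc.kR
  have hbig := hc.big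
  have hx0 := hc.pos u0
  obtain ⟨p1, -, -, -, -, -, p7⟩ := hP V H (hs x u0) x
  have hWT : 0 ≤ sw x (hs x u0) true := wt_nonneg _ _
  have hWF : 0 ≤ sw x (hs x u0) false := wt_nonneg _ _
  have hsum : sw x (hs x u0) true + sw x (hs x u0) false ≤ 2 * l := by
    rw [sw_add]; exact hc.nn_le
  have hK0 := ct_nonneg (fun v => hs x u0 v = true)
  have hK1 : (x u0 / 10) ^ 2 * ct (fun v => hs x u0 v = true) ≤ sw x (hs x u0) true := by
    refine ct_le_wt x _ _ fun v hv => ?_
    have hv' : x u0 ≤ 10 * x v := by simpa [hs] using hv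
    exact pow_le_pow_left₀ (by linarith) (by linarith) 2
  have hK : ct (fun v => hs x u0 v = true) ≤ l / 10 ^ 11 := by
    set K := ct (fun v => hs x u0 v = true) with hKd
    have a1 : K * x u0 ^ 2 ≤ 200 * l := by nlinarith
    have a2 : K * (kap * l) ≤ K * (k * x u0 ^ 2) := mul_le_mul_of_nonneg_left hheavy hK0
    have a3 : (k : ℝ) * (K * x u0 ^ 2) ≤ k * (200 * l) :=
      mul_le_mul_of_nonneg_left a1 (by linarith)
    have a4 : (K * kap) * l ≤ (200 * k) * l := by nlinarith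
    have a5 : K * kap ≤ 200 * k := le_of_mul_le_mul_right a4 hl
    unfold kap at a5
    linarith
  have hQT := qf_nonneg_H2 (sg H (hs x u0) true) x hc.pos
  have hQF := qf_nonneg_H2 (sg H (hs x u0) false) x hc.pos
  have eT := p1 l hc.eig true
  have eF := p1 l hc.eig false
  have bT : qf (sg H (hs x u0) true) x ≤ l / 10 ^ 4 * sw x (hs x u0) true := by
    refine p7 true (l / 10 ^ 4) fun u _ => ?_
    rw [dg_eq_ct]
    have : ct ((sg H (hs x u0) true).Adj u) ≤ ct (fun v => hs x u0 v = true) :=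
      ct_mono fun v hv => hv.2.2
    linarith
  have bF : qf (sg H (hs x u0) false) x ≤ l / 10 ^ 4 * sw x (hs x u0) false := by
    have s1 := hS V H (hs x u0) x false
    have s2 := h1 V k H l x u0 hc hmax
    set Q := qf (sg H (hs x u0) false) x
    set W := sw x (hs x u0) false
    set e := ed (sg H (hs x u0) false)
    have s3 : 0 ≤ Q * W := mul_nonneg hQF hWF
    have s4 : 2 * e ≤ (l / 10 ^ 4) ^ 2 := by
      have : (6 * (k : ℝ)) * l ≤ (l / 10 ^ 8) * l :=
        mul_le_mul_of_nonneg_right (by linarith) hl.le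
      nlinarith
    have s5 : 2 * e * W ^ 2 ≤ (l / 10 ^ 4) ^ 2 * W ^ 2 :=
      mul_le_mul_of_nonneg_right s4 (sq_nonneg W)
    refine abs_le_of_sq_le_sq' ?_ (by positivity) |>.2
    rw [mul_pow]
    linarith
  refine ⟨hK, fun c => ?_⟩
  cases c
  · exact ari_H2 l _ _ _ _ _ hl (by linarith) hQT bF eF eT
  · exact ari_H2 l _ _ _ _ _ hl hsum hQF bT eT eF

end WQ
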