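import Pool.Agent.MP_1392dc_co.QSt

namespace WQ

open W5 Finset
open scoped Classical

section
variable {V : Type} [Fintype V]

noncomputable def sm_H3 (x : V → ℝ) (S : V → Prop) : ℝ := ∑ v, if S v then x v else 0

theorem or_H3 {x : V → ℝ} (hx : ∀ v, 0 ≤ x v) (A T P : V → Prop) (h : ∀ w, A w → T w ∨ P w) :
    sm_H3 x A ≤ sm_H3 x T + sm_H3 x P := by
  unfold sm_H3
  rw [← sum_add_distrib]
  refine sum_le_sum fun w _ => ?_
  have := hx w
  have := h w
  by_cases a : A w <;> by_cases t : T w <;> by_cases p : P w <;> simp_all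

theorem ct_H3 {x : V → ℝ} (T : V → Prop) (c : ℝ) (h : ∀ w, x w ≤ c) : sm_H3 x T ≤ c * ct T := by
  unfold sm_H3 ct
  rw [mul_sum]
  refine sum_le_sum fun w _ => ?_
  split_ifs
  · simpa using h w
  · simp

theorem sq_H3 (x : V → ℝ) (S : V → Prop) : sm_H3 x S ^ 2 ≤ ct S * wt x S := sum_sq_le x S

theorem one_H3 (x : V → ℝ) (S : V → Prop) (u : V) (h : S u) : x u ^ 2 ≤ wt x S := by
  have := single_le_sum (f := fun w => if S w then x w ^ 2 else 0)
    (fun w _ => by split_ifs <;> positivity) (mem_univ u)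
  rwa [if_pos h] at this

theorem dg_H3 {d l y c e : ℝ} (hd : 0 ≤ d) (hl : 0 ≤ l)
    (h : (1 - eps) * d ≤ l * y ^ 2 + y ^ 4 / 4) (hy : y ^ 2 ≤ c * l)
    (he : 1 + c / 4 ≤ 0.99999 * e) : d ≤ e * (l * y ^ 2) := by
  unfold eps at h
  have h1 : y ^ 4 ≤ c * (l * y ^ 2) := by nlinarith [mul_le_mul_of_nonneg_right hy (sq_nonneg y)]
  have h2 : 0 ≤ l * y ^ 2 := by positivity
  nlinarith [mul_le_mul_of_nonneg_right he h2]

end

theorem h3S : H3S := by
  intro V _ k H l x u0 hc hmax h0 hK hW v hv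
  have l0 := hc.l0
  have y0 := hc.pos v
  have hy : 10 * x v < x u0 := by simpa [hs] using hv
  have hT : x u0 ^ 2 ≤ 1.001 * l := by
    refine le_trans (one_H3 x (fun w => hs x u0 w = true) u0 ?_) (hW true)
    simp only [hs, decide_eq_true_eq]
    linarith
  have d0 := dg_H3 (e := 1.2504) (dg_nonneg H u0) l0.le (hc.hv u0) hT (by norm_num)
  have d1 := dg_H3 (c := 0.0101) (e := 1.003) (dg_nonneg H v) l0.le (hc.hv v) (by nlinarith)
    (by norm_num)
  have e0 : sm_H3 x (H.Adj u0) = l * x u0 := hc.eig u0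
  have e1 : sm_H3 x (H.Adj v) = l * x v := hc.eig v
  have a1 := or_H3 hc.pos (H.Adj u0) (fun w => hs x u0 w = true)
    (fun w => H.Adj u0 w ∧ hs x u0 w = false) fun w h => by cases hs x u0 w <;> simp [h]
  have a2 := or_H3 hc.pos (fun w => H.Adj u0 w ∧ hs x u0 w = false) (H.Adj v)
    (fun w => H.Adj u0 w ∧ hs x u0 w = false ∧ ¬ H.Adj v w) fun w h => by tauto
  have a3 := ct_H3 (fun w => hs x u0 w = true) (x u0) hmax
  have a4 := sq_H3 x fun w => H.Adj u0 w ∧ hs x u0 w = false ∧ ¬ H.Adj v w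
  have a5 : ct (fun w => H.Adj u0 w ∧ hs x u0 w = false ∧ ¬ H.Adj v w) ≤ dg H u0 :=
    ct_mono fun w h => h.1
  have a6 := wt_mono x (S := fun w => H.Adj u0 w ∧ hs x u0 w = false ∧ ¬ H.Adj v w)
    (T := fun w => hs x u0 w = false ∧ ¬ H.Adj v w) fun w h => h.2
  have a7 : sw x (hs x u0) false = _ := wt_split x (fun w => hs x u0 w = false) (H.Adj v)
  have a8 := mul_le_mul (a5.trans d0) a6 (wt_nonneg _ _) (by positivity)
  have a9 := mul_le_mul_of_nonneg_left hK h0.le
  have p0 : 0 < l * x u0 := mul_pos l0 h0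
  have b1 : 0.8999 * (l * x u0) ≤
      sm_H3 x fun w => H.Adj u0 w ∧ hs x u0 w = false ∧ ¬ H.Adj v w := by
    nlinarith [mul_le_mul_of_nonneg_left hy.le l0.le]
  have b2 := (pow_le_pow_left₀ (by positivity) b1 2).trans (a4.trans a8)
  have b3 : 0.647 * l ≤ wt x fun w => hs x u0 w = false ∧ ¬ H.Adj v w := by
    by_contra n
    have p1 : 0 < l * x u0 ^ 2 := by positivity
    have := mul_lt_mul_of_pos_left (not_le.1 n) p1
    nlinarith [mul_pos l0 p1]
  have b4 : (wt x fun w => hs x u0 w = false ∧ H.Adj v w) ≤ 0.36 * l := by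
    linarith [hW false]
  have c1 := or_H3 hc.pos (H.Adj v) (fun w => hs x u0 w = true)
    (fun w => hs x u0 w = false ∧ H.Adj v w) fun w h => by cases hs x u0 w <;> simp [h]
  have c2 : sm_H3 x (fun w => hs x u0 w = true) ≤ 3.2 / 10 ^ 6 * l := by
    refine le_of_sq_le_sq ((sq_H3 x _).trans ?_) (by positivity)
    refine (mul_le_mul hK (hW true) (wt_nonneg _ _) (by positivity)).trans ?_
    nlinarith [mul_pos l0 l0]
  have c3 : sm_H3 x (fun w => hs x u0 w = false ∧ H.Adj v w) ≤ 0.61 * (l * x v) := by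
    refine le_of_sq_le_sq ((sq_H3 x _).trans ?_) (by positivity)
    have c4 : ct (fun w => hs x u0 w = false ∧ H.Adj v w) ≤ dg H v := ct_mono fun w h => h.2
    refine (mul_le_mul (c4.trans d1) b4 (wt_nonneg _ _) (by positivity)).trans ?_
    nlinarith [sq_nonneg (l * x v)]
  by_contra n
  nlinarith [mul_lt_mul_of_pos_left (not_le.1 n) l0]

end WQ
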