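import Pool.Agent.MP_1392dc_co.QSt

/-! The heavy case: the split into large and small entries has bounded inner degrees. -/

namespace WQ

open W5 Finset
open scoped Classical

section
variable {V : Type} [Fintype V] {k : ℕ} {H : SimpleGraph V} {l : ℝ} {x : V → ℝ}

theorem sq_le_wt_H4 (x : V → ℝ) (S : V → Prop) {v : V} (hv : S v) : x v ^ 2 ≤ wt x S := by
  unfold wt
  have h := single_le_sum (f := fun p => if S p then x p ^ 2 else 0) (s := univ)
    (fun p _ => by split_ifs <;> positivity) (mem_univ v)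
  simpa [hv] using h

theorem ns_le_H4 (H : SimpleGraph V) (x : V → ℝ) (σ : V → Bool) (v : V) (c : ℝ) (hc : 0 ≤ c)
    (hx : ∀ p, x p ≤ c) :
    ns H x v ≤ c * ct (fun p => σ p = true) +
      ∑ p, if (σ p = false ∧ H.Adj v p) then x p else 0 := by
  unfold ns ct
  rw [mul_sum, ← sum_add_distrib]
  refine sum_le_sum fun p _ => ?_
  have := hx p
  by_cases ha : H.Adj v p <;> by_cases hp : σ p = true <;> simp [ha, hp, hc, this]

theorem see_H4 (hc : Core k H l x) (u0 : V) (hmax : ∀ v, x v ≤ x u0) (h0 : 0 < x u0)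
    (hct : ct (fun v => hs x u0 v = true) ≤ l / 10 ^ 11)
    (hsw : sw x (hs x u0) true ≤ 1.001 * l) {v : V} (hv : hs x u0 v = true) :
    0.799 * l ≤ wt x (fun p => hs x u0 p = false ∧ H.Adj v p) := by
  have hl := hc.l0
  have h1 : x u0 ≤ 10 * x v := by simpa [hs] using hv
  have hx : 0 < x v := by linarith
  have h2 : x v ^ 2 ≤ 1.001 * l := (sq_le_wt_H4 x (fun p => hs x u0 p = true) hv).trans hsw
  have hx2 : 0 < x v ^ 2 := by positivity
  have h3 : dg H v ≤ 1.2504 * (l * x v ^ 2) := by
    have h := hc.hv v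
    have hd := dg_nonneg H v
    have e : x v ^ 4 = x v ^ 2 * x v ^ 2 := by ring
    have h4 : x v ^ 2 * x v ^ 2 ≤ 1.001 * l * x v ^ 2 := mul_le_mul_of_nonneg_right h2 hx2.le
    have h5 : 0 < l * x v ^ 2 := by positivity
    unfold eps at h
    rw [e] at h
    nlinarith
  have h4 := ns_le_H4 H x (hs x u0) v (x u0) h0.le hmax
  rw [hc.eig v] at h4
  have h5 : (∑ p, if (hs x u0 p = false ∧ H.Adj v p) then x p else 0) ^ 2 ≤
      ct (fun p => hs x u0 p = false ∧ H.Adj v p) *
        wt x (fun p => hs x u0 p = false ∧ H.Adj v p) := by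
    convert sum_sq_le x (fun p => hs x u0 p = false ∧ H.Adj v p)
  have h6 : ct (fun p => hs x u0 p = false ∧ H.Adj v p) ≤ dg H v := by
    rw [dg_eq_ct]; exact ct_mono fun p hp => hp.2
  have hw := wt_nonneg x (fun p => hs x u0 p = false ∧ H.Adj v p)
  have h7 : x u0 * ct (fun v => hs x u0 v = true) ≤ 10 * x v * (l / 10 ^ 11) :=
    mul_le_mul h1 hct (ct_nonneg _) (by linarith)
  generalize wt x (fun p => hs x u0 p = false ∧ H.Adj v p) = W at *
  generalize (∑ p, if (hs x u0 p = false ∧ H.Adj v p) then x p else 0) = S at *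
  have h8 : 0.9999 * (l * x v) ≤ S := by
    have : 0 < l * x v := by positivity
    nlinarith
  have h9 : (0.9999 * (l * x v)) ^ 2 ≤ S ^ 2 :=
    pow_le_pow_left₀ (by positivity) h8 2
  have h10 : S ^ 2 ≤ 1.2504 * (l * x v ^ 2) * W :=
    h5.trans (mul_le_mul_of_nonneg_right (h6.trans h3) hw)
  have h11 : (0.9999 ^ 2 * l) * (l * x v ^ 2) ≤ (1.2504 * W) * (l * x v ^ 2) := by
    calc (0.9999 ^ 2 * l) * (l * x v ^ 2) = (0.9999 * (l * x v)) ^ 2 := by ring
      _ ≤ 1.2504 * (l * x v ^ 2) * W := h9.trans h10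
      _ = _ := by ring
  have h12 : 0.9999 ^ 2 * l ≤ 1.2504 * W := le_of_mul_le_mul_right h11 (by positivity)
  nlinarith

end

theorem h4S (h2 : Cy2S) : H4S := by
  intro V _ k H l x u0 hc hmax h0 hct hsw hlow
  have hk := hc.kR
  have hno : ∀ u v, ¬ (sg H (hs x u0) false).Adj u v := by
    intro u v huv
    obtain ⟨ha, hu, hv⟩ := huv
    have h1 := hc.he u v ha
    have h3 := hlow u hu
    have h4 := hlow v hv
    have h5 : x u * x v ≤ 1 / 10 ^ 5 * (1 / 10 ^ 5) :=
      mul_le_mul h3 h4 (hc.pos v) (by norm_num)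
    unfold eps at h1
    nlinarith
  have hzero : ∀ c w, (∀ v, ¬ (sg H (hs x u0) c).Adj w v) →
      dg (sg H (hs x u0) c) w ≤ (k : ℝ) - 1 := by
    intro c w h
    have : dg (sg H (hs x u0) c) w = 0 := by
      unfold dg ns
      exact sum_eq_zero fun v _ => by simp [h v]
    rw [this]; linarith
  refine ⟨?_, hno⟩
  intro c w
  cases c with
  | false => exact hzero false w (hno w)
  | true =>
    by_cases hw : hs x u0 w = true
    · have h3 := h2 V k H (le_trans (by norm_num) hc.k3) hc.free w
        (fun v => hs x u0 v = true) ?_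
      · refine le_trans ?_ h3
        rw [dg_eq_ct]
        exact ct_mono fun v hv => ⟨hv.1, hv.2.2⟩
      · intro a b _ _ ha hb
        have sw_ := see_H4 hc u0 hmax h0 hct (hsw true) hw
        have sa := see_H4 hc u0 hmax h0 hct (hsw true) ha
        have sb := see_H4 hc u0 hmax h0 hct (hsw true) hb
        have t := three_miss x (fun v => hs x u0 v = false) (H.Adj w) (H.Adj a) (H.Adj b)
        have ew := wt_split x (fun v => hs x u0 v = false) (H.Adj w)
        have ea := wt_split x (fun v => hs x u0 v = false) (H.Adj a)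
        have eb := wt_split x (fun v => hs x u0 v = false) (H.Adj b)
        have hF : wt x (fun v => hs x u0 v = false) ≤ 1.001 * l := hsw false
        have hle := wt_le_ct x
          (fun v => hs x u0 v = false ∧ H.Adj w v ∧ H.Adj a v ∧ H.Adj b v) (1 / 10 ^ 10)
          (fun v hv => by
            have h5 := hlow v hv.1
            have h6 := hc.pos v
            nlinarith)
        have hm : ct (fun v => hs x u0 v = false ∧ H.Adj w v ∧ H.Adj a v ∧ H.Adj b v) ≤
            ct (fun v => H.Adj w v ∧ H.Adj a v ∧ H.Adj b v) := ct_mono fun v hv => hv.2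
        have hb' := hc.big
        have hl := hc.l0
        linarith
    · exact hzero true w fun v hv => hw hv.2.1

end WQ
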