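import Pool.Agent.MP_1392dc_co.QSt

namespace WQ

open W5 Finset
open scoped Classical

theorem ari_Hfin (K l W W' Q M E e s m : ℝ) (hK : 3 ≤ K) (hl : 10 ^ 20 * K ≤ l) (hW : 0 < W)
    (hQ : Q ≤ (K - 1) * W) (h1 : l * W = Q + M) (h2 : l * W' = M)
    (h3 : M ^ 2 ≤ E * (W * W' - s)) (hs : 0 ≤ s) (hE : 0 ≤ E)
    (h4 : Q ^ 2 + Q * W ≤ 2 * e * W ^ 2) (h5 : m = e + E)
    (h6 : m ≤ l ^ 2 - (K - 1) * l + K * (K - 1) / 2) :
    Q = (K - 1) * W ∧ m = l ^ 2 - (K - 1) * l + K * (K - 1) / 2 ∧ 2 * e = K * (K - 1) ∧ s = 0 := by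
  obtain ⟨A, rfl⟩ : ∃ A, Q = A * W := ⟨Q / W, by field_simp⟩
  have hA : A ≤ K - 1 := le_of_mul_le_mul_right hQ hW
  have hlK : K < l := by linarith
  have hl0 : 0 < l := by linarith
  have hM : M = (l - A) * W := by linarith
  have hM0 : 0 < M := by
    rw [hM]
    exact mul_pos (by linarith) hW
  have hW' : 0 < W' := by
    rw [← h2] at hM0
    exact (mul_pos_iff_of_pos_left hl0).1 hM0
  have hWW := mul_pos hW hW'
  have hM2 : M ^ 2 = (l - A) * l * (W * W') := by
    calc M ^ 2 = M * M := sq M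
      _ = ((l - A) * W) * (l * W') := by rw [← hM, h2]
      _ = _ := by ring
  have hEs := mul_nonneg hE hs
  have g1 : (l - A) * l ≤ E := by
    refine le_of_mul_le_mul_right ?_ hWW
    linarith
  have g2 : A ^ 2 + A ≤ 2 * e := by
    refine le_of_mul_le_mul_right ?_ (pow_pos hW 2)
    linarith
  have g3 : A = K - 1 := by
    by_contra hne
    have h7 : 0 < K - 1 - A := sub_pos.2 (lt_of_le_of_ne hA hne)
    have h8 : (K - 1 - A) * l ≤ (K - 1 - A) * ((K + A) / 2) := by linarith
    have h9 := le_of_mul_le_mul_left h8 h7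
    linarith
  subst g3
  have g4 : E = (l - (K - 1)) * l := by linarith
  have g5 : 0 < E := by
    rw [g4]
    exact mul_pos (by linarith) hl0
  refine ⟨rfl, by linarith, by linarith, ?_⟩
  rw [← g4] at hM2
  have g6 : E * s ≤ E * 0 := by linarith
  exact le_antisymm (le_of_mul_le_mul_left g6 g5) hs

theorem dg_zero_Hfin {V : Type} [Fintype V] (G : SimpleGraph V) (u : V)
    (h : ∀ v, ¬ G.Adj u v) : dg G u = 0 :=
  sum_eq_zero fun v _ => if_neg (h v)

theorem hfinS (hP : PartS) (hS : StanS) : HfinS := by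
  intro V _ k H l x σ hc hpar hF hex hx
  obtain ⟨p1, p2, p3, p4, p5, p6, p7⟩ := hP V H σ x
  have hk := hc.kR
  have hQF : qf (sg H σ false) x = 0 := by
    rw [qf_eq]
    exact sum_eq_zero fun u _ => sum_eq_zero fun v _ => if_neg (hF u v)
  have heF : ed (sg H σ false) = 0 := by
    unfold ed
    rw [sum_eq_zero fun u _ => dg_zero_Hfin _ u (hF u), zero_div]
  have hW : 0 < sw x σ true := by
    obtain ⟨u, hu⟩ := hex
    refine sum_pos' (fun v _ => by split_ifs <;> positivity) ⟨u, mem_univ u, ?_⟩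
    rw [if_pos hu]
    exact pow_pos (hx u hu) 2
  obtain ⟨a1, a2, a3, a4⟩ := ari_Hfin k l (sw x σ true) (sw x σ false) (qf (sg H σ true) x)
    (cr H σ x) (cr H σ fun _ => 1) (ed (sg H σ true)) (ms H σ x) (ed H) hk hc.big hW
    (p7 true _ fun u _ => hpar true u) (p1 l hc.eig true)
    (by rw [p1 l hc.eig false, hQF, zero_add]) p3 p4 p5 (hS V H σ x true)
    (by rw [p2, heF, add_zero]) hc.hm
  have hd0 : ∀ u, ¬ σ u = true → dg (sg H σ true) u = 0 := fun u hu =>
    dg_zero_Hfin _ u fun v hv => hu hv.2.1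
  have hle : ∀ u ∈ (univ : Finset V), dg (sg H σ true) u * x u ^ 2
      ≤ ((k : ℝ) - 1) * (if σ u = true then x u ^ 2 else 0) := by
    intro u _
    split_ifs with hu
    · exact mul_le_mul_of_nonneg_right (hpar true u) (sq_nonneg _)
    · rw [hd0 u hu, zero_mul, mul_zero]
  have hsum : ∑ u, dg (sg H σ true) u * x u ^ 2
      = ∑ u, ((k : ℝ) - 1) * (if σ u = true then x u ^ 2 else 0) := by
    refine le_antisymm (sum_le_sum hle) ?_
    rw [← mul_sum]
    have h1 := p6 true
    rw [a1] at h1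
    unfold sw wt at h1
    refine le_trans (le_of_eq ?_) h1
    congr 1
    exact sum_congr rfl fun u _ => by split_ifs <;> rfl
  have hdg : ∀ u, σ u = true → dg (sg H σ true) u = (k : ℝ) - 1 := by
    intro u hu
    have h1 := (sum_eq_sum_iff_of_le hle).1 hsum u (mem_univ u)
    rw [if_pos hu] at h1
    exact mul_right_cancel₀ (pow_pos (hx u hu) 2).ne' h1
  have hct : ct (fun v => σ v = true) = k := by
    have h1 : 2 * ed (sg H σ true) = ct (fun v => σ v = true) * ((k : ℝ) - 1) := by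
      unfold ed ct
      rw [mul_div_cancel₀ _ (two_ne_zero (α := ℝ)), sum_mul]
      refine sum_congr rfl fun u _ => ?_
      split_ifs with hu
      · rw [hdg u hu, one_mul]
      · rw [hd0 u hu, zero_mul]
    rw [a3] at h1
    exact (mul_right_cancel₀ (by linarith) h1).symm
  have hTT : ∀ u v, u ≠ v → σ u = true → σ v = true → H.Adj u v := by
    intro u v huv hu hv
    by_contra hn
    have h1 : ct ((sg H σ true).Adj u) + 2 ≤ ct (fun w => σ w = true) := by
      have h2 : (2 : ℝ) = (∑ w, if w = u then (1 : ℝ) else 0) + ∑ w, if w = v then 1 else 0 := by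
        simp only [sum_ite_eq', mem_univ, if_true]
        norm_num
      unfold ct
      rw [h2, ← sum_add_distrib, ← sum_add_distrib]
      refine sum_le_sum fun w _ => ?_
      by_cases h3 : w = u
      · subst h3
        simp [huv, hu]
      · by_cases h4 : w = v
        · subst h4
          have h5 : ¬ (sg H σ true).Adj u w := fun h => hn h.1
          simp [h5, h3, hv]
        · by_cases h5 : (sg H σ true).Adj u w
          · simp [h3, h4, h5, h5.2.2]
          · simp only [h3, h4, h5, if_false, add_zero]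
            split_ifs <;> norm_num
    rw [← dg_eq_ct, hdg u hu, hct] at h1
    linarith
  have hTF : ∀ u v, NI H u → NI H v → σ u = true → σ v = false → H.Adj u v := by
    intro u v hu hv su sv
    by_contra hn
    have h0 : ∀ a b : V, 0 ≤ if ¬ H.Adj a b ∧ σ a = true ∧ σ b = false
        then x a ^ 2 * x b ^ 2 else 0 := fun a b => by split_ifs <;> positivity
    have h1 := (sum_eq_zero_iff_of_nonneg fun a _ => sum_nonneg fun b _ => h0 a b).1 a4 u
      (mem_univ u)
    have h2 := (sum_eq_zero_iff_of_nonneg fun b _ => h0 u b).1 h1 v (mem_univ v)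
    rw [if_pos ⟨hn, su, sv⟩] at h2
    exact (mul_pos (pow_pos (hc.xpos hu) 2) (pow_pos (hc.xpos hv) 2)).ne' h2
  refine ⟨a2, hct, fun u v => ⟨fun h => ⟨h.ne, ⟨v, h⟩, ⟨u, h.symm⟩, ?_⟩, ?_⟩⟩
  · by_contra hn
    rw [not_or, Bool.not_eq_true, Bool.not_eq_true] at hn
    exact hF u v ⟨h, hn.1, hn.2⟩
  · rintro ⟨huv, hu, hv, h⟩
    cases su : σ u <;> cases sv : σ v
    · rw [su, sv] at h
      simp at h
    · exact (hTF v u hv hu sv su).symm
    · exact hTF u v hu hv su sv
    · exact hTT u v huv su sv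

end WQ
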