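import Pool.Agent.MP_1392dc_co.QSt

namespace WQ

open W5 Finset
open scoped Classical

/-- the quadratic form of the join at a vector that is constant on both parts -/
theorem qf_Iso {V : Type} [Fintype V] {k s : ℕ} {G : SimpleGraph V} (φ : G ≃g split k s)
    (a b : ℝ) : qf G (fun v => Sum.elim (fun _ => a) (fun _ => b) (φ v)) =
        k * ((k : ℝ) - 1) * a ^ 2 + 2 * k * s * (a * b) ∧
      nn (fun v => Sum.elim (fun _ => a) (fun _ => b) (φ v)) = k * a ^ 2 + s * b ^ 2 := by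
  obtain ⟨z, hz, z1, z2⟩ : ∃ z : Fin k ⊕ Fin s → ℝ, z = Sum.elim (fun _ => a) (fun _ => b) ∧
      (∀ i, z (.inl i) = a) ∧ ∀ i, z (.inr i) = b := ⟨_, rfl, fun _ => rfl, fun _ => rfl⟩
  rw [← hz]
  constructor
  · have e : qf G (fun v => z (φ v)) =
        ∑ p, ∑ q, if (split k s).Adj p q then z p * z q else 0 := by
      rw [qf_eq, ← Equiv.sum_comp φ.toEquiv]
      refine sum_congr rfl fun u _ => ?_
      rw [← Equiv.sum_comp φ.toEquiv]
      refine sum_congr rfl fun v _ => ?_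
      exact if_congr φ.map_adj_iff.symm rfl rfl
    have h1 : ∀ i : Fin k, (∑ j : Fin k, if (split k s).Adj (.inl i) (.inl j) then a * a else 0) =
        ((k : ℝ) - 1) * (a * a) := fun i => by
      have : ∀ j : Fin k, (if (split k s).Adj (.inl i) (.inl j) then a * a else 0) =
          a * a - if i = j then a * a else 0 := fun j => by
        by_cases c : i = j <;> simp [split, c]
      simp only [this, sum_sub_distrib, sum_ite_eq, mem_univ, if_true, sum_const, card_univ,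
        Fintype.card_fin, nsmul_eq_mul]
      ring
    have h2 : ∀ (i : Fin k) (j : Fin s), (split k s).Adj (.inl i) (.inr j) := fun _ _ => trivial
    have h3 : ∀ (i : Fin s) (j : Fin k), (split k s).Adj (.inr i) (.inl j) := fun _ _ => trivial
    have h4 : ∀ (i j : Fin s), ¬ (split k s).Adj (.inr i) (.inr j) := fun _ _ h => h
    rw [e]
    simp only [Fintype.sum_sum_type, z1, z2, h1, h2, h3, h4, if_true, if_false, sum_const,
      card_univ, Fintype.card_fin, nsmul_eq_mul]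
    ring
  · have e : nn (fun v => z (φ v)) = ∑ p, z p ^ 2 := Equiv.sum_comp φ.toEquiv fun p => z p ^ 2
    rw [e]
    simp only [Fintype.sum_sum_type, z1, z2, sum_const, card_univ, Fintype.card_fin, nsmul_eq_mul]

theorem isoS : IsoS := by
  intro V _ k G σ hni ⟨h1, h2⟩
  have c1 : Fintype.card {u // σ u = true} = k := by
    rw [ct_eq] at h1
    have h3 := Nat.cast_injective (R := ℝ) h1
    rw [Fintype.card_subtype]
    convert h3
  obtain ⟨e₁⟩ : Nonempty (Fin k ≃ {u // σ u = true}) := ⟨(Fintype.equivFinOfCardEq c1).symm⟩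
  obtain ⟨s, ⟨e₂⟩⟩ : ∃ s, Nonempty (Fin s ≃ {u // ¬ σ u = true}) :=
    ⟨_, ⟨(Fintype.equivFin _).symm⟩⟩
  have φ : G ≃g split k s := by
    refine SimpleGraph.Iso.symm
      ⟨(e₁.sumCongr e₂).trans (Equiv.sumCompl fun u => σ u = true), ?_⟩
    rintro (i | i) (j | j)
    · show G.Adj (e₁ i).1 (e₁ j).1 ↔ i ≠ j
      refine ⟨fun h e => h.ne (by rw [e]), fun h => (h2 _ _).2 ⟨fun e => h ?_, hni _, hni _,
        Or.inl (e₁ i).2⟩⟩
      exact e₁.injective (Subtype.ext e)
    · refine iff_of_true ((h2 (e₁ i).1 (e₂ j).1).2 ⟨fun e => (e₂ j).2 (e ▸ (e₁ i).2), hni _, hni _,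
        Or.inl (e₁ i).2⟩) trivial
    · refine iff_of_true ((h2 (e₂ i).1 (e₁ j).1).2 ⟨fun e => (e₂ i).2 (e ▸ (e₁ j).2), hni _, hni _,
        Or.inr (e₁ j).2⟩) trivial
    · exact iff_of_false (fun h => ((h2 (e₂ i).1 (e₂ j).1).1 h).2.2.2.elim (e₂ i).2 (e₂ j).2)
        fun h => h
  refine ⟨s, ?_, ⟨φ⟩⟩
  have a := (qf_Iso φ 1 1).1
  have e : (fun v => Sum.elim (fun _ => (1 : ℝ)) (fun _ => (1 : ℝ)) (φ v)) = fun _ => 1 := by
    funext v
    cases φ v <;> rfl
  rw [e, qf_eq] at a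
  have b := two_ed G
  simp only [mul_one] at a
  rw [a] at b
  linarith

theorem splitS : SplitS := by
  intro V _ k s G θ hk ⟨φ⟩ h0 hθ
  obtain ⟨a1, a2⟩ := qf_Iso φ θ k
  have r := (perS V G).2.1 fun v => Sum.elim (fun _ => θ) (fun _ => (k : ℝ)) (φ v)
  rw [a1, a2] at r
  have hk' : (1 : ℝ) ≤ k := by exact_mod_cast hk
  have p : (0 : ℝ) < k * θ ^ 2 + s * (k : ℝ) ^ 2 := by positivity
  refine le_of_mul_le_mul_right (le_trans (le_of_eq ?_) r) p
  linear_combination (k * θ) * hθ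

end WQ
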