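import Pool.Agent.MP_1392dc_co.QSt

/-! The real arithmetic behind the density of the light case. -/

namespace WQ

open W5 Finset
open scoped Classical

theorem prod_Lari {k l E M b : ℝ} (hk : 3 ≤ k) (hl : 10 ^ 20 * k ≤ l) (hb : 0 ≤ b)
    (hE : (l - k) ^ 2 ≤ E) (hM : M ≤ (1 + 3 / 10 ^ 6) * l ^ 2) (h : 0.9801 * b * E ≤ M) :
    b ≤ 1.021 := by
  have hl0 : 0 < l := by linarith
  have h1 : 0.9999 * l ≤ l - k := by linarith
  have h2 : (0.9999 * l) ^ 2 ≤ (l - k) ^ 2 := pow_le_pow_left₀ (by positivity) h1 2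
  have h3 : 0.9801 * b * (0.9999 * l) ^ 2 ≤ 0.9801 * b * E :=
    mul_le_mul_of_nonneg_left (h2.trans hE) (by positivity)
  have h4 : 0 < l ^ 2 := by positivity
  by_contra hc
  push Not at hc
  have h5 : 1.021 * l ^ 2 ≤ b * l ^ 2 := mul_le_mul_of_nonneg_right hc.le h4.le
  linarith

theorem core_Lari {k l A A' e e' a a' : ℝ} (hk : 3 ≤ k) (hl : 10 ^ 20 * k ≤ l)
    (hA0 : 0 ≤ A) (hA : A ≤ 0.8 * (k - 1)) (hA0' : 0 ≤ A') (hA' : A' ≤ k - 1)
    (he : 0 ≤ e) (he' : 0 ≤ e')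
    (h1 : A * l * 0.4999 ≤ e * a ^ 2) (h2 : A' * l * 0.4999 ≤ e' * a' ^ 2)
    (hs : k * a' ^ 2 ≤ kap * l) (hp0 : 0 ≤ a * a') (hp : a * a' ≤ 1.021)
    (hm : (k - 1) * l - k * (k - 1) / 2 ≤ (A * l - e) + (A' * l - e')) : False := by
  have hl0 : 0 < l := by linarith
  have hk1 : 0 < k - 1 := by linarith
  have hAl : A * l ≤ 0.8 * (k - 1) * l := mul_le_mul_of_nonneg_right hA hl0.le
  have hbig : (k - 1) * (10 ^ 20 * k) ≤ (k - 1) * l := mul_le_mul_of_nonneg_left hl hk1.le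
  have hkk : 0 < k * (k - 1) := by positivity
  by_cases c1 : a' ^ 2 ≤ 0.4999
  · have := mul_le_mul_of_nonneg_left c1 he'
    linarith
  by_cases c2 : a ^ 2 ≤ 0.4999
  · have h3 := mul_le_mul_of_nonneg_left c2 he
    have h4 : A * l ≤ e := by linarith
    have h5 : e' * (k * a' ^ 2) ≤ e' * (kap * l) := mul_le_mul_of_nonneg_left hs he'
    have h6 : k * (A' * l * 0.4999) ≤ k * (e' * a' ^ 2) :=
      mul_le_mul_of_nonneg_left h2 (by linarith)
    have h7 : (k * A' * 0.4999) * l ≤ (e' * kap) * l := by linarith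
    have h8 : k * A' * 0.4999 ≤ e' * kap := le_of_mul_le_mul_right h7 hl0
    have h9 : 0 ≤ k * A' := by positivity
    have h10 : 1000 * (k * A') ≤ e' := by
      unfold kap at h8
      linarith
    have h11 : A' * (l - 1000 * k) ≤ (k - 1) * (l - 1000 * k) :=
      mul_le_mul_of_nonneg_right hA' (by linarith)
    linarith
  push Not at c1 c2
  have ha : 0 < a ^ 2 := by linarith
  have ha' : 0 < a' ^ 2 := by linarith
  obtain ⟨p, hpd⟩ : ∃ p : ℝ, p = 0.4999 / a ^ 2 := ⟨_, rfl⟩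
  obtain ⟨q, hqd⟩ : ∃ q : ℝ, q = 0.4999 / a' ^ 2 := ⟨_, rfl⟩
  have p0 : 0 < p := by rw [hpd]; positivity
  have q0 : 0 < q := by rw [hqd]; positivity
  have p1 : p ≤ 1 := by rw [hpd, div_le_one ha]; exact c2.le
  have q1 : q ≤ 1 := by rw [hqd, div_le_one ha']; exact c1.le
  have e1 : A * l * p ≤ e := by
    rw [hpd, ← mul_div_assoc, div_le_iff₀ ha]; exact h1
  have e2 : A' * l * q ≤ e' := by
    rw [hqd, ← mul_div_assoc, div_le_iff₀ ha']; exact h2
  have pq : 0.2396 ≤ p * q := by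
    rw [hpd, hqd, div_mul_div_comm, le_div_iff₀ (by positivity)]
    have h3 : (a * a') ^ 2 ≤ 1.021 ^ 2 := pow_le_pow_left₀ hp0 hp 2
    have h4 : a ^ 2 * a' ^ 2 = (a * a') ^ 2 := by ring
    rw [h4]
    linarith
  have s : 0.87 ≤ 0.8 * p + q := by
    by_contra hc
    push Not at hc
    nlinarith [sq_nonneg (0.8 * p - q), mul_pos p0 q0]
  have f1 : A * l * (1 - p) ≤ 0.8 * (k - 1) * l * (1 - p) :=
    mul_le_mul_of_nonneg_right hAl (by linarith)
  have hAl' : A' * l ≤ (k - 1) * l := mul_le_mul_of_nonneg_right hA' hl0.le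
  have f2 : A' * l * (1 - q) ≤ (k - 1) * l * (1 - q) :=
    mul_le_mul_of_nonneg_right hAl' (by linarith)
  have f3 : (k - 1) * l * 0.87 ≤ (k - 1) * l * (0.8 * p + q) :=
    mul_le_mul_of_nonneg_left s (by positivity)
  linarith

theorem lariS : LariS := by
  intro k l W W' Q Q' e e' a a' M E hk hl w1 w2 w1' _ q0 q1 q0' q1' qe qe' he he' ha ha' _ hs
    m1 m2 hME hE hsum
  have hl0 : 0 < l := by linarith
  have hW : 0 < W := by linarith
  have hW' : 0 < W' := by linarith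
  obtain ⟨A, hA⟩ : ∃ A, Q = A * W := ⟨Q / W, by field_simp⟩
  obtain ⟨A', hA'⟩ : ∃ A', Q' = A' * W' := ⟨Q' / W', by field_simp⟩
  subst hA hA'
  have a0 : 0 ≤ A := nonneg_of_mul_nonneg_left q0 hW
  have a0' : 0 ≤ A' := nonneg_of_mul_nonneg_left q0' hW'
  have a1 : A ≤ k - 1 := le_of_mul_le_mul_right q1 hW
  have a1' : A' ≤ k - 1 := le_of_mul_le_mul_right q1' hW'
  have hM : M = (l - A) * W := by linarith
  have hM' : M = (l - A') * W' := by linarith
  have hE1 : (l - A) * (l - A') ≤ E := by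
    have h : M ^ 2 = (l - A) * (l - A') * (W * W') := by
      rw [sq]; nth_rewrite 1 [hM]; rw [hM']; ring
    rw [h] at hME
    exact le_of_mul_le_mul_right hME (mul_pos hW hW')
  have hE2 : (l - k) ^ 2 ≤ E := by
    refine le_trans ?_ hE1
    rw [sq]
    exact mul_le_mul (by linarith) (by linarith) (by linarith) (by linarith)
  have hM2 : M ≤ (1 + 3 / 10 ^ 6) * l ^ 2 := by
    have h1 : l * W ≤ l * ((1 + 3 / 10 ^ 6) * l) := mul_le_mul_of_nonneg_left w2 hl0.le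
    linarith
  have hp := prod_Lari hk hl (mul_nonneg ha ha') hE2 hM2 hE
  by_contra hc
  push Not at hc
  have a2 : A ≤ 0.8 * (k - 1) := (lt_of_mul_lt_mul_right hc hW.le).le
  refine core_Lari (a := a) (a' := a') hk hl a0 a2 a0' a1' he he' ?_ ?_ hs (mul_nonneg ha ha') hp ?_
  · have h1 := mul_le_mul_of_nonneg_left w1 a0
    have h2 := mul_nonneg a0 hl0.le
    linarith
  · have h1 := mul_le_mul_of_nonneg_left w1' a0'
    have h2 := mul_nonneg a0' hl0.le
    linarith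
  · have h1 := mul_nonneg a0 a0'
    linarith

end WQ
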