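import Pool.Agent.MP_1392dc_co.QSt

namespace WQ

open W5 Finset
open scoped Classical

theorem qf0_Lden {V : Type} [Fintype V] (G : SimpleGraph V) {x : V → ℝ} (hx : ∀ u, 0 ≤ x u) :
    0 ≤ qf G x := by
  rw [qf_eq]
  refine sum_nonneg fun u _ => sum_nonneg fun v _ => ?_
  split_ifs
  · exact mul_nonneg (hx u) (hx v)
  · exact le_rfl

theorem qfa_Lden {V : Type} [Fintype V] (H : SimpleGraph V) (σ : V → Bool) {x : V → ℝ}
    {α : Bool → ℝ} (hx : ∀ u, 0 ≤ x u) (hup : ∀ u, x u ≤ α (σ u)) (c : Bool) :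
    qf (sg H σ c) x ≤ 2 * ed (sg H σ c) * α c ^ 2 := by
  rw [qf_eq, two_ed, sum_mul]
  refine sum_le_sum fun u _ => ?_
  rw [sum_mul]
  refine sum_le_sum fun v _ => ?_
  split_ifs with h
  · have h1 := hup u
    have h2 := hup v
    rw [h.2.1] at h1
    rw [h.2.2] at h2
    rw [one_mul, sq]
    exact mul_le_mul h1 h2 (hx v) ((hx u).trans h1)
  · simp

theorem cr_Lden {V : Type} [Fintype V] (H : SimpleGraph V) (σ : V → Bool) {x : V → ℝ}
    {α : Bool → ℝ} (hx : ∀ u, 0 ≤ x u) (hlo : ∀ u, NI H u → 0.99 * α (σ u) ≤ x u)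
    (h0 : ∀ c, 0 ≤ α c) :
    0.9801 * (α true * α false) * cr H σ (fun _ => 1) ≤ cr H σ x := by
  unfold cr
  rw [mul_sum]
  refine sum_le_sum fun u _ => ?_
  rw [mul_sum]
  refine sum_le_sum fun v _ => ?_
  split_ifs with h
  · have h1 := hlo u ⟨v, h.1⟩
    have h2 := hlo v ⟨u, h.1.symm⟩
    rw [h.2.1] at h1
    rw [h.2.2] at h2
    have h3 := mul_le_mul h1 h2 (mul_nonneg (by norm_num) (h0 false)) (hx u)
    refine le_trans (le_of_eq ?_) h3
    ring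
  · simp

theorem ldenS (hP : PartS) (hA : LariS) : LdenS := by
  intro V _ k H l x σ α hc hp hf c
  obtain ⟨p1, p2, p3, p4, p5, -, p7⟩ := hP V H σ x
  have q0 : ∀ c, 0 ≤ qf (sg H σ c) x := fun c => qf0_Lden _ hc.pos
  have q1 : ∀ c, qf (sg H σ c) x ≤ ((k : ℝ) - 1) * sw x σ c := fun c =>
    p7 c _ fun u _ => hp c u
  have q2 := qfa_Lden H σ hc.pos hf.up
  have q3 := cr_Lden H σ hc.pos hf.lo hf.nn0
  have q4 : cr H σ x ^ 2 ≤ cr H σ (fun _ => 1) * (sw x σ true * sw x σ false) :=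
    p3.trans (mul_le_mul_of_nonneg_left (by linarith) p5)
  have q5 := p1 l hc.eig
  have q6 := hc.hm
  cases c
  · exact hA k l (sw x σ false) (sw x σ true) (qf (sg H σ false) x) (qf (sg H σ true) x)
      (ed (sg H σ false)) (ed (sg H σ true)) (α false) (α true) (cr H σ x) (cr H σ fun _ => 1)
      hc.kR hc.big (hf.wlo _) (hf.wup _) (hf.wlo _) (hf.wup _) (q0 _) (q1 _) (q0 _) (q1 _)
      (q2 _) (q2 _) (ed_nonneg _) (ed_nonneg _) (hf.nn0 _) (hf.nn0 _) (hf.sm _) (hf.sm _)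
      (q5 _) (q5 _) (by rwa [mul_comm (sw x σ false)]) (by rwa [mul_comm (α false)])
      (by linarith)
  · exact hA k l (sw x σ true) (sw x σ false) (qf (sg H σ true) x) (qf (sg H σ false) x)
      (ed (sg H σ true)) (ed (sg H σ false)) (α true) (α false) (cr H σ x) (cr H σ fun _ => 1)
      hc.kR hc.big (hf.wlo _) (hf.wup _) (hf.wlo _) (hf.wup _) (q0 _) (q1 _) (q0 _) (q1 _)
      (q2 _) (q2 _) (ed_nonneg _) (ed_nonneg _) (hf.nn0 _) (hf.nn0 _) (hf.sm _) (hf.sm _)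
      (q5 _) (q5 _) q4 q3 (by linarith)

end WQ
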