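import Pool.Agent.MP_1392dc_co.QSt

namespace WQ

open W5 Finset
open scoped Classical

theorem lfinS (hP : PartS) (h3 : Cy3S) (hD : LdenS) (hL : LpairS) : LfinS := by
  intro V _ k H l x σ α hc hp hf
  have hk := hc.k3
  have hkR := hc.kR
  have hl := hc.l0
  have hex : ∃ u, σ u = true ∧ (((2 * k - 1) / 3 : ℕ) : ℝ) < dg (sg H σ true) u := by
    by_contra h
    push Not at h
    have a1 := (hP V H σ x).2.2.2.2.2.2 true _ h
    have a2 := hD V k H l x σ α hc hp hf true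
    have a3 := hf.wlo true
    have a4 : 5 * ((2 * k - 1) / 3) + 5 ≤ 4 * k := by
      rcases hk.eq_or_lt with rfl | h4
      · norm_num
      · omega
    have a5 : 5 * (((2 * k - 1) / 3 : ℕ) : ℝ) + 5 ≤ 4 * k := by exact_mod_cast a4
    have a6 : 0 < sw x σ true := by linarith
    nlinarith
  obtain ⟨u, hu, hd⟩ := hex
  have hj := hp true u
  rw [dg_eq_ct, ct_eq] at hd hj
  have hd' : (2 * k - 1) / 3 < (univ.filter ((sg H σ true).Adj u)).card := by exact_mod_cast hd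
  have hU : ∀ a ∈ univ.filter ((sg H σ true).Adj u), H.Adj u a ∧ σ a = true := fun a ha =>
    ⟨(mem_filter.1 ha).2.1, (mem_filter.1 ha).2.2.2⟩
  refine h3 V k H (by omega) hc.free u (univ.filter ((sg H σ true).Adj u)) (by omega)
    (fun a ha => (hU a ha).1) fun a ha b hb X hX => ?_
  have miss : ∀ (w : V) (D : V → Prop), NI H w → σ w = true →
      wt x (fun v => (σ v = false ∧ D v) ∧ ¬ H.Adj w v) ≤ 6 / 10 ^ 6 * l := fun w D h1 h2 =>
    (wt_mono x fun v hv => ⟨by rw [h2]; exact hv.1.1, hv.2⟩).trans (hf.miss w h1)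
  have hXw : wt x (fun v => v ∈ X) ≤ 3 * (kap * l) := by
    have b0 : 0 ≤ kap * l := by unfold kap; positivity
    have b1 := wt_le_ct x (fun v => v ∈ X) (kap * l / k) fun v _ => by
      rw [le_div_iff₀' (by linarith)]
      exact (mul_le_mul_of_nonneg_left (pow_le_pow_left₀ (hc.pos v) (hf.up v) 2)
        (by linarith)).trans (hf.sm _)
    have b2 : ct (fun v => v ∈ X) ≤ 3 * k := by
      have e : ct (fun v => v ∈ X) = X.card := by
        rw [ct_eq]
        congr 2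
        ext v
        simp
      have : (X.card : ℝ) ≤ 3 * (univ.filter ((sg H σ true).Adj u)).card := by exact_mod_cast hX
      linarith
    refine b1.trans ((mul_le_mul_of_nonneg_left b2 (by positivity)).trans (le_of_eq ?_))
    field_simp
  obtain ⟨p, q, h1, -, -, h4, h5⟩ := hL V k H l x σ α hc hp hf (hD V k H l x σ α hc hp hf false)
    (fun v => v ∈ X ∨ ¬ H.Adj u v ∨ ¬ H.Adj a v ∨ ¬ H.Adj b v) (by
      have c1 := three_miss x
        (fun v => σ v = false ∧ (v ∈ X ∨ ¬ H.Adj u v ∨ ¬ H.Adj a v ∨ ¬ H.Adj b v))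
        (H.Adj u) (H.Adj a) (H.Adj b)
      have c2 := miss u (fun v => v ∈ X ∨ ¬ H.Adj u v ∨ ¬ H.Adj a v ∨ ¬ H.Adj b v)
        ⟨a, (hU a ha).1⟩ hu
      have c3 := miss a (fun v => v ∈ X ∨ ¬ H.Adj u v ∨ ¬ H.Adj a v ∨ ¬ H.Adj b v)
        ⟨u, (hU a ha).1.symm⟩ (hU a ha).2
      have c4 := miss b (fun v => v ∈ X ∨ ¬ H.Adj u v ∨ ¬ H.Adj a v ∨ ¬ H.Adj b v)
        ⟨u, (hU b hb).1.symm⟩ (hU b hb).2
      have c5 := (wt_mono x (S := fun v => (σ v = false ∧
        (v ∈ X ∨ ¬ H.Adj u v ∨ ¬ H.Adj a v ∨ ¬ H.Adj b v)) ∧ H.Adj u v ∧ H.Adj a v ∧ H.Adj b v)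
        (T := fun v => v ∈ X) fun v hv => by tauto).trans hXw
      unfold kap at c5
      linarith)
  push Not at h4 h5
  exact ⟨p, q, h4.1, h5.1, h1, h4.2.1, h5.2.1, h4.2.2.1, h5.2.2.2⟩

end WQ
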