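import Pool.Agent.MP_1392dc_co.QSt

/-! The bound fails for few edges: a clique on 2k vertices and a matching. -/

namespace WQ

open W5 Finset
open scoped Classical

/-- A clique on n vertices and t disjoint edges. -/
def G_Low (n t : ℕ) : SimpleGraph (Fin n ⊕ Fin t × Bool) where
  Adj u v := match u, v with
    | Sum.inl i, Sum.inl j => i ≠ j
    | Sum.inr a, Sum.inr b => a.1 = b.1 ∧ a.2 ≠ b.2
    | _, _ => False
  symm := ⟨by
    intro u v h
    cases u <;> cases v <;> simp_all [ne_comm]⟩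
  loopless := ⟨by
    intro u h
    cases u <;> simp_all⟩

theorem ns_inl_Low (n t : ℕ) (x : Fin n ⊕ Fin t × Bool → ℝ) (hx : ∀ i, x (.inl i) = 1)
    (i : Fin n) : ns (G_Low n t) x (.inl i) = n - 1 := by
  have : ∀ j : Fin n, (if i = j then (0 : ℝ) else 1) = 1 - if i = j then 1 else 0 := fun j => by
    split_ifs <;> simp
  simp [ns, G_Low, hx, this]

theorem dg_inr_Low (n t : ℕ) (a : Fin t × Bool) : dg (G_Low n t) (.inr a) = 1 := by
  obtain ⟨a, b⟩ := a
  cases b <;> simp [dg, ns, G_Low, Fintype.sum_prod_type, ite_and]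

theorem dg_le_Low (n t : ℕ) (hn : 2 ≤ n) (u : Fin n ⊕ Fin t × Bool) :
    dg (G_Low n t) u ≤ n - 1 := by
  cases u with
  | inl i => exact (ns_inl_Low n t _ (fun _ => rfl) i).le
  | inr a =>
    have : (2 : ℝ) ≤ n := by exact_mod_cast hn
    rw [dg_inr_Low]; linarith

theorem lowS : LowS := by
  intro k m hk h1 h2 H
  obtain ⟨t, ht⟩ := Nat.exists_eq_add_of_le h1
  have hk' : (2 : ℝ) ≤ k := by exact_mod_cast hk
  have ht' : (m : ℝ) + k = 2 * k ^ 2 + t := by exact_mod_cast ht
  have h2' : 2 * (m : ℝ) + 3 * k < 5 * k ^ 2 := by exact_mod_cast h2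
  have h3 := (H _ (G_Low (2 * k) t) (fun v => ?_) (fun s hs ⟨f⟩ => ?_) ?_).1
  · let y : Fin (2 * k) ⊕ Fin t × Bool → ℝ := Sum.elim (fun _ => 1) fun _ => 0
    have h4 := (perS _ (G_Low (2 * k) t)).2.1 y
    have e1 : nn y = 2 * k := by simp [nn, y]
    have e2 : qf (G_Low (2 * k) t) y = 2 * k * (2 * k - 1) := by
      simp [qf, ns_inl_Low (2 * k) t y fun _ => rfl, y]
      ring
    have h5 : √(4 * (m : ℝ) - (k : ℝ) ^ 2 + 1) < 3 * k - 1 :=
      (Real.sqrt_lt' (by linarith)).2 (by nlinarith)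
    rw [e1, e2] at h4
    nlinarith
  · rcases v with i | ⟨a, b⟩
    · have : Nontrivial (Fin (2 * k)) := Fin.nontrivial_iff_two_le.2 (by omega)
      obtain ⟨j, hj⟩ := exists_ne i
      exact ⟨.inl j, hj.symm⟩
    · exact ⟨.inr (a, !b), rfl, by cases b <;> simp⟩
  · have h4 := dg_le_Low (2 * k) t (by omega) (f none)
    have h5 : (s - 1 : ℕ) ≤ (univ.filter fun v => (G_Low (2 * k) t).Adj (f none) v).card := by
      simpa using card_le_card_of_injOn (s := univ)
        (t := univ.filter fun v => (G_Low (2 * k) t).Adj (f none) v)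
        (fun i : Fin (s - 1) => f (some i))
        (fun i _ => by simpa using f.toHom.map_adj (v := none) (w := some i) trivial)
        fun i _ j _ h => Option.some.inj (f.injective h)
    have h6 : dg (G_Low (2 * k) t) (f none) =
        (univ.filter fun v => (G_Low (2 * k) t).Adj (f none) v).card := by
      simp [dg, ns]
    have h7 : ((2 * k : ℕ) : ℝ) ≤ (univ.filter fun v => (G_Low (2 * k) t).Adj (f none) v).card := by
      exact_mod_cast le_trans (by omega) h5
    linarith
  · have h4 := (edS _ (G_Low (2 * k) t)).1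
    have h5 : ed (G_Low (2 * k) t) = m := by
      have : ∀ i, dg (G_Low (2 * k) t) (.inl i) = (2 * k : ℕ) - 1 :=
        ns_inl_Low _ t _ fun _ => rfl
      simp [ed, this, dg_inr_Low]
      linarith
    exact_mod_cast h4.symm.trans h5

end WQ
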