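import Pool.Agent.MP_1392dc_co.QSt

/-! An edge inside a side that avoids a set of small weight. -/

namespace WQ

open W5 Finset
open scoped Classical

theorem row_Lpair {V : Type} [Fintype V] {k : ℕ} {H : SimpleGraph V} {l : ℝ} {x : V → ℝ}
    {σ : V → Bool} {α : Bool → ℝ} (hc : Core k H l x) (hp : Par k H σ) (hf : Flat k H l x σ α)
    (D : V → Prop) (p : V) :
    (∑ q, if (sg H σ false).Adj p q ∧ D p then x p * x q else 0) ≤
      1.02 * ((k : ℝ) - 1) * (if σ p = false ∧ D p then x p ^ 2 else 0) := by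
  have hk := hc.kR
  by_cases h : D p ∧ ∃ q, (sg H σ false).Adj p q
  · obtain ⟨hD, q0, hq0⟩ := h
    have hs : σ p = false := hq0.2.1
    have hlo := hf.lo p ⟨q0, hq0.1⟩
    rw [hs] at hlo
    have hx := hc.pos p
    rw [if_pos ⟨hs, hD⟩]
    have h1 : (∑ q, if (sg H σ false).Adj p q ∧ D p then x p * x q else 0) ≤
        1.02 * x p ^ 2 * dg (sg H σ false) p := by
      unfold dg ns
      rw [mul_sum]
      refine sum_le_sum fun q _ => ?_
      by_cases hq : (sg H σ false).Adj p q
      · rw [if_pos ⟨hq, hD⟩, if_pos hq]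
        have hu := hf.up q
        rw [hq.2.2] at hu
        have : x q ≤ 1.02 * x p := by linarith
        nlinarith [mul_le_mul_of_nonneg_left this hx]
      · rw [if_neg fun g => hq g.1, if_neg hq, mul_zero]
    have h2 := mul_le_mul_of_nonneg_left (hp false p)
      (show 0 ≤ 1.02 * x p ^ 2 by positivity)
    linarith
  · have h0 : (∑ q, if (sg H σ false).Adj p q ∧ D p then x p * x q else 0) = 0 :=
      sum_eq_zero fun q _ => if_neg fun g => h ⟨g.2, q, g.1⟩
    rw [h0]
    refine mul_nonneg (by linarith) ?_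
    split_ifs <;> positivity

theorem lpairS : LpairS := by
  intro V _ k H l x σ α hc hp hf hq D hD
  by_contra g
  have hk := hc.kR
  have hl := hc.l0
  have h1 : qf (sg H σ false) x ≤
      (∑ p, ∑ q, if (sg H σ false).Adj p q ∧ D p then x p * x q else 0) +
      ∑ p, ∑ q, if (sg H σ false).Adj q p ∧ D q then x q * x p else 0 := by
    rw [qf_eq, ← sum_add_distrib]
    refine sum_le_sum fun p _ => ?_
    rw [← sum_add_distrib]
    refine sum_le_sum fun q _ => ?_
    have h0 : 0 ≤ x p * x q := mul_nonneg (hc.pos p) (hc.pos q)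
    rw [mul_comm (x q) (x p)]
    by_cases ha : (sg H σ false).Adj p q
    · have ha' := ha.symm
      by_cases h1 : D p <;> by_cases h2 : D q
      · simp [ha, ha', h1, h2, h0]
      · simp [ha, ha', h1, h2]
      · simp [ha, ha', h1, h2]
      · exact absurd ⟨p, q, ha.1, ha.2.1, ha.2.2, h1, h2⟩ g
    · have ha' : ¬ (sg H σ false).Adj q p := fun e => ha e.symm
      simp [ha, ha']
  rw [sum_comm (f := fun p q => if (sg H σ false).Adj q p ∧ D q then x q * x p else 0)] at h1
  have h2 : (∑ p, ∑ q, if (sg H σ false).Adj p q ∧ D p then x p * x q else 0) ≤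
      1.02 * ((k : ℝ) - 1) * wt x (fun v => σ v = false ∧ D v) := by
    unfold wt
    rw [mul_sum]
    refine sum_le_sum fun p _ => ?_
    refine (row_Lpair hc hp hf D p).trans (le_of_eq ?_)
    split_ifs <;> rfl
  have h3 := mul_le_mul_of_nonneg_left hD (show 0 ≤ 1.02 * ((k : ℝ) - 1) by linarith)
  have h4 := mul_le_mul_of_nonneg_left (hf.wlo false) (show 0 ≤ 0.8 * ((k : ℝ) - 1) by linarith)
  have h5 : 0 < ((k : ℝ) - 1) * l := mul_pos (by linarith) hl
  nlinarith

end WQ
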