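import Pool.Agent.MP_1392dc_co.QSt

/-! Identities for a partition of the vertices into two sides. -/

namespace WQ

open W5 Finset
open scoped Classical

variable {V : Type} [Fintype V]

theorem cr_swap_Part (H : SimpleGraph V) (σ : V → Bool) (f : V → ℝ) :
    cr H σ f = ∑ u, ∑ v, if H.Adj u v ∧ σ u = false ∧ σ v = true then f u * f v else 0 := by
  unfold cr
  rw [sum_comm]
  refine sum_congr rfl fun u _ => sum_congr rfl fun v _ => ?_
  rw [mul_comm (f v)]
  exact if_congr ⟨fun h => ⟨h.1.symm, h.2.2, h.2.1⟩, fun h => ⟨h.1.symm, h.2.2, h.2.1⟩⟩ rfl rfl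

theorem sg_adj_Part (H : SimpleGraph V) (σ : V → Bool) (c : Bool) (u v : V) :
    (sg H σ c).Adj u v ↔ H.Adj u v ∧ σ u = c ∧ σ v = c := Iff.rfl

theorem qf_le_Part (G : SimpleGraph V) (x : V → ℝ) : qf G x ≤ ∑ u, dg G u * x u ^ 2 := by
  have e1 : ∑ u, dg G u * x u ^ 2 = ∑ u, ∑ v, if G.Adj u v then x u ^ 2 else 0 := by
    refine sum_congr rfl fun u _ => ?_
    unfold dg ns
    rw [sum_mul]
    exact sum_congr rfl fun v _ => by split_ifs <;> simp
  have e2 : ∑ u, dg G u * x u ^ 2 = ∑ u, ∑ v, if G.Adj u v then x v ^ 2 else 0 := by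
    rw [e1, sum_comm]
    exact sum_congr rfl fun u _ => sum_congr rfl fun v _ => if_congr (G.adj_comm _ _) rfl rfl
  have : 2 * qf G x ≤ (∑ u, ∑ v, if G.Adj u v then x u ^ 2 else 0) +
      ∑ u, ∑ v, if G.Adj u v then x v ^ 2 else 0 := by
    rw [qf_eq, ← sum_add_distrib, mul_sum]
    refine sum_le_sum fun u _ => ?_
    rw [← sum_add_distrib, mul_sum]
    refine sum_le_sum fun v _ => ?_
    split_ifs
    · nlinarith [sq_nonneg (x u - x v)]
    · simp
  linarith

theorem partS : PartS := by
  intro V _ H σ x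
  refine ⟨fun l hl c => ?_, ?_, ?_, ?_, ?_, fun c => qf_le_Part _ x, fun c D hD => ?_⟩
  · have e : l * sw x σ c = ∑ u, ∑ v, if H.Adj u v ∧ σ u = c then x u * x v else 0 := by
      unfold sw wt
      rw [mul_sum]
      refine sum_congr rfl fun u _ => ?_
      by_cases h : σ u = c
      · have := hl u
        unfold ns at this
        simp only [h, if_true, and_true]
        rw [pow_two, mul_left_comm, ← this, mul_sum]
        exact sum_congr rfl fun v _ => by split_ifs <;> simp
      · simp [h]
    rw [e, qf_eq]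
    cases c
    · rw [cr_swap_Part, ← sum_add_distrib]
      refine sum_congr rfl fun u _ => ?_
      rw [← sum_add_distrib]
      refine sum_congr rfl fun v _ => ?_
      by_cases h : H.Adj u v <;> cases h1 : σ u <;> cases h2 : σ v <;>
        simp [sg_adj_Part, h, h1, h2]
    · rw [cr, ← sum_add_distrib]
      refine sum_congr rfl fun u _ => ?_
      rw [← sum_add_distrib]
      refine sum_congr rfl fun v _ => ?_
      by_cases h : H.Adj u v <;> cases h1 : σ u <;> cases h2 : σ v <;>
        simp [sg_adj_Part, h, h1, h2]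
  · have : 2 * ed H = 2 * ed (sg H σ true) + 2 * ed (sg H σ false) +
        (cr H σ (fun _ => 1) + cr H σ (fun _ => 1)) := by
      nth_rewrite 1 [cr_swap_Part]
      simp only [two_ed, cr, ← sum_add_distrib]
      refine sum_congr rfl fun u _ => sum_congr rfl fun v _ => ?_
      by_cases h : H.Adj u v <;> cases h1 : σ u <;> cases h2 : σ v <;>
        simp [sg_adj_Part, h, h1, h2]
    linarith
  · have e : sw x σ true * sw x σ false - ms H σ x = ∑ q : V × V,
        (if H.Adj q.1 q.2 ∧ σ q.1 = true ∧ σ q.2 = false then x q.1 * x q.2 else 0) ^ 2 := by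
      unfold sw wt ms
      rw [sum_mul_sum, Fintype.sum_prod_type, ← sum_sub_distrib]
      refine sum_congr rfl fun u _ => ?_
      rw [← sum_sub_distrib]
      refine sum_congr rfl fun v _ => ?_
      by_cases h : H.Adj u v <;> cases h1 : σ u <;> cases h2 : σ v <;>
        simp [h, h1, h2, mul_pow]
    have e1 : cr H σ (fun _ => 1) = ∑ q : V × V,
        (if H.Adj q.1 q.2 ∧ σ q.1 = true ∧ σ q.2 = false then (1 : ℝ) else 0) ^ 2 := by
      rw [cr, Fintype.sum_prod_type]
      exact sum_congr rfl fun u _ => sum_congr rfl fun v _ => by split_ifs <;> simp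
    have e2 : cr H σ x = ∑ q : V × V,
        (if H.Adj q.1 q.2 ∧ σ q.1 = true ∧ σ q.2 = false then (1 : ℝ) else 0) *
          (if H.Adj q.1 q.2 ∧ σ q.1 = true ∧ σ q.2 = false then x q.1 * x q.2 else 0) := by
      rw [cr, Fintype.sum_prod_type]
      exact sum_congr rfl fun u _ => sum_congr rfl fun v _ => by split_ifs <;> simp
    rw [e, e1, e2]
    exact sum_mul_sq_le_sq_mul_sq _ _ _
  · exact sum_nonneg fun u _ => sum_nonneg fun v _ => by split_ifs <;> positivity
  · exact sum_nonneg fun u _ => sum_nonneg fun v _ => by split_ifs <;> positivity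
  · refine (qf_le_Part _ x).trans ?_
    unfold sw wt
    rw [mul_sum]
    refine sum_le_sum fun u _ => ?_
    by_cases h : σ u = c
    · rw [if_pos h]; exact mul_le_mul_of_nonneg_right (hD u h) (sq_nonneg _)
    · simp [dg, ns, sg_adj_Part, h]

end WQ
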