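import Pool.Agent.MP_1392dc_co.QBase

/-! The case `k ≥ 3` with a threshold of order `k ^ 2`: working definitions and the statements
of the steps of the proof. -/

namespace WQ

open W5 Finset
open scoped Classical

section
variable {V : Type} [Fintype V]

/-- No wheel whose rim has at least `2 k` vertices. -/
def Free (k : ℕ) (G : SimpleGraph V) : Prop := ∀ n, 2 * k ≤ n → ¬ (wheel n).IsContained G

/-- The number of vertices with a property, as a real number. -/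
noncomputable def ct (S : V → Prop) : ℝ := ∑ v, if S v then 1 else 0

/-- The edges with both ends on side `c`. -/
def sg (H : SimpleGraph V) (σ : V → Bool) (c : Bool) : SimpleGraph V where
  Adj u v := H.Adj u v ∧ σ u = c ∧ σ v = c
  symm := ⟨fun _ _ h => ⟨h.1.symm, h.2.2, h.2.1⟩⟩
  loopless := ⟨fun _ h => h.1.ne rfl⟩

/-- Sum of `f u * f v` over the edges between the two sides. -/
noncomputable def cr (H : SimpleGraph V) (σ : V → Bool) (f : V → ℝ) : ℝ :=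
  ∑ u, ∑ v, if H.Adj u v ∧ σ u = true ∧ σ v = false then f u * f v else 0

/-- Weight of the non-adjacent pairs between the two sides. -/
noncomputable def ms (H : SimpleGraph V) (σ : V → Bool) (x : V → ℝ) : ℝ :=
  ∑ u, ∑ v, if ¬ H.Adj u v ∧ σ u = true ∧ σ v = false then x u ^ 2 * x v ^ 2 else 0

/-- Weight of side `c`. -/
noncomputable def sw (x : V → ℝ) (σ : V → Bool) (c : Bool) : ℝ := wt x fun v => σ v = c

/-- Every vertex has at most `k - 1` neighbours on its own side. -/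
def Par (k : ℕ) (H : SimpleGraph V) (σ : V → Bool) : Prop :=
  ∀ c w, dg (sg H σ c) w ≤ (k : ℝ) - 1

/-- The properties of the core. -/
structure Core (k : ℕ) (H : SimpleGraph V) (l : ℝ) (x : V → ℝ) : Prop where
  k3 : 3 ≤ k
  pos : ∀ u, 0 ≤ x u
  eig : ∀ u, ns H x u = l * x u
  nrm : nn x = 2 * l - ((k : ℝ) - 1)
  free : Free k H
  big : 10 ^ 20 * (k : ℝ) ≤ l
  he : ∀ u v, H.Adj u v → 1 - eps ≤ 2 * x u * x v
  hv : ∀ u, (1 - eps) * dg H u ≤ l * x u ^ 2 + x u ^ 4 / 4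
  hm : ed H ≤ l ^ 2 - ((k : ℝ) - 1) * l + k * ((k : ℝ) - 1) / 2

/-- All entries are small. -/
def Light (k : ℕ) (l : ℝ) (x : V → ℝ) : Prop := ∀ u, k * x u ^ 2 ≤ kap * l

/-- The entries are almost constant on each side, and every vertex sees almost all of the
other side. -/
structure Flat (k : ℕ) (H : SimpleGraph V) (l : ℝ) (x : V → ℝ) (σ : V → Bool) (α : Bool → ℝ) :
    Prop where
  up : ∀ u, x u ≤ α (σ u)
  lo : ∀ u, NI H u → 0.99 * α (σ u) ≤ x u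
  nn0 : ∀ c, 0 ≤ α c
  sm : ∀ c, k * α c ^ 2 ≤ kap * l
  wlo : ∀ c, (1 - 3 / 10 ^ 6) * l ≤ sw x σ c
  wup : ∀ c, sw x σ c ≤ (1 + 3 / 10 ^ 6) * l
  miss : ∀ u, NI H u → wt x (fun v => σ v = (!σ u) ∧ ¬ H.Adj u v) ≤ 6 / 10 ^ 6 * l

/-- The large entries form side `true`. -/
noncomputable def hs (x : V → ℝ) (u0 : V) : V → Bool := fun v => decide (x u0 ≤ 10 * x v)

/-- The non-isolated part is a clique on `k` vertices joined to an independent set. -/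
def Spl (k : ℕ) (H : SimpleGraph V) (σ : V → Bool) : Prop :=
  ct (fun v => σ v = true) = k ∧
    ∀ u v, H.Adj u v ↔ u ≠ v ∧ NI H u ∧ NI H v ∧ (σ u = true ∨ σ v = true)

theorem ct_eq (S : V → Prop) : ct S = ((univ.filter S).card : ℝ) := by
  unfold ct
  rw [card_filter]
  push_cast
  rfl

theorem ct_nonneg (S : V → Prop) : 0 ≤ ct S :=
  sum_nonneg fun v _ => by split_ifs <;> norm_num

theorem ct_mono {S T : V → Prop} (h : ∀ v, S v → T v) : ct S ≤ ct T :=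
  sum_le_sum fun v _ => by
    by_cases hs : S v
    · simp [hs, h v hs]
    · simp only [hs, if_false]; split_ifs <;> norm_num

theorem dg_eq_ct (G : SimpleGraph V) (u : V) : dg G u = ct (G.Adj u) := rfl

theorem dg_nonneg (G : SimpleGraph V) (u : V) : 0 ≤ dg G u := ct_nonneg _

theorem ed_nonneg (G : SimpleGraph V) : 0 ≤ ed G :=
  div_nonneg (sum_nonneg fun u _ => dg_nonneg G u) (by norm_num)

theorem wt_le_ct (x : V → ℝ) (S : V → Prop) (c : ℝ) (h : ∀ v, S v → x v ^ 2 ≤ c) :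
    wt x S ≤ c * ct S := by
  unfold wt ct
  rw [mul_sum]
  refine sum_le_sum fun v _ => ?_
  split_ifs with hv
  · simpa using h v hv
  · simp

theorem ct_le_wt (x : V → ℝ) (S : V → Prop) (c : ℝ) (h : ∀ v, S v → c ≤ x v ^ 2) :
    c * ct S ≤ wt x S := by
  unfold wt ct
  rw [mul_sum]
  refine sum_le_sum fun v _ => ?_
  split_ifs with hv
  · simpa using h v hv
  · simp

/-- Cauchy-Schwarz on a set of vertices. -/
theorem sum_sq_le (x : V → ℝ) (S : V → Prop) :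
    (∑ v, if S v then x v else 0) ^ 2 ≤ ct S * wt x S := by
  have h := sum_mul_sq_le_sq_mul_sq univ (fun v => if S v then (1 : ℝ) else 0)
    (fun v => if S v then x v else 0)
  have e1 : (∑ v, if S v then x v else 0) =
      ∑ v, (if S v then (1 : ℝ) else 0) * (if S v then x v else 0) :=
    sum_congr rfl fun v _ => by split_ifs <;> simp
  have e2 : ct S = ∑ v, (if S v then (1 : ℝ) else 0) ^ 2 :=
    sum_congr rfl fun v _ => by split_ifs <;> simp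
  have e3 : wt x S = ∑ v, (if S v then x v else 0) ^ 2 :=
    sum_congr rfl fun v _ => by split_ifs <;> simp
  rw [e1, e2, e3]; exact h

theorem three_miss (x : V → ℝ) (C N₁ N₂ N₃ : V → Prop) :
    wt x C ≤ wt x (fun v => C v ∧ N₁ v ∧ N₂ v ∧ N₃ v) + wt x (fun v => C v ∧ ¬ N₁ v) +
      wt x (fun v => C v ∧ ¬ N₂ v) + wt x (fun v => C v ∧ ¬ N₃ v) := by
  unfold wt
  rw [← sum_add_distrib, ← sum_add_distrib, ← sum_add_distrib]
  refine sum_le_sum fun v _ => ?_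
  have h0 : 0 ≤ x v ^ 2 := sq_nonneg _
  by_cases hc : C v <;> by_cases h1 : N₁ v <;> by_cases h2 : N₂ v <;> by_cases h3 : N₃ v <;>
    simp [hc, h1, h2, h3] <;> linarith

theorem sw_add (x : V → ℝ) (σ : V → Bool) : sw x σ true + sw x σ false = nn x := by
  rw [← wt_compl x fun v => σ v = true]
  unfold sw
  simp

variable {k : ℕ} {H : SimpleGraph V} {l : ℝ} {x : V → ℝ}

theorem Core.kR (h : Core k H l x) : (3 : ℝ) ≤ k := by exact_mod_cast h.k3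

theorem Core.l1 (h : Core k H l x) : 10 ^ 20 ≤ l := by
  have := h.kR
  have := h.big
  nlinarith

theorem Core.l0 (h : Core k H l x) : 0 < l := lt_of_lt_of_le (by norm_num) h.l1

theorem Core.nn_le (h : Core k H l x) : nn x ≤ 2 * l := by
  have := h.kR
  rw [h.nrm]; linarith

theorem Core.ed_le (h : Core k H l x) : ed H ≤ l ^ 2 := by
  have h1 := h.kR
  have h2 := h.big
  have h3 := h.hm
  have : (k : ℝ) / 2 ≤ l := by linarith
  nlinarith [mul_le_mul_of_nonneg_left this (show (0 : ℝ) ≤ k - 1 by linarith)]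

theorem Core.zero (h : Core k H l x) {u : V} (hu : ¬ NI H u) : x u = 0 := by
  have h1 := h.eig u
  have h2 : ns H x u = 0 := by
    unfold ns
    refine sum_eq_zero fun v _ => ?_
    have : ¬ H.Adj u v := fun hv => hu ⟨v, hv⟩
    simp [this]
  rw [h2] at h1
  rcases mul_eq_zero.1 h1.symm with h3 | h3
  · exact absurd h3 h.l0.ne'
  · exact h3

theorem Core.xpos (h : Core k H l x) {u : V} (hu : NI H u) : 0 < x u := by
  obtain ⟨v, hv⟩ := hu
  have he := h.he u v hv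
  have h1 : (0 : ℝ) < 1 - eps := by unfold eps; norm_num
  refine lt_of_le_of_ne (h.pos u) fun e => ?_
  rw [← e] at he
  simp at he
  linarith

theorem Core.exNI (h : Core k H l x) : ∃ u, NI H u := by
  by_contra g
  push Not at g
  have h1 : nn x = 0 := sum_eq_zero fun u _ => by rw [h.zero (g u)]; norm_num
  have := h.big
  have := h.kR
  rw [h.nrm] at h1
  linarith

/-- Every non-isolated vertex of the core sees a large weight. -/
theorem Core.nb (hc : Core k H l x) {u : V} (hu : NI H u) :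
    (1 - eps) * l ^ 2 ≤ wt x (H.Adj u) * (l + x u ^ 2 / 4) := by
  have h1 : (0 : ℝ) < 1 - eps := by unfold eps; norm_num
  have hx2 : 0 < x u ^ 2 := by have := hc.xpos hu; positivity
  have h2 := ns_sq_le H x u
  rw [hc.eig u] at h2
  have h3 := hc.hv u
  have hw := wt_nonneg x (H.Adj u)
  have h4 : (1 - eps) * (l * x u) ^ 2 ≤ (l * x u ^ 2 + x u ^ 4 / 4) * wt x (H.Adj u) := by
    calc (1 - eps) * (l * x u) ^ 2 ≤ (1 - eps) * (dg H u * wt x (H.Adj u)) :=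
          mul_le_mul_of_nonneg_left h2 h1.le
      _ = ((1 - eps) * dg H u) * wt x (H.Adj u) := by ring
      _ ≤ _ := mul_le_mul_of_nonneg_right h3 hw
  refine le_of_mul_le_mul_right ?_ hx2
  calc (1 - eps) * l ^ 2 * x u ^ 2 = (1 - eps) * (l * x u) ^ 2 := by ring
    _ ≤ _ := h4
    _ = _ := by ring

theorem Light.le (hc : Core k H l x) (h : Light k l x) (u : V) : x u ^ 2 ≤ kap * l := by
  have h1 := h u
  have h2 := hc.kR
  nlinarith [sq_nonneg (x u)]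

end

/-- A cycle in the neighbourhood of `w` gives a wheel. -/
def WheelS : Prop := ∀ (V : Type) [Fintype V] (G : SimpleGraph V) (w : V) (f : ℕ → V) (n : ℕ),
  3 ≤ n → (∀ i < n, ∀ j < n, f i = f j → i = j) → (∀ i, i + 1 < n → G.Adj (f i) (f (i + 1))) →
  G.Adj (f (n - 1)) (f 0) → (∀ i < n, G.Adj w (f i)) → (wheel n).IsContained G

/-- Neighbourhoods are degenerate. -/
def MinS : Prop := ∀ (V : Type) [Fintype V] (k : ℕ) (H : SimpleGraph V), 2 ≤ k → Free k H →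
  ∀ (w : V) (S : Finset V), S.Nonempty → (∀ v ∈ S, H.Adj w v) →
    ∃ q ∈ S, (S.filter fun p => H.Adj q p).card ≤ 2 * k

def DegS : Prop := ∀ (V : Type) [Fintype V] (k : ℕ) (H : SimpleGraph V), 2 ≤ k → Free k H →
  ∀ (w : V) (f : V → ℝ), (∀ v, 0 ≤ f v) →
    (∑ p, ∑ q, if H.Adj w p ∧ H.Adj w q ∧ H.Adj p q then min (f p) (f q) else 0) ≤
      4 * k * ns H f w

def Cy2S : Prop := ∀ (V : Type) [Fintype V] (k : ℕ) (H : SimpleGraph V), 2 ≤ k → Free k H →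
  ∀ (w : V) (P : V → Prop),
    (∀ a b, H.Adj w a → H.Adj w b → P a → P b →
      2 * (k : ℝ) ≤ ct fun v => H.Adj w v ∧ H.Adj a v ∧ H.Adj b v) →
    ct (fun v => H.Adj w v ∧ P v) ≤ (k : ℝ) - 1

def Cy3S : Prop := ∀ (V : Type) [Fintype V] (k : ℕ) (H : SimpleGraph V), 2 ≤ k → Free k H →
  ∀ (w : V) (U : Finset V), 2 * k ≤ 3 * U.card → (∀ a ∈ U, H.Adj w a) →
    (∀ a ∈ U, ∀ b ∈ U, ∀ X : Finset V, X.card ≤ 3 * U.card → ∃ p q, p ∉ X ∧ q ∉ X ∧
      H.Adj p q ∧ H.Adj w p ∧ H.Adj w q ∧ H.Adj a p ∧ H.Adj b q) → False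

def CoreS : Prop := ∀ (V : Type) [Fintype V] (k : ℕ) (G : SimpleGraph V), 3 ≤ k → Free k G →
  10 ^ 48 * (k : ℝ) ^ 2 ≤ ed G →
  ed G ≤ lam G ^ 2 - ((k : ℝ) - 1) * lam G + k * ((k : ℝ) - 1) / 2 →
  ∃ (H : SimpleGraph V) (l : ℝ) (x : V → ℝ), H ≤ G ∧ Core k H l x ∧
    lam G ^ 2 - ((k : ℝ) - 1) * lam G - ed G + eps * (ed G - ed H) ≤
      l ^ 2 - ((k : ℝ) - 1) * l - ed H

def PartS : Prop := ∀ (V : Type) [Fintype V] (H : SimpleGraph V) (σ : V → Bool) (x : V → ℝ),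
  (∀ l : ℝ, (∀ u, ns H x u = l * x u) → ∀ c, l * sw x σ c = qf (sg H σ c) x + cr H σ x) ∧
  ed H = ed (sg H σ true) + ed (sg H σ false) + cr H σ (fun _ => 1) ∧
  cr H σ x ^ 2 ≤ cr H σ (fun _ => 1) * (sw x σ true * sw x σ false - ms H σ x) ∧
  0 ≤ ms H σ x ∧ 0 ≤ cr H σ (fun _ => 1) ∧
  (∀ c, qf (sg H σ c) x ≤ ∑ u, dg (sg H σ c) u * x u ^ 2) ∧
  (∀ (c : Bool) (D : ℝ), (∀ u, σ u = c → dg (sg H σ c) u ≤ D) →
    qf (sg H σ c) x ≤ D * sw x σ c)

/-- Stanley's inequality for the quadratic form of a side. -/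
def StanS : Prop := ∀ (V : Type) [Fintype V] (H : SimpleGraph V) (σ : V → Bool) (x : V → ℝ)
  (c : Bool), qf (sg H σ c) x ^ 2 + qf (sg H σ c) x * sw x σ c ≤
    2 * ed (sg H σ c) * sw x σ c ^ 2

def KstS : Prop := ∀ (V : Type) [Fintype V] (k : ℕ) (H : SimpleGraph V) (l : ℝ) (x : V → ℝ),
  Core k H l x → Light k l x → ∀ w,
    (∑ a, if H.Adj w a then x a ^ 2 * wt x (fun b => H.Adj a b ∧ H.Adj w b) else 0) ≤ l ^ 2 / 200

def Light1S : Prop := ∀ (V : Type) [Fintype V] (k : ℕ) (H : SimpleGraph V) (l : ℝ) (x : V → ℝ),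
  Core k H l x → Light k l x → ∃ A B : V → Prop, (∀ v, A v → ¬ B v) ∧
    0.989 * l ≤ wt x A ∧ 0.999 * l ≤ wt x B ∧
    ∀ w, wt x (fun v => H.Adj w v ∧ A v) * wt x (fun v => H.Adj w v ∧ B v) ≤ 0.014 * l ^ 2

def LightS : Prop := ∀ (V : Type) [Fintype V] (k : ℕ) (H : SimpleGraph V) (l : ℝ) (x : V → ℝ),
  Core k H l x → Light k l x → ∃ σ, Par k H σ

def XbS : Prop := ∀ (V : Type) [Fintype V] (k : ℕ) (H : SimpleGraph V) (l : ℝ) (x : V → ℝ)
  (σ : V → Bool), Core k H l x → Light k l x → Par k H σ → ∃ α, Flat k H l x σ α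

def LariS : Prop := ∀ k l W W' Q Q' e e' a a' M E : ℝ, 3 ≤ k → 10 ^ 20 * k ≤ l →
  (1 - 3 / 10 ^ 6) * l ≤ W → W ≤ (1 + 3 / 10 ^ 6) * l →
  (1 - 3 / 10 ^ 6) * l ≤ W' → W' ≤ (1 + 3 / 10 ^ 6) * l →
  0 ≤ Q → Q ≤ (k - 1) * W → 0 ≤ Q' → Q' ≤ (k - 1) * W' →
  Q ≤ 2 * e * a ^ 2 → Q' ≤ 2 * e' * a' ^ 2 → 0 ≤ e → 0 ≤ e' → 0 ≤ a → 0 ≤ a' →
  k * a ^ 2 ≤ kap * l → k * a' ^ 2 ≤ kap * l → l * W = Q + M → l * W' = Q' + M →
  M ^ 2 ≤ E * (W * W') → 0.9801 * (a * a') * E ≤ M →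
  e + e' + E ≤ l ^ 2 - (k - 1) * l + k * (k - 1) / 2 → 0.8 * (k - 1) * W ≤ Q

def LdenS : Prop := ∀ (V : Type) [Fintype V] (k : ℕ) (H : SimpleGraph V) (l : ℝ) (x : V → ℝ)
  (σ : V → Bool) (α : Bool → ℝ), Core k H l x → Par k H σ → Flat k H l x σ α →
    ∀ c, 0.8 * ((k : ℝ) - 1) * sw x σ c ≤ qf (sg H σ c) x

def LpairS : Prop := ∀ (V : Type) [Fintype V] (k : ℕ) (H : SimpleGraph V) (l : ℝ) (x : V → ℝ)
  (σ : V → Bool) (α : Bool → ℝ), Core k H l x → Par k H σ → Flat k H l x σ α →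
    0.8 * ((k : ℝ) - 1) * sw x σ false ≤ qf (sg H σ false) x →
    ∀ D : V → Prop, wt x (fun v => σ v = false ∧ D v) ≤ l / 1000 →
      ∃ p q, H.Adj p q ∧ σ p = false ∧ σ q = false ∧ ¬ D p ∧ ¬ D q

def LfinS : Prop := ∀ (V : Type) [Fintype V] (k : ℕ) (H : SimpleGraph V) (l : ℝ) (x : V → ℝ)
  (σ : V → Bool) (α : Bool → ℝ), Core k H l x → Par k H σ → Flat k H l x σ α → False

def H1S : Prop := ∀ (V : Type) [Fintype V] (k : ℕ) (H : SimpleGraph V) (l : ℝ) (x : V → ℝ)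
  (u0 : V), Core k H l x → (∀ v, x v ≤ x u0) → ed (sg H (hs x u0) false) ≤ 3 * k * l

def H2S : Prop := ∀ (V : Type) [Fintype V] (k : ℕ) (H : SimpleGraph V) (l : ℝ) (x : V → ℝ)
  (u0 : V), Core k H l x → (∀ v, x v ≤ x u0) → kap * l ≤ k * x u0 ^ 2 →
    ct (fun v => hs x u0 v = true) ≤ l / 10 ^ 11 ∧ ∀ c, sw x (hs x u0) c ≤ 1.001 * l

def H3S : Prop := ∀ (V : Type) [Fintype V] (k : ℕ) (H : SimpleGraph V) (l : ℝ) (x : V → ℝ)
  (u0 : V), Core k H l x → (∀ v, x v ≤ x u0) → 0 < x u0 →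
    ct (fun v => hs x u0 v = true) ≤ l / 10 ^ 11 → (∀ c, sw x (hs x u0) c ≤ 1.001 * l) →
    ∀ v, hs x u0 v = false → x v ≤ 1 / 10 ^ 5

def H4S : Prop := ∀ (V : Type) [Fintype V] (k : ℕ) (H : SimpleGraph V) (l : ℝ) (x : V → ℝ)
  (u0 : V), Core k H l x → (∀ v, x v ≤ x u0) → 0 < x u0 →
    ct (fun v => hs x u0 v = true) ≤ l / 10 ^ 11 → (∀ c, sw x (hs x u0) c ≤ 1.001 * l) →
    (∀ v, hs x u0 v = false → x v ≤ 1 / 10 ^ 5) →
    Par k H (hs x u0) ∧ ∀ u v, ¬ (sg H (hs x u0) false).Adj u v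

def HfinS : Prop := ∀ (V : Type) [Fintype V] (k : ℕ) (H : SimpleGraph V) (l : ℝ) (x : V → ℝ)
  (σ : V → Bool), Core k H l x → Par k H σ → (∀ u v, ¬ (sg H σ false).Adj u v) →
    (∃ u, σ u = true) → (∀ u, σ u = true → 0 < x u) →
    ed H = l ^ 2 - ((k : ℝ) - 1) * l + k * ((k : ℝ) - 1) / 2 ∧ Spl k H σ

def IsoS : Prop := ∀ (V : Type) [Fintype V] (k : ℕ) (G : SimpleGraph V) (σ : V → Bool),
  (∀ u, NI G u) → Spl k G σ →
    ∃ s : ℕ, ed G = k * ((k : ℝ) - 1) / 2 + k * s ∧ Nonempty (G ≃g split k s)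

def SplitS : Prop := ∀ (V : Type) [Fintype V] (k s : ℕ) (G : SimpleGraph V) (θ : ℝ), 1 ≤ k →
  Nonempty (G ≃g split k s) → 0 < θ → θ ^ 2 - ((k : ℝ) - 1) * θ = k * s → θ ≤ lam G

def LowS : Prop := ∀ k m : ℕ, 2 ≤ k → 2 * k ^ 2 ≤ m + k → 2 * m + 3 * k < 5 * k ^ 2 →
  ¬ Holds k m

end WQ
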