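import Pool.Agent.MP_1392dc_co.QSt

/-! Stanley's inequality for the quadratic form of one side. -/

namespace WQ

open W5 Finset
open scoped Classical

section
variable {V : Type} [Fintype V]

theorem qf_le_Stan (G : SimpleGraph V) (x : V → ℝ) : qf G x ≤ ∑ u, dg G u * x u ^ 2 := by
  have e1 : ∑ u, dg G u * x u ^ 2 = ∑ u, ∑ v, if G.Adj u v then x u ^ 2 else 0 := by
    refine sum_congr rfl fun u _ => ?_
    unfold dg ns
    rw [sum_mul]
    exact sum_congr rfl fun v _ => by split_ifs <;> simp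
  have e2 : (∑ u, ∑ v, if G.Adj u v then x u ^ 2 else 0) =
      ∑ u, ∑ v, if G.Adj u v then x v ^ 2 else 0 := by
    rw [sum_comm]
    refine sum_congr rfl fun u _ => sum_congr rfl fun v _ => ?_
    simp only [G.adj_comm v u]
  have e3 : 2 * qf G x ≤ (∑ u, ∑ v, if G.Adj u v then x u ^ 2 else 0) +
      ∑ u, ∑ v, if G.Adj u v then x v ^ 2 else 0 := by
    rw [qf_eq, mul_sum, ← sum_add_distrib]
    refine sum_le_sum fun u _ => ?_
    rw [mul_sum, ← sum_add_distrib]
    refine sum_le_sum fun v _ => ?_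
    split_ifs
    · nlinarith [sq_nonneg (x u - x v)]
    · simp
  rw [← e2, ← e1] at e3
  linarith

theorem nb_le_Stan (H : SimpleGraph V) (σ : V → Bool) (x : V → ℝ) (c : Bool) (u : V) :
    dg (sg H σ c) u * wt x ((sg H σ c).Adj u) ≤ dg (sg H σ c) u * (sw x σ c - x u ^ 2) := by
  by_cases hu : σ u = c
  · refine mul_le_mul_of_nonneg_left ?_ (dg_nonneg _ _)
    have h1 : wt x (fun v => σ v = c ∧ v = u) = x u ^ 2 := by
      unfold wt
      rw [sum_eq_single u]
      · simp [hu]
      · intro b _ hb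
        simp [hb]
      · simp
    have h2 := wt_split x (fun v => σ v = c) (fun v => v = u)
    have h3 : wt x ((sg H σ c).Adj u) ≤ wt x (fun v => σ v = c ∧ ¬ v = u) :=
      wt_mono x fun v hv => ⟨hv.2.2, fun e => hv.ne e.symm⟩
    unfold sw
    linarith
  · have h0 : dg (sg H σ c) u = 0 := by
      unfold dg ns
      refine sum_eq_zero fun v _ => ?_
      have : ¬ (sg H σ c).Adj u v := fun hv => hu hv.2.1
      simp [this]
    rw [h0]
    simp

end

theorem stanS : StanS := by
  intro V _ H σ x c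
  set G := sg H σ c with hG
  have hW : 0 ≤ sw x σ c := wt_nonneg _ _
  have e1 : qf G x = ∑ u, (if σ u = c then x u else 0) * ns G x u := by
    unfold qf
    refine sum_congr rfl fun u _ => ?_
    by_cases hu : σ u = c
    · simp [hu]
    · have h0 : ns G x u = 0 := by
        unfold ns
        refine sum_eq_zero fun v _ => ?_
        have : ¬ G.Adj u v := fun hv => hu hv.2.1
        simp [this]
      simp [h0]
  have e2 : sw x σ c = ∑ u, (if σ u = c then x u else 0) ^ 2 := by
    unfold sw wt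
    exact sum_congr rfl fun v _ => by by_cases h : σ v = c <;> simp [h]
  have h1 : qf G x ^ 2 ≤ sw x σ c * ∑ u, ns G x u ^ 2 := by
    rw [e1, e2]
    exact sum_mul_sq_le_sq_mul_sq univ _ _
  have h2 : ∑ u, ns G x u ^ 2 ≤ ∑ u, dg G u * (sw x σ c - x u ^ 2) :=
    sum_le_sum fun u _ => (ns_sq_le G x u).trans (nb_le_Stan H σ x c u)
  have h3 : ∑ u, dg G u * (sw x σ c - x u ^ 2) =
      2 * ed G * sw x σ c - ∑ u, dg G u * x u ^ 2 := by
    unfold ed
    rw [mul_div_cancel₀ _ (by norm_num : (2 : ℝ) ≠ 0), sum_mul, ← sum_sub_distrib]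
    exact sum_congr rfl fun u _ => by ring
  have h4 := qf_le_Stan G x
  have h5 : ∑ u, ns G x u ^ 2 ≤ 2 * ed G * sw x σ c - qf G x := by linarith
  have h6 := mul_le_mul_of_nonneg_left h5 hW
  nlinarith

end WQ
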