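import Pool.Agent.MP_1392dc_co.QSt

/-! Wheels from cycles in a neighbourhood; neighbourhoods are degenerate. -/

namespace WQ

open W5 Finset
open scoped Classical

theorem cyc_Wheel {n : ℕ} (i j : Fin n) (h : (i - j).val = 1) :
    j.val + 1 = i.val ∨ (i.val = 0 ∧ j.val = n - 1) := by
  have hi := i.2
  have hj := j.2
  rw [Fin.sub_def] at h
  simp only at h
  by_cases c : n - j.val + i.val < n
  · rw [Nat.mod_eq_of_lt c] at h
    omega
  · rw [Nat.mod_eq_sub_mod (by omega), Nat.mod_eq_of_lt (by omega)] at h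
    omega

theorem wheelS : WheelS := by
  intro V _ G w f n hn hinj hadj hlast hw
  have key : ∀ i j : Fin n, (i - j).val = 1 → G.Adj (f j.val) (f i.val) := fun i j h => by
    rcases cyc_Wheel i j h with e | ⟨e1, e2⟩
    · rw [← e]; exact hadj _ (by rw [e]; exact i.2)
    · rw [e1, e2]; exact hlast
  refine ⟨⟨⟨fun o => o.elim w fun i => f i.val, ?_⟩, ?_⟩⟩
  · rintro (_ | i) (_ | j) h
    · exact absurd h (wheel n).irrefl
    · exact hw _ j.2
    · exact (hw _ i.2).symm
    · have h' : (SimpleGraph.cycleGraph n).Adj i j := h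
      rcases SimpleGraph.cycleGraph_adj'.1 h' with e | e
      · exact (key i j e).symm
      · exact key j i e
  · rintro (_ | i) (_ | j) h
    · rfl
    · exact absurd h (hw _ j.2).ne
    · exact absurd h (hw _ i.2).ne'
    · exact congrArg some (Fin.ext (hinj _ i.2 _ j.2 h))

theorem minS (hW : WheelS) : MinS := by
  intro V _ k H hk hF w S hS hw
  by_contra hc
  push Not at hc
  let P : ℕ → Prop := fun n => ∃ f : ℕ → V, (∀ i < n, ∀ j < n, f i = f j → i = j) ∧
    (∀ i < n, f i ∈ S) ∧ ∀ i, i + 1 < n → H.Adj (f i) (f (i + 1))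
  have hb : ∀ n, P n → n ≤ Fintype.card V := fun n ⟨f, h1, _, _⟩ => by
    simpa using Fintype.card_le_of_injective (fun i : Fin n => f i.val)
      fun i j e => Fin.ext (h1 _ i.2 _ j.2 e)
  obtain ⟨v, hv⟩ := hS
  have h1 : P 1 := ⟨fun _ => v, fun i hi j hj _ => by omega, fun _ _ => hv, fun i hi => by omega⟩
  obtain ⟨n, hn⟩ : ∃ n, n = Nat.findGreatest P (Fintype.card V) := ⟨_, rfl⟩
  have hn1 : 1 ≤ n := hn ▸ Nat.le_findGreatest (hb 1 h1) h1
  have hP : P n := hn ▸ Nat.findGreatest_spec (hb 1 h1) h1
  have hmax : ¬ P (n + 1) := fun h => by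
    have := Nat.le_findGreatest (hb _ h) h
    omega
  obtain ⟨f, hi, hs, ha⟩ := hP
  have hon : ∀ p ∈ S, H.Adj (f 0) p → ∃ i < n, f i = p := fun p hp hadj => by
    by_contra hno
    push Not at hno
    refine hmax ⟨fun i => Nat.casesOn i p f, ?_, ?_, ?_⟩
    · rintro (_ | i) h (_ | j) h' e
      · rfl
      · exact absurd e.symm (hno j (by omega))
      · exact absurd e (hno i (by omega))
      · exact congrArg _ (hi i (by omega) j (by omega) e)
    · rintro (_ | i) h
      · exact hp
      · exact hs i (by omega)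
    · rintro (_ | i) h
      · exact hadj.symm
      · exact ha i (by omega)
  have hex : ∃ i < n, 2 * k ≤ i ∧ H.Adj (f 0) (f i) := by
    by_contra hno
    push Not at hno
    have hsub : (S.filter fun p => H.Adj (f 0) p) ⊆ (range (2 * k)).image f := fun p hp => by
      obtain ⟨i, h, rfl⟩ := hon p (mem_filter.1 hp).1 (mem_filter.1 hp).2
      refine mem_image_of_mem f (mem_range.2 ?_)
      by_contra hge
      exact hno i h (by omega) (mem_filter.1 hp).2
    have h2 := (card_le_card hsub).trans card_image_le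
    rw [card_range] at h2
    exact absurd (hc (f 0) (hs 0 (by omega))) (not_lt.2 h2)
  obtain ⟨i, hin, hki, hadj⟩ := hex
  exact hF (i + 1) (by omega) (hW V H w f (i + 1) (by omega)
    (fun a h b h' => hi a (by omega) b (by omega)) (fun a h => ha a (by omega))
    hadj.symm fun a h => hw _ (hs a (by omega)))

end WQ
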