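import Pool.Agent.MP_1392dc_co.RSt

/-! Wheels from cycles, the core, the partition identities, the extremal graph and the small sizes. -/

namespace WR

open W5 WQ Finset
open scoped Classical

theorem cyc_Wheel {n : ℕ} (i j : Fin n) (h : (i - j).val = 1) :
    j.val + 1 = i.val ∨ (i.val = 0 ∧ j.val = n - 1) := by
  have hi := i.2
  have hj := j.2
  rw [Fin.sub_def] at h
  simp only at h
  by_cases c : n - j.val + i.val < n
  · rw [Nat.mod_eq_of_lt c] at h
    omega
  · rw [Nat.mod_eq_sub_mod (by omega), Nat.mod_eq_of_lt (by omega)] at h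
    omega

theorem wheelS : WheelS := by
  intro V _ G w f n hn hinj hadj hlast hw
  have key : ∀ i j : Fin n, (i - j).val = 1 → G.Adj (f j.val) (f i.val) := fun i j h => by
    rcases cyc_Wheel i j h with e | ⟨e1, e2⟩
    · rw [← e]; exact hadj _ (by rw [e]; exact i.2)
    · rw [e1, e2]; exact hlast
  refine ⟨⟨⟨fun o => o.elim w fun i => f i.val, ?_⟩, ?_⟩⟩
  · rintro (_ | i) (_ | j) h
    · exact absurd h (wheel n).irrefl
    · exact hw _ j.2
    · exact (hw _ i.2).symm
    · have h' : (SimpleGraph.cycleGraph n).Adj i j := h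
      rcases SimpleGraph.cycleGraph_adj'.1 h' with e | e
      · exact (key i j e).symm
      · exact key j i e
  · rintro (_ | i) (_ | j) h
    · rfl
    · exact absurd h (hw _ j.2).ne
    · exact absurd h (hw _ i.2).ne'
    · exact congrArg some (Fin.ext (hinj _ i.2 _ j.2 h))

theorem scale_Core {V : Type} [Fintype V] {H : SimpleGraph V} {l K : ℝ} {y : V → ℝ}
    (hy : Per H l y) (h1 : 1 ≤ l) (hK : K ≤ 2 * l) :
    ∃ x : V → ℝ, (∀ u, 0 ≤ x u) ∧ (∀ u, ns H x u = l * x u) ∧ nn x = 2 * l - K ∧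
      qf H x = l * (2 * l - K) := by
  have p1 : 0 < 2 * l - 1 := by linarith
  have p2 : 0 ≤ (2 * l - K) / (2 * l - 1) := div_nonneg (by linarith) p1.le
  refine ⟨fun v => √((2 * l - K) / (2 * l - 1)) * y v,
    fun u => mul_nonneg (Real.sqrt_nonneg _) (hy.pos u), fun u => ?_, ?_, ?_⟩
  · rw [ns_smul_Per, hy.eig]; ring
  · rw [nn_smul_Per, Real.sq_sqrt p2, hy.nrm, div_mul_cancel₀ _ p1.ne']
  · rw [qf_smul_Per, Real.sq_sqrt p2, hy.qf_val, mul_comm l, ← mul_assoc,
      div_mul_cancel₀ _ p1.ne', mul_comm]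

theorem coreS : CoreS := by
  intro V _ k G hk hK hm hl
  have kR : (3 : ℝ) ≤ k := by exact_mod_cast hk
  obtain ⟨H, hHG, hmax⟩ := Set.exists_max_image {H : SimpleGraph V | H ≤ G}
    (fun H => lam H ^ 2 - ((k : ℝ) - 1) * lam H - (1 - eps) * ed H) (Set.toFinite _)
    ⟨G, le_refl G⟩
  have hHG' : H ≤ G := hHG
  have e0 : eps = 1 / 20480000 := rfl
  have h1 := hmax G (le_refl G)
  have h2 : 0 ≤ ed H := ed_nonneg H
  have h3 := (perS V H).1
  have h4 : ed H ≤ ed G := by
    obtain ⟨ν, hν⟩ := ((edS V G).2 H hHG').1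
    have := Nat.cast_nonneg (α := ℝ) ν
    linarith
  have hbig2 : 10 ^ 30 * (k : ℝ) ≤ lam H := by
    refine abs_le_of_sq_le_sq' ?_ h3 |>.2
    rw [e0] at h1
    have a1 : (10 ^ 30 * (k : ℝ)) ^ 2 = 10 ^ 60 * (k : ℝ) ^ 2 := by ring
    have a2 : 0 ≤ ((k : ℝ) - 1) * lam H := mul_nonneg (by linarith) h3
    have a3 : (k : ℝ) * ((k : ℝ) - 1) ≤ (k : ℝ) ^ 2 := by nlinarith
    have a4 : 0 ≤ (k : ℝ) ^ 2 := sq_nonneg _
    have a5 : (k : ℝ) ≤ (k : ℝ) ^ 2 := by nlinarith
    rw [a1]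
    linarith
  have hbig : 10 ^ 20 * (k : ℝ) ≤ lam H := by linarith
  have l1 : 1 ≤ lam H := by linarith
  obtain ⟨y, hy⟩ := (perS V H).2.2 l1
  obtain ⟨x, x0, xe, q2, q1⟩ := scale_Core (K := (k : ℝ) - 1) hy l1 (by linarith)
  have key : ∀ H' : SimpleGraph V, H' ≤ G → ∀ y, qf H' y - (nn y + ((k : ℝ) - 1)) ^ 2 / 4 ≤
      lam H ^ 2 - ((k : ℝ) - 1) * lam H - (1 - eps) * (ed H - ed H') := by
    intro H' hH' y
    have a0 := (perS V H').2.1 y
    have a1 : qf H' y - (nn y + ((k : ℝ) - 1)) ^ 2 / 4 ≤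
        lam H' ^ 2 - ((k : ℝ) - 1) * lam H' := by
      nlinarith [sq_nonneg ((nn y + ((k : ℝ) - 1)) / 2 - lam H')]
    have a2 := hmax H' hH'
    linarith
  refine ⟨H, lam H, x, hHG', ⟨hk, x0, xe, q2, fun hc => hK (hc.mono_right hHG'), hbig, hbig2,
    fun u v huv => ?_, fun u => ?_, ?_⟩, by linarith⟩
  · obtain ⟨H', hH'⟩ : ∃ H' : SimpleGraph V, ∀ a b, H'.Adj a b ↔
        H.Adj a b ∧ ¬ (a = u ∧ b = v) ∧ ¬ (a = v ∧ b = u) :=
      ⟨⟨fun a b => H.Adj a b ∧ ¬ (a = u ∧ b = v) ∧ ¬ (a = v ∧ b = u),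
        ⟨fun a b h => ⟨h.1.symm, fun g => h.2.2 ⟨g.2, g.1⟩, fun g => h.2.1 ⟨g.2, g.1⟩⟩⟩,
        ⟨fun a h => h.1.ne rfl⟩⟩, fun _ _ => Iff.rfl⟩
    obtain ⟨a1, a2⟩ := (opS V H).1 H' u v huv.ne (fun h => ((hH' u v).1 h).2.1 ⟨rfl, rfl⟩) (by
      intro a b
      rw [hH']
      constructor
      · tauto
      · rintro (h | ⟨rfl, rfl⟩ | ⟨rfl, rfl⟩)
        · exact h.1
        · exact huv
        · exact huv.symm)
    have a3 := key H' (fun a b h => hHG' ((hH' a b).1 h).1) x
    have a4 := a1 x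
    rw [q2, a2] at a3
    nlinarith
  · obtain ⟨H', hH'⟩ : ∃ H' : SimpleGraph V, ∀ a b, H'.Adj a b ↔ H.Adj a b ∧ a ≠ u ∧ b ≠ u :=
      ⟨⟨fun a b => H.Adj a b ∧ a ≠ u ∧ b ≠ u, ⟨fun a b h => ⟨h.1.symm, h.2.2, h.2.1⟩⟩,
        ⟨fun a h => h.1.ne rfl⟩⟩, fun _ _ => Iff.rfl⟩
    obtain ⟨a1, a2⟩ := (opS V H).2.1 H' u hH'
    have a3 := key H' (fun a b h => hHG' ((hH' a b).1 h).1) (Function.update x u 0)
    rw [a1, (opS V H).2.2, q1, q2, a2, xe] at a3
    nlinarith
  · have := mul_nonneg (show 0 ≤ eps by rw [e0]; norm_num) (sub_nonneg.2 h4)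
    linarith

variable {V : Type} [Fintype V]

theorem cr_swap_Part (H : SimpleGraph V) (σ : V → Bool) (f : V → ℝ) :
    cr H σ f = ∑ u, ∑ v, if H.Adj u v ∧ σ u = false ∧ σ v = true then f u * f v else 0 := by
  unfold cr
  rw [sum_comm]
  refine sum_congr rfl fun u _ => sum_congr rfl fun v _ => ?_
  rw [mul_comm (f v)]
  exact if_congr ⟨fun h => ⟨h.1.symm, h.2.2, h.2.1⟩, fun h => ⟨h.1.symm, h.2.2, h.2.1⟩⟩ rfl rfl

theorem sg_adj_Part (H : SimpleGraph V) (σ : V → Bool) (c : Bool) (u v : V) :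
    (sg H σ c).Adj u v ↔ H.Adj u v ∧ σ u = c ∧ σ v = c := Iff.rfl

theorem qf_le_Part (G : SimpleGraph V) (x : V → ℝ) : qf G x ≤ ∑ u, dg G u * x u ^ 2 := by
  have e1 : ∑ u, dg G u * x u ^ 2 = ∑ u, ∑ v, if G.Adj u v then x u ^ 2 else 0 := by
    refine sum_congr rfl fun u _ => ?_
    unfold dg ns
    rw [sum_mul]
    exact sum_congr rfl fun v _ => by split_ifs <;> simp
  have e2 : ∑ u, dg G u * x u ^ 2 = ∑ u, ∑ v, if G.Adj u v then x v ^ 2 else 0 := by
    rw [e1, sum_comm]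
    exact sum_congr rfl fun u _ => sum_congr rfl fun v _ => if_congr (G.adj_comm _ _) rfl rfl
  have : 2 * qf G x ≤ (∑ u, ∑ v, if G.Adj u v then x u ^ 2 else 0) +
      ∑ u, ∑ v, if G.Adj u v then x v ^ 2 else 0 := by
    rw [qf_eq, ← sum_add_distrib, mul_sum]
    refine sum_le_sum fun u _ => ?_
    rw [← sum_add_distrib, mul_sum]
    refine sum_le_sum fun v _ => ?_
    split_ifs
    · nlinarith [sq_nonneg (x u - x v)]
    · simp
  linarith

theorem partS : PartS := by
  intro V _ H σ x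
  refine ⟨fun l hl c => ?_, ?_, ?_, ?_, ?_, fun c => qf_le_Part _ x, fun c D hD => ?_⟩
  · have e : l * sw x σ c = ∑ u, ∑ v, if H.Adj u v ∧ σ u = c then x u * x v else 0 := by
      unfold sw wt
      rw [mul_sum]
      refine sum_congr rfl fun u _ => ?_
      by_cases h : σ u = c
      · have := hl u
        unfold ns at this
        simp only [h, if_true, and_true]
        rw [pow_two, mul_left_comm, ← this, mul_sum]
        exact sum_congr rfl fun v _ => by split_ifs <;> simp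
      · simp [h]
    rw [e, qf_eq]
    cases c
    · rw [cr_swap_Part, ← sum_add_distrib]
      refine sum_congr rfl fun u _ => ?_
      rw [← sum_add_distrib]
      refine sum_congr rfl fun v _ => ?_
      by_cases h : H.Adj u v <;> cases h1 : σ u <;> cases h2 : σ v <;>
        simp [sg_adj_Part, h, h1, h2]
    · rw [cr, ← sum_add_distrib]
      refine sum_congr rfl fun u _ => ?_
      rw [← sum_add_distrib]
      refine sum_congr rfl fun v _ => ?_
      by_cases h : H.Adj u v <;> cases h1 : σ u <;> cases h2 : σ v <;>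
        simp [sg_adj_Part, h, h1, h2]
  · have : 2 * ed H = 2 * ed (sg H σ true) + 2 * ed (sg H σ false) +
        (cr H σ (fun _ => 1) + cr H σ (fun _ => 1)) := by
      nth_rewrite 1 [cr_swap_Part]
      simp only [two_ed, cr, ← sum_add_distrib]
      refine sum_congr rfl fun u _ => sum_congr rfl fun v _ => ?_
      by_cases h : H.Adj u v <;> cases h1 : σ u <;> cases h2 : σ v <;>
        simp [sg_adj_Part, h, h1, h2]
    linarith
  · have e : sw x σ true * sw x σ false - ms H σ x = ∑ q : V × V,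
        (if H.Adj q.1 q.2 ∧ σ q.1 = true ∧ σ q.2 = false then x q.1 * x q.2 else 0) ^ 2 := by
      unfold sw wt ms
      rw [sum_mul_sum, Fintype.sum_prod_type, ← sum_sub_distrib]
      refine sum_congr rfl fun u _ => ?_
      rw [← sum_sub_distrib]
      refine sum_congr rfl fun v _ => ?_
      by_cases h : H.Adj u v <;> cases h1 : σ u <;> cases h2 : σ v <;>
        simp [h, h1, h2, mul_pow]
    have e1 : cr H σ (fun _ => 1) = ∑ q : V × V,
        (if H.Adj q.1 q.2 ∧ σ q.1 = true ∧ σ q.2 = false then (1 : ℝ) else 0) ^ 2 := by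
      rw [cr, Fintype.sum_prod_type]
      exact sum_congr rfl fun u _ => sum_congr rfl fun v _ => by split_ifs <;> simp
    have e2 : cr H σ x = ∑ q : V × V,
        (if H.Adj q.1 q.2 ∧ σ q.1 = true ∧ σ q.2 = false then (1 : ℝ) else 0) *
          (if H.Adj q.1 q.2 ∧ σ q.1 = true ∧ σ q.2 = false then x q.1 * x q.2 else 0) := by
      rw [cr, Fintype.sum_prod_type]
      exact sum_congr rfl fun u _ => sum_congr rfl fun v _ => by split_ifs <;> simp
    rw [e, e1, e2]
    exact sum_mul_sq_le_sq_mul_sq _ _ _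
  · exact sum_nonneg fun u _ => sum_nonneg fun v _ => by split_ifs <;> positivity
  · exact sum_nonneg fun u _ => sum_nonneg fun v _ => by split_ifs <;> positivity
  · refine (qf_le_Part _ x).trans ?_
    unfold sw wt
    rw [mul_sum]
    refine sum_le_sum fun u _ => ?_
    by_cases h : σ u = c
    · rw [if_pos h]; exact mul_le_mul_of_nonneg_right (hD u h) (sq_nonneg _)
    · simp [dg, ns, sg_adj_Part, h]

section
variable {V : Type} [Fintype V]

theorem qf_le_Stan (G : SimpleGraph V) (x : V → ℝ) : qf G x ≤ ∑ u, dg G u * x u ^ 2 := by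
  have e1 : ∑ u, dg G u * x u ^ 2 = ∑ u, ∑ v, if G.Adj u v then x u ^ 2 else 0 := by
    refine sum_congr rfl fun u _ => ?_
    unfold dg ns
    rw [sum_mul]
    exact sum_congr rfl fun v _ => by split_ifs <;> simp
  have e2 : (∑ u, ∑ v, if G.Adj u v then x u ^ 2 else 0) =
      ∑ u, ∑ v, if G.Adj u v then x v ^ 2 else 0 := by
    rw [sum_comm]
    refine sum_congr rfl fun u _ => sum_congr rfl fun v _ => ?_
    simp only [G.adj_comm v u]
  have e3 : 2 * qf G x ≤ (∑ u, ∑ v, if G.Adj u v then x u ^ 2 else 0) +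
      ∑ u, ∑ v, if G.Adj u v then x v ^ 2 else 0 := by
    rw [qf_eq, mul_sum, ← sum_add_distrib]
    refine sum_le_sum fun u _ => ?_
    rw [mul_sum, ← sum_add_distrib]
    refine sum_le_sum fun v _ => ?_
    split_ifs
    · nlinarith [sq_nonneg (x u - x v)]
    · simp
  rw [← e2, ← e1] at e3
  linarith

theorem nb_le_Stan (H : SimpleGraph V) (σ : V → Bool) (x : V → ℝ) (c : Bool) (u : V) :
    dg (sg H σ c) u * wt x ((sg H σ c).Adj u) ≤ dg (sg H σ c) u * (sw x σ c - x u ^ 2) := by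
  by_cases hu : σ u = c
  · refine mul_le_mul_of_nonneg_left ?_ (dg_nonneg _ _)
    have h1 : wt x (fun v => σ v = c ∧ v = u) = x u ^ 2 := by
      unfold wt
      rw [sum_eq_single u]
      · simp [hu]
      · intro b _ hb
        simp [hb]
      · simp
    have h2 := wt_split x (fun v => σ v = c) (fun v => v = u)
    have h3 : wt x ((sg H σ c).Adj u) ≤ wt x (fun v => σ v = c ∧ ¬ v = u) :=
      wt_mono x fun v hv => ⟨hv.2.2, fun e => hv.ne e.symm⟩
    unfold sw
    linarith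
  · have h0 : dg (sg H σ c) u = 0 := by
      unfold dg ns
      refine sum_eq_zero fun v _ => ?_
      have : ¬ (sg H σ c).Adj u v := fun hv => hu hv.2.1
      simp [this]
    rw [h0]
    simp

end

theorem stanS : StanS := by
  intro V _ H σ x c
  set G := sg H σ c with hG
  have hW : 0 ≤ sw x σ c := wt_nonneg _ _
  have e1 : qf G x = ∑ u, (if σ u = c then x u else 0) * ns G x u := by
    unfold qf
    refine sum_congr rfl fun u _ => ?_
    by_cases hu : σ u = c
    · simp [hu]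
    · have h0 : ns G x u = 0 := by
        unfold ns
        refine sum_eq_zero fun v _ => ?_
        have : ¬ G.Adj u v := fun hv => hu hv.2.1
        simp [this]
      simp [h0]
  have e2 : sw x σ c = ∑ u, (if σ u = c then x u else 0) ^ 2 := by
    unfold sw wt
    exact sum_congr rfl fun v _ => by by_cases h : σ v = c <;> simp [h]
  have h1 : qf G x ^ 2 ≤ sw x σ c * ∑ u, ns G x u ^ 2 := by
    rw [e1, e2]
    exact sum_mul_sq_le_sq_mul_sq univ _ _
  have h2 : ∑ u, ns G x u ^ 2 ≤ ∑ u, dg G u * (sw x σ c - x u ^ 2) :=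
    sum_le_sum fun u _ => (ns_sq_le G x u).trans (nb_le_Stan H σ x c u)
  have h3 : ∑ u, dg G u * (sw x σ c - x u ^ 2) =
      2 * ed G * sw x σ c - ∑ u, dg G u * x u ^ 2 := by
    unfold ed
    rw [mul_div_cancel₀ _ (by norm_num : (2 : ℝ) ≠ 0), sum_mul, ← sum_sub_distrib]
    exact sum_congr rfl fun u _ => by ring
  have h4 := qf_le_Stan G x
  have h5 : ∑ u, ns G x u ^ 2 ≤ 2 * ed G * sw x σ c - qf G x := by linarith
  have h6 := mul_le_mul_of_nonneg_left h5 hW
  nlinarith

/-- the quadratic form of the join at a vector that is constant on both parts -/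
theorem qf_Iso {V : Type} [Fintype V] {k s : ℕ} {G : SimpleGraph V} (φ : G ≃g split k s)
    (a b : ℝ) : qf G (fun v => Sum.elim (fun _ => a) (fun _ => b) (φ v)) =
        k * ((k : ℝ) - 1) * a ^ 2 + 2 * k * s * (a * b) ∧
      nn (fun v => Sum.elim (fun _ => a) (fun _ => b) (φ v)) = k * a ^ 2 + s * b ^ 2 := by
  obtain ⟨z, hz, z1, z2⟩ : ∃ z : Fin k ⊕ Fin s → ℝ, z = Sum.elim (fun _ => a) (fun _ => b) ∧
      (∀ i, z (.inl i) = a) ∧ ∀ i, z (.inr i) = b := ⟨_, rfl, fun _ => rfl, fun _ => rfl⟩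
  rw [← hz]
  constructor
  · have e : qf G (fun v => z (φ v)) =
        ∑ p, ∑ q, if (split k s).Adj p q then z p * z q else 0 := by
      rw [qf_eq, ← Equiv.sum_comp φ.toEquiv]
      refine sum_congr rfl fun u _ => ?_
      rw [← Equiv.sum_comp φ.toEquiv]
      refine sum_congr rfl fun v _ => ?_
      exact if_congr φ.map_adj_iff.symm rfl rfl
    have h1 : ∀ i : Fin k, (∑ j : Fin k, if (split k s).Adj (.inl i) (.inl j) then a * a else 0) =
        ((k : ℝ) - 1) * (a * a) := fun i => by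
      have : ∀ j : Fin k, (if (split k s).Adj (.inl i) (.inl j) then a * a else 0) =
          a * a - if i = j then a * a else 0 := fun j => by
        by_cases c : i = j <;> simp [split, c]
      simp only [this, sum_sub_distrib, sum_ite_eq, mem_univ, if_true, sum_const, card_univ,
        Fintype.card_fin, nsmul_eq_mul]
      ring
    have h2 : ∀ (i : Fin k) (j : Fin s), (split k s).Adj (.inl i) (.inr j) := fun _ _ => trivial
    have h3 : ∀ (i : Fin s) (j : Fin k), (split k s).Adj (.inr i) (.inl j) := fun _ _ => trivial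
    have h4 : ∀ (i j : Fin s), ¬ (split k s).Adj (.inr i) (.inr j) := fun _ _ h => h
    rw [e]
    simp only [Fintype.sum_sum_type, z1, z2, h1, h2, h3, h4, if_true, if_false, sum_const,
      card_univ, Fintype.card_fin, nsmul_eq_mul]
    ring
  · have e : nn (fun v => z (φ v)) = ∑ p, z p ^ 2 := Equiv.sum_comp φ.toEquiv fun p => z p ^ 2
    rw [e]
    simp only [Fintype.sum_sum_type, z1, z2, sum_const, card_univ, Fintype.card_fin, nsmul_eq_mul]

theorem isoS : IsoS := by
  intro V _ k G σ hni ⟨h1, h2⟩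
  have c1 : Fintype.card {u // σ u = true} = k := by
    rw [ct_eq] at h1
    have h3 := Nat.cast_injective (R := ℝ) h1
    rw [Fintype.card_subtype]
    convert h3
  obtain ⟨e₁⟩ : Nonempty (Fin k ≃ {u // σ u = true}) := ⟨(Fintype.equivFinOfCardEq c1).symm⟩
  obtain ⟨s, ⟨e₂⟩⟩ : ∃ s, Nonempty (Fin s ≃ {u // ¬ σ u = true}) :=
    ⟨_, ⟨(Fintype.equivFin _).symm⟩⟩
  have φ : G ≃g split k s := by
    refine SimpleGraph.Iso.symm
      ⟨(e₁.sumCongr e₂).trans (Equiv.sumCompl fun u => σ u = true), ?_⟩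
    rintro (i | i) (j | j)
    · show G.Adj (e₁ i).1 (e₁ j).1 ↔ i ≠ j
      refine ⟨fun h e => h.ne (by rw [e]), fun h => (h2 _ _).2 ⟨fun e => h ?_, hni _, hni _,
        Or.inl (e₁ i).2⟩⟩
      exact e₁.injective (Subtype.ext e)
    · refine iff_of_true ((h2 (e₁ i).1 (e₂ j).1).2 ⟨fun e => (e₂ j).2 (e ▸ (e₁ i).2), hni _, hni _,
        Or.inl (e₁ i).2⟩) trivial
    · refine iff_of_true ((h2 (e₂ i).1 (e₁ j).1).2 ⟨fun e => (e₂ i).2 (e ▸ (e₁ j).2), hni _, hni _,
        Or.inr (e₁ j).2⟩) trivial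
    · exact iff_of_false (fun h => ((h2 (e₂ i).1 (e₂ j).1).1 h).2.2.2.elim (e₂ i).2 (e₂ j).2)
        fun h => h
  refine ⟨s, ?_, ⟨φ⟩⟩
  have a := (qf_Iso φ 1 1).1
  have e : (fun v => Sum.elim (fun _ => (1 : ℝ)) (fun _ => (1 : ℝ)) (φ v)) = fun _ => 1 := by
    funext v
    cases φ v <;> rfl
  rw [e, qf_eq] at a
  have b := two_ed G
  simp only [mul_one] at a
  rw [a] at b
  linarith

theorem splitS : SplitS := by
  intro V _ k s G θ hk ⟨φ⟩ h0 hθ
  obtain ⟨a1, a2⟩ := qf_Iso φ θ k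
  have r := (perS V G).2.1 fun v => Sum.elim (fun _ => θ) (fun _ => (k : ℝ)) (φ v)
  rw [a1, a2] at r
  have hk' : (1 : ℝ) ≤ k := by exact_mod_cast hk
  have p : (0 : ℝ) < k * θ ^ 2 + s * (k : ℝ) ^ 2 := by positivity
  refine le_of_mul_le_mul_right (le_trans (le_of_eq ?_) r) p
  linear_combination (k * θ) * hθ

/-- A clique on n vertices and t disjoint edges. -/
def G_Low (n t : ℕ) : SimpleGraph (Fin n ⊕ Fin t × Bool) where
  Adj u v := match u, v with
    | Sum.inl i, Sum.inl j => i ≠ j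
    | Sum.inr a, Sum.inr b => a.1 = b.1 ∧ a.2 ≠ b.2
    | _, _ => False
  symm := ⟨by
    intro u v h
    cases u <;> cases v <;> simp_all [ne_comm]⟩
  loopless := ⟨by
    intro u h
    cases u <;> simp_all⟩

theorem ns_inl_Low (n t : ℕ) (x : Fin n ⊕ Fin t × Bool → ℝ) (hx : ∀ i, x (.inl i) = 1)
    (i : Fin n) : ns (G_Low n t) x (.inl i) = n - 1 := by
  have : ∀ j : Fin n, (if i = j then (0 : ℝ) else 1) = 1 - if i = j then 1 else 0 := fun j => by
    split_ifs <;> simp
  simp [ns, G_Low, hx, this]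

theorem dg_inr_Low (n t : ℕ) (a : Fin t × Bool) : dg (G_Low n t) (.inr a) = 1 := by
  obtain ⟨a, b⟩ := a
  unfold dg ns
  rw [sum_eq_single (Sum.inr (a, !b))]
  · exact if_pos ⟨rfl, by cases b <;> simp⟩
  · rintro (i | ⟨c, d⟩) - h
    · exact if_neg fun g => g
    · refine if_neg fun g => h ?_
      obtain ⟨g1, g2⟩ := g
      simp only at g1 g2
      subst g1
      cases b <;> cases d <;> simp_all
  · simp

theorem dg_le_Low (n t : ℕ) (hn : 2 ≤ n) (u : Fin n ⊕ Fin t × Bool) :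
    dg (G_Low n t) u ≤ n - 1 := by
  cases u with
  | inl i => exact (ns_inl_Low n t _ (fun _ => rfl) i).le
  | inr a =>
    have : (2 : ℝ) ≤ n := by exact_mod_cast hn
    rw [dg_inr_Low]; linarith

theorem lowS : LowS := by
  intro k m hk h1 h2 H
  obtain ⟨t, ht⟩ := Nat.exists_eq_add_of_le h1
  have hk' : (2 : ℝ) ≤ k := by exact_mod_cast hk
  have ht' : (m : ℝ) + k = 2 * k ^ 2 + t := by exact_mod_cast ht
  have h2' : 2 * (m : ℝ) + 3 * k < 5 * k ^ 2 := by exact_mod_cast h2
  have h3 := (H _ (G_Low (2 * k) t) (fun v => ?_) (fun s hs ⟨f⟩ => ?_) ?_).1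
  · let y : Fin (2 * k) ⊕ Fin t × Bool → ℝ := Sum.elim (fun _ => 1) fun _ => 0
    have h4 := (perS _ (G_Low (2 * k) t)).2.1 y
    have e1 : nn y = 2 * k := by simp [nn, y]
    have e2 : qf (G_Low (2 * k) t) y = 2 * k * (2 * k - 1) := by
      simp [qf, ns_inl_Low (2 * k) t y fun _ => rfl, y]
      ring
    have h5 : √(4 * (m : ℝ) - (k : ℝ) ^ 2 + 1) < 3 * k - 1 :=
      (Real.sqrt_lt' (by linarith)).2 (by nlinarith)
    rw [e1, e2] at h4
    nlinarith
  · rcases v with i | ⟨a, b⟩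
    · have : Nontrivial (Fin (2 * k)) := Fin.nontrivial_iff_two_le.2 (by omega)
      obtain ⟨j, hj⟩ := exists_ne i
      exact ⟨.inl j, hj.symm⟩
    · exact ⟨.inr (a, !b), rfl, by cases b <;> simp⟩
  · have h4 := dg_le_Low (2 * k) t (by omega) (f none)
    have h5 : (s - 1 : ℕ) ≤ (univ.filter fun v => (G_Low (2 * k) t).Adj (f none) v).card := by
      simpa using card_le_card_of_injOn (s := univ)
        (t := univ.filter fun v => (G_Low (2 * k) t).Adj (f none) v)
        (fun i : Fin (s - 1) => f (some i))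
        (fun i _ => by simpa using f.toHom.map_adj (v := none) (w := some i) trivial)
        fun i _ j _ h => Option.some.inj (f.injective h)
    have h6 : dg (G_Low (2 * k) t) (f none) =
        (univ.filter fun v => (G_Low (2 * k) t).Adj (f none) v).card := by
      simp [dg, ns]
    have h7 : ((2 * k : ℕ) : ℝ) ≤ (univ.filter fun v => (G_Low (2 * k) t).Adj (f none) v).card := by
      exact_mod_cast le_trans (by omega) h5
    linarith
  · have h4 := (edS _ (G_Low (2 * k) t)).1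
    have h5 : ed (G_Low (2 * k) t) = m := by
      have : ∀ i, dg (G_Low (2 * k) t) (.inl i) = (2 * k : ℕ) - 1 :=
        ns_inl_Low _ t _ fun _ => rfl
      simp [ed, this, dg_inr_Low]
      linarith
    exact_mod_cast h4.symm.trans h5

end WR
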