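import Pool.Agent.MP_1392dc_co.RSt

/-! The light case. -/

namespace WR

open W5 WQ Finset
open scoped Classical

theorem nb_Light {V : Type} [Fintype V] {k : ℕ} {H : SimpleGraph V} {l : ℝ} {x : V → ℝ}
    (hc : Core k H l x) (hx : Light k l x) {u : V} (hu : NI H u) :
    0.999 * l ≤ wt x (H.Adj u) := by
  have hl : (0 : ℝ) < l := hc.l0
  have h1 := hc.nb hu
  have h2 := hx.le hc u
  have h3 := wt_nonneg x (H.Adj u)
  have h4 : wt x (H.Adj u) * (l + x u ^ 2 / 4) ≤ wt x (H.Adj u) * (l + kap * l / 4) :=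
    mul_le_mul_of_nonneg_left (by linarith) h3
  have h5 : (1 - eps) * l * l ≤ wt x (H.Adj u) * (1 + kap / 4) * l := by nlinarith
  have h6 := le_of_mul_le_mul_right h5 hl
  unfold eps kap at h6
  nlinarith

theorem light1S (hK : KstS) : Light1S := by
  intro V _ k H l x hc hx2
  have hx := hx2.light hc
  have hl : (0 : ℝ) < l := hc.l0
  have hl1 : (1 : ℝ) ≤ l := le_trans (by norm_num) hc.l1
  have hn : nn x ≤ 2 * l := hc.nn_le
  obtain ⟨u0, hu0⟩ := hc.exNI
  have hB := nb_Light hc hx hu0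
  have hK0 := hK V k H l x hc hx2 u0
  obtain ⟨v0, hv0, hf0⟩ : ∃ v0, H.Adj u0 v0 ∧
      wt x (fun b => H.Adj v0 b ∧ H.Adj u0 b) ≤ l / 100 := by
    by_contra h
    push Not at h
    have h1 : wt x (H.Adj u0) * (l / 100) ≤
        ∑ a, if H.Adj u0 a then x a ^ 2 * wt x (fun b => H.Adj a b ∧ H.Adj u0 b) else 0 := by
      unfold wt
      rw [sum_mul]
      refine sum_le_sum fun a _ => ?_
      split_ifs with ha
      · exact mul_le_mul_of_nonneg_left (h a ha).le (sq_nonneg _)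
      · rw [zero_mul]
    nlinarith
  have hA : 0.989 * l ≤ wt x (fun b => H.Adj v0 b ∧ ¬ H.Adj u0 b) := by
    have h1 := wt_split x (H.Adj v0) (H.Adj u0)
    have h2 := nb_Light hc hx (u := v0) ⟨u0, hv0.symm⟩
    linarith
  refine ⟨fun b => H.Adj v0 b ∧ ¬ H.Adj u0 b, H.Adj u0, fun v hv => hv.2, hA, hB, fun w => ?_⟩
  have hP : ∀ v, H.Adj u0 v → wt x (fun b => H.Adj w b ∧ H.Adj v0 b ∧ ¬ H.Adj u0 b) ≤
      wt x (fun b => H.Adj v b ∧ H.Adj w b) + 0.002 * l +
        wt x (fun b => H.Adj v b ∧ H.Adj u0 b) := by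
    intro v hv
    have h1 := wt_split x (fun b => H.Adj w b ∧ H.Adj v0 b ∧ ¬ H.Adj u0 b) (H.Adj v)
    have h2 : wt x (fun b => (H.Adj w b ∧ H.Adj v0 b ∧ ¬ H.Adj u0 b) ∧ H.Adj v b) ≤
        wt x (fun b => H.Adj v b ∧ H.Adj w b) := wt_mono x fun b hb => ⟨hb.2, hb.1.1⟩
    have h3 : wt x (fun b => (H.Adj w b ∧ H.Adj v0 b ∧ ¬ H.Adj u0 b) ∧ ¬ H.Adj v b) ≤
        wt x (fun b => ¬ H.Adj u0 b ∧ ¬ H.Adj v b) := wt_mono x fun b hb => ⟨hb.1.2.2, hb.2⟩
    have h4 := wt_split x (fun b => ¬ H.Adj u0 b) (H.Adj v)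
    have h5 := wt_compl x (H.Adj u0)
    have h6 := wt_split x (H.Adj v) (H.Adj u0)
    have h7 : wt x (fun b => H.Adj v b ∧ ¬ H.Adj u0 b) ≤
        wt x (fun b => ¬ H.Adj u0 b ∧ H.Adj v b) := wt_mono x fun b hb => ⟨hb.2, hb.1⟩
    have h8 := nb_Light hc hx (u := v) ⟨u0, hv.symm⟩
    linarith
  have hKw := hK V k H l x hc hx2 w
  have h1 : wt x (fun b => H.Adj w b ∧ H.Adj v0 b ∧ ¬ H.Adj u0 b) *
      wt x (fun v => H.Adj w v ∧ H.Adj u0 v) ≤
      (∑ a, if H.Adj w a then x a ^ 2 * wt x (fun b => H.Adj a b ∧ H.Adj w b) else 0) +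
      nn x * (0.002 * l) +
      ∑ a, if H.Adj u0 a then x a ^ 2 * wt x (fun b => H.Adj a b ∧ H.Adj u0 b) else 0 := by
    have e : wt x (fun b => H.Adj w b ∧ H.Adj v0 b ∧ ¬ H.Adj u0 b) *
        wt x (fun v => H.Adj w v ∧ H.Adj u0 v) = ∑ v, if H.Adj w v ∧ H.Adj u0 v then
          x v ^ 2 * wt x (fun b => H.Adj w b ∧ H.Adj v0 b ∧ ¬ H.Adj u0 b) else 0 := by
      rw [mul_comm]
      conv_lhs => lhs; unfold wt
      rw [sum_mul]
      refine sum_congr rfl fun v _ => ?_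
      split_ifs <;> simp
    rw [e]
    unfold nn
    rw [sum_mul, ← sum_add_distrib, ← sum_add_distrib]
    refine sum_le_sum fun v _ => ?_
    have a1 := mul_nonneg (sq_nonneg (x v)) (wt_nonneg x (fun b => H.Adj v b ∧ H.Adj w b))
    have a2 := mul_nonneg (sq_nonneg (x v)) (wt_nonneg x (fun b => H.Adj v b ∧ H.Adj u0 b))
    have a3 : 0 ≤ x v ^ 2 * (0.002 * l) := by positivity
    by_cases h : H.Adj w v ∧ H.Adj u0 v
    · rw [if_pos h, if_pos h.1, if_pos h.2]
      have := mul_le_mul_of_nonneg_left (hP v h.2) (sq_nonneg (x v))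
      linarith
    · rw [if_neg h]
      split_ifs <;> linarith
  have h2 := mul_le_mul_of_nonneg_right hn (by positivity : 0 ≤ 0.002 * l)
  nlinarith

section
variable {V : Type} [Fintype V]

theorem miss_Light (x : V → ℝ) (A B N : V → Prop) (h : ∀ v, A v → ¬ B v) :
    wt x (fun v => B v ∧ ¬ N v) + wt x N + wt x A ≤ nn x + wt x (fun v => N v ∧ A v) := by
  unfold wt nn
  rw [← sum_add_distrib, ← sum_add_distrib, ← sum_add_distrib]
  refine sum_le_sum fun v _ => ?_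
  have h0 : 0 ≤ x v ^ 2 := sq_nonneg _
  have h1 := h v
  by_cases ha : A v <;> by_cases hb : B v <;> by_cases hn : N v <;> simp_all

theorem side_Light {k : ℕ} {H : SimpleGraph V} {l : ℝ} {x : V → ℝ} (hc : Core k H l x)
    (hx : Light k l x) (C : V → Prop) (hC : 0.98 * l ≤ wt x C) (w a b : V)
    (mw : wt x (fun v => C v ∧ ¬ H.Adj w v) ≤ 0.14 * l)
    (ma : wt x (fun v => C v ∧ ¬ H.Adj a v) ≤ 0.14 * l)
    (mb : wt x (fun v => C v ∧ ¬ H.Adj b v) ≤ 0.14 * l) :
    2 * (k : ℝ) ≤ ct fun v => H.Adj w v ∧ H.Adj a v ∧ H.Adj b v := by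
  have hk := hc.kR
  have hl := hc.l0
  have h1 := three_miss x C (H.Adj w) (H.Adj a) (H.Adj b)
  have h2 := wt_le_ct x (fun v => C v ∧ H.Adj w v ∧ H.Adj a v ∧ H.Adj b v) (kap * l / k)
    fun v _ => by
      rw [le_div_iff₀ (by linarith), mul_comm]
      exact hx v
  have h3 : ct (fun v => C v ∧ H.Adj w v ∧ H.Adj a v ∧ H.Adj b v) ≤
      ct fun v => H.Adj w v ∧ H.Adj a v ∧ H.Adj b v := ct_mono fun v h => h.2
  refine le_trans ?_ h3
  by_contra hlt
  push Not at hlt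
  have h4 : kap * l / k * ct (fun v => C v ∧ H.Adj w v ∧ H.Adj a v ∧ H.Adj b v) ≤
      kap * l / k * (2 * k) :=
    mul_le_mul_of_nonneg_left hlt.le (by unfold kap; positivity)
  have h5 : kap * l / k * (2 * k) = 2 * kap * l := by
    field_simp
  unfold kap at h5
  unfold kap at h4
  unfold kap at h2
  linarith

end

theorem lightS (h2 : Cy2S) (h1 : Light1S) : LightS := by
  intro V _ k H l x hc hx2
  have hx := hx2.light hc
  obtain ⟨A, B, hAB, hA, hB, hp⟩ := h1 V k H l x hc hx2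
  have hl : 0 < l := hc.l0
  have hn : nn x ≤ 2 * l := hc.nn_le
  have hw : ∀ u, NI H u → 0.999 * l ≤ wt x (H.Adj u) := fun u hu => nb_Light hc hx hu
  have mT : ∀ u, NI H u → wt x (fun v => H.Adj u v ∧ A v) ≤ 0.12 * l →
      wt x (fun v => B v ∧ ¬ H.Adj u v) ≤ 0.14 * l := by
    intro u hu h
    have h2 := miss_Light x A B (H.Adj u) hAB
    have h3 := hw u hu
    linarith
  have mF : ∀ u, NI H u → ¬ wt x (fun v => H.Adj u v ∧ A v) ≤ 0.12 * l →
      wt x (fun v => A v ∧ ¬ H.Adj u v) ≤ 0.14 * l := by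
    intro u hu h
    push Not at h
    have h2 := miss_Light x B A (H.Adj u) fun v hb ha => hAB v ha hb
    have h3 := hw u hu
    have h4 : wt x (fun v => H.Adj u v ∧ B v) ≤ 0.12 * l := by
      by_contra hlt
      push Not at hlt
      have h5 := mul_le_mul h.le hlt.le (by positivity) (wt_nonneg x _)
      have h6 := hp u
      have h7 : 0 < l ^ 2 := by positivity
      nlinarith
    linarith
  refine ⟨fun w => decide (wt x (fun v => H.Adj w v ∧ A v) ≤ 0.12 * l), ?_⟩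
  intro c w
  have key := h2 V k H (le_trans (by norm_num) hc.k3) hc.free w
    (fun v => decide (wt x (fun t => H.Adj v t ∧ A t) ≤ 0.12 * l) =
      decide (wt x (fun t => H.Adj w t ∧ A t) ≤ 0.12 * l)) (by
    intro a b ha hb ea eb
    have nw : NI H w := ⟨a, ha⟩
    have na : NI H a := ⟨w, ha.symm⟩
    have nb : NI H b := ⟨w, hb.symm⟩
    simp only [decide_eq_decide] at ea eb
    by_cases hs : wt x (fun v => H.Adj w v ∧ A v) ≤ 0.12 * l
    · exact side_Light hc hx B (by linarith) w a b (mT w nw hs)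
        (mT a na (ea.2 hs)) (mT b nb (eb.2 hs))
    · exact side_Light hc hx A (by linarith) w a b (mF w nw hs)
        (mF a na fun h => hs (ea.1 h)) (mF b nb fun h => hs (eb.1 h)))
  refine le_trans ?_ key
  rw [dg_eq_ct]
  exact ct_mono fun v h => ⟨h.1, h.2.2.trans h.2.1.symm⟩

section
variable {V : Type} [Fintype V] {k : ℕ} {H : SimpleGraph V} {l : ℝ} {x : V → ℝ} {σ : V → Bool}

theorem own_Xb (hp : Par k H σ) (u : V) :
    ct (fun v => H.Adj u v ∧ σ v = σ u) ≤ (k : ℝ) - 1 := by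
  refine le_trans ?_ (hp (σ u) u)
  rw [dg_eq_ct]
  exact ct_mono fun v h => ⟨h.1, rfl, h.2⟩

theorem cross_Xb (hc : Core k H l x) (hl : Light k l x) (hp : Par k H σ)
    {u : V} (hu : NI H u) :
    (1 - 3 / 10 ^ 6) * l ≤ wt x (fun v => H.Adj u v ∧ σ v = !σ u) := by
  have l0 : 0 < l := hc.l0
  have hk := hc.kR
  have h1 := hc.nb hu
  have h2 : wt x (fun v => H.Adj u v ∧ ¬ σ v = !σ u) ≤ kap * l := by
    have a1 := wt_le_ct x (fun v => H.Adj u v ∧ ¬ σ v = !σ u) (kap * l / k) fun v _ => by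
      rw [le_div_iff₀ (by linarith), mul_comm]
      exact hl v
    have a2 : ct (fun v => H.Adj u v ∧ ¬ σ v = !σ u) ≤ k :=
      le_trans (ct_mono fun v h => ⟨h.1, by simpa using h.2⟩)
        ((own_Xb hp u).trans (by linarith))
    have a3 := mul_le_mul_of_nonneg_left a2
      (show 0 ≤ kap * l / k by unfold kap; positivity)
    have a4 : kap * l / k * k = kap * l := by field_simp
    linarith
  have h3 := wt_split x (H.Adj u) fun v => σ v = !σ u
  have h4 := mul_le_mul_of_nonneg_left (show l + x u ^ 2 / 4 ≤ (1 + kap / 4) * l by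
    linarith [hl.le hc u]) (wt_nonneg x (H.Adj u))
  have h5 : (1 - eps) * l ≤ wt x (H.Adj u) * (1 + kap / 4) :=
    le_of_mul_le_mul_right (by nlinarith) l0
  unfold eps kap at *
  linarith

theorem nb_Xb (hc : Core k H l x) (hl : Light k l x) (hp : Par k H σ)
    {u : V} (hu : NI H u) : ∃ v, H.Adj u v ∧ σ v = !σ u := by
  by_contra h
  have h1 := cross_Xb hc hl hp hu
  have h2 : wt x (fun v => H.Adj u v ∧ σ v = !σ u) = 0 :=
    sum_eq_zero fun v _ => if_neg fun e => h ⟨v, e⟩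
  have := hc.l1
  linarith

theorem side_Xb (hc : Core k H l x) (hl : Light k l x) (hp : Par k H σ)
    (c : Bool) : ∃ u, NI H u ∧ σ u = c := by
  obtain ⟨u, hu⟩ := hc.exNI
  by_cases e : σ u = c
  · exact ⟨u, hu, e⟩
  · obtain ⟨v, h1, h2⟩ := nb_Xb hc hl hp hu
    exact ⟨v, ⟨u, h1.symm⟩, by rw [h2]; revert e; cases σ u <;> cases c <;> simp⟩

theorem low_Xb (hc : Core k H l x) (hl : Light k l x) (hp : Par k H σ)
    (c : Bool) : (1 - 3 / 10 ^ 6) * l ≤ wt x (fun v => σ v = c) := by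
  obtain ⟨u, hu, e⟩ := side_Xb hc hl hp (!c)
  exact (cross_Xb hc hl hp hu).trans (wt_mono x fun v h => by rw [h.2, e, Bool.not_not])

theorem up_Xb (hc : Core k H l x) (hl : Light k l x) (hp : Par k H σ)
    (c : Bool) : wt x (fun v => σ v = c) ≤ (1 + 3 / 10 ^ 6) * l := by
  have h1 := wt_compl x fun v => σ v = c
  have h2 := (low_Xb hc hl hp (!c)).trans
    (wt_mono x (T := fun v => ¬ σ v = c) fun v h => by rw [h]; simp)
  have := hc.nn_le
  linarith

theorem miss_Xb (hc : Core k H l x) (hl : Light k l x) (hp : Par k H σ) {u : V} (hu : NI H u) :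
    wt x (fun v => σ v = (!σ u) ∧ ¬ H.Adj u v) ≤ 6 / 10 ^ 6 * l := by
  have h1 := wt_split x (fun v => σ v = !σ u) (H.Adj u)
  have h2 := (cross_Xb hc hl hp hu).trans
    (wt_mono x (T := fun v => σ v = (!σ u) ∧ H.Adj u v) fun v h => h.symm)
  have h3 := up_Xb hc hl hp (!σ u)
  linarith

end

theorem xbS : XbS := by
  intro V _ k H l x σ hc hl hp
  have hb := hc.l1
  have hbig := hc.big
  have x0 := hc.pos
  have : ∀ c, ∃ u, σ u = c ∧ ∀ v, σ v = c → x v ≤ x u := fun c => by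
    obtain ⟨u, -, e⟩ := side_Xb hc hl hp c
    obtain ⟨w, h1, h2⟩ := exists_max_image (univ.filter fun v => σ v = c) x ⟨u, by simpa using e⟩
    exact ⟨w, by simpa using h1, fun v hv => h2 v (by simpa using hv)⟩
  choose m hm hx using this
  set S : Bool → ℝ := fun c => ∑ v, if σ v = c then x v else 0 with hS
  have hA : ∀ c, l * x (m c) ≤ S (!c) + k * x (m c) := fun c => by
    have h1 : x (m c) * ct (fun v => H.Adj (m c) v ∧ σ v = σ (m c)) ≤ k * x (m c) := by
      have := mul_le_mul_of_nonneg_left (own_Xb hp (m c)) (x0 (m c))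
      have := x0 (m c)
      linarith
    rw [← hc.eig]
    refine le_trans ?_ (add_le_add le_rfl h1)
    unfold ns ct
    rw [hS, mul_sum, ← sum_add_distrib, hm c]
    refine sum_le_sum fun v _ => ?_
    have a0 := x0 v
    have a1 := hx c v
    have a2 := x0 (m c)
    by_cases a : H.Adj (m c) v <;> cases c <;> cases e : σ v <;> simp [a, e, a0] <;>
      exact a1 e
  have hB : ∀ u, NI H u → S (!σ u) ≤ l * x u + 3 * x (m (σ u)) * (6 / 10 ^ 6 * l) := fun u hu => by
    have h4 := miss_Xb hc hl hp hu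
    rw [← hc.eig]
    refine le_trans ?_ (add_le_add le_rfl
      (mul_le_mul_of_nonneg_left h4 (mul_nonneg (by norm_num) (x0 _))))
    unfold ns wt
    rw [hS, mul_sum, ← sum_add_distrib]
    refine sum_le_sum fun v _ => ?_
    have := x0 v
    by_cases e : σ v = !σ u
    · by_cases a : H.Adj u v
      · simp [a, e]
      · rw [if_pos e, if_neg a, if_pos ⟨e, a⟩, zero_add]
        by_cases n : NI H v
        · obtain ⟨w, b1, b2⟩ := nb_Xb hc hl hp n
          have b3 := hc.he v w b1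
          have b4 := mul_le_mul_of_nonneg_left
            (hx (σ u) w (by rw [b2, e, Bool.not_not])) this
          have b5 : 1 ≤ 3 * x (m (σ u)) * x v := by
            unfold eps at b3
            linarith
          nlinarith
        · rw [hc.zero n]
          simp
    · by_cases a : H.Adj u v <;> simp [a, e, this]
  refine ⟨fun c => x (m c), fun u => hx _ u rfl, fun u hu => ?_, fun c => x0 _, fun c => hl _,
    fun c => low_Xb hc hl hp c, fun c => up_Xb hc hl hp c, fun u hu => miss_Xb hc hl hp hu⟩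
  have h1 := hA (σ u)
  have h2 := hB u hu
  have h3 := mul_le_mul_of_nonneg_right hbig (x0 (m (σ u)))
  have h4 := mul_nonneg hc.l0.le (x0 (m (σ u)))
  exact le_of_mul_le_mul_left (a := l) (by linarith) (by linarith)

theorem prod_Lari {k l E M b : ℝ} (hk : 3 ≤ k) (hl : 10 ^ 20 * k ≤ l) (hb : 0 ≤ b)
    (hE : (l - k) ^ 2 ≤ E) (hM : M ≤ (1 + 3 / 10 ^ 6) * l ^ 2) (h : 0.9801 * b * E ≤ M) :
    b ≤ 1.021 := by
  have hl0 : 0 < l := by linarith
  have h1 : 0.9999 * l ≤ l - k := by linarith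
  have h2 : (0.9999 * l) ^ 2 ≤ (l - k) ^ 2 := pow_le_pow_left₀ (by positivity) h1 2
  have h3 : 0.9801 * b * (0.9999 * l) ^ 2 ≤ 0.9801 * b * E :=
    mul_le_mul_of_nonneg_left (h2.trans hE) (by positivity)
  have h4 : 0 < l ^ 2 := by positivity
  by_contra hc
  push Not at hc
  have h5 : 1.021 * l ^ 2 ≤ b * l ^ 2 := mul_le_mul_of_nonneg_right hc.le h4.le
  linarith

theorem core_Lari {k l A A' e e' a a' : ℝ} (hk : 3 ≤ k) (hl : 10 ^ 20 * k ≤ l)
    (hA0 : 0 ≤ A) (hA : A ≤ 0.8 * (k - 1)) (hA0' : 0 ≤ A') (hA' : A' ≤ k - 1)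
    (he : 0 ≤ e) (he' : 0 ≤ e')
    (h1 : A * l * 0.4999 ≤ e * a ^ 2) (h2 : A' * l * 0.4999 ≤ e' * a' ^ 2)
    (hs : k * a' ^ 2 ≤ kap * l) (hp0 : 0 ≤ a * a') (hp : a * a' ≤ 1.021)
    (hm : (k - 1) * l - k * (k - 1) ≤ (A * l - e) + (A' * l - e')) : False := by
  have hl0 : 0 < l := by linarith
  have hk1 : 0 < k - 1 := by linarith
  have hAl : A * l ≤ 0.8 * (k - 1) * l := mul_le_mul_of_nonneg_right hA hl0.le
  have hbig : (k - 1) * (10 ^ 20 * k) ≤ (k - 1) * l := mul_le_mul_of_nonneg_left hl hk1.le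
  have hkk : 0 < k * (k - 1) := by positivity
  by_cases c1 : a' ^ 2 ≤ 0.4999
  · have := mul_le_mul_of_nonneg_left c1 he'
    linarith
  by_cases c2 : a ^ 2 ≤ 0.4999
  · have h3 := mul_le_mul_of_nonneg_left c2 he
    have h4 : A * l ≤ e := by linarith
    have h5 : e' * (k * a' ^ 2) ≤ e' * (kap * l) := mul_le_mul_of_nonneg_left hs he'
    have h6 : k * (A' * l * 0.4999) ≤ k * (e' * a' ^ 2) :=
      mul_le_mul_of_nonneg_left h2 (by linarith)
    have h7 : (k * A' * 0.4999) * l ≤ (e' * kap) * l := by linarith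
    have h8 : k * A' * 0.4999 ≤ e' * kap := le_of_mul_le_mul_right h7 hl0
    have h9 : 0 ≤ k * A' := by positivity
    have h10 : 1000 * (k * A') ≤ e' := by
      unfold kap at h8
      linarith
    have h11 : A' * (l - 1000 * k) ≤ (k - 1) * (l - 1000 * k) :=
      mul_le_mul_of_nonneg_right hA' (by linarith)
    linarith
  push Not at c1 c2
  have ha : 0 < a ^ 2 := by linarith
  have ha' : 0 < a' ^ 2 := by linarith
  obtain ⟨p, hpd⟩ : ∃ p : ℝ, p = 0.4999 / a ^ 2 := ⟨_, rfl⟩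
  obtain ⟨q, hqd⟩ : ∃ q : ℝ, q = 0.4999 / a' ^ 2 := ⟨_, rfl⟩
  have p0 : 0 < p := by rw [hpd]; positivity
  have q0 : 0 < q := by rw [hqd]; positivity
  have p1 : p ≤ 1 := by rw [hpd, div_le_one ha]; exact c2.le
  have q1 : q ≤ 1 := by rw [hqd, div_le_one ha']; exact c1.le
  have e1 : A * l * p ≤ e := by
    rw [hpd, ← mul_div_assoc, div_le_iff₀ ha]; exact h1
  have e2 : A' * l * q ≤ e' := by
    rw [hqd, ← mul_div_assoc, div_le_iff₀ ha']; exact h2
  have pq : 0.2396 ≤ p * q := by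
    rw [hpd, hqd, div_mul_div_comm, le_div_iff₀ (by positivity)]
    have h3 : (a * a') ^ 2 ≤ 1.021 ^ 2 := pow_le_pow_left₀ hp0 hp 2
    have h4 : a ^ 2 * a' ^ 2 = (a * a') ^ 2 := by ring
    rw [h4]
    linarith
  have s : 0.87 ≤ 0.8 * p + q := by
    by_contra hc
    push Not at hc
    nlinarith [sq_nonneg (0.8 * p - q), mul_pos p0 q0]
  have f1 : A * l * (1 - p) ≤ 0.8 * (k - 1) * l * (1 - p) :=
    mul_le_mul_of_nonneg_right hAl (by linarith)
  have hAl' : A' * l ≤ (k - 1) * l := mul_le_mul_of_nonneg_right hA' hl0.le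
  have f2 : A' * l * (1 - q) ≤ (k - 1) * l * (1 - q) :=
    mul_le_mul_of_nonneg_right hAl' (by linarith)
  have f3 : (k - 1) * l * 0.87 ≤ (k - 1) * l * (0.8 * p + q) :=
    mul_le_mul_of_nonneg_left s (by positivity)
  linarith

theorem lariS : LariS := by
  intro k l W W' Q Q' e e' a a' M E hk hl w1 w2 w1' _ q0 q1 q0' q1' qe qe' he he' ha ha' _ hs
    m1 m2 hME hE hsum
  have hl0 : 0 < l := by linarith
  have hW : 0 < W := by linarith
  have hW' : 0 < W' := by linarith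
  obtain ⟨A, hA⟩ : ∃ A, Q = A * W := ⟨Q / W, by field_simp⟩
  obtain ⟨A', hA'⟩ : ∃ A', Q' = A' * W' := ⟨Q' / W', by field_simp⟩
  subst hA hA'
  have a0 : 0 ≤ A := nonneg_of_mul_nonneg_left q0 hW
  have a0' : 0 ≤ A' := nonneg_of_mul_nonneg_left q0' hW'
  have a1 : A ≤ k - 1 := le_of_mul_le_mul_right q1 hW
  have a1' : A' ≤ k - 1 := le_of_mul_le_mul_right q1' hW'
  have hM : M = (l - A) * W := by linarith
  have hM' : M = (l - A') * W' := by linarith
  have hE1 : (l - A) * (l - A') ≤ E := by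
    have h : M ^ 2 = (l - A) * (l - A') * (W * W') := by
      rw [sq]; nth_rewrite 1 [hM]; rw [hM']; ring
    rw [h] at hME
    exact le_of_mul_le_mul_right hME (mul_pos hW hW')
  have hE2 : (l - k) ^ 2 ≤ E := by
    refine le_trans ?_ hE1
    rw [sq]
    exact mul_le_mul (by linarith) (by linarith) (by linarith) (by linarith)
  have hM2 : M ≤ (1 + 3 / 10 ^ 6) * l ^ 2 := by
    have h1 : l * W ≤ l * ((1 + 3 / 10 ^ 6) * l) := mul_le_mul_of_nonneg_left w2 hl0.le
    linarith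
  have hp := prod_Lari hk hl (mul_nonneg ha ha') hE2 hM2 hE
  by_contra hc
  push Not at hc
  have a2 : A ≤ 0.8 * (k - 1) := (lt_of_mul_lt_mul_right hc hW.le).le
  refine core_Lari (a := a) (a' := a') hk hl a0 a2 a0' a1' he he' ?_ ?_ hs (mul_nonneg ha ha') hp ?_
  · have h1 := mul_le_mul_of_nonneg_left w1 a0
    have h2 := mul_nonneg a0 hl0.le
    linarith
  · have h1 := mul_le_mul_of_nonneg_left w1' a0'
    have h2 := mul_nonneg a0' hl0.le
    linarith
  · have h1 := mul_nonneg a0 a0'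
    have h2 : k * 2 ≤ k * (k - 1) := mul_le_mul_of_nonneg_left (by linarith) (by linarith)
    linarith

theorem qf0_Lden {V : Type} [Fintype V] (G : SimpleGraph V) {x : V → ℝ} (hx : ∀ u, 0 ≤ x u) :
    0 ≤ qf G x := by
  rw [qf_eq]
  refine sum_nonneg fun u _ => sum_nonneg fun v _ => ?_
  split_ifs
  · exact mul_nonneg (hx u) (hx v)
  · exact le_rfl

theorem qfa_Lden {V : Type} [Fintype V] (H : SimpleGraph V) (σ : V → Bool) {x : V → ℝ}
    {α : Bool → ℝ} (hx : ∀ u, 0 ≤ x u) (hup : ∀ u, x u ≤ α (σ u)) (c : Bool) :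
    qf (sg H σ c) x ≤ 2 * ed (sg H σ c) * α c ^ 2 := by
  rw [qf_eq, two_ed, sum_mul]
  refine sum_le_sum fun u _ => ?_
  rw [sum_mul]
  refine sum_le_sum fun v _ => ?_
  split_ifs with h
  · have h1 := hup u
    have h2 := hup v
    rw [h.2.1] at h1
    rw [h.2.2] at h2
    rw [one_mul, sq]
    exact mul_le_mul h1 h2 (hx v) ((hx u).trans h1)
  · simp

theorem cr_Lden {V : Type} [Fintype V] (H : SimpleGraph V) (σ : V → Bool) {x : V → ℝ}
    {α : Bool → ℝ} (hx : ∀ u, 0 ≤ x u) (hlo : ∀ u, NI H u → 0.99 * α (σ u) ≤ x u)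
    (h0 : ∀ c, 0 ≤ α c) :
    0.9801 * (α true * α false) * cr H σ (fun _ => 1) ≤ cr H σ x := by
  unfold cr
  rw [mul_sum]
  refine sum_le_sum fun u _ => ?_
  rw [mul_sum]
  refine sum_le_sum fun v _ => ?_
  split_ifs with h
  · have h1 := hlo u ⟨v, h.1⟩
    have h2 := hlo v ⟨u, h.1.symm⟩
    rw [h.2.1] at h1
    rw [h.2.2] at h2
    have h3 := mul_le_mul h1 h2 (mul_nonneg (by norm_num) (h0 false)) (hx u)
    refine le_trans (le_of_eq ?_) h3
    ring
  · simp

theorem ldenS (hP : PartS) (hA : LariS) : LdenS := by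
  intro V _ k H l x σ α hc hp hf c
  obtain ⟨p1, p2, p3, p4, p5, -, p7⟩ := hP V H σ x
  have q0 : ∀ c, 0 ≤ qf (sg H σ c) x := fun c => qf0_Lden _ hc.pos
  have q1 : ∀ c, qf (sg H σ c) x ≤ ((k : ℝ) - 1) * sw x σ c := fun c =>
    p7 c _ fun u _ => hp c u
  have q2 := qfa_Lden H σ hc.pos hf.up
  have q3 := cr_Lden H σ hc.pos hf.lo hf.nn0
  have q4 : cr H σ x ^ 2 ≤ cr H σ (fun _ => 1) * (sw x σ true * sw x σ false) :=
    p3.trans (mul_le_mul_of_nonneg_left (by linarith) p5)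
  have q5 := p1 l hc.eig
  have q6 := hc.hm
  cases c
  · exact hA k l (sw x σ false) (sw x σ true) (qf (sg H σ false) x) (qf (sg H σ true) x)
      (ed (sg H σ false)) (ed (sg H σ true)) (α false) (α true) (cr H σ x) (cr H σ fun _ => 1)
      hc.kR hc.big (hf.wlo _) (hf.wup _) (hf.wlo _) (hf.wup _) (q0 _) (q1 _) (q0 _) (q1 _)
      (q2 _) (q2 _) (ed_nonneg _) (ed_nonneg _) (hf.nn0 _) (hf.nn0 _) (hf.sm _) (hf.sm _)
      (q5 _) (q5 _) (by rwa [mul_comm (sw x σ false)]) (by rwa [mul_comm (α false)])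
      (by linarith)
  · exact hA k l (sw x σ true) (sw x σ false) (qf (sg H σ true) x) (qf (sg H σ false) x)
      (ed (sg H σ true)) (ed (sg H σ false)) (α true) (α false) (cr H σ x) (cr H σ fun _ => 1)
      hc.kR hc.big (hf.wlo _) (hf.wup _) (hf.wlo _) (hf.wup _) (q0 _) (q1 _) (q0 _) (q1 _)
      (q2 _) (q2 _) (ed_nonneg _) (ed_nonneg _) (hf.nn0 _) (hf.nn0 _) (hf.sm _) (hf.sm _)
      (q5 _) (q5 _) q4 q3 (by linarith)

theorem row_Lpair {V : Type} [Fintype V] {k : ℕ} {H : SimpleGraph V} {l : ℝ} {x : V → ℝ}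
    {σ : V → Bool} {α : Bool → ℝ} (hc : Core k H l x) (hp : Par k H σ) (hf : Flat k H l x σ α)
    (D : V → Prop) (p : V) :
    (∑ q, if (sg H σ false).Adj p q ∧ D p then x p * x q else 0) ≤
      1.02 * ((k : ℝ) - 1) * (if σ p = false ∧ D p then x p ^ 2 else 0) := by
  have hk := hc.kR
  by_cases h : D p ∧ ∃ q, (sg H σ false).Adj p q
  · obtain ⟨hD, q0, hq0⟩ := h
    have hs : σ p = false := hq0.2.1
    have hlo := hf.lo p ⟨q0, hq0.1⟩
    rw [hs] at hlo
    have hx := hc.pos p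
    rw [if_pos ⟨hs, hD⟩]
    have h1 : (∑ q, if (sg H σ false).Adj p q ∧ D p then x p * x q else 0) ≤
        1.02 * x p ^ 2 * dg (sg H σ false) p := by
      unfold dg ns
      rw [mul_sum]
      refine sum_le_sum fun q _ => ?_
      by_cases hq : (sg H σ false).Adj p q
      · rw [if_pos ⟨hq, hD⟩, if_pos hq]
        have hu := hf.up q
        rw [hq.2.2] at hu
        have : x q ≤ 1.02 * x p := by linarith
        nlinarith [mul_le_mul_of_nonneg_left this hx]
      · rw [if_neg fun g => hq g.1, if_neg hq, mul_zero]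
    have h2 := mul_le_mul_of_nonneg_left (hp false p)
      (show 0 ≤ 1.02 * x p ^ 2 by positivity)
    linarith
  · have h0 : (∑ q, if (sg H σ false).Adj p q ∧ D p then x p * x q else 0) = 0 :=
      sum_eq_zero fun q _ => if_neg fun g => h ⟨g.2, q, g.1⟩
    rw [h0]
    refine mul_nonneg (by linarith) ?_
    split_ifs <;> positivity

theorem lpairS : LpairS := by
  intro V _ k H l x σ α hc hp hf hq D hD
  by_contra g
  have hk := hc.kR
  have hl := hc.l0
  have h1 : qf (sg H σ false) x ≤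
      (∑ p, ∑ q, if (sg H σ false).Adj p q ∧ D p then x p * x q else 0) +
      ∑ p, ∑ q, if (sg H σ false).Adj q p ∧ D q then x q * x p else 0 := by
    rw [qf_eq, ← sum_add_distrib]
    refine sum_le_sum fun p _ => ?_
    rw [← sum_add_distrib]
    refine sum_le_sum fun q _ => ?_
    have h0 : 0 ≤ x p * x q := mul_nonneg (hc.pos p) (hc.pos q)
    rw [mul_comm (x q) (x p)]
    by_cases ha : (sg H σ false).Adj p q
    · have ha' := ha.symm
      by_cases h1 : D p <;> by_cases h2 : D q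
      · simp [ha, ha', h1, h2, h0]
      · simp [ha, ha', h1, h2]
      · simp [ha, ha', h1, h2]
      · exact absurd ⟨p, q, ha.1, ha.2.1, ha.2.2, h1, h2⟩ g
    · have ha' : ¬ (sg H σ false).Adj q p := fun e => ha e.symm
      simp [ha, ha']
  rw [sum_comm (f := fun p q => if (sg H σ false).Adj q p ∧ D q then x q * x p else 0)] at h1
  have h2 : (∑ p, ∑ q, if (sg H σ false).Adj p q ∧ D p then x p * x q else 0) ≤
      1.02 * ((k : ℝ) - 1) * wt x (fun v => σ v = false ∧ D v) := by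
    unfold wt
    rw [mul_sum]
    refine sum_le_sum fun p _ => ?_
    refine (row_Lpair hc hp hf D p).trans (le_of_eq ?_)
    split_ifs <;> rfl
  have h3 := mul_le_mul_of_nonneg_left hD (show 0 ≤ 1.02 * ((k : ℝ) - 1) by linarith)
  have h4 := mul_le_mul_of_nonneg_left (hf.wlo false) (show 0 ≤ 0.8 * ((k : ℝ) - 1) by linarith)
  have h5 : 0 < ((k : ℝ) - 1) * l := mul_pos (by linarith) hl
  nlinarith

theorem lfinS (hP : PartS) (h3 : Cy3S) (hD : LdenS) (hL : LpairS) : LfinS := by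
  intro V _ k H l x σ α hc hp hf
  have hk := hc.k3
  have hkR := hc.kR
  have hl := hc.l0
  have hex : ∃ u, σ u = true ∧ (((2 * k - 1) / 3 : ℕ) : ℝ) < dg (sg H σ true) u := by
    by_contra h
    push Not at h
    have a1 := (hP V H σ x).2.2.2.2.2.2 true _ h
    have a2 := hD V k H l x σ α hc hp hf true
    have a3 := hf.wlo true
    have a4 : 5 * ((2 * k - 1) / 3) + 5 ≤ 4 * k := by
      rcases hk.eq_or_lt with rfl | h4
      · norm_num
      · omega
    have a5 : 5 * (((2 * k - 1) / 3 : ℕ) : ℝ) + 5 ≤ 4 * k := by exact_mod_cast a4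
    have a6 : 0 < sw x σ true := by linarith
    nlinarith
  obtain ⟨u, hu, hd⟩ := hex
  have hj := hp true u
  rw [dg_eq_ct, ct_eq] at hd hj
  have hd' : (2 * k - 1) / 3 < (univ.filter ((sg H σ true).Adj u)).card := by exact_mod_cast hd
  have hU : ∀ a ∈ univ.filter ((sg H σ true).Adj u), H.Adj u a ∧ σ a = true := fun a ha =>
    ⟨(mem_filter.1 ha).2.1, (mem_filter.1 ha).2.2.2⟩
  refine h3 V k H (by omega) hc.free u (univ.filter ((sg H σ true).Adj u)) (by omega)
    (by exact_mod_cast (show ((univ.filter ((sg H σ true).Adj u)).card : ℝ) ≤ k by linarith))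
    (fun a ha => (hU a ha).1) fun a ha b hb X hX => ?_
  have miss : ∀ (w : V) (D : V → Prop), NI H w → σ w = true →
      wt x (fun v => (σ v = false ∧ D v) ∧ ¬ H.Adj w v) ≤ 6 / 10 ^ 6 * l := fun w D h1 h2 =>
    (wt_mono x fun v hv => ⟨by rw [h2]; exact hv.1.1, hv.2⟩).trans (hf.miss w h1)
  have hXw : wt x (fun v => v ∈ X) ≤ 3 * (kap * l) := by
    have b0 : 0 ≤ kap * l := by unfold kap; positivity
    have b1 := wt_le_ct x (fun v => v ∈ X) (kap * l / k) fun v _ => by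
      rw [le_div_iff₀' (by linarith)]
      exact (mul_le_mul_of_nonneg_left (pow_le_pow_left₀ (hc.pos v) (hf.up v) 2)
        (by linarith)).trans (hf.sm _)
    have b2 : ct (fun v => v ∈ X) ≤ 3 * k := by
      have e : ct (fun v => v ∈ X) = X.card := by
        rw [ct_eq]
        congr 2
        ext v
        simp
      have : (X.card : ℝ) ≤ 3 * (univ.filter ((sg H σ true).Adj u)).card := by exact_mod_cast hX
      linarith
    refine b1.trans ((mul_le_mul_of_nonneg_left b2 (by positivity)).trans (le_of_eq ?_))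
    field_simp
  obtain ⟨p, q, h1, -, -, h4, h5⟩ := hL V k H l x σ α hc hp hf (hD V k H l x σ α hc hp hf false)
    (fun v => v ∈ X ∨ ¬ H.Adj u v ∨ ¬ H.Adj a v ∨ ¬ H.Adj b v) (by
      have c1 := three_miss x
        (fun v => σ v = false ∧ (v ∈ X ∨ ¬ H.Adj u v ∨ ¬ H.Adj a v ∨ ¬ H.Adj b v))
        (H.Adj u) (H.Adj a) (H.Adj b)
      have c2 := miss u (fun v => v ∈ X ∨ ¬ H.Adj u v ∨ ¬ H.Adj a v ∨ ¬ H.Adj b v)
        ⟨a, (hU a ha).1⟩ hu
      have c3 := miss a (fun v => v ∈ X ∨ ¬ H.Adj u v ∨ ¬ H.Adj a v ∨ ¬ H.Adj b v)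
        ⟨u, (hU a ha).1.symm⟩ (hU a ha).2
      have c4 := miss b (fun v => v ∈ X ∨ ¬ H.Adj u v ∨ ¬ H.Adj a v ∨ ¬ H.Adj b v)
        ⟨u, (hU b hb).1.symm⟩ (hU b hb).2
      have c5 := (wt_mono x (S := fun v => (σ v = false ∧
        (v ∈ X ∨ ¬ H.Adj u v ∨ ¬ H.Adj a v ∨ ¬ H.Adj b v)) ∧ H.Adj u v ∧ H.Adj a v ∧ H.Adj b v)
        (T := fun v => v ∈ X) fun v hv => by tauto).trans hXw
      unfold kap at c5
      linarith)
  push Not at h4 h5
  exact ⟨p, q, h4.1, h5.1, h1, h4.2.1, h5.2.1, h4.2.2.1, h4.2.2.2, h5.2.2.2⟩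

end WR
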