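import Pool.Agent.MP_1392dc_co.RSt

/-! The heavy case, and the steps put together. -/

namespace WR

open W5 WQ Finset
open scoped Classical

section
variable {V : Type} [Fintype V]

noncomputable def sm_H3 (x : V → ℝ) (S : V → Prop) : ℝ := ∑ v, if S v then x v else 0

theorem or_H3 {x : V → ℝ} (hx : ∀ v, 0 ≤ x v) (A T P : V → Prop) (h : ∀ w, A w → T w ∨ P w) :
    sm_H3 x A ≤ sm_H3 x T + sm_H3 x P := by
  unfold sm_H3
  rw [← sum_add_distrib]
  refine sum_le_sum fun w _ => ?_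
  have := hx w
  have := h w
  by_cases a : A w <;> by_cases t : T w <;> by_cases p : P w <;> simp_all

theorem ct_H3 {x : V → ℝ} (T : V → Prop) (c : ℝ) (h : ∀ w, x w ≤ c) : sm_H3 x T ≤ c * ct T := by
  unfold sm_H3 ct
  rw [mul_sum]
  refine sum_le_sum fun w _ => ?_
  split_ifs
  · simpa using h w
  · simp

theorem sq_H3 (x : V → ℝ) (S : V → Prop) : sm_H3 x S ^ 2 ≤ ct S * wt x S := sum_sq_le x S

theorem one_H3 (x : V → ℝ) (S : V → Prop) (u : V) (h : S u) : x u ^ 2 ≤ wt x S := by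
  have := single_le_sum (f := fun w => if S w then x w ^ 2 else 0)
    (fun w _ => by split_ifs <;> positivity) (mem_univ u)
  rwa [if_pos h] at this

theorem dg_H3 {d l y c e : ℝ} (hd : 0 ≤ d) (hl : 0 ≤ l)
    (h : (1 - eps) * d ≤ l * y ^ 2 + y ^ 4 / 4) (hy : y ^ 2 ≤ c * l)
    (he : 1 + c / 4 ≤ 0.99999 * e) : d ≤ e * (l * y ^ 2) := by
  unfold eps at h
  have h1 : y ^ 4 ≤ c * (l * y ^ 2) := by nlinarith [mul_le_mul_of_nonneg_right hy (sq_nonneg y)]
  have h2 : 0 ≤ l * y ^ 2 := by positivity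
  nlinarith [mul_le_mul_of_nonneg_right he h2]

end

theorem h3S : H3S := by
  intro V _ k H l x u0 hc hmax h0 hK hW v hv
  have l0 := hc.l0
  have y0 := hc.pos v
  have hy : 10 * x v < x u0 := by simpa [hs] using hv
  have hT : x u0 ^ 2 ≤ 1.001 * l := by
    refine le_trans (one_H3 x (fun w => hs x u0 w = true) u0 ?_) (hW true)
    simp only [hs, decide_eq_true_eq]
    linarith
  have d0 := dg_H3 (e := 1.2504) (dg_nonneg H u0) l0.le (hc.hv u0) hT (by norm_num)
  have d1 := dg_H3 (c := 0.0101) (e := 1.003) (dg_nonneg H v) l0.le (hc.hv v) (by nlinarith)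
    (by norm_num)
  have e0 : sm_H3 x (H.Adj u0) = l * x u0 := hc.eig u0
  have e1 : sm_H3 x (H.Adj v) = l * x v := hc.eig v
  have a1 := or_H3 hc.pos (H.Adj u0) (fun w => hs x u0 w = true)
    (fun w => H.Adj u0 w ∧ hs x u0 w = false) fun w h => by cases hs x u0 w <;> simp [h]
  have a2 := or_H3 hc.pos (fun w => H.Adj u0 w ∧ hs x u0 w = false) (H.Adj v)
    (fun w => H.Adj u0 w ∧ hs x u0 w = false ∧ ¬ H.Adj v w) fun w h => by tauto
  have a3 := ct_H3 (fun w => hs x u0 w = true) (x u0) hmax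
  have a4 := sq_H3 x fun w => H.Adj u0 w ∧ hs x u0 w = false ∧ ¬ H.Adj v w
  have a5 : ct (fun w => H.Adj u0 w ∧ hs x u0 w = false ∧ ¬ H.Adj v w) ≤ dg H u0 :=
    ct_mono fun w h => h.1
  have a6 := wt_mono x (S := fun w => H.Adj u0 w ∧ hs x u0 w = false ∧ ¬ H.Adj v w)
    (T := fun w => hs x u0 w = false ∧ ¬ H.Adj v w) fun w h => h.2
  have a7 : sw x (hs x u0) false = _ := wt_split x (fun w => hs x u0 w = false) (H.Adj v)
  have a8 := mul_le_mul (a5.trans d0) a6 (wt_nonneg _ _) (by positivity)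
  have a9 := mul_le_mul_of_nonneg_left hK h0.le
  have p0 : 0 < l * x u0 := mul_pos l0 h0
  have b1 : 0.8999 * (l * x u0) ≤
      sm_H3 x fun w => H.Adj u0 w ∧ hs x u0 w = false ∧ ¬ H.Adj v w := by
    nlinarith [mul_le_mul_of_nonneg_left hy.le l0.le]
  have b2 := (pow_le_pow_left₀ (by positivity) b1 2).trans (a4.trans a8)
  have b3 : 0.647 * l ≤ wt x fun w => hs x u0 w = false ∧ ¬ H.Adj v w := by
    by_contra n
    have p1 : 0 < l * x u0 ^ 2 := by positivity
    have := mul_lt_mul_of_pos_left (not_le.1 n) p1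
    nlinarith [mul_pos l0 p1]
  have b4 : (wt x fun w => hs x u0 w = false ∧ H.Adj v w) ≤ 0.36 * l := by
    linarith [hW false]
  have c1 := or_H3 hc.pos (H.Adj v) (fun w => hs x u0 w = true)
    (fun w => hs x u0 w = false ∧ H.Adj v w) fun w h => by cases hs x u0 w <;> simp [h]
  have c2 : sm_H3 x (fun w => hs x u0 w = true) ≤ 3.2 / 10 ^ 6 * l := by
    refine le_of_sq_le_sq ((sq_H3 x _).trans ?_) (by positivity)
    refine (mul_le_mul hK (hW true) (wt_nonneg _ _) (by positivity)).trans ?_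
    nlinarith [mul_pos l0 l0]
  have c3 : sm_H3 x (fun w => hs x u0 w = false ∧ H.Adj v w) ≤ 0.61 * (l * x v) := by
    refine le_of_sq_le_sq ((sq_H3 x _).trans ?_) (by positivity)
    have c4 : ct (fun w => hs x u0 w = false ∧ H.Adj v w) ≤ dg H v := ct_mono fun w h => h.2
    refine (mul_le_mul (c4.trans d1) b4 (wt_nonneg _ _) (by positivity)).trans ?_
    nlinarith [sq_nonneg (l * x v)]
  by_contra n
  nlinarith [mul_lt_mul_of_pos_left (not_le.1 n) l0]

section
variable {V : Type} [Fintype V] {k : ℕ} {H : SimpleGraph V} {l : ℝ} {x : V → ℝ}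

theorem sq_le_wt_H4 (x : V → ℝ) (S : V → Prop) {v : V} (hv : S v) : x v ^ 2 ≤ wt x S := by
  unfold wt
  have h := single_le_sum (f := fun p => if S p then x p ^ 2 else 0) (s := univ)
    (fun p _ => by split_ifs <;> positivity) (mem_univ v)
  simpa [hv] using h

theorem ns_le_H4 (H : SimpleGraph V) (x : V → ℝ) (σ : V → Bool) (v : V) (c : ℝ) (hc : 0 ≤ c)
    (hx : ∀ p, x p ≤ c) :
    ns H x v ≤ c * ct (fun p => σ p = true) +
      ∑ p, if (σ p = false ∧ H.Adj v p) then x p else 0 := by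
  unfold ns ct
  rw [mul_sum, ← sum_add_distrib]
  refine sum_le_sum fun p _ => ?_
  have := hx p
  by_cases ha : H.Adj v p <;> by_cases hp : σ p = true <;> simp [ha, hp, hc, this]

theorem see_H4 (hc : Core k H l x) (u0 : V) (hmax : ∀ v, x v ≤ x u0) (h0 : 0 < x u0)
    (hct : ct (fun v => hs x u0 v = true) ≤ l / 10 ^ 11)
    (hsw : sw x (hs x u0) true ≤ 1.001 * l) {v : V} (hv : hs x u0 v = true) :
    0.799 * l ≤ wt x (fun p => hs x u0 p = false ∧ H.Adj v p) := by
  have hl := hc.l0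
  have h1 : x u0 ≤ 10 * x v := by simpa [hs] using hv
  have hx : 0 < x v := by linarith
  have h2 : x v ^ 2 ≤ 1.001 * l := (sq_le_wt_H4 x (fun p => hs x u0 p = true) hv).trans hsw
  have hx2 : 0 < x v ^ 2 := by positivity
  have h3 : dg H v ≤ 1.2504 * (l * x v ^ 2) := by
    have h := hc.hv v
    have hd := dg_nonneg H v
    have e : x v ^ 4 = x v ^ 2 * x v ^ 2 := by ring
    have h4 : x v ^ 2 * x v ^ 2 ≤ 1.001 * l * x v ^ 2 := mul_le_mul_of_nonneg_right h2 hx2.le
    have h5 : 0 < l * x v ^ 2 := by positivity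
    unfold eps at h
    rw [e] at h
    nlinarith
  have h4 := ns_le_H4 H x (hs x u0) v (x u0) h0.le hmax
  rw [hc.eig v] at h4
  have h5 : (∑ p, if (hs x u0 p = false ∧ H.Adj v p) then x p else 0) ^ 2 ≤
      ct (fun p => hs x u0 p = false ∧ H.Adj v p) *
        wt x (fun p => hs x u0 p = false ∧ H.Adj v p) := by
    convert sum_sq_le x (fun p => hs x u0 p = false ∧ H.Adj v p)
  have h6 : ct (fun p => hs x u0 p = false ∧ H.Adj v p) ≤ dg H v := by
    rw [dg_eq_ct]; exact ct_mono fun p hp => hp.2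
  have hw := wt_nonneg x (fun p => hs x u0 p = false ∧ H.Adj v p)
  have h7 : x u0 * ct (fun v => hs x u0 v = true) ≤ 10 * x v * (l / 10 ^ 11) :=
    mul_le_mul h1 hct (ct_nonneg _) (by linarith)
  generalize wt x (fun p => hs x u0 p = false ∧ H.Adj v p) = W at *
  generalize (∑ p, if (hs x u0 p = false ∧ H.Adj v p) then x p else 0) = S at *
  have h8 : 0.9999 * (l * x v) ≤ S := by
    have : 0 < l * x v := by positivity
    nlinarith
  have h9 : (0.9999 * (l * x v)) ^ 2 ≤ S ^ 2 :=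
    pow_le_pow_left₀ (by positivity) h8 2
  have h10 : S ^ 2 ≤ 1.2504 * (l * x v ^ 2) * W :=
    h5.trans (mul_le_mul_of_nonneg_right (h6.trans h3) hw)
  have h11 : (0.9999 ^ 2 * l) * (l * x v ^ 2) ≤ (1.2504 * W) * (l * x v ^ 2) := by
    calc (0.9999 ^ 2 * l) * (l * x v ^ 2) = (0.9999 * (l * x v)) ^ 2 := by ring
      _ ≤ 1.2504 * (l * x v ^ 2) * W := h9.trans h10
      _ = _ := by ring
  have h12 : 0.9999 ^ 2 * l ≤ 1.2504 * W := le_of_mul_le_mul_right h11 (by positivity)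
  nlinarith

end

theorem h4S (h2 : Cy2S) : H4S := by
  intro V _ k H l x u0 hc hmax h0 hct hsw hlow
  have hk := hc.kR
  have hno : ∀ u v, ¬ (sg H (hs x u0) false).Adj u v := by
    intro u v huv
    obtain ⟨ha, hu, hv⟩ := huv
    have h1 := hc.he u v ha
    have h3 := hlow u hu
    have h4 := hlow v hv
    have h5 : x u * x v ≤ 1 / 10 ^ 5 * (1 / 10 ^ 5) :=
      mul_le_mul h3 h4 (hc.pos v) (by norm_num)
    unfold eps at h1
    nlinarith
  have hzero : ∀ c w, (∀ v, ¬ (sg H (hs x u0) c).Adj w v) →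
      dg (sg H (hs x u0) c) w ≤ (k : ℝ) - 1 := by
    intro c w h
    have : dg (sg H (hs x u0) c) w = 0 := by
      unfold dg ns
      exact sum_eq_zero fun v _ => by simp [h v]
    rw [this]; linarith
  refine ⟨?_, hno⟩
  intro c w
  cases c with
  | false => exact hzero false w (hno w)
  | true =>
    by_cases hw : hs x u0 w = true
    · have h3 := h2 V k H (le_trans (by norm_num) hc.k3) hc.free w
        (fun v => hs x u0 v = true) ?_
      · refine le_trans ?_ h3
        rw [dg_eq_ct]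
        exact ct_mono fun v hv => ⟨hv.1, hv.2.2⟩
      · intro a b _ _ ha hb
        have sw_ := see_H4 hc u0 hmax h0 hct (hsw true) hw
        have sa := see_H4 hc u0 hmax h0 hct (hsw true) ha
        have sb := see_H4 hc u0 hmax h0 hct (hsw true) hb
        have t := three_miss x (fun v => hs x u0 v = false) (H.Adj w) (H.Adj a) (H.Adj b)
        have ew := wt_split x (fun v => hs x u0 v = false) (H.Adj w)
        have ea := wt_split x (fun v => hs x u0 v = false) (H.Adj a)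
        have eb := wt_split x (fun v => hs x u0 v = false) (H.Adj b)
        have hF : wt x (fun v => hs x u0 v = false) ≤ 1.001 * l := hsw false
        have hle := wt_le_ct x
          (fun v => hs x u0 v = false ∧ H.Adj w v ∧ H.Adj a v ∧ H.Adj b v) (1 / 10 ^ 10)
          (fun v hv => by
            have h5 := hlow v hv.1
            have h6 := hc.pos v
            nlinarith)
        have hm : ct (fun v => hs x u0 v = false ∧ H.Adj w v ∧ H.Adj a v ∧ H.Adj b v) ≤
            ct (fun v => H.Adj w v ∧ H.Adj a v ∧ H.Adj b v) := ct_mono fun v hv => hv.2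
        have hb' := hc.big
        have hl := hc.l0
        linarith
    · exact hzero true w fun v hv => hw hv.2.1

theorem ari_Hfin (K l W W' Q M E e s m : ℝ) (hK : 3 ≤ K) (hl : 10 ^ 20 * K ≤ l) (hW : 0 < W)
    (hQ : Q ≤ (K - 1) * W) (h1 : l * W = Q + M) (h2 : l * W' = M)
    (h3 : M ^ 2 ≤ E * (W * W' - s)) (hs : 0 ≤ s) (hE : 0 ≤ E)
    (h4 : Q ^ 2 + Q * W ≤ 2 * e * W ^ 2) (h5 : m = e + E)
    (h6 : m ≤ l ^ 2 - (K - 1) * l + K * (K - 1) / 2) :
    Q = (K - 1) * W ∧ m = l ^ 2 - (K - 1) * l + K * (K - 1) / 2 ∧ 2 * e = K * (K - 1) ∧ s = 0 := by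
  obtain ⟨A, rfl⟩ : ∃ A, Q = A * W := ⟨Q / W, by field_simp⟩
  have hA : A ≤ K - 1 := le_of_mul_le_mul_right hQ hW
  have hlK : K < l := by linarith
  have hl0 : 0 < l := by linarith
  have hM : M = (l - A) * W := by linarith
  have hM0 : 0 < M := by
    rw [hM]
    exact mul_pos (by linarith) hW
  have hW' : 0 < W' := by
    rw [← h2] at hM0
    exact (mul_pos_iff_of_pos_left hl0).1 hM0
  have hWW := mul_pos hW hW'
  have hM2 : M ^ 2 = (l - A) * l * (W * W') := by
    calc M ^ 2 = M * M := sq M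
      _ = ((l - A) * W) * (l * W') := by rw [← hM, h2]
      _ = _ := by ring
  have hEs := mul_nonneg hE hs
  have g1 : (l - A) * l ≤ E := by
    refine le_of_mul_le_mul_right ?_ hWW
    linarith
  have g2 : A ^ 2 + A ≤ 2 * e := by
    refine le_of_mul_le_mul_right ?_ (pow_pos hW 2)
    linarith
  have g3 : A = K - 1 := by
    by_contra hne
    have h7 : 0 < K - 1 - A := sub_pos.2 (lt_of_le_of_ne hA hne)
    have h8 : (K - 1 - A) * l ≤ (K - 1 - A) * ((K + A) / 2) := by linarith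
    have h9 := le_of_mul_le_mul_left h8 h7
    linarith
  subst g3
  have g4 : E = (l - (K - 1)) * l := by linarith
  have g5 : 0 < E := by
    rw [g4]
    exact mul_pos (by linarith) hl0
  refine ⟨rfl, by linarith, by linarith, ?_⟩
  rw [← g4] at hM2
  have g6 : E * s ≤ E * 0 := by linarith
  exact le_antisymm (le_of_mul_le_mul_left g6 g5) hs

theorem dg_zero_Hfin {V : Type} [Fintype V] (G : SimpleGraph V) (u : V)
    (h : ∀ v, ¬ G.Adj u v) : dg G u = 0 :=
  sum_eq_zero fun v _ => if_neg (h v)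

theorem hfinS (hP : PartS) (hS : StanS) : HfinS := by
  intro V _ k H l x σ hc hpar hF hex hx hm0
  obtain ⟨p1, p2, p3, p4, p5, p6, p7⟩ := hP V H σ x
  have hk := hc.kR
  have hQF : qf (sg H σ false) x = 0 := by
    rw [qf_eq]
    exact sum_eq_zero fun u _ => sum_eq_zero fun v _ => if_neg (hF u v)
  have heF : ed (sg H σ false) = 0 := by
    unfold ed
    rw [sum_eq_zero fun u _ => dg_zero_Hfin _ u (hF u), zero_div]
  have hW : 0 < sw x σ true := by
    obtain ⟨u, hu⟩ := hex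
    refine sum_pos' (fun v _ => by split_ifs <;> positivity) ⟨u, mem_univ u, ?_⟩
    rw [if_pos hu]
    exact pow_pos (hx u hu) 2
  obtain ⟨a1, a2, a3, a4⟩ := ari_Hfin k l (sw x σ true) (sw x σ false) (qf (sg H σ true) x)
    (cr H σ x) (cr H σ fun _ => 1) (ed (sg H σ true)) (ms H σ x) (ed H) hk hc.big hW
    (p7 true _ fun u _ => hpar true u) (p1 l hc.eig true)
    (by rw [p1 l hc.eig false, hQF, zero_add]) p3 p4 p5 (hS V H σ x true)
    (by rw [p2, heF, add_zero]) hm0
  have hd0 : ∀ u, ¬ σ u = true → dg (sg H σ true) u = 0 := fun u hu =>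
    dg_zero_Hfin _ u fun v hv => hu hv.2.1
  have hle : ∀ u ∈ (univ : Finset V), dg (sg H σ true) u * x u ^ 2
      ≤ ((k : ℝ) - 1) * (if σ u = true then x u ^ 2 else 0) := by
    intro u _
    split_ifs with hu
    · exact mul_le_mul_of_nonneg_right (hpar true u) (sq_nonneg _)
    · rw [hd0 u hu, zero_mul, mul_zero]
  have hsum : ∑ u, dg (sg H σ true) u * x u ^ 2
      = ∑ u, ((k : ℝ) - 1) * (if σ u = true then x u ^ 2 else 0) := by
    refine le_antisymm (sum_le_sum hle) ?_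
    rw [← mul_sum]
    have h1 := p6 true
    rw [a1] at h1
    unfold sw wt at h1
    refine le_trans (le_of_eq ?_) h1
    congr 1
    exact sum_congr rfl fun u _ => by split_ifs <;> rfl
  have hdg : ∀ u, σ u = true → dg (sg H σ true) u = (k : ℝ) - 1 := by
    intro u hu
    have h1 := (sum_eq_sum_iff_of_le hle).1 hsum u (mem_univ u)
    rw [if_pos hu] at h1
    exact mul_right_cancel₀ (pow_pos (hx u hu) 2).ne' h1
  have hct : ct (fun v => σ v = true) = k := by
    have h1 : 2 * ed (sg H σ true) = ct (fun v => σ v = true) * ((k : ℝ) - 1) := by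
      unfold ed ct
      rw [mul_div_cancel₀ _ (two_ne_zero (α := ℝ)), sum_mul]
      refine sum_congr rfl fun u _ => ?_
      split_ifs with hu
      · rw [hdg u hu, one_mul]
      · rw [hd0 u hu, zero_mul]
    rw [a3] at h1
    exact (mul_right_cancel₀ (by linarith) h1).symm
  have hTT : ∀ u v, u ≠ v → σ u = true → σ v = true → H.Adj u v := by
    intro u v huv hu hv
    by_contra hn
    have h1 : ct ((sg H σ true).Adj u) + 2 ≤ ct (fun w => σ w = true) := by
      have h2 : (2 : ℝ) = (∑ w, if w = u then (1 : ℝ) else 0) + ∑ w, if w = v then 1 else 0 := by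
        simp only [sum_ite_eq', mem_univ, if_true]
        norm_num
      unfold ct
      rw [h2, ← sum_add_distrib, ← sum_add_distrib]
      refine sum_le_sum fun w _ => ?_
      by_cases h3 : w = u
      · subst h3
        simp [huv, hu]
      · by_cases h4 : w = v
        · subst h4
          have h5 : ¬ (sg H σ true).Adj u w := fun h => hn h.1
          simp [h5, h3, hv]
        · by_cases h5 : (sg H σ true).Adj u w
          · simp [h3, h4, h5, h5.2.2]
          · simp only [h3, h4, h5, if_false, add_zero]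
            split_ifs <;> norm_num
    rw [← dg_eq_ct, hdg u hu, hct] at h1
    linarith
  have hTF : ∀ u v, NI H u → NI H v → σ u = true → σ v = false → H.Adj u v := by
    intro u v hu hv su sv
    by_contra hn
    have h0 : ∀ a b : V, 0 ≤ if ¬ H.Adj a b ∧ σ a = true ∧ σ b = false
        then x a ^ 2 * x b ^ 2 else 0 := fun a b => by split_ifs <;> positivity
    have h1 := (sum_eq_zero_iff_of_nonneg fun a _ => sum_nonneg fun b _ => h0 a b).1 a4 u
      (mem_univ u)
    have h2 := (sum_eq_zero_iff_of_nonneg fun b _ => h0 u b).1 h1 v (mem_univ v)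
    rw [if_pos ⟨hn, su, sv⟩] at h2
    exact (mul_pos (pow_pos (hc.xpos hu) 2) (pow_pos (hc.xpos hv) 2)).ne' h2
  refine ⟨a2, hct, fun u v => ⟨fun h => ⟨h.ne, ⟨v, h⟩, ⟨u, h.symm⟩, ?_⟩, ?_⟩⟩
  · by_contra hn
    rw [not_or, Bool.not_eq_true, Bool.not_eq_true] at hn
    exact hF u v ⟨h, hn.1, hn.2⟩
  · rintro ⟨huv, hu, hv, h⟩
    cases su : σ u <;> cases sv : σ v
    · rw [su, sv] at h
      simp at h
    · exact (hTF v u hv hu sv su).symm
    · exact hTF u v hu hv su sv
    · exact hTT u v huv su sv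

theorem heavy_Up (hL : LightS) (hX : XbS) (hF : LfinS) (h2 : H2S) (h3 : H3S) (h4 : H4S)
    {V : Type} [Fintype V] {k : ℕ} {H : SimpleGraph V} {l : ℝ} {x : V → ℝ}
    (hc : Core k H l x) : ∃ u0, (∀ v, x v ≤ x u0) ∧ 0 < x u0 ∧ Par k H (hs x u0) ∧
      ∀ u v, ¬ (sg H (hs x u0) false).Adj u v := by
  by_cases hl : Light2 k l x
  · obtain ⟨σ, hp⟩ := hL V k H l x hc hl
    obtain ⟨α, hα⟩ := hX V k H l x σ hc (hl.light hc) hp
    exact (hF V k H l x σ α hc hp hα).elim
  · unfold Light2 at hl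
    push Not at hl
    obtain ⟨u, hu⟩ := hl
    obtain ⟨u0, -, hm⟩ := exists_max_image univ x ⟨u, mem_univ u⟩
    have hm' : ∀ v, x v ≤ x u0 := fun v => hm v (mem_univ v)
    have hk := hc.kR
    have hh : kap2 * l < k * x u0 ^ 2 :=
      hu.trans_le (mul_le_mul_of_nonneg_left (pow_le_pow_left₀ (hc.pos u) (hm' u) 2) (by linarith))
    have h0 : 0 < x u0 := by
      obtain ⟨w, hw⟩ := hc.exNI
      exact (hc.xpos hw).trans_le (hm' w)
    obtain ⟨a1, a2⟩ := h2 V k H l x u0 hc hm' hh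
    have a3 := h3 V k H l x u0 hc hm' h0 a1 a2
    obtain ⟨a4, a5⟩ := h4 V k H l x u0 hc hm' h0 a1 a2 a3
    exact ⟨u0, hm', h0, a4, a5⟩

theorem core_Up (hL : LightS) (hX : XbS) (hF : LfinS) (h2 : H2S) (h3 : H3S) (h4 : H4S)
    (h5 : HfinS) {V : Type} [Fintype V] {k : ℕ} {H : SimpleGraph V} {l : ℝ} {x : V → ℝ}
    (hc : Core k H l x) (hm0 : ed H ≤ l ^ 2 - ((k : ℝ) - 1) * l + k * ((k : ℝ) - 1) / 2) :
    ed H = l ^ 2 - ((k : ℝ) - 1) * l + k * ((k : ℝ) - 1) / 2 ∧ ∃ σ, Spl k H σ := by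
  obtain ⟨u0, hm', h0, a4, a5⟩ := heavy_Up hL hX hF h2 h3 h4 hc
  obtain ⟨a6, a7⟩ := h5 V k H l x (hs x u0) hc a4 a5
    ⟨u0, by unfold hs; rw [decide_eq_true_eq]; linarith⟩ (fun v hv => by
      unfold hs at hv
      rw [decide_eq_true_eq] at hv
      linarith) hm0
  exact ⟨a6, _, a7⟩

theorem upper (hC : CoreS) (hL : LightS) (hX : XbS) (hF : LfinS) (h2 : H2S) (h3 : H3S)
    (h4 : H4S) (h5 : HfinS) (hI : IsoS) (hS : SplitS) (k m : ℕ) (hk : 3 ≤ k)
    (hm : 10 ^ 68 * k ^ 2 ≤ m) (V : Type) [Fintype V] (G : SimpleGraph V)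
    (hni : ∀ v, ∃ w, G.Adj v w) (hfree : Free k G) (hG : G.edgeSet.ncard = m) :
    lam G ≤ ((k : ℝ) - 1 + √(4 * (m : ℝ) - (k : ℝ) ^ 2 + 1)) / 2 ∧
      (lam G = ((k : ℝ) - 1 + √(4 * (m : ℝ) - (k : ℝ) ^ 2 + 1)) / 2 ↔
        ∃ s : ℕ, 0 < s ∧ (s : ℝ) = (m : ℝ) / k - ((k : ℝ) - 1) / 2 ∧
          Nonempty (G ≃g split k s)) := by
  have hed : ed G = m := by rw [(edS V G).1, hG]
  have kR : (3 : ℝ) ≤ k := by exact_mod_cast hk
  have mR : 10 ^ 68 * (k : ℝ) ^ 2 ≤ m := by exact_mod_cast hm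
  have hD : ((k : ℝ) - 1) ^ 2 < 4 * (m : ℝ) - (k : ℝ) ^ 2 + 1 := by nlinarith
  have hs1 : (k : ℝ) - 1 < √(4 * (m : ℝ) - (k : ℝ) ^ 2 + 1) := Real.lt_sqrt_of_sq_lt hD
  have hs2 := Real.sq_sqrt (show 0 ≤ 4 * (m : ℝ) - (k : ℝ) ^ 2 + 1 from
    (sq_nonneg _).trans hD.le)
  set r := √(4 * (m : ℝ) - (k : ℝ) ^ 2 + 1) with hr
  set ρ := ((k : ℝ) - 1 + r) / 2 with hρ
  have hρ1 : (k : ℝ) - 1 < ρ := by linarith
  have hρ2 : ρ ^ 2 - ((k : ℝ) - 1) * ρ = m - k * ((k : ℝ) - 1) / 2 := by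
    rw [hρ]; linarith
  have key : ρ ≤ lam G → lam G = ρ ∧
      ∃ s : ℕ, 0 < s ∧ (s : ℝ) = (m : ℝ) / k - ((k : ℝ) - 1) / 2 ∧ Nonempty (G ≃g split k s) := by
    intro hge
    have b1 : ρ ^ 2 - ((k : ℝ) - 1) * ρ ≤ lam G ^ 2 - ((k : ℝ) - 1) * lam G := by
      nlinarith [mul_nonneg (sub_nonneg.2 hge) (show 0 ≤ lam G + ρ - (k - 1) by linarith)]
    obtain ⟨H, l, x, hHG, hc, hpot⟩ := hC V k G hk hfree (by rw [hed]; exact mR)
      (by rw [hed]; linarith)
    obtain ⟨⟨ν, hν⟩, hEq, -⟩ := (edS V G).2 H hHG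
    have e0 : (0 : ℝ) < eps := by unfold eps; norm_num
    have n0 : (0 : ℝ) ≤ ν := Nat.cast_nonneg ν
    have n1 : ed G - ed H = ν := by linarith
    rw [n1] at hpot
    obtain ⟨c1, σ, c2⟩ := core_Up hL hX hF h2 h3 h4 h5 hc (by
      have := mul_nonneg e0.le n0
      linarith)
    have n2 : eps * ν ≤ 0 := by linarith
    have n3 : (ν : ℝ) = 0 := le_antisymm (by
      by_contra h
      push Not at h
      have := mul_pos e0 h
      linarith) n0
    have hGH : G = H := hEq (by linarith)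
    subst hGH
    obtain ⟨s, d1, d2⟩ := hI V k G σ hni c2
    refine ⟨?_, s, ?_, ?_, d2⟩
    · rw [n3] at hpot
      refine le_antisymm ?_ hge
      by_contra h
      push Not at h
      nlinarith [mul_pos (sub_pos.2 h) (show 0 < lam G + ρ - (k - 1) by linarith)]
    · rcases Nat.eq_zero_or_pos s with h | h
      · subst h
        simp only [Nat.cast_zero, mul_zero, add_zero] at d1
        nlinarith
      · exact h
    · rw [← hed, d1]
      field_simp
      ring
  have hle : lam G ≤ ρ := by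
    by_contra h
    push Not at h
    exact h.ne' (key h.le).1
  refine ⟨hle, fun h => (key h.ge).2, ?_⟩
  rintro ⟨s, -, s1, s2⟩
  refine le_antisymm hle (hS V k s G ρ (by omega) s2 (by linarith) ?_)
  rw [hρ2, s1]
  field_simp

end WR
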