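import Pool.Agent.MP_1392dc_co.RSt

/-! A cycle through a set of neighbours of `w`, joined by paths of length two or three. -/

namespace WR

open W5 WQ Finset
open scoped Classical

theorem cy3S (hW : WheelS) : Cy3S := by
  intro V _ k H hk hF w U hU hU' hw hX
  obtain ⟨j, hj⟩ : ∃ j, j = U.card := ⟨_, rfl⟩
  rw [← hj] at hU hU' hX
  have key : ∀ i ≤ j, ∃ f : ℕ → V, (∀ n < 3 * j, n % 3 = 0 → f n ∈ U) ∧
      (∀ a < 3 * j, ∀ b < 3 * j, (a < 3 * i ∨ a % 3 = 0) → (b < 3 * i ∨ b % 3 = 0) →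
        f a = f b → a = b) ∧
      (∀ n < 3 * i, ∀ m, ((m = n + 1 ∨ n % 3 = 1 ∧ m = n + 2) ∧ m < 3 * j ∨
        m = 0 ∧ (n + 1 = 3 * j ∨ n % 3 = 1 ∧ n + 2 = 3 * j)) → H.Adj (f n) (f m)) ∧
      ∀ n < 3 * i, H.Adj w (f n) := by
    intro i
    induction i with
    | zero =>
      intro _
      refine ⟨fun n => if h : n / 3 < U.card then (U.equivFin.symm ⟨n / 3, h⟩ : V) else w,
        fun n hn _ => ?_, fun a ha b hb h1 h2 h => ?_, fun n hn => by omega, fun n hn => by omega⟩
      · have h : n / 3 < U.card := by omega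
        simp only [dif_pos h]
        exact Subtype.property _
      · have h3 : a / 3 < U.card := by omega
        have h4 : b / 3 < U.card := by omega
        simp only [dif_pos h3, dif_pos h4] at h
        have := Fin.mk.inj (U.equivFin.symm.injective (Subtype.ext h))
        omega
    | succ i ih =>
      intro hi
      obtain ⟨f, f1, f2, f3, f4⟩ := ih (by omega)
      obtain ⟨r, hr⟩ : ∃ r, r = 3 * i + 3 ∧ r < 3 * j ∨ r = 0 ∧ 3 * i + 3 = 3 * j := by
        by_cases h : i + 1 < j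
        · exact ⟨_, Or.inl ⟨rfl, by omega⟩⟩
        · exact ⟨_, Or.inr ⟨rfl, by omega⟩⟩
      have hu := f1 (3 * i) (by omega) (by omega)
      obtain ⟨p, q, hp, hq, hpq, hwp, hwq, hap, hbp, hbq⟩ := hX _ hu _ (f1 r (by omega) (by omega))
        ((range (3 * j)).image f) (card_image_le.trans (card_range _).le)
      have hp' : ∀ n < 3 * j, f n ≠ p := fun n hn h => hp (mem_image.2 ⟨n, mem_range.2 hn, h⟩)
      have hq' : ∀ n < 3 * j, f n ≠ q := fun n hn h => hq (mem_image.2 ⟨n, mem_range.2 hn, h⟩)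
      obtain ⟨g, g1, g2, g3⟩ : ∃ g : ℕ → V, g (3 * i + 1) = p ∧ g (3 * i + 2) = q ∧
          ∀ n, n ≠ 3 * i + 1 → n ≠ 3 * i + 2 → g n = f n :=
        ⟨fun n => if n = 3 * i + 1 then p else if n = 3 * i + 2 then q else f n, by simp, by simp,
          fun n h1 h2 => by simp only [if_neg h1, if_neg h2]⟩
      have tri : ∀ n, n = 3 * i + 1 ∧ g n = p ∨ n = 3 * i + 2 ∧ g n = q ∨
          (n ≠ 3 * i + 1 ∧ n ≠ 3 * i + 2) ∧ g n = f n := fun n => by
        by_cases h1 : n = 3 * i + 1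
        · exact Or.inl ⟨h1, h1 ▸ g1⟩
        by_cases h2 : n = 3 * i + 2
        · exact Or.inr (Or.inl ⟨h2, h2 ▸ g2⟩)
        exact Or.inr (Or.inr ⟨⟨h1, h2⟩, g3 n h1 h2⟩)
      refine ⟨g, fun n hn h => ?_, fun a ha b hb h1 h2 h => ?_, fun n hn m hm => ?_,
        fun n hn => ?_⟩
      · rw [g3 n (by omega) (by omega)]
        exact f1 n hn h
      · rcases tri a with ⟨a1, a2⟩ | ⟨a1, a2⟩ | ⟨a1, a2⟩ <;>
          rcases tri b with ⟨b1, b2⟩ | ⟨b1, b2⟩ | ⟨b1, b2⟩ <;> rw [a2, b2] at h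
        · omega
        · exact absurd h hpq.ne
        · exact absurd h.symm (hp' b hb)
        · exact absurd h.symm hpq.ne
        · omega
        · exact absurd h.symm (hq' b hb)
        · exact absurd h (hp' a ha)
        · exact absurd h (hq' a ha)
        · exact f2 a ha b hb (by omega) (by omega) h
      · rcases tri n with ⟨a1, a2⟩ | ⟨a1, a2⟩ | ⟨a1, a2⟩ <;> rw [a2]
        · by_cases h : m = 3 * i + 2
          · rw [h, g2]
            exact hpq
          · rw [show m = r by omega, g3 r (by omega) (by omega)]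
            exact hbp.symm
        · rw [show m = r by omega, g3 r (by omega) (by omega)]
          exact hbq.symm
        · by_cases h : n = 3 * i
          · rw [show m = 3 * i + 1 by omega, g1, h]
            exact hap
          · rw [g3 m (by omega) (by omega)]
            exact f3 n (by omega) m hm
      · rcases tri n with ⟨a1, a2⟩ | ⟨a1, a2⟩ | ⟨a1, a2⟩ <;> rw [a2]
        · exact hwp
        · exact hwq
        · by_cases h : n = 3 * i
          · rw [h]
            exact hw _ hu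
          · exact f4 n (by omega)
  obtain ⟨f, -, f2, f3, f4⟩ := key j le_rfl
  obtain ⟨t, ht⟩ : ∃ t, 2 * k = 2 * j + t := ⟨2 * k - 2 * j, by omega⟩
  obtain ⟨ι, hι⟩ : ∃ ι : ℕ → ℕ, ∀ n, n < 3 * t ∧ ι n = n ∨
      3 * t ≤ n ∧ ι n = 3 * (t + (n - 3 * t) / 2) + (n - 3 * t) % 2 :=
    ⟨fun n => if n < 3 * t then n else 3 * (t + (n - 3 * t) / 2) + (n - 3 * t) % 2, fun n => by
      by_cases h : n < 3 * t
      · exact Or.inl ⟨h, if_pos h⟩
      · exact Or.inr ⟨by omega, if_neg h⟩⟩
  have lt : ∀ n < 2 * k, ι n < 3 * j := fun n hn => by have := hι n; omega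
  refine hF (hW V H w (fun n => f (ι n)) (2 * k) (by omega) (fun a ha b hb h => ?_)
    (fun n hn => f3 _ (lt n (by omega)) _ (Or.inl ⟨?_, lt _ hn⟩))
    (f3 _ (lt _ (by omega)) _ (Or.inr ⟨?_, ?_⟩)) fun n hn => f4 _ (lt n hn))
  · have := f2 _ (lt a ha) _ (lt b hb) (Or.inl (lt a ha)) (Or.inl (lt b hb)) h
    have := hι a
    have := hι b
    omega
  · have := hι n
    have := hι (n + 1)
    omega
  · have := hι 0
    omega
  · have := hι (2 * k - 1)
    omega

end WR
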