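import Pool.Agent.MP_1392dc_co.RSt

/-! Cyclic sequences of good pairs in a neighbourhood give a wheel. -/

namespace WR

open W5 WQ Finset
open scoped Classical

theorem pick_Cyc {V : Type} (S : Finset V) (k : ℕ) (hk : 0 < k) (h : k ≤ S.card) :
    ∃ u : ℕ → V, (∀ i, u i ∈ S) ∧ ∀ i < k, ∀ j < k, u i = u j → i = j := by
  have h0 : 0 < S.card := by omega
  refine ⟨fun i => (S.equivFin.symm ⟨i % S.card, Nat.mod_lt _ h0⟩ : S), fun i => Subtype.prop _,
    fun i hi j hj e => ?_⟩
  have e1 := congrArg Fin.val (S.equivFin.symm.injective (Subtype.ext e))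
  simp only at e1
  rwa [Nat.mod_eq_of_lt (by omega), Nat.mod_eq_of_lt (by omega)] at e1

theorem greedy_Cyc {V : Type} (k : ℕ) (C : ℕ → Finset V) (u : ℕ → V)
    (h : ∀ t < k, 2 * k ≤ (C t).card) : ∀ i ≤ k, ∃ b : ℕ → V,
      (∀ s < i, ∀ t < i, b s = b t → s = t) ∧ ∀ t < i, b t ∈ C t ∧ ∀ s < k, b t ≠ u s := by
  intro i
  induction i with
  | zero => exact fun _ => ⟨u, fun s hs => by omega, fun s hs => by omega⟩
  | succ i ih =>
    intro hi
    obtain ⟨b, hb, hb'⟩ := ih (by omega)
    have h1 : ((range k).image u ∪ (range i).image b).card < (C i).card := by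
      have a1 := card_union_le ((range k).image u) ((range i).image b)
      have a2 := card_image_le (s := range k) (f := u)
      have a3 := card_image_le (s := range i) (f := b)
      have a4 := h i hi
      rw [card_range] at a2 a3
      omega
    obtain ⟨v, hv, hv'⟩ := exists_mem_notMem_of_card_lt_card h1
    rw [mem_union, not_or] at hv'
    have n1 : ∀ s < k, v ≠ u s := fun s hs e =>
      hv'.1 (mem_image.2 ⟨s, mem_range.2 hs, e.symm⟩)
    have n2 : ∀ s < i, b s ≠ v := fun s hs e => hv'.2 (mem_image.2 ⟨s, mem_range.2 hs, e⟩)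
    refine ⟨fun t => if t = i then v else b t, fun s hs t ht e => ?_, fun t ht => ?_⟩
    · by_cases c1 : s = i <;> by_cases c2 : t = i
      · omega
      · simp only [c1, c2, if_true, if_false] at e
        exact absurd e.symm (n2 t (by omega))
      · simp only [c1, c2, if_true, if_false] at e
        exact absurd e (n2 s (by omega))
      · simp only [c1, c2, if_false] at e
        exact hb s (by omega) t (by omega) e
    · by_cases c : t = i
      · simp only [c, if_true]
        exact ⟨hv, n1⟩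
      · simp only [c, if_false]
        exact hb' t (by omega)

theorem card_Cyc {V : Type} [Fintype V] {S : V → Prop} {n : ℕ} (h : (n : ℝ) ≤ ct S) :
    ∃ T : Finset V, n ≤ T.card ∧ ∀ v ∈ T, S v := by
  rw [ct_eq] at h
  exact ⟨_, Nat.cast_le.1 h, fun v hv => (mem_filter.1 hv).2⟩

theorem wheel_Cyc (hW : WheelS) {V : Type} [Fintype V] {k : ℕ} {H : SimpleGraph V} (hk : 2 ≤ k)
    (w : V) (u : ℕ → V) (hi : ∀ i < k, ∀ j < k, u i = u j → i = j) (hu : ∀ t < k, H.Adj w (u t))
    (hg : ∀ t < k, Good k H w (u t) (u ((t + 1) % k))) : (wheel (2 * k)).IsContained H := by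
  have hC : ∀ t, ∃ T : Finset V, t < k → 2 * k ≤ T.card ∧
      ∀ v ∈ T, H.Adj w v ∧ H.Adj (u t) v ∧ H.Adj (u ((t + 1) % k)) v := fun t => by
    by_cases ht : t < k
    · obtain ⟨T, hT⟩ := card_Cyc (n := 2 * k) (le_of_eq_of_le (by push_cast; rfl) (hg t ht))
      exact ⟨T, fun _ => hT⟩
    · exact ⟨∅, fun h => absurd h ht⟩
  choose C hC using hC
  obtain ⟨b, hb, hb0⟩ := greedy_Cyc k C u (fun t ht => (hC t ht).1) k le_rfl
  have hb' : ∀ t < k, (H.Adj w (b t) ∧ H.Adj (u t) (b t) ∧ H.Adj (u ((t + 1) % k)) (b t)) ∧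
      ∀ s < k, b t ≠ u s := fun t ht => ⟨(hC t ht).2 _ (hb0 t ht).1, (hb0 t ht).2⟩
  refine hW V H w (fun n => if n % 2 = 0 then u (n / 2) else b (n / 2)) (2 * k)
    (by omega) (fun i hi' j hj e => ?_) (fun i hi' => ?_) ?_ fun i hi' => ?_
  · by_cases c1 : i % 2 = 0 <;> by_cases c2 : j % 2 = 0 <;>
      simp only [c1, c2, if_true, if_false] at e
    · have := hi _ (by omega) _ (by omega) e
      omega
    · exact absurd e.symm ((hb' _ (by omega)).2 _ (by omega))
    · exact absurd e ((hb' _ (by omega)).2 _ (by omega))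
    · have := hb _ (by omega) _ (by omega) e
      omega
  · by_cases c : i % 2 = 0
    · rw [if_pos c, if_neg (by omega), show (i + 1) / 2 = i / 2 by omega]
      exact (hb' _ (by omega)).1.2.1
    · rw [if_neg c, if_pos (by omega), show (i + 1) / 2 = (i / 2 + 1) % k by
        rw [Nat.mod_eq_of_lt (by omega)]; omega]
      exact (hb' _ (by omega)).1.2.2.symm
  · rw [if_neg (by omega), if_pos (by omega), show 0 / 2 = ((2 * k - 1) / 2 + 1) % k by
      rw [show (2 * k - 1) / 2 + 1 = k by omega, Nat.mod_self]]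
    exact (hb' _ (by omega)).1.2.2.symm
  · by_cases c : i % 2 = 0
    · rw [if_pos c]
      exact hu _ (by omega)
    · rw [if_neg c]
      exact (hb' _ (by omega)).1.1

theorem cy2S (hW : WheelS) : Cy2S := by
  intro V _ k H hk hF w P h
  by_contra hc
  have h0 : ∃ T : Finset V, k ≤ T.card ∧ ∀ v ∈ T, H.Adj w v ∧ P v := by
    refine card_Cyc ?_
    rw [not_le, ct_eq, sub_lt_iff_lt_add, ← Nat.cast_succ, Nat.cast_lt, Nat.lt_succ_iff] at hc
    rw [ct_eq]
    exact Nat.cast_le.2 hc
  obtain ⟨T, h1, h2⟩ := h0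
  obtain ⟨u, hu, hi⟩ := pick_Cyc T k (by omega) h1
  exact hF (wheel_Cyc hW hk w u hi (fun t _ => (h2 _ (hu t)).1) fun t _ =>
    h _ _ (h2 _ (hu _)).1 (h2 _ (hu _)).1 (h2 _ (hu _)).2 (h2 _ (hu _)).2)

theorem cycS (hW : WheelS) : CycS := by
  intro V _ k H hk hF w U ⟨a, ha⟩ hU h
  have key : ∀ i < k, ∃ u : ℕ → V, u 0 = a ∧ (∀ s ≤ i, ∀ t ≤ i, u s = u t → s = t) ∧
      (∀ t ≤ i, U (u t)) ∧ ∀ t < i, Good k H w (u t) (u (t + 1)) ∧ Good k H w (u (t + 1)) a := by
    intro i
    induction i with
    | zero => exact fun _ => ⟨fun _ => a, rfl, fun s hs t ht _ => by omega, fun _ _ => ha,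
        fun t ht => by omega⟩
    | succ i ih =>
      intro hi
      obtain ⟨u, h0, h1, h2, h3⟩ := ih (by omega)
      obtain ⟨T, t1, t2⟩ := card_Cyc (h (u i) a (h2 i le_rfl) ha)
      have a1 : ((range (i + 1)).image u).card < T.card := by
        have a2 := card_image_le (s := range (i + 1)) (f := u)
        rw [card_range] at a2
        omega
      obtain ⟨v, hv, hv'⟩ := exists_mem_notMem_of_card_lt_card a1
      have n1 : ∀ s ≤ i, u s ≠ v := fun s hs e =>
        hv' (mem_image.2 ⟨s, mem_range.2 (by omega), e⟩)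
      obtain ⟨v1, v2, v3⟩ := t2 v hv
      refine ⟨fun t => if t = i + 1 then v else u t, by simpa using h0, fun s hs t ht e => ?_,
        fun t ht => ?_, fun t ht => ?_⟩
      · by_cases c1 : s = i + 1 <;> by_cases c2 : t = i + 1
        · omega
        · simp only [c1, c2, if_true, if_false] at e
          exact absurd e.symm (n1 t (by omega))
        · simp only [c1, c2, if_true, if_false] at e
          exact absurd e (n1 s (by omega))
        · simp only [c1, c2, if_false] at e
          exact h1 s (by omega) t (by omega) e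
      · by_cases c : t = i + 1
        · simp only [c, if_true]
          exact v1
        · simp only [c, if_false]
          exact h2 t (by omega)
      · dsimp only
        by_cases c : t = i
        · rw [if_neg (by omega), if_pos (by omega), c]
          exact ⟨v2, v3⟩
        · rw [if_neg (by omega), if_neg (by omega)]
          exact h3 t (by omega)
  obtain ⟨u, h0, h1, h2, h3⟩ := key (k - 1) (by omega)
  refine hF (wheel_Cyc hW hk w u (fun i hi j hj => h1 i (by omega) j (by omega))
    (fun t ht => hU _ (h2 t (by omega))) fun t ht => ?_)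
  by_cases c : t + 1 = k
  · have a1 := (h3 (t - 1) (by omega)).2
    rw [show t - 1 + 1 = t by omega] at a1
    rwa [c, Nat.mod_self, h0]
  · rw [Nat.mod_eq_of_lt (by omega)]
    exact (h3 t (by omega)).1

end WR
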