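import Pool.Agent.MP_1392dc_co.RSt

/-! Cycles in neighbourhoods, the weighted degree estimate and its two uses. -/

namespace WR

open W5 WQ Finset
open scoped Classical

theorem pick_Cyc {V : Type} (S : Finset V) (k : ℕ) (hk : 0 < k) (h : k ≤ S.card) :
    ∃ u : ℕ → V, (∀ i, u i ∈ S) ∧ ∀ i < k, ∀ j < k, u i = u j → i = j := by
  have h0 : 0 < S.card := by omega
  refine ⟨fun i => (S.equivFin.symm ⟨i % S.card, Nat.mod_lt _ h0⟩ : S), fun i => Subtype.prop _,
    fun i hi j hj e => ?_⟩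
  have e1 := congrArg Fin.val (S.equivFin.symm.injective (Subtype.ext e))
  simp only at e1
  rwa [Nat.mod_eq_of_lt (by omega), Nat.mod_eq_of_lt (by omega)] at e1

theorem greedy_Cyc {V : Type} (k : ℕ) (C : ℕ → Finset V) (u : ℕ → V)
    (h : ∀ t < k, 2 * k ≤ (C t).card) : ∀ i ≤ k, ∃ b : ℕ → V,
      (∀ s < i, ∀ t < i, b s = b t → s = t) ∧ ∀ t < i, b t ∈ C t ∧ ∀ s < k, b t ≠ u s := by
  intro i
  induction i with
  | zero => exact fun _ => ⟨u, fun s hs => by omega, fun s hs => by omega⟩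
  | succ i ih =>
    intro hi
    obtain ⟨b, hb, hb'⟩ := ih (by omega)
    have h1 : ((range k).image u ∪ (range i).image b).card < (C i).card := by
      have a1 := card_union_le ((range k).image u) ((range i).image b)
      have a2 := card_image_le (s := range k) (f := u)
      have a3 := card_image_le (s := range i) (f := b)
      have a4 := h i hi
      rw [card_range] at a2 a3
      omega
    obtain ⟨v, hv, hv'⟩ := exists_mem_notMem_of_card_lt_card h1
    rw [mem_union, not_or] at hv'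
    have n1 : ∀ s < k, v ≠ u s := fun s hs e =>
      hv'.1 (mem_image.2 ⟨s, mem_range.2 hs, e.symm⟩)
    have n2 : ∀ s < i, b s ≠ v := fun s hs e => hv'.2 (mem_image.2 ⟨s, mem_range.2 hs, e⟩)
    refine ⟨fun t => if t = i then v else b t, fun s hs t ht e => ?_, fun t ht => ?_⟩
    · by_cases c1 : s = i <;> by_cases c2 : t = i
      · omega
      · simp only [c1, c2, if_true, if_false] at e
        exact absurd e.symm (n2 t (by omega))
      · simp only [c1, c2, if_true, if_false] at e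
        exact absurd e (n2 s (by omega))
      · simp only [c1, c2, if_false] at e
        exact hb s (by omega) t (by omega) e
    · by_cases c : t = i
      · simp only [c, if_true]
        exact ⟨hv, n1⟩
      · simp only [c, if_false]
        exact hb' t (by omega)

theorem card_Cyc {V : Type} [Fintype V] {S : V → Prop} {n : ℕ} (h : (n : ℝ) ≤ ct S) :
    ∃ T : Finset V, n ≤ T.card ∧ ∀ v ∈ T, S v := by
  rw [ct_eq] at h
  exact ⟨_, Nat.cast_le.1 h, fun v hv => (mem_filter.1 hv).2⟩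

theorem wheel_Cyc (hW : WheelS) {V : Type} [Fintype V] {k : ℕ} {H : SimpleGraph V} (hk : 2 ≤ k)
    (w : V) (u : ℕ → V) (hi : ∀ i < k, ∀ j < k, u i = u j → i = j) (hu : ∀ t < k, H.Adj w (u t))
    (hg : ∀ t < k, Good k H w (u t) (u ((t + 1) % k))) : (wheel (2 * k)).IsContained H := by
  have hC : ∀ t, ∃ T : Finset V, t < k → 2 * k ≤ T.card ∧
      ∀ v ∈ T, H.Adj w v ∧ H.Adj (u t) v ∧ H.Adj (u ((t + 1) % k)) v := fun t => by
    by_cases ht : t < k
    · obtain ⟨T, hT⟩ := card_Cyc (n := 2 * k) (le_of_eq_of_le (by push_cast; rfl) (hg t ht))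
      exact ⟨T, fun _ => hT⟩
    · exact ⟨∅, fun h => absurd h ht⟩
  choose C hC using hC
  obtain ⟨b, hb, hb0⟩ := greedy_Cyc k C u (fun t ht => (hC t ht).1) k le_rfl
  have hb' : ∀ t < k, (H.Adj w (b t) ∧ H.Adj (u t) (b t) ∧ H.Adj (u ((t + 1) % k)) (b t)) ∧
      ∀ s < k, b t ≠ u s := fun t ht => ⟨(hC t ht).2 _ (hb0 t ht).1, (hb0 t ht).2⟩
  refine hW V H w (fun n => if n % 2 = 0 then u (n / 2) else b (n / 2)) (2 * k)
    (by omega) (fun i hi' j hj e => ?_) (fun i hi' => ?_) ?_ fun i hi' => ?_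
  · by_cases c1 : i % 2 = 0 <;> by_cases c2 : j % 2 = 0 <;>
      simp only [c1, c2, if_true, if_false] at e
    · have := hi _ (by omega) _ (by omega) e
      omega
    · exact absurd e.symm ((hb' _ (by omega)).2 _ (by omega))
    · exact absurd e ((hb' _ (by omega)).2 _ (by omega))
    · have := hb _ (by omega) _ (by omega) e
      omega
  · by_cases c : i % 2 = 0
    · rw [if_pos c, if_neg (by omega), show (i + 1) / 2 = i / 2 by omega]
      exact (hb' _ (by omega)).1.2.1
    · rw [if_neg c, if_pos (by omega), show (i + 1) / 2 = (i / 2 + 1) % k by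
        rw [Nat.mod_eq_of_lt (by omega)]; omega]
      exact (hb' _ (by omega)).1.2.2.symm
  · rw [if_neg (by omega), if_pos (by omega), show 0 / 2 = ((2 * k - 1) / 2 + 1) % k by
      rw [show (2 * k - 1) / 2 + 1 = k by omega, Nat.mod_self]]
    exact (hb' _ (by omega)).1.2.2.symm
  · by_cases c : i % 2 = 0
    · rw [if_pos c]
      exact hu _ (by omega)
    · rw [if_neg c]
      exact (hb' _ (by omega)).1.1

theorem cy2S (hW : WheelS) : Cy2S := by
  intro V _ k H hk hF w P h
  by_contra hc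
  have h0 : ∃ T : Finset V, k ≤ T.card ∧ ∀ v ∈ T, H.Adj w v ∧ P v := by
    refine card_Cyc ?_
    rw [not_le, ct_eq, sub_lt_iff_lt_add, ← Nat.cast_succ, Nat.cast_lt, Nat.lt_succ_iff] at hc
    rw [ct_eq]
    exact Nat.cast_le.2 hc
  obtain ⟨T, h1, h2⟩ := h0
  obtain ⟨u, hu, hi⟩ := pick_Cyc T k (by omega) h1
  exact hF (wheel_Cyc hW hk w u hi (fun t _ => (h2 _ (hu t)).1) fun t _ =>
    h _ _ (h2 _ (hu _)).1 (h2 _ (hu _)).1 (h2 _ (hu _)).2 (h2 _ (hu _)).2)

theorem cycS (hW : WheelS) : CycS := by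
  intro V _ k H hk hF w U ⟨a, ha⟩ hU h
  have key : ∀ i < k, ∃ u : ℕ → V, u 0 = a ∧ (∀ s ≤ i, ∀ t ≤ i, u s = u t → s = t) ∧
      (∀ t ≤ i, U (u t)) ∧ ∀ t < i, Good k H w (u t) (u (t + 1)) ∧ Good k H w (u (t + 1)) a := by
    intro i
    induction i with
    | zero => exact fun _ => ⟨fun _ => a, rfl, fun s hs t ht _ => by omega, fun _ _ => ha,
        fun t ht => by omega⟩
    | succ i ih =>
      intro hi
      obtain ⟨u, h0, h1, h2, h3⟩ := ih (by omega)
      obtain ⟨T, t1, t2⟩ := card_Cyc (h (u i) a (h2 i le_rfl) ha)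
      have a1 : ((range (i + 1)).image u).card < T.card := by
        have a2 := card_image_le (s := range (i + 1)) (f := u)
        rw [card_range] at a2
        omega
      obtain ⟨v, hv, hv'⟩ := exists_mem_notMem_of_card_lt_card a1
      have n1 : ∀ s ≤ i, u s ≠ v := fun s hs e =>
        hv' (mem_image.2 ⟨s, mem_range.2 (by omega), e⟩)
      obtain ⟨v1, v2, v3⟩ := t2 v hv
      refine ⟨fun t => if t = i + 1 then v else u t, by simpa using h0, fun s hs t ht e => ?_,
        fun t ht => ?_, fun t ht => ?_⟩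
      · by_cases c1 : s = i + 1 <;> by_cases c2 : t = i + 1
        · omega
        · simp only [c1, c2, if_true, if_false] at e
          exact absurd e.symm (n1 t (by omega))
        · simp only [c1, c2, if_true, if_false] at e
          exact absurd e (n1 s (by omega))
        · simp only [c1, c2, if_false] at e
          exact h1 s (by omega) t (by omega) e
      · by_cases c : t = i + 1
        · simp only [c, if_true]
          exact v1
        · simp only [c, if_false]
          exact h2 t (by omega)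
      · dsimp only
        by_cases c : t = i
        · rw [if_neg (by omega), if_pos (by omega), c]
          exact ⟨v2, v3⟩
        · rw [if_neg (by omega), if_neg (by omega)]
          exact h3 t (by omega)
  obtain ⟨u, h0, h1, h2, h3⟩ := key (k - 1) (by omega)
  refine hF (wheel_Cyc hW hk w u (fun i hi j hj => h1 i (by omega) j (by omega))
    (fun t ht => hU _ (h2 t (by omega))) fun t ht => ?_)
  by_cases c : t + 1 = k
  · have a1 := (h3 (t - 1) (by omega)).2
    rw [show t - 1 + 1 = t by omega] at a1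
    rwa [c, Nat.mod_self, h0]
  · rw [Nat.mod_eq_of_lt (by omega)]
    exact (h3 t (by omega)).1

theorem cy3S (hW : WheelS) : Cy3S := by
  intro V _ k H hk hF w U hU hU' hw hX
  obtain ⟨j, hj⟩ : ∃ j, j = U.card := ⟨_, rfl⟩
  rw [← hj] at hU hU' hX
  have key : ∀ i ≤ j, ∃ f : ℕ → V, (∀ n < 3 * j, n % 3 = 0 → f n ∈ U) ∧
      (∀ a < 3 * j, ∀ b < 3 * j, (a < 3 * i ∨ a % 3 = 0) → (b < 3 * i ∨ b % 3 = 0) →
        f a = f b → a = b) ∧
      (∀ n < 3 * i, ∀ m, ((m = n + 1 ∨ n % 3 = 1 ∧ m = n + 2) ∧ m < 3 * j ∨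
        m = 0 ∧ (n + 1 = 3 * j ∨ n % 3 = 1 ∧ n + 2 = 3 * j)) → H.Adj (f n) (f m)) ∧
      ∀ n < 3 * i, H.Adj w (f n) := by
    intro i
    induction i with
    | zero =>
      intro _
      refine ⟨fun n => if h : n / 3 < U.card then (U.equivFin.symm ⟨n / 3, h⟩ : V) else w,
        fun n hn _ => ?_, fun a ha b hb h1 h2 h => ?_, fun n hn => by omega, fun n hn => by omega⟩
      · have h : n / 3 < U.card := by omega
        simp only [dif_pos h]
        exact Subtype.property _
      · have h3 : a / 3 < U.card := by omega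
        have h4 : b / 3 < U.card := by omega
        simp only [dif_pos h3, dif_pos h4] at h
        have := Fin.mk.inj (U.equivFin.symm.injective (Subtype.ext h))
        omega
    | succ i ih =>
      intro hi
      obtain ⟨f, f1, f2, f3, f4⟩ := ih (by omega)
      obtain ⟨r, hr⟩ : ∃ r, r = 3 * i + 3 ∧ r < 3 * j ∨ r = 0 ∧ 3 * i + 3 = 3 * j := by
        by_cases h : i + 1 < j
        · exact ⟨_, Or.inl ⟨rfl, by omega⟩⟩
        · exact ⟨_, Or.inr ⟨rfl, by omega⟩⟩
      have hu := f1 (3 * i) (by omega) (by omega)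
      obtain ⟨p, q, hp, hq, hpq, hwp, hwq, hap, hbp, hbq⟩ := hX _ hu _ (f1 r (by omega) (by omega))
        ((range (3 * j)).image f) (card_image_le.trans (card_range _).le)
      have hp' : ∀ n < 3 * j, f n ≠ p := fun n hn h => hp (mem_image.2 ⟨n, mem_range.2 hn, h⟩)
      have hq' : ∀ n < 3 * j, f n ≠ q := fun n hn h => hq (mem_image.2 ⟨n, mem_range.2 hn, h⟩)
      obtain ⟨g, g1, g2, g3⟩ : ∃ g : ℕ → V, g (3 * i + 1) = p ∧ g (3 * i + 2) = q ∧
          ∀ n, n ≠ 3 * i + 1 → n ≠ 3 * i + 2 → g n = f n :=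
        ⟨fun n => if n = 3 * i + 1 then p else if n = 3 * i + 2 then q else f n, by simp, by simp,
          fun n h1 h2 => by simp only [if_neg h1, if_neg h2]⟩
      have tri : ∀ n, n = 3 * i + 1 ∧ g n = p ∨ n = 3 * i + 2 ∧ g n = q ∨
          (n ≠ 3 * i + 1 ∧ n ≠ 3 * i + 2) ∧ g n = f n := fun n => by
        by_cases h1 : n = 3 * i + 1
        · exact Or.inl ⟨h1, h1 ▸ g1⟩
        by_cases h2 : n = 3 * i + 2
        · exact Or.inr (Or.inl ⟨h2, h2 ▸ g2⟩)
        exact Or.inr (Or.inr ⟨⟨h1, h2⟩, g3 n h1 h2⟩)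
      refine ⟨g, fun n hn h => ?_, fun a ha b hb h1 h2 h => ?_, fun n hn m hm => ?_,
        fun n hn => ?_⟩
      · rw [g3 n (by omega) (by omega)]
        exact f1 n hn h
      · rcases tri a with ⟨a1, a2⟩ | ⟨a1, a2⟩ | ⟨a1, a2⟩ <;>
          rcases tri b with ⟨b1, b2⟩ | ⟨b1, b2⟩ | ⟨b1, b2⟩ <;> rw [a2, b2] at h
        · omega
        · exact absurd h hpq.ne
        · exact absurd h.symm (hp' b hb)
        · exact absurd h.symm hpq.ne
        · omega
        · exact absurd h.symm (hq' b hb)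
        · exact absurd h (hp' a ha)
        · exact absurd h (hq' a ha)
        · exact f2 a ha b hb (by omega) (by omega) h
      · rcases tri n with ⟨a1, a2⟩ | ⟨a1, a2⟩ | ⟨a1, a2⟩ <;> rw [a2]
        · by_cases h : m = 3 * i + 2
          · rw [h, g2]
            exact hpq
          · rw [show m = r by omega, g3 r (by omega) (by omega)]
            exact hbp.symm
        · rw [show m = r by omega, g3 r (by omega) (by omega)]
          exact hbq.symm
        · by_cases h : n = 3 * i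
          · rw [show m = 3 * i + 1 by omega, g1, h]
            exact hap
          · rw [g3 m (by omega) (by omega)]
            exact f3 n (by omega) m hm
      · rcases tri n with ⟨a1, a2⟩ | ⟨a1, a2⟩ | ⟨a1, a2⟩ <;> rw [a2]
        · exact hwp
        · exact hwq
        · by_cases h : n = 3 * i
          · rw [h]
            exact hw _ hu
          · exact f4 n (by omega)
  obtain ⟨f, -, f2, f3, f4⟩ := key j le_rfl
  obtain ⟨t, ht⟩ : ∃ t, 2 * k = 2 * j + t := ⟨2 * k - 2 * j, by omega⟩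
  obtain ⟨ι, hι⟩ : ∃ ι : ℕ → ℕ, ∀ n, n < 3 * t ∧ ι n = n ∨
      3 * t ≤ n ∧ ι n = 3 * (t + (n - 3 * t) / 2) + (n - 3 * t) % 2 :=
    ⟨fun n => if n < 3 * t then n else 3 * (t + (n - 3 * t) / 2) + (n - 3 * t) % 2, fun n => by
      by_cases h : n < 3 * t
      · exact Or.inl ⟨h, if_pos h⟩
      · exact Or.inr ⟨by omega, if_neg h⟩⟩
  have lt : ∀ n < 2 * k, ι n < 3 * j := fun n hn => by have := hι n; omega
  refine hF (hW V H w (fun n => f (ι n)) (2 * k) (by omega) (fun a ha b hb h => ?_)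
    (fun n hn => f3 _ (lt n (by omega)) _ (Or.inl ⟨?_, lt _ hn⟩))
    (f3 _ (lt _ (by omega)) _ (Or.inr ⟨?_, ?_⟩)) fun n hn => f4 _ (lt n hn))
  · have := f2 _ (lt a ha) _ (lt b hb) (Or.inl (lt a ha)) (Or.inl (lt b hb)) h
    have := hι a
    have := hι b
    omega
  · have := hι n
    have := hι (n + 1)
    omega
  · have := hι 0
    omega
  · have := hι (2 * k - 1)
    omega

section
variable {V : Type} [Fintype V]

theorem markov_Wd (x : V → ℝ) (T : V → Prop) (f : V → ℝ) (c : ℝ) (h0 : ∀ v, 0 ≤ f v)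
    (h : ∀ v, T v → c ≤ f v) : c * wt x T ≤ ∑ v, x v ^ 2 * f v := by
  unfold wt
  rw [mul_sum]
  refine sum_le_sum fun v _ => ?_
  split_ifs with hv
  · rw [mul_comm]; exact mul_le_mul_of_nonneg_left (h v hv) (sq_nonneg _)
  · rw [mul_zero]; exact mul_nonneg (sq_nonneg _) (h0 v)

theorem swap_Wd (x : V → ℝ) (R : V → V → Prop) :
    ∑ y, x y ^ 2 * wt x (R y) = ∑ c, x c ^ 2 * wt x fun y => R y c := by
  unfold wt
  simp only [mul_sum]
  rw [sum_comm]
  refine sum_congr rfl fun c _ => sum_congr rfl fun y _ => ?_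
  split_ifs <;> ring

theorem total_Wd (x : V → ℝ) (R : V → V → V → Prop) (b : ℝ)
    (h : ∀ a c, wt x (fun y => R y a c) ≤ b) :
    ∑ y, x y ^ 2 * ∑ a, x a ^ 2 * wt x (R y a) ≤ nn x ^ 2 * b := by
  have e : ∑ y, x y ^ 2 * ∑ a, x a ^ 2 * wt x (R y a) =
      ∑ a, x a ^ 2 * ∑ y, x y ^ 2 * wt x (R y a) := by
    simp only [mul_sum]
    rw [sum_comm]
    exact sum_congr rfl fun a _ => sum_congr rfl fun y _ => by ring
  rw [e, sq (nn x), mul_assoc]
  nth_rewrite 1 [nn]
  rw [sum_mul]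
  refine sum_le_sum fun a _ => mul_le_mul_of_nonneg_left ?_ (sq_nonneg _)
  rw [swap_Wd x fun y => R y a, nn, sum_mul]
  exact sum_le_sum fun c _ => mul_le_mul_of_nonneg_left (h a c) (sq_nonneg _)

theorem symm_Wd {k : ℕ} {H : SimpleGraph V} {w a b : V} (h : Good k H w a b) : Good k H w b a :=
  h.trans (ct_mono fun _ hv => ⟨hv.1, hv.2.2, hv.2.1⟩)

end

theorem wdS (hC : CycS) : WdS := by
  intro V _ k H l x hk hF hl hn w S hS hne
  by_contra hcon
  push Not at hcon
  have hk0 : (0 : ℝ) < k := by exact_mod_cast (by omega : 0 < k)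
  have hx : ∀ v, S v → x v ^ 2 ≤ kap2 * l / k := fun v hv => by
    rw [le_div_iff₀ hk0, mul_comm]; exact (hS v hv).2
  have hc0 : 0 < kap2 * l / k := by unfold kap2; positivity
  have hwS : l / 10 ^ 4 < wt x S := by
    obtain ⟨q, hq⟩ := hne
    exact (hcon q hq).trans_le (wt_mono x fun _ h => h.2)
  obtain ⟨R, hR⟩ : ∃ R : V → V → V → Prop, ∀ y a c, R y a c ↔
      S y ∧ (H.Adj y a ∧ S a) ∧ (H.Adj y c ∧ S c) ∧ ¬ Good k H w a c := ⟨_, fun _ _ _ => Iff.rfl⟩
  have h1 : ∀ a c, wt x (fun y => R y a c) ≤ 2 * kap2 * l := by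
    intro a c
    refine (wt_le_ct x _ _ fun y hy => hx y ((hR _ _ _).1 hy).1).trans ?_
    have h2 : ct (fun y => R y a c) ≤ 2 * k := by
      by_cases hg : Good k H w a c
      · refine le_trans (le_of_eq ?_) (by positivity : (0 : ℝ) ≤ 2 * k)
        exact sum_eq_zero fun y _ => if_neg fun hy => ((hR _ _ _).1 hy).2.2.2 hg
      · refine le_trans (ct_mono fun y hy => ?_) (not_le.1 hg).le
        obtain ⟨a1, a2, a3, -⟩ := (hR _ _ _).1 hy
        exact ⟨(hS y a1).1, a2.1.symm, a3.1.symm⟩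
    refine (mul_le_mul_of_nonneg_left h2 hc0.le).trans (le_of_eq ?_)
    field_simp
  have h2 := total_Wd x R _ h1
  have hn0 : 0 ≤ nn x := sum_nonneg fun _ _ => sq_nonneg _
  have h3 : nn x ^ 2 * (2 * kap2 * l) ≤ (2 * l) ^ 2 * (2 * kap2 * l) :=
    mul_le_mul_of_nonneg_right (pow_le_pow_left₀ hn0 hn 2) (by unfold kap2; positivity)
  obtain ⟨y, hy, hB⟩ : ∃ y, S y ∧ ∑ a, x a ^ 2 * wt x (R y a) < l ^ 2 / 10 ^ 10 := by
    by_contra g
    push Not at g
    have h4 := markov_Wd x S (fun y => ∑ a, x a ^ 2 * wt x (R y a)) _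
      (fun y => sum_nonneg fun a _ => mul_nonneg (sq_nonneg _) (wt_nonneg _ _)) g
    have h5 : l ^ 2 / 10 ^ 10 * (l / 10 ^ 4) ≤ l ^ 2 / 10 ^ 10 * wt x S :=
      mul_le_mul_of_nonneg_left hwS.le (by positivity)
    have h6 : 0 < l ^ 3 := by positivity
    unfold kap2 at h2 h3
    nlinarith
  obtain ⟨om, hom⟩ : ∃ om, om = wt x fun v => H.Adj y v ∧ S v := ⟨_, rfl⟩
  have ho : l / 10 ^ 4 < om := hom ▸ hcon y hy
  have ho0 : 0 < om := lt_trans (by positivity) ho
  have h4 : wt x (fun v => (H.Adj y v ∧ S v) ∧ ¬ wt x (R y v) ≤ om / 4) ≤ om / 4 := by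
    have h5 := markov_Wd x (fun v => (H.Adj y v ∧ S v) ∧ ¬ wt x (R y v) ≤ om / 4)
      (fun a => wt x (R y a)) (om / 4) (fun a => wt_nonneg _ _) fun v hv => (not_le.1 hv.2).le
    refine le_of_mul_le_mul_left (h5.trans (hB.le.trans ?_)) (by positivity)
    have h6 : (l / 10 ^ 4) ^ 2 ≤ om ^ 2 := pow_le_pow_left₀ (by positivity) ho.le 2
    nlinarith [sq_nonneg l]
  refine hC V k H hk hF w (fun v => (H.Adj y v ∧ S v) ∧ wt x (R y v) ≤ om / 4) ?_
    (fun a ha => (hS a ha.1.2).1) fun a b ha hb => ?_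
  · by_contra g
    push Not at g
    have h5 : wt x (fun v => H.Adj y v ∧ S v) ≤ _ :=
      le_trans (wt_mono x fun v hv => ⟨hv, not_le.2 (g v hv)⟩) h4
    linarith
  · have h5 := three_miss x (fun v => H.Adj y v ∧ S v) (fun v => wt x (R y v) ≤ om / 4)
      (fun c => Good k H w a c) fun c => Good k H w c b
    have h6 : wt x (fun c => (H.Adj y c ∧ S c) ∧ ¬ Good k H w a c) ≤ om / 4 :=
      le_trans (wt_mono x fun c hc => (hR _ _ _).2 ⟨hy, ha.1, hc.1, hc.2⟩) ha.2
    have h7 : wt x (fun c => (H.Adj y c ∧ S c) ∧ ¬ Good k H w c b) ≤ om / 4 :=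
      le_trans (wt_mono x fun c hc =>
        (hR _ _ _).2 ⟨hy, hb.1, hc.1, fun g => hc.2 (symm_Wd g)⟩) hb.2
    have h8 := wt_le_ct x (fun c => (H.Adj y c ∧ S c) ∧ wt x (R y c) ≤ om / 4 ∧
      Good k H w a c ∧ Good k H w c b) _ fun v hv => hx v hv.1.2
    refine le_trans ?_ (ct_mono (S := fun c => (H.Adj y c ∧ S c) ∧ wt x (R y c) ≤ om / 4 ∧
      Good k H w a c ∧ Good k H w c b) fun c hc => ⟨⟨hc.1, hc.2.1⟩, hc.2.2⟩)
    refine le_of_mul_le_mul_left (le_trans ?_ h8) hc0
    rw [div_mul_cancel₀ _ hk0.ne']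
    unfold kap2
    linarith

theorem wt_Kst {V : Type} [Fintype V] (x : V → ℝ) (P : V → Prop) (S : Finset V) :
    wt x (fun v => P v ∧ v ∈ S) = ∑ p ∈ S, if P p then x p ^ 2 else 0 := by
  unfold wt
  refine (sum_subset (subset_univ S) fun v _ hv => by simp [hv]).symm.trans ?_
  exact sum_congr rfl fun v hv => by by_cases h : P v <;> simp [h, hv]

theorem sub_Kst (hD : WdS) {V : Type} [Fintype V] {k : ℕ} {H : SimpleGraph V} {l : ℝ}
    {x : V → ℝ} (hc : Core k H l x) (hL : Light2 k l x) (w : V) (S : Finset V) :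
    (∀ v ∈ S, H.Adj w v) →
      (∑ p ∈ S, ∑ q ∈ S, if H.Adj p q then x p ^ 2 * x q ^ 2 else 0) ≤
        2 * (l / 10 ^ 4) * ∑ p ∈ S, x p ^ 2 := by
  induction S using Finset.strongInduction with
  | H S ih =>
    intro hS
    rcases S.eq_empty_or_nonempty with rfl | hne
    · simp
    obtain ⟨q, hq, hw⟩ := hD V k H l x (by have := hc.k3; omega) hc.free hc.l0 hc.nn_le w
      (fun v => v ∈ S) (fun v hv => ⟨hS v hv, hL v⟩) hne
    rw [wt_Kst] at hw
    have h1 := ih (S.erase q) (erase_ssubset hq) fun v hv => hS v (mem_of_mem_erase hv)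
    have h2 : (∑ p ∈ S, if H.Adj q p then x q ^ 2 * x p ^ 2 else 0) ≤
        x q ^ 2 * (l / 10 ^ 4) := by
      refine le_trans (le_of_eq ?_) (mul_le_mul_of_nonneg_left hw (sq_nonneg (x q)))
      rw [mul_sum]
      exact sum_congr rfl fun p _ => by split_ifs <;> simp
    have h4 : (∑ p ∈ S.erase q, if H.Adj p q then x p ^ 2 * x q ^ 2 else 0) ≤
        ∑ p ∈ S, if H.Adj q p then x q ^ 2 * x p ^ 2 else 0 := by
      refine (sum_le_sum fun p _ => ?_).trans
        (sum_le_sum_of_subset_of_nonneg (erase_subset q S) fun p _ _ => ?_)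
      · by_cases h : H.Adj p q
        · rw [if_pos h, if_pos h.symm, mul_comm]
        · rw [if_neg h, if_neg fun h' => h h'.symm]
      · split_ifs
        · positivity
        · exact le_rfl
    have h5 : (∑ p ∈ S.erase q, ∑ r ∈ S, if H.Adj p r then x p ^ 2 * x r ^ 2 else 0) =
        (∑ p ∈ S.erase q, if H.Adj p q then x p ^ 2 * x q ^ 2 else 0) +
          ∑ p ∈ S.erase q, ∑ r ∈ S.erase q, if H.Adj p r then x p ^ 2 * x r ^ 2 else 0 := by
      rw [← sum_add_distrib]
      exact sum_congr rfl fun p _ => (add_sum_erase S _ hq).symm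
    rw [← add_sum_erase S _ hq, ← add_sum_erase S (fun p => x p ^ 2) hq, h5]
    linarith

theorem kstS (hD : WdS) : KstS := by
  intro V _ k H l x hc hL w
  have h := sub_Kst hD hc hL w (univ.filter (H.Adj w)) fun v hv => (mem_filter.1 hv).2
  have h1 : ∑ p ∈ univ.filter (H.Adj w), x p ^ 2 ≤ 2 * l :=
    (sum_le_sum_of_subset_of_nonneg (subset_univ _) fun p _ _ => sq_nonneg (x p)).trans hc.nn_le
  have l0 := hc.l0
  refine le_trans (le_of_eq ?_) (h.trans ?_)
  · rw [sum_filter]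
    refine sum_congr rfl fun p _ => ?_
    by_cases hp : H.Adj w p
    · rw [if_pos hp, if_pos hp, sum_filter, wt, mul_sum]
      refine sum_congr rfl fun q _ => ?_
      by_cases hq : H.Adj w q <;> by_cases h' : H.Adj p q <;> simp [hq, h']
    · rw [if_neg hp, if_neg hp]
  · nlinarith [mul_le_mul_of_nonneg_left h1 l0.le]

theorem nb_H1 {V : Type} [Fintype V] {k : ℕ} {H : SimpleGraph V} {l : ℝ} {x : V → ℝ}
    (hc : Core k H l x) {w v : V} (h1 : H.Adj w v) (h2 : k * x v ^ 2 ≤ kap2 * l) :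
    (1 - 1 / 10 ^ 7) * l ≤ wt x (H.Adj v) := by
  have h3 := hc.nb ⟨w, h1.symm⟩
  have hl := hc.l0
  have hk := hc.kR
  have hw := wt_nonneg x (H.Adj v)
  have h4 : x v ^ 2 ≤ l / 10 ^ 15 := by
    unfold kap2 at h2
    nlinarith [sq_nonneg (x v)]
  have h5 := h3.trans (mul_le_mul_of_nonneg_left
    (show l + x v ^ 2 / 4 ≤ (1 + 1 / 10 ^ 15) * l by linarith) hw)
  have h6 : (1 - eps) * l ≤ (1 + 1 / 10 ^ 15) * wt x (H.Adj v) :=
    le_of_mul_le_mul_right (by nlinarith) hl
  unfold eps at h6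
  linarith

theorem h1S (hD : WdS) : H1S := by
  intro V _ k H l x u0 hc hm
  obtain ⟨u, hu⟩ := hc.exNI
  have h0 : 0 < x u0 := (hc.xpos hu).trans_le (hm u)
  have hl := hc.l0
  have hk := hc.kR
  have hn := hc.nn_le
  have hlx := mul_pos hl h0
  obtain ⟨B, hB⟩ : ∃ B : V → Prop, ∀ v, B v ↔ H.Adj u0 v ∧ k * x v ^ 2 ≤ kap2 * l :=
    ⟨_, fun _ => Iff.rfl⟩
  have c1 : ct (fun v => kap2 * l < k * x v ^ 2) ≤ 2 / 10 ^ 15 * l := by
    have a := (ct_le_wt x (fun v => kap2 * l < k * x v ^ 2) (kap2 * l / k) fun v hv => by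
      rw [div_le_iff₀ (by linarith)]; linarith).trans ((wt_le_nn x _).trans hn)
    generalize ct (fun v => kap2 * l < k * x v ^ 2) = t at a
    rw [div_mul_eq_mul_div, div_le_iff₀ (by linarith)] at a
    have b : kap2 * t ≤ 2 * k := le_of_mul_le_mul_right (by linarith) hl
    have := hc.big2
    unfold kap2 at b
    linarith
  have c2 : l * x u0 ≤ x u0 * ct (fun v => kap2 * l < k * x v ^ 2) +
      ∑ v, if B v then x v else 0 := by
    rw [← hc.eig u0, ns, ct, mul_sum, ← sum_add_distrib]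
    refine sum_le_sum fun v _ => ?_
    have := hm v
    have := hc.pos v
    by_cases a : H.Adj u0 v <;> by_cases b : kap2 * l < k * x v ^ 2 <;>
      simp only [hB, ← not_lt, a, b, if_true, if_false, not_true, not_false_iff, and_self,
        and_true, and_false] <;> linarith
  have c3 : (1 - 2 / 10 ^ 15) * (l * x u0) ≤ ∑ v, if B v then x v else 0 := by
    nlinarith [mul_le_mul_of_nonneg_left c1 h0.le]
  have c4 : ∃ v, B v := by
    by_contra g
    push Not at g
    simp only [g, if_false, sum_const_zero] at c3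
    linarith
  obtain ⟨v1, b1, b2⟩ := hD V k H l x (by have := hc.k3; omega) hc.free hl hn u0 B
    (fun v hv => (hB v).1 hv) c4
  have c5 : wt x B ≤ 1.00011 * l := by
    have a1 := nb_H1 hc ((hB v1).1 b1).1 ((hB v1).1 b1).2
    have a2 := wt_split x (H.Adj v1) B
    have a3 := wt_mono x (S := fun v => H.Adj v1 v ∧ ¬ B v) (T := fun v => ¬ B v) fun v h => h.2
    have a4 := wt_compl x B
    linarith
  obtain ⟨v0, d1, d2⟩ : ∃ v, B v ∧ x u0 * x v ≤ 1.0002 := by
    by_contra g
    push Not at g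
    have a : 1.0002 * (∑ v, if B v then x v else 0) ≤ x u0 * wt x B := by
      rw [wt, mul_sum, mul_sum]
      refine sum_le_sum fun v _ => ?_
      split_ifs with h
      · nlinarith [mul_le_mul_of_nonneg_right (g v h).le (hc.pos v)]
      · simp
    nlinarith [mul_le_mul_of_nonneg_left c5 h0.le]
  have a1 := nb_H1 hc ((hB v0).1 d1).1 ((hB v0).1 d1).2
  have a2 := wt_split x (H.Adj v0) fun v => hs x u0 v = true
  have a3 := wt_mono x (S := fun v => H.Adj v0 v ∧ hs x u0 v = true)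
    (T := fun v => hs x u0 v = true) fun v h => h.2
  have a4 : 9 * wt x (fun v => H.Adj v0 v ∧ ¬ hs x u0 v = true) + wt x (H.Adj v0) ≤
      x u0 * (l * x v0) := by
    rw [← hc.eig v0, ns, wt, wt, mul_sum, mul_sum, ← sum_add_distrib]
    refine sum_le_sum fun v _ => ?_
    have e1 := mul_le_mul_of_nonneg_right (hm v) (hc.pos v)
    by_cases a : H.Adj v0 v
    · by_cases b : hs x u0 v = true
      · simp only [a, b, if_true, if_false, not_true, and_false]
        nlinarith
      · have e2 : 10 * x v < x u0 := by simpa [hs] using b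
        simp only [a, b, if_true, not_false_iff, and_self, Bool.false_eq_true]
        nlinarith [mul_le_mul_of_nonneg_right e2.le (hc.pos v)]
    · simp [a]
  have a5 := mul_le_mul_of_nonneg_left d2 hl.le
  unfold sw
  nlinarith

theorem qf_nonneg_H2 {V : Type} [Fintype V] (G : SimpleGraph V) (x : V → ℝ) (hx : ∀ u, 0 ≤ x u) :
    0 ≤ qf G x := by
  rw [qf_eq]
  refine sum_nonneg fun u _ => sum_nonneg fun v _ => ?_
  split_ifs
  · exact mul_nonneg (hx u) (hx v)
  · exact le_rfl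

theorem ari_H2 (l W W' Q Q' M : ℝ) (hl : 0 < l)
    (hs : W + W' ≤ 2 * l) (hQ' : 0 ≤ Q') (h1 : Q ≤ l / 10 ^ 4 * W)
    (e1 : l * W = Q + M) (e2 : l * W' = Q' + M) : W ≤ 1.001 * l := by
  have h2 : l * (W - W') ≤ l * (W / 10 ^ 4) := by
    have : l * (W - W') = Q - Q' := by rw [mul_sub, e1, e2]; ring
    rw [this]
    have : l * (W / 10 ^ 4) = l / 10 ^ 4 * W := by ring
    linarith
  have h3 : W - W' ≤ W / 10 ^ 4 := le_of_mul_le_mul_left h2 hl
  linarith

theorem h2S (hP : PartS) (h1 : H1S) : H2S := by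
  intro V _ k H l x u0 hc hmax hheavy
  have hl := hc.l0
  have hk := hc.kR
  have hbig := hc.big2
  have hx0 := hc.pos u0
  obtain ⟨p1, -, -, -, -, -, p7⟩ := hP V H (hs x u0) x
  have hWT : 0 ≤ sw x (hs x u0) true := wt_nonneg _ _
  have hWF : 0 ≤ sw x (hs x u0) false := wt_nonneg _ _
  have hsum : sw x (hs x u0) true + sw x (hs x u0) false ≤ 2 * l := by
    rw [sw_add]; exact hc.nn_le
  have hK0 := ct_nonneg (fun v => hs x u0 v = true)
  have hK1 : (x u0 / 10) ^ 2 * ct (fun v => hs x u0 v = true) ≤ sw x (hs x u0) true := by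
    refine ct_le_wt x _ _ fun v hv => ?_
    have hv' : x u0 ≤ 10 * x v := by simpa [hs] using hv
    exact pow_le_pow_left₀ (by linarith) (by linarith) 2
  have hK : ct (fun v => hs x u0 v = true) ≤ l / 10 ^ 11 := by
    set K := ct (fun v => hs x u0 v = true) with hKd
    have a1 : K * x u0 ^ 2 ≤ 200 * l := by nlinarith
    have a2 : K * (kap2 * l) ≤ K * (k * x u0 ^ 2) := mul_le_mul_of_nonneg_left hheavy.le hK0
    have a3 : (k : ℝ) * (K * x u0 ^ 2) ≤ k * (200 * l) :=
      mul_le_mul_of_nonneg_left a1 (by linarith)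
    have a4 : (K * kap2) * l ≤ (200 * k) * l := by nlinarith
    have a5 : K * kap2 ≤ 200 * k := le_of_mul_le_mul_right a4 hl
    unfold kap2 at a5
    linarith
  have hQF := qf_nonneg_H2 (sg H (hs x u0) false) x hc.pos
  have eT := p1 l hc.eig true
  have eF := p1 l hc.eig false
  have bT : qf (sg H (hs x u0) true) x ≤ l / 10 ^ 4 * sw x (hs x u0) true := by
    refine p7 true (l / 10 ^ 4) fun u _ => ?_
    rw [dg_eq_ct]
    have : ct ((sg H (hs x u0) true).Adj u) ≤ ct (fun v => hs x u0 v = true) :=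
      ct_mono fun v hv => hv.2.2
    linarith
  have s2 := h1 V k H l x u0 hc hmax
  refine ⟨hK, fun c => ?_⟩
  cases c
  · linarith
  · exact ari_H2 l _ _ _ _ _ hl hsum hQF bT eT eF

end WR
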