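import Pool.Agent.MP_1392dc_co.RSt

/-! The large entries carry almost half of the weight. -/

namespace WR

open W5 WQ Finset
open scoped Classical

theorem nb_H1 {V : Type} [Fintype V] {k : ℕ} {H : SimpleGraph V} {l : ℝ} {x : V → ℝ}
    (hc : Core k H l x) {w v : V} (h1 : H.Adj w v) (h2 : k * x v ^ 2 ≤ kap2 * l) :
    (1 - 1 / 10 ^ 7) * l ≤ wt x (H.Adj v) := by
  have h3 := hc.nb ⟨w, h1.symm⟩
  have hl := hc.l0
  have hk := hc.kR
  have hw := wt_nonneg x (H.Adj v)
  have h4 : x v ^ 2 ≤ l / 10 ^ 15 := by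
    unfold kap2 at h2
    nlinarith [sq_nonneg (x v)]
  have h5 := h3.trans (mul_le_mul_of_nonneg_left
    (show l + x v ^ 2 / 4 ≤ (1 + 1 / 10 ^ 15) * l by linarith) hw)
  have h6 : (1 - eps) * l ≤ (1 + 1 / 10 ^ 15) * wt x (H.Adj v) :=
    le_of_mul_le_mul_right (by nlinarith) hl
  unfold eps at h6
  linarith

theorem h1S (hD : WdS) : H1S := by
  intro V _ k H l x u0 hc hm
  obtain ⟨u, hu⟩ := hc.exNI
  have h0 : 0 < x u0 := (hc.xpos hu).trans_le (hm u)
  have hl := hc.l0
  have hk := hc.kR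
  have hn := hc.nn_le
  have hlx := mul_pos hl h0
  obtain ⟨B, hB⟩ : ∃ B : V → Prop, ∀ v, B v ↔ H.Adj u0 v ∧ k * x v ^ 2 ≤ kap2 * l :=
    ⟨_, fun _ => Iff.rfl⟩
  have c1 : ct (fun v => kap2 * l < k * x v ^ 2) ≤ 2 / 10 ^ 15 * l := by
    have a := (ct_le_wt x (fun v => kap2 * l < k * x v ^ 2) (kap2 * l / k) fun v hv => by
      rw [div_le_iff₀ (by linarith)]; linarith).trans ((wt_le_nn x _).trans hn)
    generalize ct (fun v => kap2 * l < k * x v ^ 2) = t at a
    rw [div_mul_eq_mul_div, div_le_iff₀ (by linarith)] at a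
    have b : kap2 * t ≤ 2 * k := le_of_mul_le_mul_right (by linarith) hl
    have := hc.big2
    unfold kap2 at b
    linarith
  have c2 : l * x u0 ≤ x u0 * ct (fun v => kap2 * l < k * x v ^ 2) +
      ∑ v, if B v then x v else 0 := by
    rw [← hc.eig u0, ns, ct, mul_sum, ← sum_add_distrib]
    refine sum_le_sum fun v _ => ?_
    have := hm v
    have := hc.pos v
    by_cases a : H.Adj u0 v <;> by_cases b : kap2 * l < k * x v ^ 2 <;>
      simp only [hB, ← not_lt, a, b, if_true, if_false, not_true, not_false_iff, and_self,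
        and_true, and_false] <;> linarith
  have c3 : (1 - 2 / 10 ^ 15) * (l * x u0) ≤ ∑ v, if B v then x v else 0 := by
    nlinarith [mul_le_mul_of_nonneg_left c1 h0.le]
  have c4 : ∃ v, B v := by
    by_contra g
    push Not at g
    simp only [g, if_false, sum_const_zero] at c3
    linarith
  obtain ⟨v1, b1, b2⟩ := hD V k H l x (by have := hc.k3; omega) hc.free hl hn u0 B
    (fun v hv => (hB v).1 hv) c4
  have c5 : wt x B ≤ 1.00011 * l := by
    have a1 := nb_H1 hc ((hB v1).1 b1).1 ((hB v1).1 b1).2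
    have a2 := wt_split x (H.Adj v1) B
    have a3 := wt_mono x (S := fun v => H.Adj v1 v ∧ ¬ B v) (T := fun v => ¬ B v) fun v h => h.2
    have a4 := wt_compl x B
    linarith
  obtain ⟨v0, d1, d2⟩ : ∃ v, B v ∧ x u0 * x v ≤ 1.0002 := by
    by_contra g
    push Not at g
    have a : 1.0002 * (∑ v, if B v then x v else 0) ≤ x u0 * wt x B := by
      rw [wt, mul_sum, mul_sum]
      refine sum_le_sum fun v _ => ?_
      split_ifs with h
      · nlinarith [mul_le_mul_of_nonneg_right (g v h).le (hc.pos v)]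
      · simp
    nlinarith [mul_le_mul_of_nonneg_left c5 h0.le]
  have a1 := nb_H1 hc ((hB v0).1 d1).1 ((hB v0).1 d1).2
  have a2 := wt_split x (H.Adj v0) fun v => hs x u0 v = true
  have a3 := wt_mono x (S := fun v => H.Adj v0 v ∧ hs x u0 v = true)
    (T := fun v => hs x u0 v = true) fun v h => h.2
  have a4 : 9 * wt x (fun v => H.Adj v0 v ∧ ¬ hs x u0 v = true) + wt x (H.Adj v0) ≤
      x u0 * (l * x v0) := by
    rw [← hc.eig v0, ns, wt, wt, mul_sum, mul_sum, ← sum_add_distrib]
    refine sum_le_sum fun v _ => ?_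
    have e1 := mul_le_mul_of_nonneg_right (hm v) (hc.pos v)
    by_cases a : H.Adj v0 v
    · by_cases b : hs x u0 v = true
      · simp only [a, b, if_true, if_false, not_true, and_false]
        nlinarith
      · have e2 : 10 * x v < x u0 := by simpa [hs] using b
        simp only [a, b, if_true, not_false_iff, and_self, Bool.false_eq_true]
        nlinarith [mul_le_mul_of_nonneg_right e2.le (hc.pos v)]
    · simp [a]
  have a5 := mul_le_mul_of_nonneg_left d2 hl.le
  unfold sw
  nlinarith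

end WR
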