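import Pool.Agent.MP_1392dc_co.RSt

namespace WR

open W5 WQ Finset
open scoped Classical

theorem wt_Kst {V : Type} [Fintype V] (x : V → ℝ) (P : V → Prop) (S : Finset V) :
    wt x (fun v => P v ∧ v ∈ S) = ∑ p ∈ S, if P p then x p ^ 2 else 0 := by
  unfold wt
  refine (sum_subset (subset_univ S) fun v _ hv => by simp [hv]).symm.trans ?_
  exact sum_congr rfl fun v hv => by by_cases h : P v <;> simp [h, hv]

theorem sub_Kst (hD : WdS) {V : Type} [Fintype V] {k : ℕ} {H : SimpleGraph V} {l : ℝ}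
    {x : V → ℝ} (hc : Core k H l x) (hL : Light2 k l x) (w : V) (S : Finset V) :
    (∀ v ∈ S, H.Adj w v) →
      (∑ p ∈ S, ∑ q ∈ S, if H.Adj p q then x p ^ 2 * x q ^ 2 else 0) ≤
        2 * (l / 10 ^ 4) * ∑ p ∈ S, x p ^ 2 := by
  induction S using Finset.strongInduction with
  | H S ih =>
    intro hS
    rcases S.eq_empty_or_nonempty with rfl | hne
    · simp
    obtain ⟨q, hq, hw⟩ := hD V k H l x (by have := hc.k3; omega) hc.free hc.l0 hc.nn_le w
      (fun v => v ∈ S) (fun v hv => ⟨hS v hv, hL v⟩) hne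
    rw [wt_Kst] at hw
    have h1 := ih (S.erase q) (erase_ssubset hq) fun v hv => hS v (mem_of_mem_erase hv)
    have h2 : (∑ p ∈ S, if H.Adj q p then x q ^ 2 * x p ^ 2 else 0) ≤
        x q ^ 2 * (l / 10 ^ 4) := by
      refine le_trans (le_of_eq ?_) (mul_le_mul_of_nonneg_left hw (sq_nonneg (x q)))
      rw [mul_sum]
      exact sum_congr rfl fun p _ => by split_ifs <;> simp
    have h4 : (∑ p ∈ S.erase q, if H.Adj p q then x p ^ 2 * x q ^ 2 else 0) ≤
        ∑ p ∈ S, if H.Adj q p then x q ^ 2 * x p ^ 2 else 0 := by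
      refine (sum_le_sum fun p _ => ?_).trans
        (sum_le_sum_of_subset_of_nonneg (erase_subset q S) fun p _ _ => ?_)
      · by_cases h : H.Adj p q
        · rw [if_pos h, if_pos h.symm, mul_comm]
        · rw [if_neg h, if_neg fun h' => h h'.symm]
      · split_ifs
        · positivity
        · exact le_rfl
    have h5 : (∑ p ∈ S.erase q, ∑ r ∈ S, if H.Adj p r then x p ^ 2 * x r ^ 2 else 0) =
        (∑ p ∈ S.erase q, if H.Adj p q then x p ^ 2 * x q ^ 2 else 0) +
          ∑ p ∈ S.erase q, ∑ r ∈ S.erase q, if H.Adj p r then x p ^ 2 * x r ^ 2 else 0 := by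
      rw [← sum_add_distrib]
      exact sum_congr rfl fun p _ => (add_sum_erase S _ hq).symm
    rw [← add_sum_erase S _ hq, ← add_sum_erase S (fun p => x p ^ 2) hq, h5]
    linarith

theorem kstS (hD : WdS) : KstS := by
  intro V _ k H l x hc hL w
  have h := sub_Kst hD hc hL w (univ.filter (H.Adj w)) fun v hv => (mem_filter.1 hv).2
  have h1 : ∑ p ∈ univ.filter (H.Adj w), x p ^ 2 ≤ 2 * l :=
    (sum_le_sum_of_subset_of_nonneg (subset_univ _) fun p _ _ => sq_nonneg (x p)).trans hc.nn_le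
  have l0 := hc.l0
  refine le_trans (le_of_eq ?_) (h.trans ?_)
  · rw [sum_filter]
    refine sum_congr rfl fun p _ => ?_
    by_cases hp : H.Adj w p
    · rw [if_pos hp, if_pos hp, sum_filter, wt, mul_sum]
      refine sum_congr rfl fun q _ => ?_
      by_cases hq : H.Adj w q <;> by_cases h' : H.Adj p q <;> simp [hq, h']
    · rw [if_neg hp, if_neg hp]
  · nlinarith [mul_le_mul_of_nonneg_left h1 l0.le]

end WR
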