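import Pool.Agent.MP_1392dc_co.RSt

namespace WR

open W5 WQ Finset
open scoped Classical

section
variable {V : Type} [Fintype V]

theorem markov_Wd (x : V → ℝ) (T : V → Prop) (f : V → ℝ) (c : ℝ) (h0 : ∀ v, 0 ≤ f v)
    (h : ∀ v, T v → c ≤ f v) : c * wt x T ≤ ∑ v, x v ^ 2 * f v := by
  unfold wt
  rw [mul_sum]
  refine sum_le_sum fun v _ => ?_
  split_ifs with hv
  · rw [mul_comm]; exact mul_le_mul_of_nonneg_left (h v hv) (sq_nonneg _)
  · rw [mul_zero]; exact mul_nonneg (sq_nonneg _) (h0 v)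

theorem swap_Wd (x : V → ℝ) (R : V → V → Prop) :
    ∑ y, x y ^ 2 * wt x (R y) = ∑ c, x c ^ 2 * wt x fun y => R y c := by
  unfold wt
  simp only [mul_sum]
  rw [sum_comm]
  refine sum_congr rfl fun c _ => sum_congr rfl fun y _ => ?_
  split_ifs <;> ring

theorem total_Wd (x : V → ℝ) (R : V → V → V → Prop) (b : ℝ)
    (h : ∀ a c, wt x (fun y => R y a c) ≤ b) :
    ∑ y, x y ^ 2 * ∑ a, x a ^ 2 * wt x (R y a) ≤ nn x ^ 2 * b := by
  have e : ∑ y, x y ^ 2 * ∑ a, x a ^ 2 * wt x (R y a) =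
      ∑ a, x a ^ 2 * ∑ y, x y ^ 2 * wt x (R y a) := by
    simp only [mul_sum]
    rw [sum_comm]
    exact sum_congr rfl fun a _ => sum_congr rfl fun y _ => by ring
  rw [e, sq (nn x), mul_assoc]
  nth_rewrite 1 [nn]
  rw [sum_mul]
  refine sum_le_sum fun a _ => mul_le_mul_of_nonneg_left ?_ (sq_nonneg _)
  rw [swap_Wd x fun y => R y a, nn, sum_mul]
  exact sum_le_sum fun c _ => mul_le_mul_of_nonneg_left (h a c) (sq_nonneg _)

theorem symm_Wd {k : ℕ} {H : SimpleGraph V} {w a b : V} (h : Good k H w a b) : Good k H w b a :=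
  h.trans (ct_mono fun _ hv => ⟨hv.1, hv.2.2, hv.2.1⟩)

end

theorem wdS (hC : CycS) : WdS := by
  intro V _ k H l x hk hF hl hn w S hS hne
  by_contra hcon
  push Not at hcon
  have hk0 : (0 : ℝ) < k := by exact_mod_cast (by omega : 0 < k)
  have hx : ∀ v, S v → x v ^ 2 ≤ kap2 * l / k := fun v hv => by
    rw [le_div_iff₀ hk0, mul_comm]; exact (hS v hv).2
  have hc0 : 0 < kap2 * l / k := by unfold kap2; positivity
  have hwS : l / 10 ^ 4 < wt x S := by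
    obtain ⟨q, hq⟩ := hne
    exact (hcon q hq).trans_le (wt_mono x fun _ h => h.2)
  obtain ⟨R, hR⟩ : ∃ R : V → V → V → Prop, ∀ y a c, R y a c ↔
      S y ∧ (H.Adj y a ∧ S a) ∧ (H.Adj y c ∧ S c) ∧ ¬ Good k H w a c := ⟨_, fun _ _ _ => Iff.rfl⟩
  have h1 : ∀ a c, wt x (fun y => R y a c) ≤ 2 * kap2 * l := by
    intro a c
    refine (wt_le_ct x _ _ fun y hy => hx y ((hR _ _ _).1 hy).1).trans ?_
    have h2 : ct (fun y => R y a c) ≤ 2 * k := by
      by_cases hg : Good k H w a c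
      · refine le_trans (le_of_eq ?_) (by positivity : (0 : ℝ) ≤ 2 * k)
        exact sum_eq_zero fun y _ => if_neg fun hy => ((hR _ _ _).1 hy).2.2.2 hg
      · refine le_trans (ct_mono fun y hy => ?_) (not_le.1 hg).le
        obtain ⟨a1, a2, a3, -⟩ := (hR _ _ _).1 hy
        exact ⟨(hS y a1).1, a2.1.symm, a3.1.symm⟩
    refine (mul_le_mul_of_nonneg_left h2 hc0.le).trans (le_of_eq ?_)
    field_simp
  have h2 := total_Wd x R _ h1
  have hn0 : 0 ≤ nn x := sum_nonneg fun _ _ => sq_nonneg _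
  have h3 : nn x ^ 2 * (2 * kap2 * l) ≤ (2 * l) ^ 2 * (2 * kap2 * l) :=
    mul_le_mul_of_nonneg_right (pow_le_pow_left₀ hn0 hn 2) (by unfold kap2; positivity)
  obtain ⟨y, hy, hB⟩ : ∃ y, S y ∧ ∑ a, x a ^ 2 * wt x (R y a) < l ^ 2 / 10 ^ 10 := by
    by_contra g
    push Not at g
    have h4 := markov_Wd x S (fun y => ∑ a, x a ^ 2 * wt x (R y a)) _
      (fun y => sum_nonneg fun a _ => mul_nonneg (sq_nonneg _) (wt_nonneg _ _)) g
    have h5 : l ^ 2 / 10 ^ 10 * (l / 10 ^ 4) ≤ l ^ 2 / 10 ^ 10 * wt x S :=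
      mul_le_mul_of_nonneg_left hwS.le (by positivity)
    have h6 : 0 < l ^ 3 := by positivity
    unfold kap2 at h2 h3
    nlinarith
  obtain ⟨om, hom⟩ : ∃ om, om = wt x fun v => H.Adj y v ∧ S v := ⟨_, rfl⟩
  have ho : l / 10 ^ 4 < om := hom ▸ hcon y hy
  have ho0 : 0 < om := lt_trans (by positivity) ho
  have h4 : wt x (fun v => (H.Adj y v ∧ S v) ∧ ¬ wt x (R y v) ≤ om / 4) ≤ om / 4 := by
    have h5 := markov_Wd x (fun v => (H.Adj y v ∧ S v) ∧ ¬ wt x (R y v) ≤ om / 4)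
      (fun a => wt x (R y a)) (om / 4) (fun a => wt_nonneg _ _) fun v hv => (not_le.1 hv.2).le
    refine le_of_mul_le_mul_left (h5.trans (hB.le.trans ?_)) (by positivity)
    have h6 : (l / 10 ^ 4) ^ 2 ≤ om ^ 2 := pow_le_pow_left₀ (by positivity) ho.le 2
    nlinarith [sq_nonneg l]
  refine hC V k H hk hF w (fun v => (H.Adj y v ∧ S v) ∧ wt x (R y v) ≤ om / 4) ?_
    (fun a ha => (hS a ha.1.2).1) fun a b ha hb => ?_
  · by_contra g
    push Not at g
    have h5 : wt x (fun v => H.Adj y v ∧ S v) ≤ _ :=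
      le_trans (wt_mono x fun v hv => ⟨hv, not_le.2 (g v hv)⟩) h4
    linarith
  · have h5 := three_miss x (fun v => H.Adj y v ∧ S v) (fun v => wt x (R y v) ≤ om / 4)
      (fun c => Good k H w a c) fun c => Good k H w c b
    have h6 : wt x (fun c => (H.Adj y c ∧ S c) ∧ ¬ Good k H w a c) ≤ om / 4 :=
      le_trans (wt_mono x fun c hc => (hR _ _ _).2 ⟨hy, ha.1, hc.1, hc.2⟩) ha.2
    have h7 : wt x (fun c => (H.Adj y c ∧ S c) ∧ ¬ Good k H w c b) ≤ om / 4 :=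
      le_trans (wt_mono x fun c hc =>
        (hR _ _ _).2 ⟨hy, hb.1, hc.1, fun g => hc.2 (symm_Wd g)⟩) hb.2
    have h8 := wt_le_ct x (fun c => (H.Adj y c ∧ S c) ∧ wt x (R y c) ≤ om / 4 ∧
      Good k H w a c ∧ Good k H w c b) _ fun v hv => hx v hv.1.2
    refine le_trans ?_ (ct_mono (S := fun c => (H.Adj y c ∧ S c) ∧ wt x (R y c) ≤ om / 4 ∧
      Good k H w a c ∧ Good k H w c b) fun c hc => ⟨⟨hc.1, hc.2.1⟩, hc.2.2⟩)
    refine le_of_mul_le_mul_left (le_trans ?_ h8) hc0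
    rw [div_mul_cancel₀ _ hk0.ne']
    unfold kap2
    linarith

end WR
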