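import Mathlib

/-! Definitions used in the statement: spectral radius, wheels, the graphs `K_k ∨ s K_1`,
and the assertion of the question for a given `k` and a given number of edges `m`. -/

namespace W5

open Classical in
/-- The largest eigenvalue of the adjacency matrix of a finite graph. -/
noncomputable def lam {V : Type} [Fintype V] (G : SimpleGraph V) : ℝ :=
  sSup {μ : ℝ | ∃ x : V → ℝ, x ≠ 0 ∧ (G.adjMatrix ℝ).mulVec x = μ • x}

/-- The wheel `K_1 ∨ C_n` on `n + 1` vertices; the hub is `none`. -/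
def wheel (n : ℕ) : SimpleGraph (Option (Fin n)) where
  Adj u v := match u, v with
    | none, none => False
    | none, some _ => True
    | some _, none => True
    | some i, some j => (SimpleGraph.cycleGraph n).Adj i j
  symm := ⟨by
    intro u v h
    cases u <;> cases v <;> simp_all [SimpleGraph.adj_comm]⟩
  loopless := ⟨by
    intro u h
    cases u <;> simp_all⟩

/-- The join `K_k ∨ s K_1` of a clique on `k` vertices and `s` isolated vertices. -/
def split (k s : ℕ) : SimpleGraph (Fin k ⊕ Fin s) where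
  Adj u v := match u, v with
    | Sum.inl i, Sum.inl j => i ≠ j
    | Sum.inl _, Sum.inr _ => True
    | Sum.inr _, Sum.inl _ => True
    | Sum.inr _, Sum.inr _ => False
  symm := ⟨by
    intro u v h
    cases u <;> cases v <;> simp_all [ne_comm]⟩
  loopless := ⟨by
    intro u h
    cases u <;> simp_all⟩

/-- The assertion of the question for the pair `(k, m)`: every graph with `m` edges, no isolated
vertex and no wheel `W_t`, `t ≥ 2k+1`, obeys the bound, with equality exactly for
`K_k ∨ (m/k - (k-1)/2) K_1`. -/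
def Holds (k m : ℕ) : Prop :=
  ∀ (V : Type) [Fintype V] (G : SimpleGraph V),
    (∀ v, ∃ w, G.Adj v w) →
    (∀ t : ℕ, 2 * k + 1 ≤ t → ¬ (wheel (t - 1)).IsContained G) →
    G.edgeSet.ncard = m →
    lam G ≤ ((k : ℝ) - 1 + √(4 * (m : ℝ) - (k : ℝ) ^ 2 + 1)) / 2 ∧
      (lam G = ((k : ℝ) - 1 + √(4 * (m : ℝ) - (k : ℝ) ^ 2 + 1)) / 2 ↔
        ∃ s : ℕ, 0 < s ∧ (s : ℝ) = (m : ℝ) / k - ((k : ℝ) - 1) / 2 ∧ Nonempty (G ≃g split k s))

end W5
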