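import Pool.Agent.MP_1392dc_co.St

/-! The candidates for the extremal graph when the number of edges has a nonzero residue. -/

namespace W5

/-- The join of a clique `K_k` and `q` further vertices, with one more vertex joined to `r` vertices
of the clique (no such vertex if `r = 0`); if `e` is `true`, two of the `q` vertices are joined
by an edge, otherwise the `q` vertices are independent. -/
def sp (k q r : ℕ) (e : Bool) : SimpleGraph (Fin k ⊕ Fin q ⊕ Fin (min r 1)) where
  Adj u v := match u, v with
    | Sum.inl i, Sum.inl j => i ≠ j
    | Sum.inl _, Sum.inr (Sum.inl _) => True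
    | Sum.inr (Sum.inl _), Sum.inl _ => True
    | Sum.inl i, Sum.inr (Sum.inr _) => i.val < r
    | Sum.inr (Sum.inr _), Sum.inl i => i.val < r
    | Sum.inr (Sum.inl a), Sum.inr (Sum.inl b) => e = true ∧ a.val + b.val = 1
    | Sum.inr (Sum.inl _), Sum.inr (Sum.inr _) => False
    | Sum.inr (Sum.inr _), Sum.inr (Sum.inl _) => False
    | Sum.inr (Sum.inr _), Sum.inr (Sum.inr _) => False
  symm := ⟨by
    rintro (u | u | u) (v | v | v) h <;> simp_all [ne_comm, add_comm]⟩
  loopless := ⟨by
    rintro (u | u | u) h
    · exact h rfl
    · have := h.2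
      omega
    · exact h⟩

end W5
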