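import Pool.Agent.MP_1392dc_co.TSt

/-! Nonzero residues: the coarse structure and the estimates for the Perron vector. -/

namespace WR

open W5 WQ Finset
open scoped Classical

section

theorem ari_Hstr (K l W W' Q M E e s m : ℝ) (hK : 3 ≤ K) (hl : 10 ^ 30 * K ≤ l) (hW : 0 < W)
    (hQ : Q ≤ (K - 1) * W) (h1 : l * W = Q + M) (h2 : l * W' = M)
    (h3 : M ^ 2 ≤ E * (W * W' - s)) (hs : 0 ≤ s) (hE : 0 ≤ E)
    (h4 : Q ^ 2 + Q * W ≤ 2 * e * W ^ 2) (h5 : m = e + E)
    (h6 : m ≤ l ^ 2 - (K - 1) * l + K * (K - 1) / 2 + K / 4) (h7 : W + W' ≤ 2 * l) :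
    ∃ t : ℝ, 0 ≤ t ∧ t ≤ 1 / 10 ^ 30 ∧ Q = (K - 1 - t) * W ∧
      l ^ 2 - (K - 1) * l + K * (K - 1) / 2 ≤ m ∧ K * (K - 1) / 2 - e ≤ t * K ∧
      e ≤ K * (K - 1) / 2 + K / 4 ∧ s ≤ K / 3 := by
  obtain ⟨t, rfl⟩ : ∃ t, Q = (K - 1 - t) * W := ⟨K - 1 - Q / W, by field_simp; ring⟩
  have ht : 0 ≤ t := by
    have := le_of_mul_le_mul_right hQ hW
    linarith
  have hlK : 100 * K ≤ l := by linarith
  have hl0 : 0 < l := by linarith
  have hM : M = (l - (K - 1 - t)) * W := by linarith
  have hM0 : 0 < M := by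
    rw [hM]
    exact mul_pos (by linarith) hW
  have hW' : 0 < W' := by
    rw [← h2] at hM0
    exact (mul_pos_iff_of_pos_left hl0).1 hM0
  have hWW := mul_pos hW hW'
  have hM2 : M ^ 2 = (l - (K - 1 - t)) * l * (W * W') := by
    calc M ^ 2 = M * M := sq M
      _ = ((l - (K - 1 - t)) * W) * (l * W') := by rw [← hM, h2]
      _ = _ := by ring
  have hEs := mul_nonneg hE hs
  have g1 : (l - (K - 1 - t)) * l ≤ E := by
    refine le_of_mul_le_mul_right ?_ hWW
    linarith
  have g2 : (K - 1 - t) ^ 2 + (K - 1 - t) ≤ 2 * e := by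
    refine le_of_mul_le_mul_right ?_ (pow_pos hW 2)
    linarith
  have t2 := sq_nonneg t
  have t3 : t * (10 ^ 30 * K) ≤ t * l := mul_le_mul_of_nonneg_left hl ht
  have t4 : 0 ≤ t * K := mul_nonneg ht (by linarith)
  have g3 : t * l - t * K ≤ K / 4 := by linarith
  have g4 : t ≤ 1 / 10 ^ 30 := by
    refine le_of_mul_le_mul_right ?_ (show 0 < K by linarith)
    linarith
  have g5 : E ≤ (l - (K - 1 - t)) * l + K / 4 := by linarith
  have g6 : W * W' ≤ l ^ 2 := by nlinarith [sq_nonneg (W - W')]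
  have g7 : E * s ≤ K / 4 * l ^ 2 := by
    have a1 := mul_le_mul_of_nonneg_right g5 hWW.le
    have a2 := mul_le_mul_of_nonneg_left g6 (show 0 ≤ K / 4 by linarith)
    linarith
  have g8 : 0.99 * l ^ 2 ≤ E := by
    have a1 := mul_le_mul_of_nonneg_right hlK hl0.le
    have a2 : 0 ≤ t * l := mul_nonneg ht hl0.le
    linarith
  refine ⟨t, ht, g4, rfl, by linarith, by linarith, by linarith, ?_⟩
  refine le_of_mul_le_mul_right ?_ (pow_pos hl0 2)
  have a1 := mul_le_mul_of_nonneg_right g8 hs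
  have a2 : 0 ≤ K * l ^ 2 := by positivity
  linarith

theorem dg_zero_Hstr {V : Type} [Fintype V] (G : SimpleGraph V) (u : V)
    (h : ∀ v, ¬ G.Adj u v) : dg G u = 0 :=
  sum_eq_zero fun v _ => if_neg (h v)

theorem dg_lt_Hstr {V : Type} [Fintype V] (H : SimpleGraph V) (σ : V → Bool) (u : V)
    (hu : σ u = true) : dg (sg H σ true) u ≤ ct (fun v => σ v = true) - 1 := by
  have h2 : (1 : ℝ) = ∑ w, if w = u then (1 : ℝ) else 0 := by
    simp only [sum_ite_eq', mem_univ, if_true]
  rw [le_sub_iff_add_le, dg_eq_ct]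
  unfold ct
  rw [h2, ← sum_add_distrib]
  refine sum_le_sum fun w _ => ?_
  by_cases h3 : w = u
  · subst h3
    simp [hu]
  · by_cases h5 : (sg H σ true).Adj u w
    · simp [h3, h5, h5.2.2]
    · simp only [h3, h5, if_false, add_zero]
      split_ifs <;> norm_num

theorem hstrS (hP : PartS) (hS : StanS) : HstrS := by
  intro V _ k H l x u0 hc hmax h0 hpar hF
  obtain ⟨σ, hσ⟩ : ∃ σ, hs x u0 = σ := ⟨_, rfl⟩
  have hx : ∀ u, σ u = true → x u0 ≤ 10 * x u := fun u hu => by
    rw [← hσ] at hu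
    exact of_decide_eq_true hu
  have hu0 : σ u0 = true := by
    rw [← hσ]
    exact decide_eq_true (by linarith)
  rw [hσ] at hpar hF ⊢
  obtain ⟨p1, p2, p3, p4, p5, p6, p7⟩ := hP V H σ x
  have hk := hc.kR
  have hQF : qf (sg H σ false) x = 0 := by
    rw [qf_eq]
    exact sum_eq_zero fun u _ => sum_eq_zero fun v _ => if_neg (hF u v)
  have heF : ed (sg H σ false) = 0 := by
    unfold ed
    rw [sum_eq_zero fun u _ => dg_zero_Hstr _ u (hF u), zero_div]
  have hx0 := pow_pos h0 2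
  have hW : 0 < sw x σ true := by
    refine sum_pos' (fun v _ => by split_ifs <;> positivity) ⟨u0, mem_univ u0, ?_⟩
    rw [if_pos hu0]
    exact hx0
  obtain ⟨t, a0, a1, a2, a3, a4, a5, a6⟩ := ari_Hstr k l (sw x σ true) (sw x σ false)
    (qf (sg H σ true) x) (cr H σ x) (cr H σ fun _ => 1) (ed (sg H σ true)) (ms H σ x) (ed H) hk
    hc.big2 hW (p7 true _ fun u _ => hpar true u) (p1 l hc.eig true)
    (by rw [p1 l hc.eig false, hQF, zero_add]) p3 p4 p5 (hS V H σ x true)
    (by rw [p2, heF, add_zero]) hc.hm (by rw [sw_add]; exact hc.nn_le)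
  have hd0 : ∀ u, ¬ σ u = true → dg (sg H σ true) u = 0 := fun u hu =>
    dg_zero_Hstr _ u fun v hv => hu hv.2.1
  have htk : t * k ≤ 1 / 10 ^ 30 * k := mul_le_mul_of_nonneg_right a1 (by linarith)
  refine ⟨a3, ?_, by unfold jK; linarith, ?_⟩
  · obtain ⟨a, ha⟩ : ∃ a : ℕ, ct (fun v => σ v = true) = a := ⟨_, ct_eq _⟩
    have b1 : sw x σ true ≤ x u0 ^ 2 * a := by
      rw [← ha]
      exact wt_le_ct x _ _ fun v _ => pow_le_pow_left₀ (hc.pos v) (hmax v) 2
    have b2 : x u0 ^ 2 / 100 * (((k : ℝ) - 1) * a - 2 * ed (sg H σ true)) ≤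
        ((k : ℝ) - 1) * sw x σ true - ∑ u, dg (sg H σ true) u * x u ^ 2 := by
      rw [← ha]
      unfold ed ct sw wt
      rw [mul_div_cancel₀ _ (two_ne_zero (α := ℝ)), mul_sum, mul_sum, ← sum_sub_distrib,
        ← sum_sub_distrib, mul_sum]
      refine sum_le_sum fun u _ => ?_
      by_cases hu : σ u = true
      · have c1 := hpar true u
        have c2 : x u0 ^ 2 / 100 ≤ x u ^ 2 := by
          have := pow_le_pow_left₀ h0.le (hx u hu) 2
          linarith
        have c3 := mul_le_mul_of_nonneg_right c2 (sub_nonneg.2 c1)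
        simp only [hu, if_true]
        linarith
      · simp [hu, hd0 u hu]
    have b3 : ((k : ℝ) - 1) * a - 2 * ed (sg H σ true) ≤ 100 * (t * a) := by
      have c1 := p6 true
      rw [a2] at c1
      have c2 := mul_le_mul_of_nonneg_left b1 a0
      refine le_of_mul_le_mul_left ?_ (show 0 < x u0 ^ 2 / 100 by positivity)
      linarith
    have b4 : (a : ℝ) < k + 1 := by
      by_contra hn
      have c1 := mul_le_mul_of_nonneg_right (not_lt.1 hn)
        (show 0 ≤ (k : ℝ) - 1 - 100 * t by linarith)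
      linarith
    have b5 : (k : ℝ) < a + 1 := by
      have c1 := p7 true _ fun u hu => dg_lt_Hstr H σ u hu
      rw [a2, ha] at c1
      have c2 := le_of_mul_le_mul_right c1 hW
      linarith
    have b6 : a < k + 1 := by exact_mod_cast b4
    have b7 : k < a + 1 := by exact_mod_cast b5
    rw [ha, show a = k by omega]
  · have b1 : 1 / 401 * ct (fun v => σ v = false ∧ NI H v ∧ ∃ u, σ u = true ∧ ¬ H.Adj v u) ≤
        ms H σ x := by
      unfold ct ms
      rw [sum_comm, mul_sum]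
      refine sum_le_sum fun v _ => ?_
      have c0 : ∀ u ∈ (univ : Finset V), 0 ≤ if ¬ H.Adj u v ∧ σ u = true ∧ σ v = false
          then x u ^ 2 * x v ^ 2 else 0 := fun u _ => by split_ifs <;> positivity
      split_ifs with hv
      · obtain ⟨sv, ⟨w, hw⟩, u, su, hu⟩ := hv
        refine le_trans ?_ (single_le_sum c0 (mem_univ u))
        rw [if_pos ⟨fun h => hu h.symm, su, sv⟩]
        have c1 := hc.he v w hw
        have c2 := mul_le_mul_of_nonneg_left ((hmax w).trans (hx u su)) (hc.pos v)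
        have c3 : 0.04999 ≤ x u * x v := by
          unfold eps at c1
          linarith
        have c4 := pow_le_pow_left₀ (by norm_num) c3 2
        rw [mul_pow] at c4
        linarith
      · rw [mul_zero]
        exact sum_nonneg c0
    linarith

end

section

section
variable {V : Type} [Fintype V]

theorem diff_Pass {G H : SimpleGraph V} (h : H ≤ G) :
    2 * (ed G - ed H) = ∑ u, ∑ v, if G.Adj u v ∧ ¬ H.Adj u v then (1 : ℝ) else 0 := by
  rw [mul_sub, two_ed, two_ed, ← sum_sub_distrib]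
  refine sum_congr rfl fun u _ => ?_
  rw [← sum_sub_distrib]
  refine sum_congr rfl fun v _ => ?_
  by_cases a : H.Adj u v
  · have b : G.Adj u v := h a
    simp [a, b]
  · by_cases b : G.Adj u v <;> simp [a, b]

theorem ed_mono_Pass {G H : SimpleGraph V} (h : H ≤ G) : ed H ≤ ed G := by
  have h1 := diff_Pass h
  have h2 : (0 : ℝ) ≤ ∑ u, ∑ v, if G.Adj u v ∧ ¬ H.Adj u v then (1 : ℝ) else 0 :=
    sum_nonneg fun u _ => sum_nonneg fun v _ => by split_ifs <;> norm_num
  linarith

theorem cross_Pass {G H : SimpleGraph V} (h : H ≤ G) (σ : V → Bool) :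
    (∑ v, ∑ u, if σ v = false ∧ σ u = true ∧ G.Adj v u ∧ ¬ H.Adj v u then (1 : ℝ) else 0) ≤
      ed G - ed H := by
  have h1 := diff_Pass h
  have h2 : (∑ v, ∑ u, if σ v = false ∧ σ u = true ∧ G.Adj v u ∧ ¬ H.Adj v u then (1 : ℝ) else 0) =
      ∑ v, ∑ u, if σ u = false ∧ σ v = true ∧ G.Adj u v ∧ ¬ H.Adj u v then (1 : ℝ) else 0 :=
    sum_comm
  have h3 : (∑ v, ∑ u, if σ v = false ∧ σ u = true ∧ G.Adj v u ∧ ¬ H.Adj v u then (1 : ℝ) else 0) +
      (∑ v, ∑ u, if σ u = false ∧ σ v = true ∧ G.Adj u v ∧ ¬ H.Adj u v then (1 : ℝ) else 0) ≤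
      ∑ u, ∑ v, if G.Adj u v ∧ ¬ H.Adj u v then (1 : ℝ) else 0 := by
    rw [← sum_add_distrib]
    refine sum_le_sum fun v _ => ?_
    rw [← sum_add_distrib]
    refine sum_le_sum fun u _ => ?_
    rw [G.adj_comm u v, H.adj_comm u v]
    by_cases a : G.Adj v u ∧ ¬ H.Adj v u
    · cases σ v <;> cases σ u <;> simp [a]
    · have b : ∀ p q : Prop, ¬ (p ∧ q ∧ G.Adj v u ∧ ¬ H.Adj v u) := fun p q c => a c.2.2
      rw [if_neg (b _ _), if_neg (b _ _), if_neg a]
      norm_num
  linarith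

theorem sub_Pass {W : Type} [Fintype W] {G : SimpleGraph V} {G' : SimpleGraph W} (e : G ≃g G')
    {μ : ℝ} (h : ∃ x : V → ℝ, x ≠ 0 ∧ (G.adjMatrix ℝ).mulVec x = μ • x) :
    ∃ x : W → ℝ, x ≠ 0 ∧ (G'.adjMatrix ℝ).mulVec x = μ • x := by
  obtain ⟨x, hx, hm⟩ := h
  refine ⟨fun w => x (e.symm w), fun h0 => hx ?_, ?_⟩
  · funext v
    have := congrFun h0 (e v)
    simpa using this
  · funext w
    have h1 := congrFun hm (e.symm w)
    rw [mulVec_Per] at h1
    rw [mulVec_Per]
    have h2 : ns G' (fun w => x (e.symm w)) w = ns G x (e.symm w) := by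
      unfold ns
      rw [← Equiv.sum_comp e.symm.toEquiv]
      refine sum_congr rfl fun u _ => ?_
      have : G.Adj (e.symm w) (e.symm u) ↔ G'.Adj w u := e.symm.map_adj_iff
      by_cases a : G'.Adj w u
      · rw [if_pos a]
        exact (if_pos (this.2 a)).symm
      · rw [if_neg a]
        exact (if_neg fun b => a (this.1 b)).symm
    rw [h2, h1]
    rfl

end

theorem passS : PassS := by
  intro V _ k G H σ h hK hF
  refine ⟨?_, ?_, ?_⟩
  · have h1 := diff_Pass h
    have h2 := two_ed (sg G σ false)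
    have h3 : (∑ u, ∑ v, if (sg G σ false).Adj u v then (1 : ℝ) else 0) ≤
        ∑ u, ∑ v, if G.Adj u v ∧ ¬ H.Adj u v then (1 : ℝ) else 0 := by
      refine sum_le_sum fun u _ => sum_le_sum fun v _ => ?_
      by_cases a : (sg G σ false).Adj u v
      · have b : G.Adj u v ∧ ¬ H.Adj u v := ⟨a.1, fun c => hF u v ⟨c, a.2.1, a.2.2⟩⟩
        rw [if_pos a, if_pos b]
      · rw [if_neg a]
        split_ifs <;> norm_num
    unfold tF
    linarith
  · have h1 : ed (sg H σ true) ≤ ed (sg G σ true) :=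
      ed_mono_Pass fun u v a => ⟨h a.1, a.2.1, a.2.2⟩
    unfold jK
    linarith
  · refine le_trans ?_ (add_le_add le_rfl (cross_Pass h σ))
    unfold ct
    rw [← sum_add_distrib]
    refine sum_le_sum fun v _ => ?_
    have n1 : (0 : ℝ) ≤
        ∑ u, if σ v = false ∧ σ u = true ∧ G.Adj v u ∧ ¬ H.Adj v u then (1 : ℝ) else 0 :=
      sum_nonneg fun u _ => by split_ifs <;> norm_num
    by_cases a : Pt k G σ v
    · rw [if_pos a]
      obtain ⟨a1, a2, a3⟩ := a
      by_cases b : NI H v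
      · have c : ∃ u, σ u = true ∧ ¬ H.Adj v u := by
          by_contra hn
          have h4 : ct (fun u => σ u = true) ≤ dK G σ v :=
            ct_mono fun u hu => ⟨by
              by_contra hc
              exact hn ⟨u, hu, fun d => hc (h d)⟩, hu⟩
          linarith
        rw [if_pos ⟨a1, b, c⟩]
        linarith
      · have c : ∃ u, G.Adj v u ∧ σ u = true := by
          by_contra hn
          have h4 : dK G σ v = 0 := sum_eq_zero fun u _ => if_neg fun d => hn ⟨u, d⟩
          linarith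
        obtain ⟨u, c1, c2⟩ := c
        have h5 : (1 : ℝ) ≤
            ∑ u, if σ v = false ∧ σ u = true ∧ G.Adj v u ∧ ¬ H.Adj v u then (1 : ℝ) else 0 := by
          refine le_trans ?_ (single_le_sum
            (f := fun u => if σ v = false ∧ σ u = true ∧ G.Adj v u ∧ ¬ H.Adj v u then (1 : ℝ) else 0)
            (fun w _ => by split_ifs <;> norm_num) (mem_univ u))
          exact (if_pos ⟨a1, c2, c1, fun d => b ⟨u, d⟩⟩).ge
        rw [if_neg fun d => b d.2.1]
        linarith
    · rw [if_neg a]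
      split_ifs <;> linarith

theorem lamS : LamS := by
  rintro V W _ _ G G' ⟨e⟩
  unfold lam
  congr 1
  ext μ
  exact ⟨fun h => sub_Pass e h, fun h => sub_Pass e.symm h⟩

end

section

theorem st_Eig {L W Q e : ℝ} (hL : 0 ≤ L) (hW : 0 < W) (h1 : L * W = Q)
    (h2 : Q ^ 2 + Q * W ≤ 2 * e * W ^ 2) : L ^ 2 ≤ 2 * e := by
  subst h1
  have hW2 : 0 < W ^ 2 := by positivity
  refine le_of_mul_le_mul_right ?_ hW2
  nlinarith [mul_nonneg hL hW2.le]

theorem eigS (hP : PartS) (hS : StanS) : EigS := by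
  intro V _ k m G σ h hψ
  obtain ⟨hL0, -, hx⟩ := perS V G
  have hk := h.kR
  have hb := h.big
  have hL2 : (10 ^ 30 * (k : ℝ)) ^ 2 ≤ lam G ^ 2 := by
    nlinarith [mul_nonneg (show (0 : ℝ) ≤ k - 1 by linarith) hL0]
  have hL1 : 10 ^ 30 * (k : ℝ) ≤ lam G := abs_le_of_sq_le_sq' hL2 hL0 |>.2
  obtain ⟨x, hx⟩ := hx (by linarith)
  have hn : 0 < nn x := by rw [hx.nrm]; linarith
  have hup : lam G ^ 2 ≤ 2 * m := by
    have e1 : sg G (fun _ => true) true = G := by
      ext u v
      simp [sg]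
    have e2 : sw x (fun _ => true) true = nn x := by simp [sw, wt, nn]
    have e3 : cr G (fun _ => true) x = 0 := by simp [cr]
    have a := (hP V G (fun _ => true) x).1 (lam G) hx.eig true
    have b := hS V G (fun _ => true) x true
    rw [e1, e2] at a b
    rw [e3, add_zero] at a
    rw [← h.hm]
    exact st_Eig hL0 hn a b
  have hW : 0 < sw x σ true := by
    refine lt_of_le_of_ne (wt_nonneg _ _) fun e => ?_
    have hz : ∀ u, σ u = true → x u = 0 := fun u hu => by
      have := (sum_eq_zero_iff_of_nonneg (s := univ)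
        (f := fun v => if σ v = true then x v ^ 2 else 0)
        fun v _ => by split_ifs <;> positivity).1 (by
          have := e.symm
          unfold sw wt at this
          convert this) u (mem_univ u)
      simpa [hu] using this
    have e3 : cr G σ x = 0 := by
      unfold cr
      refine sum_eq_zero fun u _ => sum_eq_zero fun v _ => ?_
      split_ifs with a
      · rw [hz u a.2.1, zero_mul]
      · rfl
    have a := (hP V G σ x).1 (lam G) hx.eig false
    have b := hS V G σ x false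
    rw [e3, add_zero] at a
    have c := sw_add x σ
    have d := st_Eig hL0 (by linarith) a b
    have t := h.ht
    unfold tF at t
    nlinarith
  have hs : 0 < Real.sqrt (sw x σ true) := Real.sqrt_pos.2 hW
  refine ⟨fun v => (Real.sqrt (sw x σ true))⁻¹ * x v, h, fun v => ?_, fun v => ?_, ?_, hL1, hup, hψ⟩
  · exact mul_nonneg (inv_nonneg.2 hs.le) (hx.pos v)
  · rw [ns_smul_Per, hx.eig]; ring
  · have e : sw (fun v => (Real.sqrt (sw x σ true))⁻¹ * x v) σ true =
        (Real.sqrt (sw x σ true))⁻¹ ^ 2 * sw x σ true := by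
      generalize (Real.sqrt (sw x σ true))⁻¹ = c
      unfold sw wt
      rw [mul_sum]
      refine sum_congr rfl fun v _ => ?_
      split_ifs <;> ring
    rw [e, inv_pow, Real.sq_sqrt hW.le, inv_mul_cancel₀ hW.ne']

theorem idS : IdS := by
  intro V _ G σ L y he hn
  have e1 : L = ∑ u, if σ u = true then y u * ns G y u else 0 := by
    have : L = L * sw y σ true := by rw [hn, mul_one]
    rw [this]
    unfold sw wt
    rw [mul_sum]
    refine sum_congr rfl fun u _ => ?_
    rw [he]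
    split_ifs <;> ring
  have e2 : (∑ u, if σ u = true then y u * ns G y u else 0) =
      (∑ u, ∑ v, if σ u = true ∧ σ v = true ∧ G.Adj u v then y u * y v else 0) +
      ∑ u, ∑ v, if σ u = true ∧ σ v = false ∧ G.Adj u v then y u * y v else 0 := by
    rw [← sum_add_distrib]
    refine sum_congr rfl fun u _ => ?_
    rw [← sum_add_distrib]
    unfold ns
    by_cases a : σ u = true
    · rw [if_pos a, mul_sum]
      refine sum_congr rfl fun v _ => ?_
      by_cases b : G.Adj u v <;> cases σ v <;> simp [a, b]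
    · simp [a]
  have e3 : SK σ y ^ 2 =
      (∑ u, ∑ v, if σ u = true ∧ σ v = true ∧ G.Adj u v then y u * y v else 0) + M2 G σ y +
        sw y σ true := by
    have : sw y σ true = ∑ u, ∑ v, if u = v then (if σ u = true then y u * y v else 0) else 0 := by
      unfold sw wt
      refine sum_congr rfl fun u _ => ?_
      rw [sum_ite_eq, if_pos (mem_univ u)]
      by_cases a : σ u = true <;> simp [a, sq]
    rw [this]
    unfold SK M2
    rw [sq, sum_mul_sum, ← sum_add_distrib, ← sum_add_distrib]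
    refine sum_congr rfl fun u _ => ?_
    rw [← sum_add_distrib, ← sum_add_distrib]
    refine sum_congr rfl fun v _ => ?_
    by_cases c : u = v
    · subst c
      by_cases a : σ u = true <;> simp [a]
    · by_cases a : σ u = true <;> by_cases b : σ v = true <;> by_cases d : G.Adj u v <;>
        simp [a, b, c, d]
  have e4 : (∑ u, ∑ v, if σ u = true ∧ σ v = false ∧ G.Adj u v then y u * y v else 0) =
      sF σ fun v => y v * sN G σ y true v := by
    rw [sum_comm]
    unfold sF sN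
    refine sum_congr rfl fun v _ => ?_
    by_cases a : σ v = false
    · rw [if_pos a]
      beta_reduce
      rw [mul_sum]
      refine sum_congr rfl fun u _ => ?_
      by_cases b : G.Adj v u
      · by_cases c : σ u = true <;> simp [a, b, b.symm, c, mul_comm]
      · have b' : ¬ G.Adj u v := fun h => b h.symm
        simp [b, b']
    · simp [a]
  have e5 : L * (sF σ fun v => y v * sN G σ y true v) =
      sF σ (fun v => sN G σ y true v ^ 2) + Gam G σ y := by
    unfold Gam sF
    rw [mul_sum, ← sum_add_distrib]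
    refine sum_congr rfl fun v _ => ?_
    have a := he v
    rw [ns_split G σ] at a
    split_ifs
    · linear_combination (-sN G σ y true v) * a
    · ring
  rw [e2, e4] at e1
  rw [hn] at e3
  linear_combination L * e1 - L * e3 + e5

end

section

theorem ari_Sv {k S d s a β D : ℝ} (hk : 0 < k) (hS : S ^ 2 ≤ k) (hβ : 0 < β) (hd : 0 < d)
    (hdk : d < k) (ha : a = min d (k - d)) (hD : D = s - d * S / k)
    (h : D ^ 2 ≤ (d - d ^ 2 / k) * ((k - S ^ 2) / k)) :
    s ^ 2 ≤ d ^ 2 / k + β * a + (k - S ^ 2) / β + (k - S ^ 2) := by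
  have e0 : 0 ≤ k - S ^ 2 := by linarith
  have a0 : 0 < a := by rw [ha]; exact lt_min hd (by linarith)
  have ak : a ≤ k := by rw [ha]; exact (min_le_left _ _).trans hdk.le
  have h1 : d - d ^ 2 / k ≤ a := by
    have x : d - d ^ 2 / k = d * (k - d) / k := by field_simp
    rw [ha]
    refine le_min (by have : 0 ≤ d ^ 2 / k := by positivity
                      linarith) ?_
    rw [x, div_le_iff₀ hk]
    nlinarith
  have h2 : D ^ 2 * k ≤ a * (k - S ^ 2) := by
    have := h.trans (mul_le_mul_of_nonneg_right h1 (div_nonneg e0 hk.le))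
    rwa [← mul_div_assoc, le_div_iff₀ hk] at this
  have h3 : D ^ 2 ≤ k - S ^ 2 := by
    refine le_of_mul_le_mul_right (h2.trans ?_) hk
    nlinarith
  set x := d * S / k with hx
  have h4 : x ^ 2 ≤ d ^ 2 / k := by
    rw [hx, div_pow, mul_pow, div_le_div_iff₀ (by positivity) hk]
    have := mul_le_mul_of_nonneg_left hS (show 0 ≤ d ^ 2 * k by positivity)
    nlinarith
  have h5 : x ^ 2 ≤ k := by
    refine h4.trans ?_
    rw [div_le_iff₀ hk]
    nlinarith
  have h6 : (x * D) ^ 2 ≤ a * (k - S ^ 2) := by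
    have := mul_le_mul_of_nonneg_right h5 (sq_nonneg D)
    nlinarith
  have h7 : 2 * (x * D) ≤ β * a + (k - S ^ 2) / β := by
    refine abs_le_of_sq_le_sq' ?_ (by positivity) |>.2
    have e : β * a * ((k - S ^ 2) / β) = a * (k - S ^ 2) := by field_simp
    nlinarith [sq_nonneg (β * a - (k - S ^ 2) / β)]
  have e : s = x + D := by rw [hD]; ring
  rw [e]
  nlinarith

theorem svS : SvS := by
  intro V _ k m G σ L y h
  have hk : (0 : ℝ) < k := by linarith [h.str.kR]
  set K := univ.filter fun u => σ u = true with hK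
  have c1 : (K.card : ℝ) = k := by
    rw [← h.str.hK, ct_eq]
    convert rfl
  have c2 : SK σ y = ∑ u ∈ K, y u := by rw [SK, hK, sum_filter]
  have c3 : ∑ u ∈ K, y u ^ 2 = 1 := by
    rw [← h.nrm, sw, wt, hK, sum_filter]
    refine sum_congr rfl fun u _ => ?_
    by_cases b : σ u = true <;> simp [b]
  have c4 : ∀ v, dK G σ v = ∑ u ∈ K, if G.Adj v u then (1 : ℝ) else 0 := fun v => by
    rw [dK, ct, hK, sum_filter]
    refine sum_congr rfl fun u _ => ?_
    by_cases a : G.Adj v u <;> by_cases b : σ u = true <;> simp [a, b]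
  have c5 : ∀ v, sN G σ y true v = ∑ u ∈ K, (if G.Adj v u then (1 : ℝ) else 0) * y u := fun v => by
    rw [sN, hK, sum_filter]
    refine sum_congr rfl fun u _ => ?_
    by_cases a : G.Adj v u <;> by_cases b : σ u = true <;> simp [a, b]
  have var : ∑ u ∈ K, (y u - SK σ y / k) ^ 2 = (k - SK σ y ^ 2) / k := by
    simp only [sub_sq, sum_add_distrib, sum_sub_distrib, ← sum_mul, ← mul_sum, c3, ← c2, sum_const,
      nsmul_eq_mul, c1]
    field_simp
    ring
  have hS : SK σ y ^ 2 ≤ k := by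
    have : 0 ≤ (k - SK σ y ^ 2) / k := var ▸ sum_nonneg fun _ _ => sq_nonneg _
    have := (div_nonneg_iff.1 this).resolve_right fun a => absurd a.2 (not_le.2 hk)
    linarith [this.1]
  refine ⟨hS, fun u hu => ?_, fun v hv => ?_, fun v hv => ?_, fun v β hβ h1 h2 => ?_⟩
  · rw [← var]
    exact single_le_sum (f := fun u => (y u - SK σ y / k) ^ 2) (fun _ _ => sq_nonneg _)
      (mem_filter.2 ⟨mem_univ u, hu⟩)
  · rw [c5, c2]
    exact sum_congr rfl fun u hu => by rw [if_pos (h.str.full hv (mem_filter.1 hu).2), one_mul]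
  · rw [c4, sum_eq_zero_iff_of_nonneg fun u _ => by split_ifs <;> norm_num] at hv
    rw [c5]
    exact sum_eq_zero fun u hu => by rw [hv u hu, zero_mul]
  · refine ari_Sv hk hS hβ h1 h2 rfl rfl ?_
    have cs := sum_mul_sq_le_sq_mul_sq K
      (fun u => (if G.Adj v u then (1 : ℝ) else 0) - dK G σ v / k) (fun u => y u - SK σ y / k)
    have sq : ∑ u ∈ K, (if G.Adj v u then (1 : ℝ) else 0) ^ 2 = dK G σ v := by
      rw [c4]
      exact sum_congr rfl fun u _ => by split_ifs <;> norm_num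
    have e1 : ∑ u ∈ K, ((if G.Adj v u then (1 : ℝ) else 0) - dK G σ v / k) ^ 2 =
        dK G σ v - dK G σ v ^ 2 / k := by
      simp only [sub_sq, sum_add_distrib, sum_sub_distrib, ← sum_mul, ← mul_sum, sq, ← c4,
        sum_const, nsmul_eq_mul, c1]
      field_simp
      ring
    have e2 : ∑ u ∈ K, ((if G.Adj v u then (1 : ℝ) else 0) - dK G σ v / k) *
        (y u - SK σ y / k) = sN G σ y true v - dK G σ v * SK σ y / k := by
      simp only [sub_mul, mul_sub, sum_sub_distrib, ← sum_mul, ← mul_sum, ← c5, ← c4, ← c2,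
        sum_const, nsmul_eq_mul, c1]
      field_simp
      ring
    rwa [var, e1, e2] at cs

end

section

theorem cr_Cnt {V : Type} [Fintype V] (G : SimpleGraph V) (σ : V → Bool) :
    cr G σ (fun _ => 1) = sF σ (dK G σ) := by
  unfold cr sF dK ct
  rw [sum_comm]
  refine sum_congr rfl fun v _ => ?_
  by_cases a : σ v = false
  · rw [if_pos a]
    refine sum_congr rfl fun u _ => ?_
    simp only [a, and_true, mul_one, G.adj_comm u v]
    split_ifs <;> rfl
  · rw [if_neg a]
    exact sum_eq_zero fun u _ => if_neg fun h => a h.2.2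

theorem sq_Cnt {V : Type} [Fintype V] (G : SimpleGraph V) (σ : V → Bool) :
    ct (fun v => σ v = true) * ct (fun v => σ v = true) =
      ct (fun v => σ v = true) + 2 * ed (sg G σ true) + M2 G σ (fun _ => 1) := by
  rw [two_ed]
  unfold ct M2
  rw [sum_mul_sum, ← sum_add_distrib, ← sum_add_distrib]
  refine sum_congr rfl fun u _ => ?_
  have e : ∀ c : ℝ, c = ∑ v, if u = v then c else 0 := fun c => by simp
  rw [add_assoc, ← sum_add_distrib]
  refine Eq.trans ?_ (congrArg (· + _) (e _)).symm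
  rw [← sum_add_distrib]
  refine sum_congr rfl fun v _ => ?_
  by_cases a : u = v
  · subst a
    by_cases b : σ u = true <;> simp [b]
  · by_cases b : σ u = true <;> by_cases c : σ v = true <;> by_cases d : G.Adj u v <;>
      simp [sg, a, b, c, d]

theorem cntS (hP : PartS) : CntS := by
  intro V _ k m G σ h
  have h1 := (hP V G σ fun _ => 1).2.1
  rw [cr_Cnt, h.hm] at h1
  have h2 := sq_Cnt G σ
  rw [h.hK] at h2
  have h3 : 2 * jK k G σ = M2 G σ (fun _ => 1) := by unfold jK; linarith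
  have h4 : 0 ≤ M2 G σ (fun _ => 1) :=
    sum_nonneg fun u _ => sum_nonneg fun v _ => by split_ifs <;> norm_num
  have h5 : (m : ℝ) = k * ((k : ℝ) - 1) / 2 - jK k G σ + sF σ (dK G σ) + tF G σ := by
    unfold jK tF; linarith
  have k3 := h.kR
  have h6 : sF σ (dK G σ) ≤ k * (ct (Fu k G σ) + ct (Pt k G σ)) := by
    unfold sF ct
    rw [← sum_add_distrib, mul_sum]
    refine sum_le_sum fun v _ => ?_
    have d0 := dK_nonneg G σ v
    have d1 := h.dK_le v
    by_cases a : Fu k G σ v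
    · rw [if_pos a]
      split_ifs <;> nlinarith
    · rw [if_neg a]
      by_cases b : Pt k G σ v
      · rw [if_pos b]
        split_ifs <;> nlinarith
      · rw [if_neg b, add_zero, mul_zero]
        split_ifs with c
        · by_contra hd
          exact b ⟨c, not_le.1 hd, lt_of_le_of_ne d1 fun e => a ⟨c, e⟩⟩
        · exact le_rfl
  refine ⟨h5, ?_, h3, ?_, _, (edS V _).1⟩
  · have h7 := mul_le_mul_of_nonneg_left h.hP (show (0 : ℝ) ≤ k by linarith)
    have h8 := h.ht
    have h9 := h.big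
    nlinarith
  · have h7 : jK k G σ = (k.choose 2 : ℕ) - ((sg G σ true).edgeSet.ncard : ℝ) := by
      rw [Nat.cast_choose_two, ← (edS V _).1]; rfl
    have h8 : (sg G σ true).edgeSet.ncard ≤ k.choose 2 := by
      have : ((sg G σ true).edgeSet.ncard : ℝ) ≤ (k.choose 2 : ℕ) := by linarith
      exact_mod_cast this
    exact ⟨_, by rw [h7, Nat.cast_sub h8]⟩

end

section

theorem abs_Cnt2 {V : Type} [Fintype V] (b : V → ℝ) (p : V → Prop) (h1 : ∀ v, p v → 1 ≤ b v)
    (h0 : ∀ v, ¬ p v → b v = 0) :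
    (ct p - 1) * ∑ v, b v ≤ (∑ v, b v) ^ 2 - ∑ v, b v ^ 2 ∧ (ct p = 0 → ∑ v, b v = 0) ∧
      ct p ≤ ∑ v, b v ∧ (ct p = 1 → ∀ v, 0 < b v → ∑ u, b u = b v) := by
  have a1 : ∀ v, (if p v then (1 : ℝ) else 0) ≤ b v := fun v => by
    split_ifs with h
    · exact h1 v h
    · exact (h0 v h).ge
  have a0 : ∀ v, (0 : ℝ) ≤ if p v then (1 : ℝ) else 0 := fun v => by split_ifs <;> norm_num
  have a2 : ∀ v, 0 ≤ b v := fun v => (a0 v).trans (a1 v)
  refine ⟨?_, fun h => ?_, sum_le_sum fun v _ => a1 v, fun h v hv => ?_⟩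
  · rw [sq, sum_mul, mul_sum, ← sum_sub_distrib]
    refine sum_le_sum fun v _ => ?_
    have e := single_le_sum (f := fun u => b u - if p u then (1 : ℝ) else 0)
      (fun u _ => sub_nonneg.2 (a1 u)) (mem_univ v)
    rw [sum_sub_distrib] at e
    have e2 : (if p v then (1 : ℝ) else 0) ≤ 1 := by split_ifs <;> norm_num
    have e3 : ct p - 1 ≤ ∑ u, b u - b v := by unfold ct; linarith
    nlinarith [mul_le_mul_of_nonneg_left e3 (a2 v)]
  · refine sum_eq_zero fun v _ => h0 v fun hp => ?_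
    have := (sum_eq_zero_iff_of_nonneg fun u _ => a0 u).1 h v (mem_univ v)
    rw [if_pos hp] at this
    exact one_ne_zero this
  · have hp : p v := by
      by_contra hn
      rw [h0 v hn] at hv
      exact lt_irrefl _ hv
    refine sum_eq_single v (fun u _ hu => h0 u fun hq => ?_) fun hn => absurd (mem_univ v) hn
    have e := sum_le_sum_of_subset_of_nonneg (f := fun u => if p u then (1 : ℝ) else 0)
      (subset_univ {u, v}) fun w _ _ => a0 w
    rw [sum_pair hu, if_pos hp, if_pos hq] at e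
    unfold ct at h
    linarith

theorem cnt2S : Cnt2S := by
  intro V _ k m G σ hS
  choose d hd using dK_nat G σ
  have k3 := hS.kR
  have hk : ∀ v, (d v : ℝ) ≤ k := fun v => hd v ▸ hS.dK_le v
  have hk' : ∀ v, d v ≤ k := fun v => by exact_mod_cast hk v
  have d0 : ∀ v, (0 : ℝ) ≤ d v := fun v => Nat.cast_nonneg _
  obtain ⟨b, hb⟩ : ∃ b : V → ℝ, ∀ v, b v = if σ v = false then aV k G σ v else 0 :=
    ⟨_, fun _ => rfl⟩
  obtain ⟨α, hα⟩ : ∃ α : V → ℕ, ∀ v, α v = if σ v = false ∧ 2 * (d v : ℝ) ≤ k then d v else 0 :=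
    ⟨_, fun _ => rfl⟩
  obtain ⟨β, hβ⟩ : ∃ β : V → ℕ, ∀ v,
    β v = if σ v = false ∧ ¬ 2 * (d v : ℝ) ≤ k then k - d v else 0 := ⟨_, fun _ => rfl⟩
  obtain ⟨ν, hν⟩ : ∃ ν : V → ℕ, ∀ v, ν v = if σ v = false ∧ ¬ 2 * (d v : ℝ) ≤ k then 1 else 0 :=
    ⟨_, fun _ => rfl⟩
  have pt : ∀ v, (if σ v = false then dK G σ v else 0) = k * ν v + α v - β v ∧
      b v = α v + β v ∧
      (if σ v = false then dK G σ v ^ 2 / k else 0) =
        (if σ v = false then dK G σ v else 0) - b v + b v ^ 2 / k ∧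
      2 * b v ^ 2 ≤ k * b v ∧ b v ^ 2 = (α v : ℝ) ^ 2 + (β v : ℝ) ^ 2 := fun v => by
    rw [hb, hα, hβ, hν, aV, hd]
    have := d0 v
    have := hk v
    by_cases h : σ v = false
    · by_cases h2 : 2 * (d v : ℝ) ≤ k
      · simp only [h, h2, if_true, if_false, and_self, not_true, and_false, Nat.cast_zero]
        rw [min_eq_left (by linarith)]
        refine ⟨by ring, by ring, by ring, by nlinarith, by ring⟩
      · simp only [h, h2, if_true, if_false, and_self, not_false_eq_true, and_false, Nat.cast_zero,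
          Nat.cast_sub (hk' v), Nat.cast_one]
        rw [min_eq_right (by linarith)]
        refine ⟨by ring, by ring, by field_simp; ring, by nlinarith, by ring⟩
    · simp [h]
  have eA : AA k G σ = ∑ v, b v := sum_congr rfl fun v _ => (hb v).symm
  have eZ : ZZ k G σ = ∑ v, b v ^ 2 := sum_congr rfl fun v _ => by
    rw [hb]
    split_ifs <;> simp
  obtain ⟨P, hP⟩ : ∃ P : ℕ, ct (Pt k G σ) = P := ⟨_, ct_eq _⟩
  obtain ⟨c1, c2, c3, c4⟩ := abs_Cnt2 b (Pt k G σ) (fun v hv => by
      obtain ⟨a1, a2, a3⟩ := hv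
      rw [hb, if_pos a1, aV]
      rw [hd] at a2 a3 ⊢
      have e1 : 1 ≤ d v := by exact_mod_cast a2
      have e2 : d v + 1 ≤ k := by exact_mod_cast a3
      have e3 : (d v : ℝ) + 1 ≤ k := by exact_mod_cast e2
      exact le_min (by exact_mod_cast e1) (by linarith))
    (fun v hv => by
      rw [hb]
      split_ifs with a1
      · refine le_antisymm ?_ (hS.aV_nonneg v)
        by_contra hn
        obtain ⟨a2, a3⟩ := lt_min_iff.1 (not_le.1 hn)
        exact hv ⟨a1, a2, by linarith⟩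
      · rfl)
  rw [hP] at c1 c2 c3 c4
  refine ⟨∑ v, α v, ∑ v, β v, ∑ v, ν v, P, ?_, ?_, hP, ?_, ?_, ?_, ?_, ?_, fun h => ?_, ?_,
    fun h v hv hv' => ?_⟩
  · push_cast
    rw [mul_sum, ← sum_add_distrib, ← sum_sub_distrib]
    exact sum_congr rfl fun v _ => (pt v).1
  · push_cast
    rw [eA, ← sum_add_distrib]
    exact sum_congr rfl fun v _ => (pt v).2.1
  · rw [eA, eZ, sum_div, sF, sF, ← sum_sub_distrib, ← sum_add_distrib]
    exact sum_congr rfl fun v _ => (pt v).2.2.1
  · rw [eZ]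
    positivity
  · rw [eA, eZ, mul_sum, mul_sum]
    exact sum_le_sum fun v _ => (pt v).2.2.2.1
  · push_cast
    rw [eZ, sum_congr rfl fun v _ => (pt v).2.2.2.2, sum_add_distrib]
    exact add_le_add (sum_sq_le_sq_sum_of_nonneg fun v _ => Nat.cast_nonneg _)
      (sum_sq_le_sq_sum_of_nonneg fun v _ => Nat.cast_nonneg _)
  · rw [eA, eZ]
    exact c1
  · rw [eA]
    exact c2 (by rw [h, Nat.cast_zero])
  · rw [eA]
    exact c3
  · have e : b v = aV k G σ v := by rw [hb, if_pos hv]
    rw [eA, ← e]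
    exact c4 (by rw [h, Nat.cast_one]) v (e ▸ hv')

end

section

theorem sum_Main (hV : SvS) {V : Type} [Fintype V] {k m : ℕ} {G : SimpleGraph V} {σ : V → Bool}
    {L : ℝ} {y : V → ℝ} (h : Ctx k m G σ L y) {β : ℝ} (hβ : 0 < β) :
    sF σ (fun v => sN G σ y true v ^ 2) ≤ sF σ (fun v => dK G σ v ^ 2 / k) -
      (k - SK σ y ^ 2) * ct (Fu k G σ) + β * AA k G σ +
      ((k - SK σ y ^ 2) / β + (k - SK σ y ^ 2)) * ct (Pt k G σ) := by
  obtain ⟨-, -, v3, v4, v5⟩ := hV V k m G σ L y h
  have k3 := h.str.kR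
  have k0 : (k : ℝ) ≠ 0 := by linarith
  unfold AA sF ct
  rw [mul_sum, mul_sum, mul_sum, ← sum_sub_distrib, ← sum_add_distrib, ← sum_add_distrib]
  refine sum_le_sum fun v _ => ?_
  have a0 := mul_nonneg hβ.le (h.str.aV_nonneg v)
  by_cases s : σ v = false
  · simp only [if_pos s]
    rcases (h.str.dK_le v).eq_or_lt with e | e
    · rw [if_pos (show Fu k G σ v from ⟨s, e⟩), if_neg (fun p : Pt k G σ v => p.2.2.ne e), v3 v e, e]
      have : (k : ℝ) ^ 2 / k = k := by field_simp
      linarith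
    · rw [if_neg (fun p : Fu k G σ v => e.ne p.2)]
      rcases (dK_nonneg G σ v).eq_or_lt with z | z
      · rw [if_neg (fun p : Pt k G σ v => p.2.1.ne z), v4 v z.symm, ← z]
        simp only [mul_zero, ne_eq, OfNat.ofNat_ne_zero, not_false_eq_true, zero_pow, zero_div]
        linarith
      · rw [if_pos (show Pt k G σ v from ⟨s, z, e⟩)]
        have := v5 v β hβ z e
        linarith
  · rw [if_neg s, if_neg s, if_neg s, if_neg (fun p : Fu k G σ v => s p.1),
      if_neg (fun p : Pt k G σ v => s p.1)]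
    simp

theorem mainS (hI : IdS) (hV : SvS) (hC : CntS) (hC2 : Cnt2S) : MainS := by
  intro V _ k m G σ L y h
  have i1 := hI V G σ L y h.eig h.nrm
  obtain ⟨c1, c2, -⟩ := hC V k m G σ h.str
  obtain ⟨A, B, n, P, -, -, p1, c4, -, -, -, -, p0, -⟩ := hC2 V k m G σ h.str
  have e0 : 0 ≤ k - SK σ y ^ 2 := sub_nonneg.2 (hV V k m G σ L y h).1
  have k3 := h.str.kR
  have L1 := h.L1
  have L2 := h.L2
  have hP := h.str.hP
  have k0 : (0 : ℝ) < k := by linarith
  have L0 : 0 < L := by linarith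
  have key : sF σ (fun v => sN G σ y true v ^ 2) ≤ sF σ (fun v => dK G σ v ^ 2 / k) -
      (k - SK σ y ^ 2) * L ^ 2 / (8 * k) + 16 * ct (Pt k G σ) * k / L ^ 2 * AA k G σ := by
    set η := k - SK σ y ^ 2 with hη
    have f1 : L ^ 2 / (4 * k) ≤ ct (Fu k G σ) := by
      rw [div_le_iff₀ (by positivity)]
      linarith
    have f2 := mul_le_mul_of_nonneg_left f1 e0
    have e1 : η * (L ^ 2 / (4 * k)) = 4 * (η * L ^ 2 / (16 * k)) := by
      field_simp
      norm_num
    have e2 : η * L ^ 2 / (8 * k) = 2 * (η * L ^ 2 / (16 * k)) := by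
      field_simp
      ring
    have w0 : 0 ≤ η * L ^ 2 / (16 * k) := by positivity
    rcases Nat.eq_zero_or_pos P with z | z
    · have := sum_Main hV h one_pos
      rw [p1, p0 z, z] at this
      rw [p0 z]
      simp only [mul_zero, Nat.cast_zero, add_zero] at this ⊢
      linarith
    · have P0 : (0 : ℝ) < ct (Pt k G σ) := by
        rw [p1]
        exact_mod_cast z
      have := sum_Main hV h (β := 16 * ct (Pt k G σ) * k / L ^ 2) (by positivity)
      have e3 : η / (16 * ct (Pt k G σ) * k / L ^ 2) * ct (Pt k G σ) = η * L ^ 2 / (16 * k) := by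
        field_simp
      have f3 : ct (Pt k G σ) ≤ L ^ 2 / (16 * k) := by
        rw [le_div_iff₀ (by positivity)]
        nlinarith [mul_le_mul_of_nonneg_right hP k0.le, mul_self_le_mul_self (by positivity) L1,
          mul_pos k0 k0]
      have f4 := mul_le_mul_of_nonneg_left f3 e0
      rw [← mul_div_assoc] at f4
      rw [add_mul, e3] at this
      linarith
  have := mul_nonneg L0.le e0
  nlinarith [key]

end

section

section
variable {V : Type} [Fintype V]

theorem nle_X (G : SimpleGraph V) (σ : V → Bool) (y : V → ℝ) (X : ℝ)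
    (h : ∀ u, σ u = false → y u ≤ X) {v : V} (hv : σ v = false) :
    sN G σ y false v ≤ dg (sg G σ false) v * X := by
  rw [dg_eq_ct]
  unfold sN ct
  rw [sum_mul]
  refine sum_le_sum fun u _ => ?_
  by_cases a : G.Adj v u ∧ σ u = false
  · rw [if_pos a, if_pos (show (sg G σ false).Adj v u from ⟨a.1, hv, a.2⟩), one_mul]
    exact h u a.2
  · rw [if_neg a, if_neg (show ¬ (sg G σ false).Adj v u from fun b => a ⟨b.1, b.2.2⟩), zero_mul]

theorem SK_nonneg_X (σ : V → Bool) {y : V → ℝ} (h : ∀ v, 0 ≤ y v) : 0 ≤ SK σ y :=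
  sum_nonneg fun u _ => by
    split_ifs
    · exact h u
    · exact le_rfl

theorem M2_nonneg_X (G : SimpleGraph V) (σ : V → Bool) {y : V → ℝ} (h : ∀ v, 0 ≤ y v) :
    0 ≤ M2 G σ y :=
  sum_nonneg fun u _ => sum_nonneg fun v _ => by
    split_ifs
    · exact mul_nonneg (h u) (h v)
    · exact le_rfl

theorem M2_ge_X (G : SimpleGraph V) (σ : V → Bool) {y : V → ℝ} {c d : ℝ}
    (h : ∀ u v, σ u = true → σ v = true → c ≤ d * (y u * y v)) :
    c * M2 G σ (fun _ => 1) ≤ d * M2 G σ y := by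
  unfold M2
  simp only [mul_sum]
  refine sum_le_sum fun u _ => sum_le_sum fun v _ => ?_
  split_ifs with a
  · rw [mul_one, mul_one]; exact h u v a.1 a.2.1
  · rw [mul_zero, mul_zero]

end

theorem xS (hV : SvS) : XS := by
  intro V _ k m G σ L y h
  have hk := h.str.kR
  have hL := h.L1
  have ht := h.str.ht
  have ht0 : 0 ≤ tF G σ := ed_nonneg _
  have hS := SK_nonneg_X σ h.pos
  have hS2 := (hV V k m G σ L y h).1
  have hL0 : 0 < L := by linarith
  obtain ⟨X, hX0, hX1, hX2⟩ : ∃ X, 0 ≤ X ∧ (∀ v, σ v = false → y v ≤ X) ∧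
      L * X ≤ 1.0001 * SK σ y := by
    by_cases hF : (univ.filter fun v => σ v = false).Nonempty
    · obtain ⟨v0, h0, h1⟩ := exists_max_image _ y hF
      have h2 : ∀ v, σ v = false → y v ≤ y v0 := fun v hv => h1 v (mem_filter.2 ⟨mem_univ _, hv⟩)
      refine ⟨y v0, h.pos v0, h2, ?_⟩
      have e1 := h.eig v0
      rw [ns_split G σ] at e1
      have e2 := sN_le G σ h.pos v0
      have e3 := nle_X G σ y _ h2 (mem_filter.1 h0).2
      have e4 : dg (sg G σ false) v0 ≤ L / 10 ^ 23 := by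
        have : dg (sg G σ false) v0 ≤ tF G σ := dg_le_ed _ _
        linarith
      have e5 := mul_le_mul_of_nonneg_right e4 (h.pos v0)
      have e6 : L / 10 ^ 23 * y v0 = L * y v0 / 10 ^ 23 := by ring
      linarith
    · exact ⟨0, le_rfl, fun v hv => absurd ⟨v, mem_filter.2 ⟨mem_univ _, hv⟩⟩ hF, by linarith⟩
  refine ⟨fun v hv => (mul_le_mul_of_nonneg_left (hX1 v hv) hL0.le).trans hX2, ?_⟩
  have e1 : Gam G σ y ≤ ∑ v, SK σ y * X * dg (sg G σ false) v := by
    refine sum_le_sum fun v _ => ?_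
    have d0 := dg_nonneg (sg G σ false) v
    split_ifs with hv
    · refine (mul_le_mul (sN_le G σ h.pos v) (nle_X G σ y X hX1 hv)
        (sN_nonneg G σ h.pos _ _) hS).trans (le_of_eq ?_)
      ring
    · positivity
  have e2 : ∑ v, dg (sg G σ false) v = 2 * tF G σ := by unfold tF ed; ring
  rw [← mul_sum, e2] at e1
  have e3 : SK σ y * X ≤ 1 / 2 := by
    refine le_of_mul_le_mul_left ?_ hL0
    have := mul_le_mul_of_nonneg_left hX2 hS
    nlinarith
  nlinarith [mul_le_mul_of_nonneg_right e3 ht0]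

theorem uniS (hV : SvS) (hC : CntS) (hC2 : Cnt2S) (hM : MainS) (hX : XS) : UniS := by
  intro V _ k m G σ L y h
  have hk := h.str.kR
  have hL := h.L1
  have hk0 : (0 : ℝ) < k := by linarith
  have hL0 : 0 < L := by linarith
  have hS := SK_nonneg_X σ h.pos
  obtain ⟨hS2, hy, -⟩ := hV V k m G σ L y h
  obtain ⟨-, -, hj2, -⟩ := hC V k m G σ h.str
  obtain ⟨A, B, n, P, -, -, -, -, -, hZ, -⟩ := hC2 V k m G σ h.str
  have m1 := hM V k m G σ L y h
  have g1 := (hX V k m G σ L y h).2
  have psi := h.psi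
  have hj := h.str.hj
  have hA := h.str.AA_nonneg
  have hM0 := mul_nonneg hL0.le (M2_nonneg_X G σ h.pos)
  have hL2 : (10 ^ 30 * (k : ℝ)) ^ 2 ≤ L ^ 2 := pow_le_pow_left₀ (by positivity) hL 2
  have z1 : ZZ k G σ / k ≤ AA k G σ / 2 := by
    rw [div_le_iff₀ hk0]; linarith
  have z2 : 16 * ct (Pt k G σ) * k / L ^ 2 ≤ 1 / 2 := by
    rw [div_le_iff₀ (by positivity)]
    have := mul_le_mul_of_nonneg_right h.str.hP hk0.le
    nlinarith
  have z3 := mul_le_mul_of_nonneg_right z2 hA
  have z4 : (k - SK σ y ^ 2) * L ^ 2 / (8 * k) ≤ 3 * k / 8 := by linarith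
  rw [div_le_iff₀ (by positivity)] at z4
  have z5 : k - SK σ y ^ 2 ≤ 3 / 10 ^ 60 := by
    have a := mul_le_mul_of_nonneg_left hL2 (sub_nonneg.2 hS2)
    have b : (0 : ℝ) < k ^ 2 := by positivity
    refine le_of_mul_le_mul_right ?_ b
    nlinarith
  have key : ∀ u, σ u = true → 0.99 ≤ SK σ y * y u ∧ SK σ y * y u ≤ 1.01 := by
    intro u hu
    have a := mul_le_mul hS2 (hy u hu) (sq_nonneg _) hk0.le
    rw [mul_div_cancel₀ _ hk0.ne'] at a
    have b : SK σ y ^ 2 * (y u - SK σ y / k) ^ 2 = (SK σ y * y u - SK σ y ^ 2 / k) ^ 2 := by ring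
    rw [b] at a
    have c : (SK σ y * y u - SK σ y ^ 2 / k) ^ 2 ≤ (1 / 1000 : ℝ) ^ 2 := by linarith
    obtain ⟨c1, c2⟩ := abs_le_of_sq_le_sq' c (by norm_num)
    have d1 : SK σ y ^ 2 / k ≤ 1 := (div_le_one hk0).2 hS2
    have d2 : 0.999 ≤ SK σ y ^ 2 / k := by
      rw [le_div_iff₀ hk0]; linarith
    constructor <;> linarith
  refine ⟨key, ?_⟩
  have w1 := M2_ge_X G σ (y := y) (c := 0.98) (d := k) fun u v hu hv => by
    have a := mul_le_mul (key u hu).1 (key v hv).1 (by norm_num) (by linarith [(key u hu).1])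
    have b := mul_le_mul_of_nonneg_right hS2 (mul_nonneg (h.pos u) (h.pos v))
    nlinarith
  have w2 := M2_nonneg_X G σ (y := fun _ => 1) fun _ => zero_le_one
  have w3 := mul_le_mul_of_nonneg_right hL (M2_nonneg_X G σ h.pos)
  nlinarith

end

section

theorem ar1_Gam1 {L S X k t A sv sw yv yw dw : ℝ} (hL : 0 < L) (hS : 0 ≤ S) (h1 : sv ≤ S)
    (h2 : 0 ≤ sw) (h3 : 0 ≤ yw) (h4 : L * yw ≤ sw + t * X) (h5 : yv ≤ X)
    (hX : L * X = 1.0001 * S) (hk : S ^ 2 ≤ k) (h6 : S * sw ≤ 1.01 * dw) (h7 : dw ≤ 9 * A)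
    (hA : 0 ≤ A) (ht : 0 ≤ t) : sv * yw + sw * yv ≤ 19 * A / L + 2 * t * k / L ^ 2 := by
  have a1 : L * (sv * yw) ≤ S * sw + t * (S * X) := by
    have b1 := mul_le_mul_of_nonneg_right h1 (mul_nonneg hL.le h3)
    have b2 := mul_le_mul_of_nonneg_left h4 hS
    linarith
  have a2 : L * (sw * yv) ≤ 1.0001 * (S * sw) := by
    have b1 := mul_le_mul_of_nonneg_left h5 (mul_nonneg hL.le h2)
    have b2 : L * sw * X = 1.0001 * (S * sw) := by
      rw [mul_right_comm, hX]
      ring
    linarith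
  have a3 : t * (S * X) ≤ 2 * t * k / L := by
    rw [le_div_iff₀ hL]
    have b1 : t * (S * X) * L = 1.0001 * (t * S ^ 2) := by
      rw [mul_assoc, mul_assoc, mul_comm X, hX]
      ring
    have b2 := mul_le_mul_of_nonneg_left hk ht
    have b3 := mul_nonneg ht (sq_nonneg S)
    linarith
  have a4 : 19 * A / L + 2 * t * k / L ^ 2 = (19 * A + 2 * t * k / L) / L := by
    field_simp
  rw [a4, le_div_iff₀ hL]
  linarith

theorem ar2_Gam1 {L S X k t δ sv sw yv yw : ℝ} (hL : 10 ≤ L) (h1 : sv ≤ S)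
    (h1' : sw ≤ S) (h2 : 0 ≤ sv) (h2' : 0 ≤ sw) (h4 : L * yv ≤ S + (yw + (t - 1) * X))
    (h4' : L * yw ≤ S + (yv + (t - 1) * X)) (hX : L * X = 1.0001 * S) (hX0 : 0 ≤ X)
    (hk : S ^ 2 ≤ k) (h6 : S * sv + S * sw ≤ 2 * S ^ 2 - 0.99 * δ) (ht : 1 ≤ t) :
    sv * yw + sw * yv ≤ (2 * k - 0.99 * δ) / (L - 1) + 3 * (t - 1) * k / L ^ 2 := by
  have hL0 : 0 < L := by linarith
  have hL1 : 0 < L - 1 := by linarith
  have ht0 : 0 ≤ t - 1 := by linarith
  have hk0 : 0 ≤ k := (sq_nonneg S).trans hk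
  obtain ⟨Y, y1, y2, y3⟩ : ∃ Y, yv ≤ Y ∧ yw ≤ Y ∧ (L - 1) * Y ≤ S + (t - 1) * X := by
    rcases le_total yv yw with h | h
    · exact ⟨yw, h, le_rfl, by linarith⟩
    · exact ⟨yv, le_rfl, h, by linarith⟩
  have a1 : sv * yw + sw * yv ≤ (sv + sw) * Y := by
    have b1 := mul_le_mul_of_nonneg_left y2 h2
    have b2 := mul_le_mul_of_nonneg_left y1 h2'
    linarith
  have a2 := mul_le_mul_of_nonneg_left y3 (add_nonneg h2 h2')
  have a3 : (sv + sw) * ((t - 1) * X) ≤ 3 * (t - 1) * k / L ^ 2 * (L - 1) := by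
    have b1 : (sv + sw) * ((t - 1) * X) ≤ 2 * S * ((t - 1) * X) :=
      mul_le_mul_of_nonneg_right (by linarith) (mul_nonneg ht0 hX0)
    refine b1.trans ?_
    rw [div_mul_eq_mul_div, le_div_iff₀ (by positivity)]
    have b2 : 2 * S * ((t - 1) * X) * L ^ 2 = 2.0002 * ((t - 1) * L * S ^ 2) := by
      have : 2 * S * ((t - 1) * X) * L ^ 2 = 2 * S * (t - 1) * L * (L * X) := by ring
      rw [this, hX]
      ring
    have b3 := mul_le_mul_of_nonneg_left hk (mul_nonneg ht0 hL0.le)
    have b4 := mul_le_mul_of_nonneg_left hL (mul_nonneg ht0 hk0)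
    have b5 := mul_nonneg ht0 hk0
    linarith
  refine a1.trans (le_of_mul_le_mul_right ?_ hL1)
  rw [add_mul _ _ (L - 1), div_mul_cancel₀ _ hL1.ne']
  linarith

section
variable {V : Type} [Fintype V] {G : SimpleGraph V} {σ : V → Bool} {y : V → ℝ}

theorem sa_Gam1 (hu : ∀ u, σ u = true → SK σ y * y u ≤ 1.01) (z : V) :
    SK σ y * sN G σ y true z ≤ 1.01 * dK G σ z := by
  unfold sN dK ct
  rw [mul_sum, mul_sum]
  refine sum_le_sum fun u _ => ?_
  by_cases h : G.Adj z u ∧ σ u = true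
  · simpa [h] using hu u h.2
  · simp [h]

theorem sb_Gam1 (hu : ∀ u, σ u = true → 0.99 ≤ SK σ y * y u) (z : V) :
    SK σ y * sN G σ y true z ≤
      SK σ y ^ 2 - 0.99 * (ct (fun v => σ v = true) - dK G σ z) := by
  have e : SK σ y ^ 2 = ∑ u, SK σ y * (if σ u = true then y u else 0) := by
    rw [← mul_sum, sq]
    rfl
  rw [e]
  unfold sN dK ct
  rw [mul_sum, ← sum_sub_distrib, mul_sum, ← sum_sub_distrib]
  refine sum_le_sum fun u _ => ?_
  by_cases h : σ u = true
  · by_cases h' : G.Adj z u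
    · simp [h, h']
    · simpa [h, h'] using hu u h
  · simp [h]

theorem nc_Gam1 {X : ℝ} (hx : ∀ u, σ u = false → y u ≤ X) {v w : V}
    (h : (sg G σ false).Adj v w) :
    sN G σ y false v ≤ y w + (dg (sg G σ false) v - 1) * X := by
  have e : y w + (dg (sg G σ false) v - 1) * X = ∑ u,
      ((if (sg G σ false).Adj v u then (1 : ℝ) else 0) * X + if u = w then y w - X else 0) := by
    rw [sum_add_distrib, ← sum_mul, sum_ite_eq' univ w, if_pos (mem_univ w)]
    have : (∑ u, if (sg G σ false).Adj v u then (1 : ℝ) else 0) = dg (sg G σ false) v := rfl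
    rw [this]
    ring
  rw [e]
  unfold sN
  refine sum_le_sum fun u _ => ?_
  by_cases a : u = w
  · subst a
    rw [if_pos ⟨h.1, h.2.2⟩, if_pos h, if_pos rfl]
    linarith
  · rw [if_neg a, add_zero]
    by_cases b : G.Adj v u ∧ σ u = false
    · rw [if_pos b, if_pos (show (sg G σ false).Adj v u from ⟨b.1, h.2.1, b.2⟩), one_mul]
      exact hx u b.2
    · rw [if_neg b, if_neg (show ¬ (sg G σ false).Adj v u from fun c => b ⟨c.1, c.2.2⟩), zero_mul]

theorem one_Gam1 {H : SimpleGraph V} {v w : V} (h : H.Adj v w) : 1 ≤ dg H v :=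
  le_trans (by simp [h]) (single_le_sum (f := fun u => if H.Adj v u then (1 : ℝ) else 0)
    (fun u _ => by split_ifs <;> norm_num) (mem_univ w))

end

theorem gam1S (hV : SvS) (hX : XS) (hU : UniS) : Gam1S := by
  intro V _ k m G σ L y hc
  have hk := (hV V k m G σ L y hc).1
  have hx := (hX V k m G σ L y hc).1
  have hu := (hU V k m G σ L y hc).1
  have hk3 := hc.str.kR
  have hL1 := hc.L1
  have hL : 10 ≤ L := by linarith
  have hL0 : 0 < L := by linarith
  have hS : 0 ≤ SK σ y := sum_nonneg fun u _ => by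
    split_ifs
    · exact hc.pos u
    · exact le_rfl
  obtain ⟨X, hX1⟩ : ∃ X, L * X = 1.0001 * SK σ y :=
    ⟨1.0001 * SK σ y / L, mul_div_cancel₀ _ hL0.ne'⟩
  have hX0 : 0 ≤ X := le_of_mul_le_mul_left (by rw [hX1, mul_zero]; positivity) hL0
  have hxX : ∀ u, σ u = false → y u ≤ X := fun u h =>
    le_of_mul_le_mul_left (by rw [hX1]; exact hx u h) hL0
  have hn : ∀ v w, (sg G σ false).Adj v w →
      L * y v ≤ sN G σ y true v + (y w + (tF G σ - 1) * X) := fun v w h => by
    have a1 := nc_Gam1 hxX h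
    have a2 := mul_le_mul_of_nonneg_right (dg_le_ed (sg G σ false) v) hX0
    rw [← hc.eig, ns_split G σ]
    unfold tF
    linarith
  have key : ∀ v w, (sg G σ false).Adj v w → 10 * dK G σ w < 9 * k →
      sN G σ y true v * y w + sN G σ y true w * y v ≤
        19 * AA k G σ / L + 2 * tF G σ * k / L ^ 2 := fun v w h hd => by
    have a1 := hn w v h.symm
    have a2 := hxX v h.2.1
    have a3 : aV k G σ w ≤ AA k G σ := le_trans (by simp [h.2.2])
      (single_le_sum (f := fun u => if σ u = false then aV k G σ u else 0) (fun u _ => by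
        split_ifs
        · exact hc.str.aV_nonneg u
        · exact le_rfl) (mem_univ w))
    have a4 : dK G σ w ≤ 9 * aV k G σ w := by
      have := dK_nonneg G σ w
      unfold aV
      rcases min_cases (dK G σ w) (k - dK G σ w) with b | b <;> rw [b.1] <;> linarith
    exact ar1_Gam1 hL0 hS (sN_le G σ hc.pos v) (sN_nonneg G σ hc.pos _ w) (hc.pos w)
      (by linarith) a2 hX1 hk (sa_Gam1 (fun u h => (hu u h).2) w) (by linarith)
      hc.str.AA_nonneg (ed_nonneg _)
  intro v w h
  refine ⟨fun hr => ?_, ?_⟩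
  · by_cases a : 10 * dK G σ w < 9 * k
    · exact key v w h a
    · rw [add_comm]
      refine key w v h.symm (not_le.1 fun b => hr ⟨h.1, h.2.1, h.2.2, b, not_lt.1 a⟩)
  · have a1 := hn v w h
    have a2 := hn w v h.symm
    have a3 := sN_le G σ hc.pos v
    have a4 := sN_le G σ hc.pos w
    have a5 := sb_Gam1 (G := G) (fun u h => (hu u h).1) v
    have a6 := sb_Gam1 (G := G) (fun u h => (hu u h).1) w
    rw [hc.str.hK] at a5 a6
    exact ar2_Gam1 hL a3 a4 (sN_nonneg G σ hc.pos _ v) (sN_nonneg G σ hc.pos _ w)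
      (by linarith) (by linarith) hX1 hX0 hk (by linarith)
      ((one_Gam1 h).trans (dg_le_ed _ v))

end

section

section
variable {V : Type} [Fintype V]

theorem one_Gam2 (G : SimpleGraph V) (σ : V → Bool) (y : V → ℝ) :
    Gam G σ y = ∑ v, ∑ w, if (sg G σ false).Adj v w then sN G σ y true v * y w else 0 := by
  unfold Gam sF
  refine sum_congr rfl fun v _ => ?_
  by_cases hv : σ v = false
  · rw [if_pos hv]
    show sN G σ y true v * (∑ u, if G.Adj v u ∧ σ u = false then y u else 0) = _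
    rw [mul_sum]
    refine sum_congr rfl fun w _ => ?_
    by_cases hw : G.Adj v w ∧ σ w = false
    · rw [if_pos hw, if_pos (show (sg G σ false).Adj v w from ⟨hw.1, hv, hw.2⟩)]
    · rw [if_neg hw, if_neg (fun h : (sg G σ false).Adj v w => hw ⟨h.1, h.2.2⟩), mul_zero]
  · rw [if_neg hv]
    exact (sum_eq_zero fun w _ => if_neg fun h : (sg G σ false).Adj v w => hv h.2.1).symm

theorem two_Gam2 (G : SimpleGraph V) (σ : V → Bool) (y : V → ℝ) :
    2 * Gam G σ y = ∑ v, ∑ w, if (sg G σ false).Adj v w then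
      sN G σ y true v * y w + sN G σ y true w * y v else 0 := by
  have h1 := one_Gam2 G σ y
  have h2 : Gam G σ y =
      ∑ v, ∑ w, if (sg G σ false).Adj v w then sN G σ y true w * y v else 0 := by
    rw [h1, sum_comm]
    refine sum_congr rfl fun v _ => sum_congr rfl fun w _ => ?_
    by_cases h : (sg G σ false).Adj v w
    · rw [if_pos h, if_pos h.symm]
    · rw [if_neg h, if_neg fun h' => h h'.symm]
  rw [two_mul]
  nth_rewrite 1 [h1]
  rw [h2, ← sum_add_distrib]
  refine sum_congr rfl fun v _ => ?_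
  rw [← sum_add_distrib]
  refine sum_congr rfl fun w _ => ?_
  split_ifs <;> simp

theorem all_Gam2 (H : SimpleGraph V) (f : V → V → ℝ) (c : ℝ) (h : ∀ v w, H.Adj v w → f v w ≤ c) :
    (∑ v, ∑ w, if H.Adj v w then f v w else 0) ≤ c * (2 * ed H) := by
  rw [two_ed, mul_sum]
  refine sum_le_sum fun v _ => ?_
  rw [mul_sum]
  refine sum_le_sum fun w _ => ?_
  split_ifs with a
  · simpa using h v w a
  · simp

theorem pt_Gam2 (a b : V) (d : ℝ) : (∑ v, ∑ w, if v = a ∧ w = b then d else 0) = d := by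
  simp [ite_and]

theorem but_Gam2 (H : SimpleGraph V) (f : V → V → ℝ) (c g : ℝ) (a b : V) (hab : H.Adj a b)
    (h1 : f a b ≤ g) (h2 : f b a ≤ g)
    (h : ∀ v w, H.Adj v w → ¬ (v = a ∧ w = b) → ¬ (v = b ∧ w = a) → f v w ≤ c) :
    (∑ v, ∑ w, if H.Adj v w then f v w else 0) ≤ c * (2 * ed H) + 2 * (g - c) := by
  have e : c * (2 * ed H) + 2 * (g - c) = ∑ v, ∑ w, (c * (if H.Adj v w then (1 : ℝ) else 0) +
      (if v = a ∧ w = b then g - c else 0) + if v = b ∧ w = a then g - c else 0) := by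
    simp only [sum_add_distrib, ← mul_sum]
    rw [pt_Gam2, pt_Gam2, two_ed]
    ring
  rw [e]
  refine sum_le_sum fun v _ => sum_le_sum fun w _ => ?_
  by_cases p : v = a ∧ w = b
  · obtain ⟨rfl, rfl⟩ := p
    rw [if_pos hab, if_pos hab, if_pos ⟨rfl, rfl⟩, if_neg fun q => hab.ne q.1]
    linarith
  · by_cases q : v = b ∧ w = a
    · obtain ⟨rfl, rfl⟩ := q
      rw [if_pos hab.symm, if_pos hab.symm, if_neg p, if_pos ⟨rfl, rfl⟩]
      linarith
    · rw [if_neg p, if_neg q]
      split_ifs with r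
      · have := h v w r p q
        linarith
      · simp

end

theorem gam2S (hC : CntS) (hR : RichS) (h1 : Gam1S) : Gam2S := by
  intro V _ k m G σ L y H hF
  have h2 := two_Gam2 G σ y
  have hk : (0 : ℝ) ≤ k := Nat.cast_nonneg k
  have hq : 0 ≤ (k : ℝ) / L ^ 2 := by positivity
  refine ⟨fun hn => ?_, fun a b hab => ?_⟩
  · have h3 := all_Gam2 (sg G σ false) (fun v w => sN G σ y true v * y w + sN G σ y true w * y v)
      _ fun v w h => (h1 V k m G σ L y H v w h).1 (hn v w)
    rw [← h2] at h3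
    have e : ed (sg G σ false) = tF G σ := rfl
    rw [e] at h3
    have h4 := mul_nonneg (sq_nonneg (tF G σ)) hq
    have e1 : (19 * AA k G σ / L + 2 * tF G σ * k / L ^ 2) * (2 * tF G σ) =
        2 * (19 * tF G σ * AA k G σ / L) + 4 * (tF G σ ^ 2 * (k / L ^ 2)) := by ring
    have e2 : 7 * tF G σ ^ 2 * k / L ^ 2 = 7 * (tF G σ ^ 2 * (k / L ^ 2)) := by ring
    rw [e2]
    linarith
  · have had : (sg G σ false).Adj a b := ⟨hab.1, hab.2.1, hab.2.2.1⟩
    have ht : 1 ≤ tF G σ := by
      refine le_trans ?_ (dg_le_ed (sg G σ false) a)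
      exact le_trans (by simp [had])
        (single_le_sum (f := fun w => if (sg G σ false).Adj a w then (1 : ℝ) else 0)
          (fun w _ => by split_ifs <;> norm_num) (mem_univ b))
    refine ⟨ht, ?_⟩
    have g1 := (h1 V k m G σ L y H a b had).2
    have h3 := but_Gam2 (sg G σ false) (fun v w => sN G σ y true v * y w + sN G σ y true w * y v)
      (19 * AA k G σ / L + 2 * tF G σ * k / L ^ 2) _ a b had g1 (by rw [add_comm]; exact g1)
      fun v w h p q => (h1 V k m G σ L y H v w h).1 fun r =>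
        (hR V k m G σ H.str hF a b v w hab r).elim p q
    rw [← h2] at h3
    have e : ed (sg G σ false) = tF G σ := rfl
    rw [e] at h3
    obtain ⟨t, et⟩ := (hC V k m G σ H.str).2.2.2.2
    have h5 : tF G σ - 1 ≤ (tF G σ - 1) ^ 2 := by
      rw [et] at ht ⊢
      have t1 : 1 ≤ t := by exact_mod_cast ht
      obtain ⟨p, rfl⟩ := Nat.exists_eq_add_of_le t1
      have : p ≤ p ^ 2 := Nat.le_self_pow (by norm_num) p
      have : (p : ℝ) ≤ (p : ℝ) ^ 2 := by exact_mod_cast this
      push_cast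
      nlinarith
    have h4 := mul_le_mul_of_nonneg_right h5 hq
    generalize (2 * k - 0.99 * ((k - dK G σ a) + (k - dK G σ b))) / (L - 1) = g at h3 ⊢
    generalize tF G σ = T at h3 h4 ⊢
    have e1 : (19 * AA k G σ / L + 2 * T * k / L ^ 2) * (2 * T) +
        2 * (g + 3 * (T - 1) * k / L ^ 2 - (19 * AA k G σ / L + 2 * T * k / L ^ 2)) =
        2 * g + 2 * (19 * (T - 1) * AA k G σ / L) + 10 * ((T - 1) * (k / L ^ 2)) +
          4 * ((T - 1) ^ 2 * (k / L ^ 2)) := by ring
    have e2 : 7 * (T - 1) ^ 2 * k / L ^ 2 = 7 * ((T - 1) ^ 2 * (k / L ^ 2)) := by ring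
    rw [e2]
    linarith

end

end WR
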