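import Pool.Agent.MP_1392dc_co.TSt

namespace WR

open W5 WQ Finset
open scoped Classical

theorem core_Ari {k T t j P Z u δ μ M : ℝ} (hk : 0 ≤ k) (hT : 0 ≤ T) (ht : 0 ≤ t) (hj : 0 ≤ j)
    (hu0 : 0 ≤ u) (hu : u ≤ 1 / 10 ^ 30) (hμ : 0 ≤ μ) (hs : μ + M = T + t + j)
    (hk2 : 2 * (T + t + j) * (1 - 1 / 10 ^ 20) ≤ k) (hZ : Z ≤ μ ^ 2 + M ^ 2) (hY : Z ≤ T ^ 2)
    (H : -((M - μ) * k - (M - μ) ^ 2) ≤ -(10 ^ 29 * j * k) - (k * T - Z) + 16 * u ^ 2 * P * T -
      k * t + 19 * u * t * T + 7 * u ^ 2 * t ^ 2 - 0.99 * (u * δ)) :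
    0.9 * (T ^ 2 - Z) + t * T + 0.8 * t ^ 2 + j * k + 0.99 * (u * δ) ≤ 16 * u ^ 2 * P * T := by
  have a1 : μ * (2 * M * (1 - 1 / 10 ^ 20)) ≤ μ * k :=
    mul_le_mul_of_nonneg_left (by linarith) hμ
  have a2 : u * (t * T) ≤ 1 / 10 ^ 30 * (t * T) := by gcongr
  have a3 : u ^ 2 * t ^ 2 ≤ (1 / 10 ^ 30) ^ 2 * t ^ 2 := by gcongr
  have a4 := mul_nonneg hj hT
  have a5 := mul_nonneg hj ht
  have a6 := mul_nonneg hj hk
  have a7 := mul_nonneg ht hT
  have a8 := sq_nonneg t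
  have a9 := sq_nonneg j
  obtain rfl : M = T + t + j - μ := by linarith
  linarith

theorem ariS : AriS := by
  intro k r A B t j P c L Z δ hk hr hc hL hZ0 hZ1 hZ2 hP1 hP0 hPT hPk htk hδ hP H
  have hk3 : (3 : ℝ) ≤ k := by exact_mod_cast hk
  have hk0 : (0 : ℝ) < k := by linarith
  have hL0 : 0 < L := by linarith
  have hL1 : 0 < L - 1 := by linarith
  have hA : (0 : ℝ) ≤ A := A.cast_nonneg
  have hB : (0 : ℝ) ≤ B := B.cast_nonneg
  have ht : (0 : ℝ) ≤ t := t.cast_nonneg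
  have hj : (0 : ℝ) ≤ j := j.cast_nonneg
  have hP' : (0 : ℝ) ≤ P := P.cast_nonneg
  obtain ⟨u, hu⟩ : ∃ u, u = k / L := ⟨_, rfl⟩
  have hu0 : 0 < u := by rw [hu]; positivity
  have hu1 : u ≤ 1 / 10 ^ 30 := by
    rw [hu, div_le_div_iff₀ hL0 (by positivity)]
    linarith
  obtain ⟨T, hT⟩ : ∃ T : ℝ, T = A + B := ⟨_, rfl⟩
  have hY : Z ≤ T ^ 2 := by rw [hT]; nlinarith [mul_nonneg hA hB]
  rw [← hT] at hZ1 hP1 hP0 hPT hP H
  have hT0 : 0 ≤ T := by linarith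
  have hw : u * δ ≤ k * (δ / (L - 1)) := by
    rw [hu, div_mul_eq_mul_div, mul_div_assoc]
    gcongr
    linarith
  have H' : -(r * k - (r : ℝ) ^ 2) ≤ -(10 ^ 29 * j * k) - (k * T - Z) + 16 * u ^ 2 * P * T -
      k * t + 19 * u * t * T + 7 * u ^ 2 * (t : ℝ) ^ 2 - 0.99 * (u * δ) := by
    have h1 := mul_le_mul_of_nonneg_left H hk0.le
    have e1 : (k : ℝ) * -((r : ℝ) - (r : ℝ) ^ 2 / k) = -(r * k - (r : ℝ) ^ 2) := by field_simp
    have e2 : (k : ℝ) * (-(10 ^ 29 * (j : ℝ)) - (T - Z / k) + 16 * P * k / L ^ 2 * T - t +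
        19 * t * T / L + 7 * (t : ℝ) ^ 2 * k / L ^ 2 - 0.99 * δ / (L - 1)) =
        -(10 ^ 29 * j * k) - (k * T - Z) + 16 * u ^ 2 * P * T - k * t + 19 * u * t * T +
          7 * u ^ 2 * (t : ℝ) ^ 2 - 0.99 * (k * (δ / (L - 1))) := by
      rw [hu]
      field_simp
    rw [e1, e2] at h1
    linarith
  have huδ : 0 ≤ u * δ := mul_nonneg hu0.le hδ
  have hs : 2 * (T + t + j) * (1 - 1 / 10 ^ 20) ≤ k := by
    have e1 : u ^ 2 * P * T ≤ (1 / 10 ^ 30) ^ 2 * (10 ^ 7 * k) * T := by gcongr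
    have e2 : u * t * T ≤ 1 / 10 ^ 30 * (10 ^ 7 * k) * T := by gcongr
    have e3 : u ^ 2 * t * t ≤ (1 / 10 ^ 30) ^ 2 * (10 ^ 7 * k) * t := by gcongr
    have e4 := mul_nonneg hk0.le hT0
    have e5 := mul_nonneg hk0.le ht
    have e6 := mul_nonneg hk0.le hj
    have e7 := sq_nonneg ((k : ℝ) - 2 * r)
    refine le_of_mul_le_mul_left ?_ hk0
    linarith
  have hlt : A + B + t + j < k := by
    have : (A : ℝ) + B + t + j < k := by linarith
    exact_mod_cast this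
  have hc' : c = 0 ∨ c = -1 := by
    have h1 : c < 1 := by
      by_contra h
      have : (k : ℤ) * 1 ≤ k * c := mul_le_mul_of_nonneg_left (not_lt.1 h) (by omega)
      omega
    have h2 : -2 < c := by
      by_contra h
      have : (k : ℤ) * c ≤ k * -2 := mul_le_mul_of_nonneg_left (not_lt.1 h) (by omega)
      omega
    omega
  have b1 := mul_nonneg hA ht
  have b2 := mul_nonneg hB hj
  have key : 0.9 * (T ^ 2 - Z) + t * T + 0.8 * (t : ℝ) ^ 2 + j * k + 0.99 * (u * δ) ≤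
      16 * u ^ 2 * P * T := by
    rcases hc' with rfl | rfl
    · have e : (r : ℝ) = (A + t) - (B + j) := by
        have : ((A : ℤ) + t - B - j : ℝ) = ((r : ℤ) + (k : ℤ) * (0 : ℤ) : ℝ) := by exact_mod_cast hc
        push_cast at this
        linarith
      refine core_Ari (μ := B + j) (M := A + t) hk0.le hT0 ht hj hu0.le hu1 (by linarith)
        (by linarith) hs (by nlinarith [sq_nonneg (t : ℝ), sq_nonneg (j : ℝ)]) hY ?_
      rwa [← e]
    · have e : (B + j : ℝ) - (A + t) = k - r := by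
        have : ((A : ℤ) + t - B - j : ℝ) = ((r : ℤ) + (k : ℤ) * (-1 : ℤ) : ℝ) := by
          exact_mod_cast hc
        push_cast at this
        linarith
      refine core_Ari (μ := A + t) (M := B + j) hk0.le hT0 ht hj hu0.le hu1 (by linarith)
        (by linarith) hs (by nlinarith [sq_nonneg (t : ℝ), sq_nonneg (j : ℝ)]) hY ?_
      rw [e]
      linarith
  have c1 := mul_nonneg ht hT0
  have c2 := sq_nonneg (t : ℝ)
  have c3 := mul_nonneg hj hk0.le
  have c4 : u ^ 2 * (P * T) ≤ (1 / 10 ^ 30) ^ 2 * (P * T) := by gcongr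
  have hP2 : P ≤ 1 := by
    by_contra h
    have h2 : (2 : ℝ) ≤ P := by exact_mod_cast not_le.1 h
    have := mul_le_mul_of_nonneg_right h2 hT0
    linarith
  have hPT1 : (P : ℝ) * T ≤ 1 * T :=
    mul_le_mul_of_nonneg_right (by exact_mod_cast hP2) hT0
  refine ⟨?_, ?_, hP2, ?_⟩
  · by_contra h
    have h1 : (1 : ℝ) ≤ t := by exact_mod_cast Nat.one_le_iff_ne_zero.2 h
    have h2 := mul_le_mul_of_nonneg_right h1 hT0
    have h3 : (1 : ℝ) ≤ (t : ℝ) ^ 2 := one_le_pow₀ h1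
    linarith
  · by_contra h
    have h1 : (1 : ℝ) ≤ j := by exact_mod_cast Nat.one_le_iff_ne_zero.2 h
    have h2 := mul_le_mul_of_nonneg_right h1 hk0.le
    linarith
  · by_contra h
    have h0 : 0 < δ := lt_of_le_of_ne hδ (Ne.symm h)
    have h1 := mul_pos hu0 h0
    rcases Nat.le_one_iff_eq_zero_or_eq_one.1 hP2 with rfl | rfl
    · push_cast at key
      linarith
    · have h2 : T ≤ δ := (hP rfl).resolve_left h
      have h3 : u * (u * T) ≤ 1 / 10 ^ 30 * (u * δ) := by gcongr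
      push_cast at key
      linarith

theorem dicS : DicS := by
  intro k r m L A hk hr hrk hm hL hA hAr h1 h2
  have hk0 : 0 < k := by linarith
  have hL0 : 0 < L := by linarith
  have hL1 : 0 < L - 1 := by linarith
  obtain ⟨ρ, hρ⟩ : ∃ ρ, ρ = 2 * r - 1 := ⟨_, rfl⟩
  rw [← hρ]
  have hρ0 : 0 < ρ := by linarith
  have hkL : k * L ≤ 1 / 10 ^ 30 * L * L := mul_le_mul_of_nonneg_right (by linarith) hL0.le
  have hkk : 3 * k ≤ k * k := mul_le_mul_of_nonneg_right hk hk0.le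
  have hk1 : 0 ≤ (k - 1) * L := mul_nonneg (by linarith) hL0.le
  have a1 : L ^ 2 ≤ 1.01 * m := by linarith
  have a2 : 0.99 * m ≤ L ^ 2 := by linarith
  have a3 : 16 * k / L ^ 2 * A ≤ 0.01 * (ρ / k) := by
    have h3 : (10 ^ 30 * k) ^ 2 ≤ L ^ 2 := by gcongr
    have h4 : 16 * k / L ^ 2 ≤ 0.01 / k := by
      rw [div_le_div_iff₀ (by positivity) hk0]
      linarith
    calc _ ≤ 0.01 / k * ρ := mul_le_mul h4 (by linarith) hA (by positivity)
      _ = _ := by ring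
  have hk4 : 0 < k ^ 4 := by positivity
  have hρ2 : 0 ≤ ρ ^ 2 := sq_nonneg ρ
  constructor
  · intro h
    have h3 : 2 * k / (L - 1) ≤ 1.01 * ρ / k := by
      rw [mul_div_assoc 1.01]
      linarith
    rw [div_le_div_iff₀ hL1 hk0] at h3
    have h4 : 2 * k * k ≤ 1.01 * ρ * L := by linarith
    have h5 := pow_le_pow_left₀ (by positivity) h4 2
    have h6 := mul_le_mul_of_nonneg_left a1 hρ2
    linarith
  · intro h
    have h3 : 0.99 * ρ / k ≤ 2 * k / (L - 1) := by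
      rw [mul_div_assoc 0.99]
      linarith
    rw [div_le_div_iff₀ hk0 hL1] at h3
    have h7 : ρ * (0.99 * L) ≤ ρ * (L - 1) := mul_le_mul_of_nonneg_left (by linarith) hρ0.le
    have h8 := mul_pos hρ0 hL0
    have h4 : 0.98 * ρ * L ≤ 2 * k * k := by linarith
    have h5 := pow_le_pow_left₀ (by positivity) h4 2
    have h6 := mul_le_mul_of_nonneg_left a2 hρ2
    linarith

end WR
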