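import Pool.Agent.MP_1392dc_co.TSt

/-! Nonzero residues: wheels from two edges, arithmetic, and the two candidate graphs. -/

namespace WR

open W5 WQ Finset
open scoped Classical

section

theorem tail_Rich1 (hW : WheelS) {V : Type} [Fintype V] {k r : ℕ} {G : SimpleGraph V} {u : V}
    {c b : ℕ → V} (h : ℕ → V) (hr : 1 ≤ r) (hrk : r + 1 ≤ k) (hF : Free k G)
    (hc : ∀ i < k - 1, ∀ j < k - 1, c i = c j → i = j)
    (hb : ∀ i < k - 1, ∀ j < k - 1, b i = b j → i = j)
    (hcb : ∀ i < k - 1, ∀ j < k - 1, G.Adj (c i) (b j))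
    (hu : ∀ i < k - 1, G.Adj u (c i) ∧ G.Adj u (b i))
    (h1 : ∀ i < 2 * r + 2, ∀ j < 2 * r + 2, h i = h j → i = j)
    (h2 : ∀ i, i + 1 < 2 * r + 2 → G.Adj (h i) (h (i + 1)))
    (h3 : ∀ i < 2 * r + 2, G.Adj u (h i))
    (h4 : ∀ i < 2 * r + 2, ∀ j < k - 1, (r ≤ j → h i ≠ c j) ∧ h i ≠ b j)
    (h5 : h 0 = c 0) (h6 : r < k - 1 → G.Adj (h (2 * r + 1)) (c r))
    (h7 : G.Adj (h (2 * r + 1)) (c 0)) : False := by
  let f : ℕ → V := fun n =>
    if n < 2 * r + 2 then h n else if n % 2 = 0 then c ((n - 2) / 2) else b ((n - 3) / 2)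
  have f1 : ∀ n, n < 2 * r + 2 → f n = h n := fun n hn => if_pos hn
  have f2 : ∀ n, ¬ n < 2 * r + 2 → n % 2 = 0 → f n = c ((n - 2) / 2) := fun n hn he =>
    (if_neg hn).trans (if_pos he)
  have f3 : ∀ n, ¬ n < 2 * r + 2 → ¬ n % 2 = 0 → f n = b ((n - 3) / 2) := fun n hn he =>
    (if_neg hn).trans (if_neg he)
  refine hF (hW V G u f (2 * k) (by omega) (fun i hi j hj e => ?_) (fun i hi => ?_) ?_
    fun i hi => ?_)
  · by_cases a1 : i < 2 * r + 2 <;> by_cases a2 : j < 2 * r + 2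
    · rw [f1 i a1, f1 j a2] at e
      exact h1 i a1 j a2 e
    · rw [f1 i a1] at e
      by_cases a3 : j % 2 = 0
      · rw [f2 j a2 a3] at e
        exact absurd e ((h4 i a1 _ (by omega)).1 (by omega))
      · rw [f3 j a2 a3] at e
        exact absurd e (h4 i a1 _ (by omega)).2
    · rw [f1 j a2] at e
      by_cases a3 : i % 2 = 0
      · rw [f2 i a1 a3] at e
        exact absurd e.symm ((h4 j a2 _ (by omega)).1 (by omega))
      · rw [f3 i a1 a3] at e
        exact absurd e.symm (h4 j a2 _ (by omega)).2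
    · by_cases a3 : i % 2 = 0 <;> by_cases a4 : j % 2 = 0
      · rw [f2 i a1 a3, f2 j a2 a4] at e
        have := hc _ (by omega) _ (by omega) e
        omega
      · rw [f2 i a1 a3, f3 j a2 a4] at e
        exact absurd e (hcb _ (by omega) _ (by omega)).ne
      · rw [f3 i a1 a3, f2 j a2 a4] at e
        exact absurd e.symm (hcb _ (by omega) _ (by omega)).ne
      · rw [f3 i a1 a3, f3 j a2 a4] at e
        have := hb _ (by omega) _ (by omega) e
        omega
  · by_cases a1 : i + 1 < 2 * r + 2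
    · rw [f1 i (by omega), f1 _ a1]
      exact h2 i a1
    · by_cases a2 : i < 2 * r + 2
      · have e : i = 2 * r + 1 := by omega
        rw [f1 i a2, f2 _ a1 (by omega), e, show (2 * r + 1 + 1 - 2) / 2 = r by omega]
        exact h6 (by omega)
      · by_cases a3 : i % 2 = 0
        · rw [f2 i a2 a3, f3 _ a1 (by omega)]
          exact hcb _ (by omega) _ (by omega)
        · rw [f3 i a2 a3, f2 _ a1 (by omega)]
          exact (hcb _ (by omega) _ (by omega)).symm
  · rw [f1 0 (by omega), h5]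
    by_cases a1 : 2 * k - 1 < 2 * r + 2
    · rw [f1 _ a1, show 2 * k - 1 = 2 * r + 1 by omega]
      exact h7
    · rw [f3 _ a1 (by omega)]
      exact (hcb _ (by omega) _ (by omega)).symm
  · by_cases a1 : i < 2 * r + 2
    · rw [f1 i a1]
      exact h3 i a1
    · by_cases a3 : i % 2 = 0
      · rw [f2 i a1 a3]
        exact (hu _ (by omega)).1
      · rw [f3 i a1 a3]
        exact (hu _ (by omega)).2

theorem rich1S (hW : WheelS) : Rich1S := by
  intro V _ k G σ u c b v w v' w' hk hF hc hb h1 hcb h2 hvw hvw'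
  have hu : ∀ i < k - 1, G.Adj u (c i) ∧ G.Adj u (b i) := fun i hi =>
    ⟨(h1 i hi).2.2.1, (h1 i hi).2.2.2.1⟩
  have hz : ∀ z, z = v ∨ z = w ∨ z = v' ∨ z = w' → G.Adj u z ∧ G.Adj (c 0) z ∧ G.Adj (c 1) z ∧
      (2 < k - 1 → G.Adj (c 2) z) ∧ ∀ j < k - 1, z ≠ c j ∧ z ≠ b j := by
    intro z hz
    obtain ⟨e1, e2, e3⟩ := h2 z hz
    refine ⟨e2, e3 0 (by omega) (by omega), e3 1 (by omega) (by omega), e3 2 (by omega),
      fun j hj => ⟨fun e => ?_, ?_⟩⟩
    · have := (h1 j hj).1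
      rw [← e, e1] at this
      exact Bool.false_ne_true this
    · obtain ⟨-, -, -, -, g1, g2, g3, g4⟩ := h1 j hj
      rcases hz with rfl | rfl | rfl | rfl
      exacts [g1.symm, g2.symm, g3.symm, g4.symm]
  have c0 : ∀ j < k - 1, (1 ≤ j → c 0 ≠ c j) ∧ c 0 ≠ b j := fun j hj =>
    ⟨fun g e => by have := hc 0 (by omega) j hj e; omega, (hcb 0 (by omega) j hj).ne⟩
  have c1 : ∀ j < k - 1, (2 ≤ j → c 1 ≠ c j) ∧ c 1 ≠ b j := fun j hj =>
    ⟨fun g e => by have := hc 1 (by omega) j hj e; omega, (hcb 1 (by omega) j hj).ne⟩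
  have path : ∀ p q p' : V, (p = v ∨ p = w ∨ p = v' ∨ p = w') →
      (q = v ∨ q = w ∨ q = v' ∨ q = w') → (p' = v ∨ p' = w ∨ p' = v' ∨ p' = w') →
      G.Adj p q → G.Adj q p' → p = p' := by
    intro p q p' e1 e2 e3 g1 g2
    by_contra hne
    obtain ⟨p1, p2, p3, p4, p5⟩ := hz p e1
    obtain ⟨q1, q2, q3, q4, q5⟩ := hz q e2
    obtain ⟨r1, r2, r3, r4, r5⟩ := hz p' e3
    have n1 := p2.ne
    have n2 := q2.ne
    have n3 := r2.ne
    have n4 := g1.ne
    have n5 := g2.ne
    refine tail_Rich1 hW (r := 1) (fun n => [c 0, p, q, p'].getD n u) le_rfl (by omega) hF hc hb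
      hcb hu (fun i hi j hj e => ?_) (fun i hi => ?_) (fun i hi => ?_) (fun i hi j hj => ?_) rfl
      (fun _ => r3.symm) r2.symm
    · interval_cases i <;> interval_cases j <;>
        first | rfl | exact absurd e (by assumption) | exact absurd e.symm (by assumption)
    · have hi' : i < 3 := by omega
      interval_cases i
      exacts [p2, g1, g2]
    · interval_cases i
      exacts [(hu 0 (by omega)).1, p1, q1, r1]
    · interval_cases i
      exacts [c0 j hj, ⟨fun _ => (p5 j hj).1, (p5 j hj).2⟩, ⟨fun _ => (q5 j hj).1, (q5 j hj).2⟩,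
        ⟨fun _ => (r5 j hj).1, (r5 j hj).2⟩]
  have mv : v = v ∨ v = w ∨ v = v' ∨ v = w' := Or.inl rfl
  have mw : w = v ∨ w = w ∨ w = v' ∨ w = w' := Or.inr (Or.inl rfl)
  have mv' : v' = v ∨ v' = w ∨ v' = v' ∨ v' = w' := Or.inr (Or.inr (Or.inl rfl))
  have mw' : w' = v ∨ w' = w ∨ w' = v' ∨ w' = w' := Or.inr (Or.inr (Or.inr rfl))
  by_cases a1 : v' = v
  · exact Or.inl ⟨a1, path w' v w mw' mv mw (a1 ▸ hvw'.symm) hvw⟩
  by_cases a2 : v' = w
  · exact Or.inr ⟨a2, path w' w v mw' mw mv (a2 ▸ hvw'.symm) hvw.symm⟩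
  by_cases a3 : w' = v
  · exact absurd (path v' v w mv' mv mw (a3 ▸ hvw') hvw) a2
  by_cases a4 : w' = w
  · exact absurd (path v' w v mv' mw mv (a4 ▸ hvw') hvw.symm) a1
  obtain ⟨p1, p2, p3, p4, p5⟩ := hz v mv
  obtain ⟨q1, q2, q3, q4, q5⟩ := hz w mw
  obtain ⟨r1, r2, r3, r4, r5⟩ := hz v' mv'
  obtain ⟨s1, s2, s3, s4, s5⟩ := hz w' mw'
  have n0 : c 0 ≠ c 1 := (c0 1 (by omega)).1 le_rfl
  have n1 := p2.ne
  have n2 := q2.ne
  have n3 := r2.ne
  have n4 := s2.ne
  have n5 := p3.ne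
  have n6 := q3.ne
  have n7 := r3.ne
  have n8 := s3.ne
  have n9 := hvw.ne
  have n10 := hvw'.ne
  refine (tail_Rich1 hW (r := 2) (fun n => [c 0, v, w, c 1, v', w'].getD n u) (by omega)
    (by omega) hF hc hb hcb hu (fun i hi j hj e => ?_) (fun i hi => ?_) (fun i hi => ?_)
    (fun i hi j hj => ?_) rfl (fun g => (s4 g).symm) s2.symm).elim
  · interval_cases i <;> interval_cases j <;>
      first | rfl | exact absurd e (by assumption) | exact absurd e.symm (by assumption)
  · have hi' : i < 5 := by omega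
    interval_cases i
    exacts [p2, hvw, q3.symm, r3, hvw']
  · interval_cases i
    exacts [(hu 0 (by omega)).1, p1, q1, (hu 1 (by omega)).1, r1, s1]
  · interval_cases i
    exacts [⟨fun g => (c0 j hj).1 (by omega), (c0 j hj).2⟩, ⟨fun _ => (p5 j hj).1, (p5 j hj).2⟩,
      ⟨fun _ => (q5 j hj).1, (q5 j hj).2⟩, c1 j hj, ⟨fun _ => (r5 j hj).1, (r5 j hj).2⟩,
      ⟨fun _ => (s5 j hj).1, (s5 j hj).2⟩]

end

section

theorem enum_Rich {V : Type} {A B : Finset V} (h : A ⊆ B) (d : V) : ∃ c : ℕ → V,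
    (∀ i < B.card, ∀ j < B.card, c i = c j → i = j) ∧ (∀ i < B.card, c i ∈ B) ∧
      ∀ i < A.card, c i ∈ A := by
  have hl : (A.toList ++ (B \ A).toList).length = B.card := by
    rw [List.length_append, length_toList, length_toList, add_comm, card_sdiff_add_card_eq_card h]
  have hn : (A.toList ++ (B \ A).toList).Nodup := by
    refine List.nodup_append.2 ⟨nodup_toList _, nodup_toList _, fun a ha b hb e => ?_⟩
    subst e
    exact (mem_sdiff.1 (mem_toList.1 hb)).2 (mem_toList.1 ha)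
  refine ⟨fun i => (A.toList ++ (B \ A).toList).getD i d, fun i hi j hj e => ?_, fun i hi => ?_,
    fun i hi => ?_⟩
  · simp only at e
    rw [List.getD_eq_getElem _ _ (hl ▸ hi), List.getD_eq_getElem _ _ (hl ▸ hj)] at e
    exact hn.getElem_inj_iff.1 e
  · simp only
    rw [List.getD_eq_getElem _ _ (hl ▸ hi)]
    rcases List.mem_append.1 (List.getElem_mem (l := A.toList ++ (B \ A).toList) (hl ▸ hi))
      with a | a
    · exact h (mem_toList.1 a)
    · exact (mem_sdiff.1 (mem_toList.1 a)).1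
  · simp only
    have hi' : i < A.toList.length := by rwa [length_toList]
    rw [List.getD_append _ _ _ _ hi', List.getD_eq_getElem _ _ hi']
    exact mem_toList.1 (List.getElem_mem hi')

theorem miss_Rich {V : Type} [Fintype V] {k : ℕ} {G : SimpleGraph V} {σ : V → Bool} {z : V}
    (hK : (univ.filter fun u => σ u = true).card = k) (h : 9 * (k : ℝ) ≤ 10 * dK G σ z) :
    10 * ((univ.filter fun u => σ u = true).filter fun u => ¬ G.Adj z u).card ≤ k := by
  have h1 := card_filter_add_card_filter_not (s := univ.filter fun u => σ u = true) (G.Adj z)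
  have h2 : dK G σ z = (((univ.filter fun u => σ u = true).filter (G.Adj z)).card : ℝ) := by
    rw [dK, ct_eq]
    congr 2
    ext u
    simp [and_comm]
  rw [h2] at h
  have h3 : 9 * k ≤ 10 * ((univ.filter fun u => σ u = true).filter (G.Adj z)).card := by
    exact_mod_cast h
  omega

theorem richS (hC : CntS) (h1 : Rich1S) : RichS := by
  intro V _ k m G σ hS hF v w v' w' r r'
  obtain ⟨-, c2, c3, -⟩ := hC V k m G σ hS
  have k3 := hS.k3
  have kR := hS.kR
  have hK : (univ.filter fun u => σ u = true).card = k := by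
    have := hS.hK
    rw [ct_eq, filter_congr_decidable] at this
    exact_mod_cast this
  have m1 := miss_Rich hK r.2.2.2.1
  have m2 := miss_Rich hK r.2.2.2.2
  have m3 := miss_Rich hK r'.2.2.2.1
  have m4 := miss_Rich hK r'.2.2.2.2
  have m5 : 10 * (univ.filter fun u => σ u = true ∧
      ∃ x, σ x = true ∧ u ≠ x ∧ ¬ G.Adj u x).card ≤ k := by
    have a : ((univ.filter fun u => σ u = true ∧
        ∃ x, σ x = true ∧ u ≠ x ∧ ¬ G.Adj u x).card : ℝ) ≤ M2 G σ fun _ => 1 := by
      rw [card_filter, M2]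
      push_cast
      refine sum_le_sum fun u _ => ?_
      split_ifs with hu
      · obtain ⟨a, x, b⟩ := hu
        refine le_trans ?_ (single_le_sum (f := fun x => if σ u = true ∧ σ x = true ∧ u ≠ x ∧
          ¬ G.Adj u x then (1 : ℝ) * 1 else 0) (fun _ _ => by split_ifs <;> norm_num) (mem_univ x))
        simp only [if_pos (And.intro a b), mul_one, le_refl]
      · exact sum_nonneg fun _ _ => by split_ifs <;> norm_num
    have b := hS.hj
    have e : 10 * ((univ.filter fun u => σ u = true ∧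
        ∃ x, σ x = true ∧ u ≠ x ∧ ¬ G.Adj u x).card : ℝ) ≤ k := by linarith
    exact_mod_cast e
  generalize hKf : (univ.filter fun u => σ u = true) = Kf at hK m1 m2 m3 m4
  have mK : ∀ u, u ∈ Kf ↔ σ u = true := fun u => by simp [← hKf]
  obtain ⟨D, hD, dD⟩ : ∃ D : Finset V, min 4 k ≤ D.card ∧ ∀ u ∈ D, σ u = true ∧ G.Adj v u ∧
      G.Adj w u ∧ G.Adj v' u ∧ G.Adj w' u ∧ ∀ x, σ x = true → u ≠ x → G.Adj u x := by
    refine ⟨Kf \ ((Kf.filter fun u => ¬ G.Adj v u) ∪ ((Kf.filter fun u => ¬ G.Adj w u) ∪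
      ((Kf.filter fun u => ¬ G.Adj v' u) ∪ ((Kf.filter fun u => ¬ G.Adj w' u) ∪
      (univ.filter fun u => σ u = true ∧ ∃ x, σ x = true ∧ u ≠ x ∧ ¬ G.Adj u x))))), ?_,
      fun u hu => ?_⟩
    · refine le_trans ?_ (le_card_sdiff _ _)
      refine le_trans ?_ (Nat.sub_le_sub_left ((card_union_le _ _).trans (Nat.add_le_add_left
        ((card_union_le _ _).trans (Nat.add_le_add_left ((card_union_le _ _).trans
        (Nat.add_le_add_left (card_union_le _ _) _)) _)) _)) _)
      omega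
    · simp only [mem_sdiff, mem_union, mem_filter, mem_univ, true_and, not_or, not_and,
        not_exists, not_not] at hu
      obtain ⟨a, b1, b2, b3, b4, b5⟩ := hu
      exact ⟨(mK u).1 a, b1 a, b2 a, b3 a, b4 a, b5 ((mK u).1 a)⟩
  obtain ⟨u, hu⟩ : D.Nonempty := card_pos.1 (by omega)
  have du := dD u hu
  have e1 : (Kf.erase u).card = k - 1 := by rw [card_erase_of_mem ((mK u).2 du.1), hK]
  have e2 : (D.erase u).card = D.card - 1 := card_erase_of_mem hu
  obtain ⟨c, ci, cm, cD⟩ := enum_Rich (A := D.erase u) (B := Kf.erase u)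
    (erase_subset_erase u fun x hx => (mK x).2 (dD x hx).1) u
  rw [e1] at ci cm
  have f1 : k + 4 ≤ (univ.filter (Fu k G σ)).card := by
    rw [ct_eq] at c2
    have b := hS.big
    have : (k : ℝ) + 4 ≤ (univ.filter (Fu k G σ)).card :=
      le_of_mul_le_mul_left (a := 2 * (k : ℝ)) (by nlinarith) (by linarith)
    exact_mod_cast this
  obtain ⟨B, hB, eB⟩ := exists_subset_card_eq (s := univ.filter (Fu k G σ) \ {v, w, v', w'})
    (n := k - 1) (by
      have a := le_card_sdiff ({v, w, v', w'} : Finset V) (univ.filter (Fu k G σ))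
      have b : ({v, w, v', w'} : Finset V).card ≤ 4 := card_le_four
      omega)
  obtain ⟨b, bi, bm, -⟩ := enum_Rich (empty_subset B) u
  rw [eB] at bi bm
  have bF : ∀ i < k - 1, Fu k G σ (b i) ∧ b i ≠ v ∧ b i ≠ w ∧ b i ≠ v' ∧ b i ≠ w' := fun i hi => by
    simpa only [mem_sdiff, mem_filter, mem_univ, true_and, mem_insert, mem_singleton, not_or]
      using hB (bm i hi)
  have cK : ∀ i < k - 1, σ (c i) = true := fun i hi => (mK _).1 (mem_erase.1 (cm i hi)).2
  have c3D : ∀ i < 3, i < k - 1 → c i ∈ D := fun i a b =>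
    (mem_erase.1 (cD i (by omega))).2
  refine h1 V k G σ u c b v w v' w' k3 hF ci bi (fun i hi => ⟨cK i hi, (bF i hi).1.1,
    du.2.2.2.2.2 _ (cK i hi) (mem_erase.1 (cm i hi)).1.symm,
    (hS.full (bF i hi).1.2 du.1).symm, (bF i hi).2⟩)
    (fun i hi j hj => (hS.full (bF j hj).1.2 (cK i hi)).symm) ?_ r.1 r'.1
  rintro z (rfl | rfl | rfl | rfl)
  · exact ⟨r.2.1, du.2.1.symm, fun i a b => (dD _ (c3D i a b)).2.1.symm⟩
  · exact ⟨r.2.2.1, du.2.2.1.symm, fun i a b => (dD _ (c3D i a b)).2.2.1.symm⟩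
  · exact ⟨r'.2.1, du.2.2.2.1.symm, fun i a b => (dD _ (c3D i a b)).2.2.2.1.symm⟩
  · exact ⟨r'.2.2.1, du.2.2.2.2.1.symm, fun i a b => (dD _ (c3D i a b)).2.2.2.2.1.symm⟩

end

section

theorem core_Ari {k T t j P Z u δ μ M : ℝ} (hk : 0 ≤ k) (hT : 0 ≤ T) (ht : 0 ≤ t) (hj : 0 ≤ j)
    (hu0 : 0 ≤ u) (hu : u ≤ 1 / 10 ^ 30) (hμ : 0 ≤ μ) (hs : μ + M = T + t + j)
    (hk2 : 2 * (T + t + j) * (1 - 1 / 10 ^ 20) ≤ k) (hZ : Z ≤ μ ^ 2 + M ^ 2) (hY : Z ≤ T ^ 2)
    (H : -((M - μ) * k - (M - μ) ^ 2) ≤ -(10 ^ 29 * j * k) - (k * T - Z) + 16 * u ^ 2 * P * T -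
      k * t + 19 * u * t * T + 7 * u ^ 2 * t ^ 2 - 0.99 * (u * δ)) :
    0.9 * (T ^ 2 - Z) + t * T + 0.8 * t ^ 2 + j * k + 0.99 * (u * δ) ≤ 16 * u ^ 2 * P * T := by
  have a1 : μ * (2 * M * (1 - 1 / 10 ^ 20)) ≤ μ * k :=
    mul_le_mul_of_nonneg_left (by linarith) hμ
  have a2 : u * (t * T) ≤ 1 / 10 ^ 30 * (t * T) := by gcongr
  have a3 : u ^ 2 * t ^ 2 ≤ (1 / 10 ^ 30) ^ 2 * t ^ 2 := by gcongr
  have a4 := mul_nonneg hj hT
  have a5 := mul_nonneg hj ht
  have a6 := mul_nonneg hj hk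
  have a7 := mul_nonneg ht hT
  have a8 := sq_nonneg t
  have a9 := sq_nonneg j
  obtain rfl : M = T + t + j - μ := by linarith
  linarith

theorem ariS : AriS := by
  intro k r A B t j P c L Z δ hk hr hc hL hZ0 hZ1 hZ2 hP1 hP0 hPT hPk htk hδ hP H
  have hk3 : (3 : ℝ) ≤ k := by exact_mod_cast hk
  have hk0 : (0 : ℝ) < k := by linarith
  have hL0 : 0 < L := by linarith
  have hL1 : 0 < L - 1 := by linarith
  have hA : (0 : ℝ) ≤ A := A.cast_nonneg
  have hB : (0 : ℝ) ≤ B := B.cast_nonneg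
  have ht : (0 : ℝ) ≤ t := t.cast_nonneg
  have hj : (0 : ℝ) ≤ j := j.cast_nonneg
  have hP' : (0 : ℝ) ≤ P := P.cast_nonneg
  obtain ⟨u, hu⟩ : ∃ u, u = k / L := ⟨_, rfl⟩
  have hu0 : 0 < u := by rw [hu]; positivity
  have hu1 : u ≤ 1 / 10 ^ 30 := by
    rw [hu, div_le_div_iff₀ hL0 (by positivity)]
    linarith
  obtain ⟨T, hT⟩ : ∃ T : ℝ, T = A + B := ⟨_, rfl⟩
  have hY : Z ≤ T ^ 2 := by rw [hT]; nlinarith [mul_nonneg hA hB]
  rw [← hT] at hZ1 hP1 hP0 hPT hP H
  have hT0 : 0 ≤ T := by linarith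
  have hw : u * δ ≤ k * (δ / (L - 1)) := by
    rw [hu, div_mul_eq_mul_div, mul_div_assoc]
    gcongr
    linarith
  have H' : -(r * k - (r : ℝ) ^ 2) ≤ -(10 ^ 29 * j * k) - (k * T - Z) + 16 * u ^ 2 * P * T -
      k * t + 19 * u * t * T + 7 * u ^ 2 * (t : ℝ) ^ 2 - 0.99 * (u * δ) := by
    have h1 := mul_le_mul_of_nonneg_left H hk0.le
    have e1 : (k : ℝ) * -((r : ℝ) - (r : ℝ) ^ 2 / k) = -(r * k - (r : ℝ) ^ 2) := by field_simp
    have e2 : (k : ℝ) * (-(10 ^ 29 * (j : ℝ)) - (T - Z / k) + 16 * P * k / L ^ 2 * T - t +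
        19 * t * T / L + 7 * (t : ℝ) ^ 2 * k / L ^ 2 - 0.99 * δ / (L - 1)) =
        -(10 ^ 29 * j * k) - (k * T - Z) + 16 * u ^ 2 * P * T - k * t + 19 * u * t * T +
          7 * u ^ 2 * (t : ℝ) ^ 2 - 0.99 * (k * (δ / (L - 1))) := by
      rw [hu]
      field_simp
    rw [e1, e2] at h1
    linarith
  have huδ : 0 ≤ u * δ := mul_nonneg hu0.le hδ
  have hs : 2 * (T + t + j) * (1 - 1 / 10 ^ 20) ≤ k := by
    have e1 : u ^ 2 * P * T ≤ (1 / 10 ^ 30) ^ 2 * (10 ^ 7 * k) * T := by gcongr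
    have e2 : u * t * T ≤ 1 / 10 ^ 30 * (10 ^ 7 * k) * T := by gcongr
    have e3 : u ^ 2 * t * t ≤ (1 / 10 ^ 30) ^ 2 * (10 ^ 7 * k) * t := by gcongr
    have e4 := mul_nonneg hk0.le hT0
    have e5 := mul_nonneg hk0.le ht
    have e6 := mul_nonneg hk0.le hj
    have e7 := sq_nonneg ((k : ℝ) - 2 * r)
    refine le_of_mul_le_mul_left ?_ hk0
    linarith
  have hlt : A + B + t + j < k := by
    have : (A : ℝ) + B + t + j < k := by linarith
    exact_mod_cast this
  have hc' : c = 0 ∨ c = -1 := by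
    have h1 : c < 1 := by
      by_contra h
      have : (k : ℤ) * 1 ≤ k * c := mul_le_mul_of_nonneg_left (not_lt.1 h) (by omega)
      omega
    have h2 : -2 < c := by
      by_contra h
      have : (k : ℤ) * c ≤ k * -2 := mul_le_mul_of_nonneg_left (not_lt.1 h) (by omega)
      omega
    omega
  have b1 := mul_nonneg hA ht
  have b2 := mul_nonneg hB hj
  have key : 0.9 * (T ^ 2 - Z) + t * T + 0.8 * (t : ℝ) ^ 2 + j * k + 0.99 * (u * δ) ≤
      16 * u ^ 2 * P * T := by
    rcases hc' with rfl | rfl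
    · have e : (r : ℝ) = (A + t) - (B + j) := by
        have : ((A : ℤ) + t - B - j : ℝ) = ((r : ℤ) + (k : ℤ) * (0 : ℤ) : ℝ) := by exact_mod_cast hc
        push_cast at this
        linarith
      refine core_Ari (μ := B + j) (M := A + t) hk0.le hT0 ht hj hu0.le hu1 (by linarith)
        (by linarith) hs (by nlinarith [sq_nonneg (t : ℝ), sq_nonneg (j : ℝ)]) hY ?_
      rwa [← e]
    · have e : (B + j : ℝ) - (A + t) = k - r := by
        have : ((A : ℤ) + t - B - j : ℝ) = ((r : ℤ) + (k : ℤ) * (-1 : ℤ) : ℝ) := by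
          exact_mod_cast hc
        push_cast at this
        linarith
      refine core_Ari (μ := A + t) (M := B + j) hk0.le hT0 ht hj hu0.le hu1 (by linarith)
        (by linarith) hs (by nlinarith [sq_nonneg (t : ℝ), sq_nonneg (j : ℝ)]) hY ?_
      rw [e]
      linarith
  have c1 := mul_nonneg ht hT0
  have c2 := sq_nonneg (t : ℝ)
  have c3 := mul_nonneg hj hk0.le
  have c4 : u ^ 2 * (P * T) ≤ (1 / 10 ^ 30) ^ 2 * (P * T) := by gcongr
  have hP2 : P ≤ 1 := by
    by_contra h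
    have h2 : (2 : ℝ) ≤ P := by exact_mod_cast not_le.1 h
    have := mul_le_mul_of_nonneg_right h2 hT0
    linarith
  have hPT1 : (P : ℝ) * T ≤ 1 * T :=
    mul_le_mul_of_nonneg_right (by exact_mod_cast hP2) hT0
  refine ⟨?_, ?_, hP2, ?_⟩
  · by_contra h
    have h1 : (1 : ℝ) ≤ t := by exact_mod_cast Nat.one_le_iff_ne_zero.2 h
    have h2 := mul_le_mul_of_nonneg_right h1 hT0
    have h3 : (1 : ℝ) ≤ (t : ℝ) ^ 2 := one_le_pow₀ h1
    linarith
  · by_contra h
    have h1 : (1 : ℝ) ≤ j := by exact_mod_cast Nat.one_le_iff_ne_zero.2 h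
    have h2 := mul_le_mul_of_nonneg_right h1 hk0.le
    linarith
  · by_contra h
    have h0 : 0 < δ := lt_of_le_of_ne hδ (Ne.symm h)
    have h1 := mul_pos hu0 h0
    rcases Nat.le_one_iff_eq_zero_or_eq_one.1 hP2 with rfl | rfl
    · push_cast at key
      linarith
    · have h2 : T ≤ δ := (hP rfl).resolve_left h
      have h3 : u * (u * T) ≤ 1 / 10 ^ 30 * (u * δ) := by gcongr
      push_cast at key
      linarith

theorem dicS : DicS := by
  intro k r m L A hk hr hrk hm hL hA hAr h1 h2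
  have hk0 : 0 < k := by linarith
  have hL0 : 0 < L := by linarith
  have hL1 : 0 < L - 1 := by linarith
  obtain ⟨ρ, hρ⟩ : ∃ ρ, ρ = 2 * r - 1 := ⟨_, rfl⟩
  rw [← hρ]
  have hρ0 : 0 < ρ := by linarith
  have hkL : k * L ≤ 1 / 10 ^ 30 * L * L := mul_le_mul_of_nonneg_right (by linarith) hL0.le
  have hkk : 3 * k ≤ k * k := mul_le_mul_of_nonneg_right hk hk0.le
  have hk1 : 0 ≤ (k - 1) * L := mul_nonneg (by linarith) hL0.le
  have a1 : L ^ 2 ≤ 1.01 * m := by linarith
  have a2 : 0.99 * m ≤ L ^ 2 := by linarith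
  have a3 : 16 * k / L ^ 2 * A ≤ 0.01 * (ρ / k) := by
    have h3 : (10 ^ 30 * k) ^ 2 ≤ L ^ 2 := by gcongr
    have h4 : 16 * k / L ^ 2 ≤ 0.01 / k := by
      rw [div_le_div_iff₀ (by positivity) hk0]
      linarith
    calc _ ≤ 0.01 / k * ρ := mul_le_mul h4 (by linarith) hA (by positivity)
      _ = _ := by ring
  have hk4 : 0 < k ^ 4 := by positivity
  have hρ2 : 0 ≤ ρ ^ 2 := sq_nonneg ρ
  constructor
  · intro h
    have h3 : 2 * k / (L - 1) ≤ 1.01 * ρ / k := by
      rw [mul_div_assoc 1.01]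
      linarith
    rw [div_le_div_iff₀ hL1 hk0] at h3
    have h4 : 2 * k * k ≤ 1.01 * ρ * L := by linarith
    have h5 := pow_le_pow_left₀ (by positivity) h4 2
    have h6 := mul_le_mul_of_nonneg_left a1 hρ2
    linarith
  · intro h
    have h3 : 0.99 * ρ / k ≤ 2 * k / (L - 1) := by
      rw [mul_div_assoc 0.99]
      linarith
    rw [div_le_div_iff₀ hk0 hL1] at h3
    have h7 : ρ * (0.99 * L) ≤ ρ * (L - 1) := mul_le_mul_of_nonneg_left (by linarith) hρ0.le
    have h8 := mul_pos hρ0 hL0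
    have h4 : 0.98 * ρ * L ≤ 2 * k * k := by linarith
    have h5 := pow_le_pow_left₀ (by positivity) h4 2
    have h6 := mul_le_mul_of_nonneg_left a2 hρ2
    linarith

end

section

theorem enum_Iso2 {V : Type} {N S : Finset V} (h : N ⊆ S) {k r : ℕ} (hS : S.card = k)
    (hN : N.card = r) : ∃ g : Fin k → V, Function.Injective g ∧ (∀ i, g i ∈ S) ∧
      (∀ v ∈ S, ∃ i, g i = v) ∧ ∀ i, g i ∈ N ↔ i.val < r := by
  obtain ⟨t, rfl⟩ : ∃ t, k = r + t := Nat.exists_eq_add_of_le (hS ▸ hN ▸ card_le_card h)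
  have hT : (S \ N).card = t := by
    rw [card_sdiff_of_subset h]
    omega
  let e1 := (N.equivFinOfCardEq hN).symm
  let e2 := ((S \ N).equivFinOfCardEq hT).symm
  have hs : ∀ v ∈ S, ∃ i, Fin.append (fun i => (e1 i : V)) (fun j => (e2 j : V)) i = v := by
    intro v hv
    by_cases hn : v ∈ N
    · exact ⟨Fin.castAdd t (e1.symm ⟨v, hn⟩), by simp⟩
    · exact ⟨Fin.natAdd r (e2.symm ⟨v, mem_sdiff.2 ⟨hv, hn⟩⟩), by simp⟩
  refine ⟨_, fun i j hij => ?_, fun i => ?_, hs, fun i => ?_⟩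
  · induction i using Fin.addCases with
    | left i =>
      induction j using Fin.addCases with
      | left j =>
        rw [Fin.append_left, Fin.append_left] at hij
        rw [e1.injective (Subtype.ext hij)]
      | right j =>
        rw [Fin.append_left, Fin.append_right] at hij
        exact absurd (hij ▸ (e1 i).2) (mem_sdiff.1 (e2 j).2).2
    | right i =>
      induction j using Fin.addCases with
      | left j =>
        rw [Fin.append_left, Fin.append_right] at hij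
        exact absurd (hij ▸ (e1 j).2) (mem_sdiff.1 (e2 i).2).2
      | right j =>
        rw [Fin.append_right, Fin.append_right] at hij
        rw [e2.injective (Subtype.ext hij)]
  · induction i using Fin.addCases with
    | left i => rw [Fin.append_left]; exact h (e1 i).2
    | right i => rw [Fin.append_right]; exact (mem_sdiff.1 (e2 i).2).1
  · induction i using Fin.addCases with
    | left i => rw [Fin.append_left]; exact iff_of_true (e1 i).2 i.2
    | right i =>
      rw [Fin.append_right]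
      exact iff_of_false (mem_sdiff.1 (e2 i).2).2 (by simp)

theorem card_Iso2 {V : Type} [Fintype V] {S : V → Prop} [DecidablePred S] {n : ℕ}
    (h : ct S = n) : (univ.filter S).card = n := by
  rw [ct_eq] at h
  have h1 := Nat.cast_injective (R := ℝ) h
  convert h1

theorem iso2S : Iso2S := by
  intro V _ k q r e G σ R hr hK hKK hR hRc hF hKF he0 he1
  have c1 := card_Iso2 hK
  have c2 := card_Iso2 hF
  have c3 := card_Iso2 hRc
  have hR1 : ∀ w w', R w → R w' → w = w' := fun w w' h h' =>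
    card_le_one.1 (c3.trans_le (min_le_right r 1)) w (by simpa using h) w' (by simpa using h')
  obtain ⟨g3, i3, m3, s3, -⟩ := enum_Iso2 (empty_subset _) c3 card_empty
  obtain ⟨g1, i1, m1, s1, n1⟩ := enum_Iso2
    (N := univ.filter fun u => σ u = true ∧ ∃ w, R w ∧ G.Adj w u) (r := r)
    (fun u hu => mem_filter.2 ⟨mem_univ _, (mem_filter.1 hu).2.1⟩) c1 (by
      by_cases hw : ∃ w, R w
      · obtain ⟨w, hw⟩ := hw
        rw [← card_Iso2 (hR w hw).2]
        congr 1
        ext u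
        simp only [mem_filter, mem_univ, true_and]
        exact ⟨fun ⟨a, w', b, c⟩ => ⟨hR1 w' w b hw ▸ c, a⟩, fun ⟨a, b⟩ => ⟨b, w, hw, a⟩⟩
      · have h0 : min r 1 = 0 := by
          rw [← c3, card_eq_zero, filter_eq_empty_iff]
          exact fun w _ h => hw ⟨w, h⟩
        rw [show r = 0 by omega, card_eq_zero, filter_eq_empty_iff]
        exact fun u _ ⟨_, w, h, _⟩ => hw ⟨w, h⟩)
  obtain ⟨g2, i2, m2, s2, n2⟩ : ∃ g : Fin q → V, Function.Injective g ∧
      (∀ i, g i ∈ univ.filter fun v => σ v = false ∧ ¬ R v) ∧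
      (∀ v ∈ univ.filter fun v => σ v = false ∧ ¬ R v, ∃ i, g i = v) ∧
      ∀ i j, (sg G σ false).Adj (g i) (g j) ↔ e = true ∧ i.val + j.val = 1 := by
    cases e with
    | false =>
      obtain ⟨g, a, b, c, -⟩ := enum_Iso2 (empty_subset _) c2 card_empty
      exact ⟨g, a, b, c, fun i j => iff_of_false (he0 rfl _ _) (by simp)⟩
    | true =>
      obtain ⟨a, b, hab, a1, b1, a2, b2, H⟩ := he1 rfl
      obtain ⟨g, p1, p2, p3, p4⟩ := enum_Iso2 (N := {a, b})
        (insert_subset (by simp [a1, a2]) (by simp [b1, b2])) c2 (card_pair hab)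
      refine ⟨g, p1, p2, p3, fun i j => ?_⟩
      have q1 := p4 i
      have q2 := p4 j
      have q3 : g i = g j ↔ i.val = j.val := p1.eq_iff.trans Fin.ext_iff
      simp only [mem_insert, mem_singleton] at q1 q2
      rw [H]
      constructor
      · rintro (⟨x, y⟩ | ⟨x, y⟩)
        · have := q1.1 (Or.inl x)
          have := q2.1 (Or.inr y)
          have := q3.not.1 (by rw [x, y]; exact hab)
          exact ⟨rfl, by omega⟩
        · have := q1.1 (Or.inr x)
          have := q2.1 (Or.inl y)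
          have := q3.not.1 (by rw [x, y]; exact hab.symm)
          exact ⟨rfl, by omega⟩
      · rintro ⟨-, h⟩
        have q4 := q3.not.2 (by omega)
        rcases q1.2 (by omega) with x | x <;> rcases q2.2 (by omega) with y | y
        · exact absurd (x.trans y.symm) q4
        · exact Or.inl ⟨x, y⟩
        · exact Or.inr ⟨x, y⟩
        · exact absurd (x.trans y.symm) q4
  simp only [mem_filter, mem_univ, true_and] at m1 m2 m3 s1 s2 s3 n1
  have hRF : ∀ w v, R w → σ v = false → ¬ G.Adj w v := by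
    intro w v hw hv h
    have h1 : (sg G σ false).Adj w v := ⟨h, (hR w hw).1, hv⟩
    cases e with
    | false => exact he0 rfl _ _ h1
    | true =>
      obtain ⟨a, b, -, -, -, a2, b2, H⟩ := he1 rfl
      rcases (H w v).1 h1 with x | x
      · exact a2 (x.1 ▸ hw)
      · exact b2 (x.1 ▸ hw)
  have hRK : ∀ i j, G.Adj (g3 j) (g1 i) ↔ i.val < r := fun i j =>
    Iff.trans ⟨fun h => ⟨m1 i, _, m3 j, h⟩, fun ⟨_, w, a, b⟩ => hR1 w _ a (m3 j) ▸ b⟩ (n1 i)
  have d12 : ∀ i j, g1 i ≠ g2 j := fun i j h => by simpa [← h, m1 i] using (m2 j).1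
  have d13 : ∀ i j, g1 i ≠ g3 j := fun i j h => by simpa [← h, m1 i] using (hR _ (m3 j)).1
  have d23 : ∀ i j, g2 i ≠ g3 j := fun i j h => (m2 i).2 (h ▸ m3 j)
  have hb : Function.Bijective (Sum.elim g1 (Sum.elim g2 g3)) := by
    refine ⟨i1.sumElim (i2.sumElim i3 d23) ?_, fun v => ?_⟩
    · rintro i (j | j)
      · exact d12 i j
      · exact d13 i j
    · by_cases h1 : σ v = true
      · exact (s1 v h1).elim fun i h => ⟨Sum.inl i, h⟩
      · by_cases h2 : R v
        · exact (s3 v h2).elim fun i h => ⟨Sum.inr (Sum.inr i), h⟩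
        · exact (s2 v ⟨by simpa using h1, h2⟩).elim fun i h => ⟨Sum.inr (Sum.inl i), h⟩
  refine ⟨RelIso.symm ⟨Equiv.ofBijective _ hb, ?_⟩⟩
  rintro (i | i | i) (j | j | j)
  · exact ⟨fun h e => h.ne (congrArg g1 e), fun h => hKK _ _ (m1 i) (m1 j) (i1.ne h)⟩
  · exact iff_of_true (hKF _ _ (m1 i) (m2 j).1 (m2 j).2) trivial
  · exact (G.adj_comm _ _).trans (hRK i j)
  · exact iff_of_true (hKF _ _ (m1 j) (m2 i).1 (m2 i).2).symm trivial
  · exact Iff.trans ⟨fun h => ⟨h, (m2 i).1, (m2 j).1⟩, fun h => h.1⟩ (n2 i j)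
  · exact iff_of_false (fun h => hRF _ _ (m3 j) (m2 i).1 h.symm) id
  · exact hRK j i
  · exact iff_of_false (hRF _ _ (m3 i) (m2 j).1) id
  · exact iff_of_false (hRF _ _ (m3 i) (hR _ (m3 j)).1) id

end

section

theorem pairs_Exc {V : Type} [Fintype V] (r : V → V → Prop) [∀ u v, Decidable (r u v)]
    (T : Finset (V × V)) (hT : ∀ p ∈ T, r p.1 p.2) : (T.card : ℝ) ≤ ∑ u, ∑ v, if r u v then (1 : ℝ) else 0 := by
  rw [← Fintype.sum_prod_type' fun u v => if r u v then (1 : ℝ) else 0, sum_boole]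
  exact Nat.cast_le.2 (card_le_card fun p hp => mem_filter.2 ⟨mem_univ _, hT p hp⟩)

theorem card_Exc {V : Type} [Fintype V] (S : V → Prop) (T : Finset V) (hT : ∀ v ∈ T, S v) :
    (T.card : ℝ) ≤ ct S := by
  rw [ct_eq]
  exact Nat.cast_le.2 (card_le_card fun p hp => mem_filter.2 ⟨mem_univ _, hT p hp⟩)

theorem uniq_Exc {k q r n d : ℕ} (h : k * q + r = k * n + d) (hr : r < k) (hd : d < k) :
    r = d ∧ q = n := by
  have h1 := congrArg (· % k) h
  simp only [Nat.mul_add_mod, Nat.mod_eq_of_lt hr, Nat.mod_eq_of_lt hd] at h1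
  subst h1
  exact ⟨rfl, Nat.eq_of_mul_eq_mul_left (by omega) (Nat.add_right_cancel h)⟩

theorem excS (hC : CntS) (hI : Iso2S) : ExcS := by
  intro V _ k m q r e G σ hS hN hr hm hj hP ht he
  obtain ⟨c1, -, c3, -, -⟩ := hC V k m G σ hS
  have k0 : (0 : ℝ) < k := by linarith [hS.kR]
  have hcl : ∀ u v, σ u = true → σ v = true → u ≠ v → G.Adj u v := fun u v a b c => by
    by_contra d
    have := pairs_Exc (fun u v => σ u = true ∧ σ v = true ∧ u ≠ v ∧ ¬ G.Adj u v) {(u, v)}
      fun p hp => by rw [mem_singleton.1 hp]; exact ⟨a, b, c, d⟩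
    have e1 : M2 G σ (fun _ => 1) = ∑ u, ∑ v,
        if σ u = true ∧ σ v = true ∧ u ≠ v ∧ ¬ G.Adj u v then (1 : ℝ) else 0 := by
      simp only [M2, mul_one]
    rw [hj, e1] at c3
    rw [card_singleton] at this
    have e2 : ((1 : ℕ) : ℝ) ≤ 2 * 0 := this.trans_eq c3.symm
    norm_num at e2
  have hT : ∀ T : Finset (V × V), (∀ p ∈ T, (sg G σ false).Adj p.1 p.2) →
      (T.card : ℝ) ≤ 2 * (if e = true then 1 else 0) := fun T h => by
    rw [← ht, tF, two_ed]
    exact pairs_Exc _ T h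
  have e0 : e = false → ∀ u v, ¬ (sg G σ false).Adj u v := fun h u v a => by
    have := hT {(u, v)} fun p hp => by rw [mem_singleton.1 hp]; exact a
    rw [h, card_singleton] at this
    norm_num at this
  have e1 : e = true → ∃ a b, a ≠ b ∧ Fu k G σ a ∧ Fu k G σ b ∧
      ∀ u v, (sg G σ false).Adj u v ↔ (u = a ∧ v = b) ∨ (u = b ∧ v = a) := fun h => by
    obtain ⟨a, b, hab, ha, hb⟩ := he h
    have h1 : (sg G σ false).Adj a b := ⟨hab, ha.1, hb.1⟩
    refine ⟨a, b, hab.ne, ha, hb, fun u v => ⟨fun huv => ?_, ?_⟩⟩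
    · by_contra d
      rw [not_or] at d
      have := hT {(u, v), (a, b), (b, a)} fun p hp => by
        simp only [mem_insert, mem_singleton] at hp
        rcases hp with rfl | rfl | rfl
        exacts [huv, h1, h1.symm]
      rw [card_insert_of_notMem (by simpa only [mem_insert, mem_singleton, Prod.mk.injEq, not_or]
        using d), card_pair (fun x => hab.ne (Prod.mk.inj x).1), if_pos h] at this
      norm_num at this
    · rintro (⟨rfl, rfl⟩ | ⟨rfl, rfl⟩)
      exacts [h1, h1.symm]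
  have hF : ∀ v, σ v = false → ¬ Pt k G σ v → dK G σ v = k := fun v a b => by
    have h0 : 0 < dK G σ v := by
      obtain ⟨u, hu⟩ := hN v
      cases hσ : σ u
      · have h1 : (sg G σ false).Adj v u := ⟨hu, a, hσ⟩
        cases e
        · exact absurd h1 (e0 rfl v u)
        · obtain ⟨x, y, -, hx, hy, h2⟩ := e1 rfl
          rcases (h2 v u).1 h1 with ⟨rfl, -⟩ | ⟨rfl, -⟩
          · rw [hx.2]; exact k0
          · rw [hy.2]; exact k0
      · have := card_Exc (fun u => G.Adj v u ∧ σ u = true) {u} fun x hx => by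
          rw [mem_singleton.1 hx]; exact ⟨hu, hσ⟩
        rw [card_singleton, Nat.cast_one] at this
        exact one_pos.trans_le this
    exact le_antisymm (hS.dK_le v) (not_lt.1 fun h => b ⟨a, h0, h⟩)
  obtain ⟨n, hn⟩ : ∃ n : ℕ, ct (fun v => σ v = false ∧ ¬ Pt k G σ v) = n := ⟨_, ct_eq _⟩
  have hs : ∀ (f : V → ℝ) (c : ℝ), (∀ v, dK G σ v = k → f v = c) →
      sF σ f = c * n + ∑ v, if Pt k G σ v then f v else 0 := fun f c h => by
    rw [← hn, ct, mul_sum, ← sum_add_distrib]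
    refine sum_congr rfl fun v _ => ?_
    by_cases a : Pt k G σ v
    · rw [if_pos a.1, if_neg fun x => x.2 a, if_pos a, mul_zero, zero_add]
    · by_cases b : σ v = false
      · rw [if_pos b, if_pos ⟨b, a⟩, if_neg a, h v (hF v b a), mul_one, add_zero]
      · rw [if_neg b, if_neg fun x => b x.1, if_neg a, mul_zero, add_zero]
  have ha : ∀ v, dK G σ v = k → aV k G σ v = 0 := fun v h => by
    rw [aV, h, sub_self, min_eq_right k0.le]
  have s1 := hs (dK G σ) k fun _ h => h
  have s2 : AA k G σ = _ := hs (aV k G σ) 0 ha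
  have s3 : ZZ k G σ = _ := hs (fun v => aV k G σ v ^ 2) 0 fun v h => by rw [ha v h]; norm_num
  rw [zero_mul, zero_add] at s2 s3
  have s4 : (k : ℝ) * q + r = k * n + ∑ v, if Pt k G σ v then dK G σ v else 0 := by linarith
  have key : (∀ w, Pt k G σ w → dK G σ w = r) ∧ ct (Pt k G σ) = (min r 1 : ℕ) ∧ q = n ∧
      AA k G σ = min (r : ℝ) (k - r) ∧ ZZ k G σ = min (r : ℝ) (k - r) ^ 2 := by
    by_cases hw : ∃ w, Pt k G σ w
    · obtain ⟨w, hw⟩ := hw
      have u1 : ∀ v, Pt k G σ v → v = w := fun v hv => by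
        by_contra d
        have := card_Exc (Pt k G σ) {v, w} fun x hx => by
          simp only [mem_insert, mem_singleton] at hx
          rcases hx with rfl | rfl
          exacts [hv, hw]
        rw [card_pair d] at this
        have := this.trans hP
        norm_num at this
      have u2 : ∀ f : V → ℝ, (∑ v, if Pt k G σ v then f v else 0) = f w := fun f => by
        rw [sum_eq_single w (fun v _ h => if_neg fun x => h (u1 v x)) (by simp), if_pos hw]
      obtain ⟨d, hd⟩ := dK_nat G σ w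
      have d1 : 0 < d := by exact_mod_cast hd ▸ hw.2.1
      have d2 : d < k := by exact_mod_cast hd ▸ hw.2.2
      rw [u2, hd] at s4
      obtain ⟨rfl, rfl⟩ := uniq_Exc (by exact_mod_cast s4) hr d2
      rw [u2, aV, hd] at s2 s3
      refine ⟨fun v hv => by rw [u1 v hv, hd], ?_, rfl, s2, s3⟩
      rw [min_eq_right d1, Nat.cast_one]
      exact u2 fun _ => 1
    · have u2 : ∀ f : V → ℝ, (∑ v, if Pt k G σ v then f v else 0) = 0 := fun f =>
        sum_eq_zero fun v _ => if_neg fun x => hw ⟨v, x⟩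
      rw [u2] at s2 s3 s4
      obtain ⟨rfl, rfl⟩ := uniq_Exc (d := 0) (by exact_mod_cast s4) hr (by omega)
      refine ⟨fun v hv => absurd ⟨v, hv⟩ hw, ?_, rfl, by simp [s2], by simp [s3]⟩
      rw [Nat.zero_min, Nat.cast_zero]
      exact u2 fun _ => 1
  obtain ⟨k1, k2, rfl, k4, k5⟩ := key
  refine ⟨hI V k q r e G σ (Pt k G σ) hr hS.hK hcl (fun w hw => ⟨hw.1, k1 w hw⟩) k2 hn
    (fun u v a b c => (hS.full (hF v b c) a).symm) e0 fun h => ?_, ?_, k4.trans_le (min_le_left _ _)⟩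
  · obtain ⟨a, b, hab, ha, hb, h2⟩ := e1 h
    exact ⟨a, b, hab, ha.1, hb.1, fun x => x.2.2.ne ha.2, fun x => x.2.2.ne hb.2, h2⟩
  · rw [k4, k5]
    rcases min_choice (r : ℝ) (k - r) with h | h <;> rw [h]
    field_simp
    ring

end

section

/-- Indicator of a proposition. -/
noncomputable def ind_Sp (p : Prop) : ℝ := if p then 1 else 0

theorem indT_Sp : ind_Sp True = 1 := if_pos trivial
theorem indF_Sp : ind_Sp False = 0 := if_neg id
theorem indP_Sp {p : Prop} (h : p) : ind_Sp p = 1 := if_pos h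
theorem indN_Sp {p : Prop} (h : ¬ p) : ind_Sp p = 0 := if_neg h

theorem two_ed_Sp {V : Type} [Fintype V] (G : SimpleGraph V) :
    2 * ed G = ∑ u, ∑ v, ind_Sp (G.Adj u v) := two_ed G

theorem ct_Sp {V : Type} [Fintype V] (S : V → Prop) : ct S = ∑ v, ind_Sp (S v) := rfl

theorem ne_Sp (k : ℕ) : ∑ i : Fin k, ∑ j : Fin k, ind_Sp (i ≠ j) = k * ((k : ℝ) - 1) := by
  have h : ∀ i : Fin k, ∑ j : Fin k, ind_Sp (i ≠ j) = (k : ℝ) - 1 := by
    intro i
    have e : ∀ j : Fin k, ind_Sp (i ≠ j) = 1 - if i = j then 1 else 0 := by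
      intro j
      by_cases a : i = j
      · rw [indN_Sp (not_not.2 a), if_pos a]; ring
      · rw [indP_Sp a, if_neg a]; ring
    simp only [e, sum_sub_distrib, sum_ite_eq, mem_univ, if_true, sum_const, card_univ,
      Fintype.card_fin, nsmul_eq_mul, mul_one]
  simp only [h, sum_const, card_univ, Fintype.card_fin, nsmul_eq_mul]

theorem lt_Sp (k r : ℕ) (h : r ≤ k) : ∑ i : Fin k, ind_Sp (i.val < r) = r := by
  rw [Fin.sum_univ_eq_sum_range (fun i => ind_Sp (i < r)) k, ← sum_range_add_sum_Ico _ h]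
  have e1 : ∑ i ∈ range r, ind_Sp (i < r) = r := by
    rw [sum_congr rfl fun i hi => indP_Sp (mem_range.1 hi)]
    simp
  have e2 : ∑ i ∈ Ico r k, ind_Sp (i < r) = 0 :=
    sum_eq_zero fun i hi => indN_Sp (not_lt.2 (mem_Ico.1 hi).1)
  rw [e1, e2, add_zero]

theorem min_Sp (r : ℕ) : (r : ℝ) * ((min r 1 : ℕ) : ℝ) = r := by
  rcases Nat.eq_zero_or_pos r with h | h
  · subst h; simp
  · rw [min_eq_right (show 1 ≤ r from h)]; simp

theorem one_Sp (q : ℕ) (hq : 2 ≤ q) (e : Bool) :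
    ∑ a : Fin q, ∑ b : Fin q, ind_Sp (e = true ∧ a.val + b.val = 1) =
      2 * (if e = true then 1 else 0) := by
  cases e
  · simp [indF_Sp]
  · obtain ⟨n, rfl⟩ : ∃ n, q = n + 2 := ⟨q - 2, by omega⟩
    have z : ∀ a b : ℕ, ind_Sp (a + b = 1) = if a + b = 1 then 1 else 0 := by
      intro a b
      by_cases h : a + b = 1
      · rw [indP_Sp h, if_pos h]
      · rw [indN_Sp h, if_neg h]
    simp only [true_and, z]
    rw [Fin.sum_univ_succ, Fin.sum_univ_succ (n := n) (fun a : Fin (n + 1) => ∑ b : Fin (n + 2),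
      if (Fin.succ a).val + b.val = 1 then (1 : ℝ) else 0)]
    have e0 : ∑ b : Fin (n + 2), (if ((0 : Fin (n + 2)).val + b.val = 1) then (1 : ℝ) else 0) = 1 := by
      rw [Fin.sum_univ_succ, Fin.sum_univ_succ, sum_eq_zero]
      · simp
      · intro b _
        rw [if_neg]
        simp only [Fin.val_succ, Fin.val_zero]
        omega
    have e1 : ∑ b : Fin (n + 2),
        (if ((Fin.succ (0 : Fin (n + 1))).val + b.val = 1) then (1 : ℝ) else 0) = 1 := by
      rw [Fin.sum_univ_succ, sum_eq_zero]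
      · simp
      · intro b _
        rw [if_neg]
        simp only [Fin.val_succ, Fin.val_zero]
        omega
    have e2 : ∑ a : Fin n, ∑ b : Fin (n + 2),
        (if ((Fin.succ (Fin.succ a)).val + b.val = 1) then (1 : ℝ) else 0) = 0 := by
      refine sum_eq_zero fun a _ => sum_eq_zero fun b _ => ?_
      rw [if_neg]
      simp only [Fin.val_succ]
      omega
    rw [e0, e1, e2]
    norm_num

section
variable (k q r : ℕ) (e : Bool)

theorem a11_Sp (i j : Fin k) : (sp k q r e).Adj (Sum.inl i) (Sum.inl j) ↔ i ≠ j := Iff.rfl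
theorem a12_Sp (i : Fin k) (a : Fin q) :
    (sp k q r e).Adj (Sum.inl i) (Sum.inr (Sum.inl a)) ↔ True := Iff.rfl
theorem a21_Sp (i : Fin k) (a : Fin q) :
    (sp k q r e).Adj (Sum.inr (Sum.inl a)) (Sum.inl i) ↔ True := Iff.rfl
theorem a13_Sp (i : Fin k) (c : Fin (min r 1)) :
    (sp k q r e).Adj (Sum.inl i) (Sum.inr (Sum.inr c)) ↔ i.val < r := Iff.rfl
theorem a31_Sp (i : Fin k) (c : Fin (min r 1)) :
    (sp k q r e).Adj (Sum.inr (Sum.inr c)) (Sum.inl i) ↔ i.val < r := Iff.rfl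
theorem a22_Sp (a b : Fin q) :
    (sp k q r e).Adj (Sum.inr (Sum.inl a)) (Sum.inr (Sum.inl b)) ↔
      e = true ∧ a.val + b.val = 1 := Iff.rfl
theorem a23_Sp (a : Fin q) (c : Fin (min r 1)) :
    (sp k q r e).Adj (Sum.inr (Sum.inl a)) (Sum.inr (Sum.inr c)) ↔ False := Iff.rfl
theorem a32_Sp (a : Fin q) (c : Fin (min r 1)) :
    (sp k q r e).Adj (Sum.inr (Sum.inr c)) (Sum.inr (Sum.inl a)) ↔ False := Iff.rfl
theorem a33_Sp (c d : Fin (min r 1)) :
    (sp k q r e).Adj (Sum.inr (Sum.inr c)) (Sum.inr (Sum.inr d)) ↔ False := Iff.rfl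

end

theorem ed_Sp (k q r : ℕ) (e : Bool) (hr : r < k) (hq : 2 ≤ q) :
    ed (sp k q r e) = k * ((k : ℝ) - 1) / 2 + k * q + r + (if e = true then 1 else 0) := by
  have h := two_ed_Sp (sp k q r e)
  simp only [Fintype.sum_sum_type, sum_add_distrib, a11_Sp, a12_Sp, a21_Sp, a13_Sp, a31_Sp,
    a22_Sp, a23_Sp, a32_Sp, a33_Sp, indT_Sp, indF_Sp, sum_const, card_univ, Fintype.card_fin,
    nsmul_eq_mul, mul_one, mul_zero, add_zero, lt_Sp k r hr.le, ← mul_sum] at h
  rw [ne_Sp, one_Sp q hq] at h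
  have m := min_Sp r
  nlinarith

theorem sgT_Sp (k q r : ℕ) (e : Bool) :
    ed (sg (sp k q r e) Sum.isLeft true) = k * ((k : ℝ) - 1) / 2 := by
  have h := two_ed_Sp (sg (sp k q r e) Sum.isLeft true)
  have a : ∀ u v, (sg (sp k q r e) Sum.isLeft true).Adj u v ↔
      (sp k q r e).Adj u v ∧ u.isLeft = true ∧ v.isLeft = true := fun _ _ => Iff.rfl
  simp only [a, Fintype.sum_sum_type, a11_Sp, Sum.isLeft_inl, Sum.isLeft_inr,
    and_true, Bool.false_eq_true, and_false, indF_Sp, sum_const, smul_zero,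
    add_zero] at h
  rw [ne_Sp] at h
  linarith

theorem sgF_Sp (k q r : ℕ) (e : Bool) (hq : 2 ≤ q) :
    ed (sg (sp k q r e) Sum.isLeft false) = (if e = true then 1 else 0) := by
  have h := two_ed_Sp (sg (sp k q r e) Sum.isLeft false)
  have a : ∀ u v, (sg (sp k q r e) Sum.isLeft false).Adj u v ↔
      (sp k q r e).Adj u v ∧ u.isLeft = false ∧ v.isLeft = false := fun _ _ => Iff.rfl
  simp only [a, Fintype.sum_sum_type, sum_add_distrib, a22_Sp, a23_Sp, a32_Sp, a33_Sp,
    Sum.isLeft_inl, Sum.isLeft_inr, and_true, Bool.true_eq_false, and_false, indF_Sp,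
    sum_const, smul_zero, add_zero, zero_add] at h
  rw [one_Sp q hq] at h
  linarith

theorem dK_Sp (k q r : ℕ) (e : Bool) (a : Fin q) :
    dK (sp k q r e) Sum.isLeft (Sum.inr (Sum.inl a)) = k := by
  unfold dK
  rw [ct_Sp]
  simp only [Fintype.sum_sum_type, a21_Sp, Sum.isLeft_inl, Sum.isLeft_inr, and_true,
    Bool.false_eq_true, and_false, indT_Sp, indF_Sp, sum_const, smul_zero, add_zero, card_univ,
    Fintype.card_fin, nsmul_eq_mul, mul_one]

theorem spS : SpS := by
  intro k q r e hk hr hq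
  refine ⟨?_, ed_Sp k q r e hr hq, ?_, sgF_Sp k q r e hq, ?_, ?_⟩
  · rintro (i | a | c)
    · exact ⟨Sum.inr (Sum.inl ⟨0, by omega⟩), trivial⟩
    · exact ⟨Sum.inl ⟨0, by omega⟩, trivial⟩
    · refine ⟨Sum.inl ⟨0, by omega⟩, ?_⟩
      have := c.2
      show 0 < r
      omega
  · rw [ct_Sp]
    simp only [Fintype.sum_sum_type, Sum.isLeft_inl, Sum.isLeft_inr, Bool.false_eq_true, indT_Sp,
      indF_Sp, sum_const, smul_zero, add_zero, card_univ, Fintype.card_fin, nsmul_eq_mul, mul_one]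
  · unfold jK
    rw [sgT_Sp]
    ring
  · have h : ct (Pt k (sp k q r e) Sum.isLeft) ≤
        ct (fun v : Fin k ⊕ Fin q ⊕ Fin (min r 1) => ∃ c, v = Sum.inr (Sum.inr c)) := by
      refine ct_mono ?_
      rintro (i | a | c) hv
      · exact absurd hv.1 (by simp)
      · have := hv.2.2
        rw [dK_Sp] at this
        exact absurd this (lt_irrefl _)
      · exact ⟨c, rfl⟩
    refine h.trans ?_
    rw [ct_Sp]
    simp only [Fintype.sum_sum_type, reduceCtorEq, exists_false, Sum.inr.injEq, exists_eq',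
      indT_Sp, indF_Sp, sum_const, smul_zero, zero_add, card_univ, Fintype.card_fin, nsmul_eq_mul,
      mul_one]
    exact_mod_cast min_le_right r 1

end

section

theorem edge_SpFree {k q r : ℕ} {e : Bool} {u v u' v' : Fin k ⊕ Fin q ⊕ Fin (min r 1)}
    (h : (sp k q r e).Adj u v) (h' : (sp k q r e).Adj u' v') (hu : u ∉ Set.range Sum.inl)
    (hv : v ∉ Set.range Sum.inl) (hu' : u' ∉ Set.range Sum.inl) (hv' : v' ∉ Set.range Sum.inl) :
    (u = u' ∧ v = v') ∨ (u = v' ∧ v = u') := by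
  rcases u with u | u | u <;> rcases v with v | v | v <;> rcases u' with u' | u' | u' <;>
    rcases v' with v' | v' | v' <;> first | (exfalso; simp_all [sp]; done) | skip
  have h1 := h.2
  have h2 := h'.2
  simp only [Sum.inr.injEq, Sum.inl.injEq, Fin.ext_iff]
  omega

theorem spFreeS : SpFreeS := by
  rintro k q r e hk n hn ⟨f⟩
  obtain ⟨m, rfl⟩ : ∃ m, n = m + 3 := ⟨n - 3, by omega⟩
  have hi : ∀ {i j : Fin (m + 3)}, f (some i) = f (some j) → i = j := fun h =>
    Option.some_injective _ (f.injective h)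
  have hh : ∀ i, (sp k q r e).Adj (f none) (f (some i)) := fun i => f.toHom.map_adj trivial
  have hc : ∀ i, (sp k q r e).Adj (f (some i)) (f (some (i + 1))) := fun i =>
    f.toHom.map_adj (show (SimpleGraph.cycleGraph (m + 1 + 2)).Adj i (i + 1) from
      SimpleGraph.cycleGraph_adj.2 (.inr (add_sub_cancel_left _ _)))
  set A := univ.filter fun i : Fin (m + 3) => f (some i) ∈ Set.range Sum.inl with hA
  have hA1 : A.card ≤ (((univ : Finset (Fin k)).map .inl).erase (f none)).card :=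
    card_le_card_of_injOn (fun i => f (some i)) (fun i h => by
      obtain ⟨a, ha⟩ := (mem_filter.1 (mem_coe.1 h)).2
      exact mem_coe.2 (mem_erase.2 ⟨(hh i).ne', mem_map.2 ⟨a, mem_univ _, ha⟩⟩))
      fun i _ j _ h => hi h
  by_cases h0 : f none ∈ Set.range Sum.inl
  · obtain ⟨a, ha⟩ := h0
    rw [card_erase_of_mem (mem_map.2 ⟨a, mem_univ _, ha⟩), card_map, card_fin] at hA1
    have h1 : (A ∪ A.image fun i => i - 1).card ≤ A.card + A.card :=
      (card_union_le _ _).trans (Nat.add_le_add_left card_image_le _)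
    have h2 := card_compl (A ∪ A.image fun i => i - 1)
    rw [Fintype.card_fin] at h2
    obtain ⟨i, hi1, j, hj1, hij⟩ := one_lt_card.1 (by omega : 1 < (A ∪ A.image fun i => i - 1)ᶜ.card)
    have e1 : ∀ i ∈ (A ∪ A.image fun i => i - 1)ᶜ, f (some i) ∉ Set.range Sum.inl ∧
        f (some (i + 1)) ∉ Set.range Sum.inl := fun i h => by
      rw [mem_compl, mem_union, not_or] at h
      exact ⟨fun g => h.1 (mem_filter.2 ⟨mem_univ _, g⟩), fun g => h.2 (mem_image.2
        ⟨i + 1, mem_filter.2 ⟨mem_univ _, g⟩, add_sub_cancel_right _ _⟩)⟩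
    rcases edge_SpFree (hc i) (hc j) (e1 i hi1).1 (e1 i hi1).2 (e1 j hj1).1 (e1 j hj1).2 with
      h | h
    · exact hij (hi h.1)
    · have h3 := hi h.1
      rw [← hi h.2, add_assoc, left_eq_add] at h3
      have := congrArg Fin.val h3
      simp [Fin.val_add, Nat.mod_eq_of_lt] at this
  · have h1 : Aᶜ.card ≤ 1 := card_le_one.2 fun i h j h' => by
      rw [mem_compl, hA, mem_filter] at h h'
      rcases edge_SpFree (hh i) (hh j) h0 (fun g => h ⟨mem_univ _, g⟩) h0
        (fun g => h' ⟨mem_univ _, g⟩) with g | g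
      · exact hi g.2
      · exact absurd g.1 (hh j).ne
    have h2 := hA1.trans card_erase_le
    rw [card_compl, Fintype.card_fin] at h1
    rw [card_map, card_fin] at h2
    omega

end

section

/-- the test vector -/
noncomputable def y_SpLow (k q r : ℕ) (e : Bool) (L β δ ρ : ℝ) :
    Fin k ⊕ Fin q ⊕ Fin (min r 1) → ℝ :=
  Sum.elim (fun _ => L) (Sum.elim (fun a => β + if e = true ∧ a.val ≤ 1 then δ else 0) fun _ => ρ)

theorem s3_SpLow {k r : ℕ} (h : r ≤ k) (c : ℝ) :
    ∑ i : Fin k, (if i.val < r then c else 0) = r * c := by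
  rw [Fin.sum_univ_eq_sum_range (fun i => if i < r then c else 0) k, ← sum_filter]
  have : (range k).filter (fun i => i < r) = range r := by
    ext i; simp only [mem_filter, mem_range]; omega
  rw [this, sum_const, card_range, nsmul_eq_mul]

theorem s2_SpLow {q : ℕ} (h : 2 ≤ q) (e : Bool) (δ : ℝ) :
    ∑ a : Fin q, (if e = true ∧ a.val ≤ 1 then δ else 0) = if e = true then 2 * δ else 0 := by
  cases e
  · simp
  · simpa [Nat.lt_succ_iff] using s3_SpLow h δ

theorem n1_SpLow {k q r : ℕ} (hq : 2 ≤ q) (e : Bool) (L β δ ρ : ℝ) (i : Fin k) :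
    ns (sp k q r e) (y_SpLow k q r e L β δ ρ) (Sum.inl i) =
      (k - 1) * L + (q * β + if e = true then 2 * δ else 0) + if i.val < r then ρ else 0 := by
  unfold ns
  rw [Fintype.sum_sum_type, Fintype.sum_sum_type, add_assoc]
  congr 1
  · have : ∀ j : Fin k, (if (sp k q r e).Adj (Sum.inl i) (Sum.inl j) then
        y_SpLow k q r e L β δ ρ (Sum.inl j) else 0) = L - if j = i then L else 0 := fun j => by
      have a : (sp k q r e).Adj (Sum.inl i) (Sum.inl j) ↔ i ≠ j := Iff.rfl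
      by_cases c : j = i
      · rw [if_neg (fun h => a.1 h c.symm), if_pos c, sub_self]
      · rw [if_pos (a.2 (Ne.symm c)), if_neg c, sub_zero]; rfl
    simp only [this, sum_sub_distrib, sum_const, card_univ, Fintype.card_fin, nsmul_eq_mul,
      sum_ite_eq', mem_univ, if_true]
    ring
  congr 1
  · have : ∀ a : Fin q, (if (sp k q r e).Adj (Sum.inl i) (Sum.inr (Sum.inl a)) then
        y_SpLow k q r e L β δ ρ (Sum.inr (Sum.inl a)) else 0) =
        β + if e = true ∧ a.val ≤ 1 then δ else 0 := fun a => if_pos trivial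
    simp only [this]
    rw [sum_add_distrib, s2_SpLow hq]
    simp
  · by_cases c : i.val < r
    · have : ∀ b : Fin (min r 1), (if (sp k q r e).Adj (Sum.inl i) (Sum.inr (Sum.inr b)) then
          y_SpLow k q r e L β δ ρ (Sum.inr (Sum.inr b)) else 0) = ρ := fun b => if_pos c
      simp only [this, if_pos c, sum_const, card_univ, Fintype.card_fin, nsmul_eq_mul]
      rw [min_eq_right (by omega)]; simp
    · rw [if_neg c]
      exact sum_eq_zero fun b _ => if_neg c

theorem n2_SpLow {k q r : ℕ} (hq : 2 ≤ q) (e : Bool) (L β δ ρ : ℝ) (a : Fin q) :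
    ns (sp k q r e) (y_SpLow k q r e L β δ ρ) (Sum.inr (Sum.inl a)) =
      k * L + if e = true ∧ a.val ≤ 1 then β + δ else 0 := by
  unfold ns
  rw [Fintype.sum_sum_type, Fintype.sum_sum_type]
  congr 1
  · have : ∀ j : Fin k, (if (sp k q r e).Adj (Sum.inr (Sum.inl a)) (Sum.inl j) then
        y_SpLow k q r e L β δ ρ (Sum.inl j) else 0) = L := fun j => if_pos trivial
    simp only [this, sum_const, card_univ, Fintype.card_fin, nsmul_eq_mul]
  have ad : ∀ b : Fin q, (sp k q r e).Adj (Sum.inr (Sum.inl a)) (Sum.inr (Sum.inl b)) ↔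
      e = true ∧ a.val + b.val = 1 := fun b => Iff.rfl
  rw [sum_eq_zero (s := (univ : Finset (Fin (min r 1)))) fun b _ => by exact if_neg id, add_zero]
  by_cases c : e = true ∧ a.val ≤ 1
  · rw [if_pos c, sum_eq_single (⟨1 - a.val, by omega⟩ : Fin q)]
    · rw [if_pos ((ad _).2 ⟨c.1, by have := c.2; simp only; omega⟩)]
      exact congrArg (β + ·) (if_pos ⟨c.1, by simp only; omega⟩)
    · intro b _ hb
      exact if_neg fun h => hb (Fin.ext (by have := ((ad b).1 h).2; simp only; omega))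
    · simp
  · rw [if_neg c]
    exact sum_eq_zero fun b _ => if_neg fun h => c ⟨((ad b).1 h).1, by
      have := ((ad b).1 h).2; omega⟩

theorem n3_SpLow {k q r : ℕ} (hr : r ≤ k) (e : Bool) (L β δ ρ : ℝ) (b : Fin (min r 1)) :
    ns (sp k q r e) (y_SpLow k q r e L β δ ρ) (Sum.inr (Sum.inr b)) = r * L := by
  unfold ns
  rw [Fintype.sum_sum_type, Fintype.sum_sum_type,
    sum_eq_zero (s := (univ : Finset (Fin (min r 1)))) fun b _ => by exact if_neg id,
    sum_eq_zero (s := (univ : Finset (Fin q))) fun b _ => by exact if_neg id, add_zero, add_zero,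
    ← s3_SpLow hr]
  exact sum_congr rfl fun i _ => if_congr Iff.rfl rfl rfl

theorem spLowS : SpLowS := by
  intro k q r e hk hr hq
  have ray := (perS _ (sp k q r e)).2.1
  generalize lam (sp k q r e) = L at ray ⊢
  have hk' : (3 : ℝ) ≤ k := by exact_mod_cast hk
  have dif : ∀ y, ∑ u, y u * (ns (sp k q r e) y u - L * y u) ≤ 0 := fun y => by
    have h := ray y
    unfold qf nn at h
    rw [mul_sum, ← sub_nonpos, ← sum_sub_distrib] at h
    exact (sum_congr rfl fun u _ => by ring).trans_le h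
  have h1 : (k : ℝ) - 1 ≤ L := by
    have h := dif (y_SpLow k q r e 1 0 0 0)
    rw [Fintype.sum_sum_type, Fintype.sum_sum_type] at h
    simp only [n1_SpLow hq] at h
    simp [y_SpLow] at h
    nlinarith
  refine ⟨h1, ?_⟩
  have hL : 0 < L - 1 := by linarith
  have h := dif (y_SpLow k q r e L k (k / (L - 1)) r)
  rw [Fintype.sum_sum_type, Fintype.sum_sum_type,
    sum_eq_zero (s := (univ : Finset (Fin (min r 1)))) fun b _ => by
      rw [n3_SpLow hr.le]; simp only [y_SpLow, Sum.elim_inr]; ring,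
    sum_eq_zero (s := (univ : Finset (Fin q))) fun a _ => by
      rw [n2_SpLow hq]
      simp only [y_SpLow, Sum.elim_inr, Sum.elim_inl]
      refine mul_eq_zero_of_right _ ?_
      split_ifs
      · field_simp; ring
      · ring, add_zero, add_zero] at h
  simp only [n1_SpLow hq] at h
  simp only [y_SpLow, Sum.elim_inl] at h
  rw [← mul_sum, sum_sub_distrib, sum_add_distrib, s3_SpLow hr.le] at h
  simp only [sum_const, card_univ, Fintype.card_fin, nsmul_eq_mul] at h
  have h2 := nonpos_of_mul_nonpos_right h (by linarith)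
  have e1 : (if e = true then 2 * (k : ℝ) / (L - 1) else 0) =
      if e = true then 2 * ((k : ℝ) / (L - 1)) else 0 := by rw [mul_div_assoc]
  rw [e1]
  generalize (if e = true then 2 * ((k : ℝ) / (L - 1)) else 0) = E at h2 ⊢
  have h3 : (r : ℝ) ^ 2 / k ≤ L ^ 2 - (k - 1) * L - k * q - E := by
    rw [div_le_iff₀ (by linarith)]
    linarith
  linarith

end

end WR
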