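import Pool.Agent.MP_1392dc_co.TSt

/-! Edge counts of a graph with the coarse structure. -/

namespace WR

open W5 WQ Finset
open scoped Classical

theorem cr_Cnt {V : Type} [Fintype V] (G : SimpleGraph V) (σ : V → Bool) :
    cr G σ (fun _ => 1) = sF σ (dK G σ) := by
  unfold cr sF dK ct
  rw [sum_comm]
  refine sum_congr rfl fun v _ => ?_
  by_cases a : σ v = false
  · rw [if_pos a]
    refine sum_congr rfl fun u _ => ?_
    simp only [a, and_true, mul_one, G.adj_comm u v]
    split_ifs <;> rfl
  · rw [if_neg a]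
    exact sum_eq_zero fun u _ => if_neg fun h => a h.2.2

theorem sq_Cnt {V : Type} [Fintype V] (G : SimpleGraph V) (σ : V → Bool) :
    ct (fun v => σ v = true) * ct (fun v => σ v = true) =
      ct (fun v => σ v = true) + 2 * ed (sg G σ true) + M2 G σ (fun _ => 1) := by
  rw [two_ed]
  unfold ct M2
  rw [sum_mul_sum, ← sum_add_distrib, ← sum_add_distrib]
  refine sum_congr rfl fun u _ => ?_
  have e : ∀ c : ℝ, c = ∑ v, if u = v then c else 0 := fun c => by simp
  rw [add_assoc, ← sum_add_distrib]
  refine Eq.trans ?_ (congrArg (· + _) (e _)).symm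
  rw [← sum_add_distrib]
  refine sum_congr rfl fun v _ => ?_
  by_cases a : u = v
  · subst a
    by_cases b : σ u = true <;> simp [b]
  · by_cases b : σ u = true <;> by_cases c : σ v = true <;> by_cases d : G.Adj u v <;>
      simp [sg, a, b, c, d]

theorem cntS (hP : PartS) : CntS := by
  intro V _ k m G σ h
  have h1 := (hP V G σ fun _ => 1).2.1
  rw [cr_Cnt, h.hm] at h1
  have h2 := sq_Cnt G σ
  rw [h.hK] at h2
  have h3 : 2 * jK k G σ = M2 G σ (fun _ => 1) := by unfold jK; linarith
  have h4 : 0 ≤ M2 G σ (fun _ => 1) :=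
    sum_nonneg fun u _ => sum_nonneg fun v _ => by split_ifs <;> norm_num
  have h5 : (m : ℝ) = k * ((k : ℝ) - 1) / 2 - jK k G σ + sF σ (dK G σ) + tF G σ := by
    unfold jK tF; linarith
  have k3 := h.kR
  have h6 : sF σ (dK G σ) ≤ k * (ct (Fu k G σ) + ct (Pt k G σ)) := by
    unfold sF ct
    rw [← sum_add_distrib, mul_sum]
    refine sum_le_sum fun v _ => ?_
    have d0 := dK_nonneg G σ v
    have d1 := h.dK_le v
    by_cases a : Fu k G σ v
    · rw [if_pos a]
      split_ifs <;> nlinarith
    · rw [if_neg a]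
      by_cases b : Pt k G σ v
      · rw [if_pos b]
        split_ifs <;> nlinarith
      · rw [if_neg b, add_zero, mul_zero]
        split_ifs with c
        · by_contra hd
          exact b ⟨c, not_le.1 hd, lt_of_le_of_ne d1 fun e => a ⟨c, e⟩⟩
        · exact le_rfl
  refine ⟨h5, ?_, h3, ?_, _, (edS V _).1⟩
  · have h7 := mul_le_mul_of_nonneg_left h.hP (show (0 : ℝ) ≤ k by linarith)
    have h8 := h.ht
    have h9 := h.big
    nlinarith
  · have h7 : jK k G σ = (k.choose 2 : ℕ) - ((sg G σ true).edgeSet.ncard : ℝ) := by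
      rw [Nat.cast_choose_two, ← (edS V _).1]; rfl
    have h8 : (sg G σ true).edgeSet.ncard ≤ k.choose 2 := by
      have : ((sg G σ true).edgeSet.ncard : ℝ) ≤ (k.choose 2 : ℕ) := by linarith
      exact_mod_cast this
    exact ⟨_, by rw [h7, Nat.cast_sub h8]⟩

end WR
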