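import Pool.Agent.MP_1392dc_co.TSt

namespace WR

open W5 WQ Finset
open scoped Classical

theorem abs_Cnt2 {V : Type} [Fintype V] (b : V → ℝ) (p : V → Prop) (h1 : ∀ v, p v → 1 ≤ b v)
    (h0 : ∀ v, ¬ p v → b v = 0) :
    (ct p - 1) * ∑ v, b v ≤ (∑ v, b v) ^ 2 - ∑ v, b v ^ 2 ∧ (ct p = 0 → ∑ v, b v = 0) ∧
      ct p ≤ ∑ v, b v ∧ (ct p = 1 → ∀ v, 0 < b v → ∑ u, b u = b v) := by
  have a1 : ∀ v, (if p v then (1 : ℝ) else 0) ≤ b v := fun v => by
    split_ifs with h
    · exact h1 v h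
    · exact (h0 v h).ge
  have a0 : ∀ v, (0 : ℝ) ≤ if p v then (1 : ℝ) else 0 := fun v => by split_ifs <;> norm_num
  have a2 : ∀ v, 0 ≤ b v := fun v => (a0 v).trans (a1 v)
  refine ⟨?_, fun h => ?_, sum_le_sum fun v _ => a1 v, fun h v hv => ?_⟩
  · rw [sq, sum_mul, mul_sum, ← sum_sub_distrib]
    refine sum_le_sum fun v _ => ?_
    have e := single_le_sum (f := fun u => b u - if p u then (1 : ℝ) else 0)
      (fun u _ => sub_nonneg.2 (a1 u)) (mem_univ v)
    rw [sum_sub_distrib] at e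
    have e2 : (if p v then (1 : ℝ) else 0) ≤ 1 := by split_ifs <;> norm_num
    have e3 : ct p - 1 ≤ ∑ u, b u - b v := by unfold ct; linarith
    nlinarith [mul_le_mul_of_nonneg_left e3 (a2 v)]
  · refine sum_eq_zero fun v _ => h0 v fun hp => ?_
    have := (sum_eq_zero_iff_of_nonneg fun u _ => a0 u).1 h v (mem_univ v)
    rw [if_pos hp] at this
    exact one_ne_zero this
  · have hp : p v := by
      by_contra hn
      rw [h0 v hn] at hv
      exact lt_irrefl _ hv
    refine sum_eq_single v (fun u _ hu => h0 u fun hq => ?_) fun hn => absurd (mem_univ v) hn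
    have e := sum_le_sum_of_subset_of_nonneg (f := fun u => if p u then (1 : ℝ) else 0)
      (subset_univ {u, v}) fun w _ _ => a0 w
    rw [sum_pair hu, if_pos hp, if_pos hq] at e
    unfold ct at h
    linarith

theorem cnt2S : Cnt2S := by
  intro V _ k m G σ hS
  choose d hd using dK_nat G σ
  have k3 := hS.kR
  have hk : ∀ v, (d v : ℝ) ≤ k := fun v => hd v ▸ hS.dK_le v
  have hk' : ∀ v, d v ≤ k := fun v => by exact_mod_cast hk v
  have d0 : ∀ v, (0 : ℝ) ≤ d v := fun v => Nat.cast_nonneg _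
  obtain ⟨b, hb⟩ : ∃ b : V → ℝ, ∀ v, b v = if σ v = false then aV k G σ v else 0 :=
    ⟨_, fun _ => rfl⟩
  obtain ⟨α, hα⟩ : ∃ α : V → ℕ, ∀ v, α v = if σ v = false ∧ 2 * (d v : ℝ) ≤ k then d v else 0 :=
    ⟨_, fun _ => rfl⟩
  obtain ⟨β, hβ⟩ : ∃ β : V → ℕ, ∀ v,
    β v = if σ v = false ∧ ¬ 2 * (d v : ℝ) ≤ k then k - d v else 0 := ⟨_, fun _ => rfl⟩
  obtain ⟨ν, hν⟩ : ∃ ν : V → ℕ, ∀ v, ν v = if σ v = false ∧ ¬ 2 * (d v : ℝ) ≤ k then 1 else 0 :=
    ⟨_, fun _ => rfl⟩
  have pt : ∀ v, (if σ v = false then dK G σ v else 0) = k * ν v + α v - β v ∧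
      b v = α v + β v ∧
      (if σ v = false then dK G σ v ^ 2 / k else 0) =
        (if σ v = false then dK G σ v else 0) - b v + b v ^ 2 / k ∧
      2 * b v ^ 2 ≤ k * b v ∧ b v ^ 2 = (α v : ℝ) ^ 2 + (β v : ℝ) ^ 2 := fun v => by
    rw [hb, hα, hβ, hν, aV, hd]
    have := d0 v
    have := hk v
    by_cases h : σ v = false
    · by_cases h2 : 2 * (d v : ℝ) ≤ k
      · simp only [h, h2, if_true, if_false, and_self, not_true, and_false, Nat.cast_zero]
        rw [min_eq_left (by linarith)]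
        refine ⟨by ring, by ring, by ring, by nlinarith, by ring⟩
      · simp only [h, h2, if_true, if_false, and_self, not_false_eq_true, and_false, Nat.cast_zero,
          Nat.cast_sub (hk' v), Nat.cast_one]
        rw [min_eq_right (by linarith)]
        refine ⟨by ring, by ring, by field_simp; ring, by nlinarith, by ring⟩
    · simp [h]
  have eA : AA k G σ = ∑ v, b v := sum_congr rfl fun v _ => (hb v).symm
  have eZ : ZZ k G σ = ∑ v, b v ^ 2 := sum_congr rfl fun v _ => by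
    rw [hb]
    split_ifs <;> simp
  obtain ⟨P, hP⟩ : ∃ P : ℕ, ct (Pt k G σ) = P := ⟨_, ct_eq _⟩
  obtain ⟨c1, c2, c3, c4⟩ := abs_Cnt2 b (Pt k G σ) (fun v hv => by
      obtain ⟨a1, a2, a3⟩ := hv
      rw [hb, if_pos a1, aV]
      rw [hd] at a2 a3 ⊢
      have e1 : 1 ≤ d v := by exact_mod_cast a2
      have e2 : d v + 1 ≤ k := by exact_mod_cast a3
      have e3 : (d v : ℝ) + 1 ≤ k := by exact_mod_cast e2
      exact le_min (by exact_mod_cast e1) (by linarith))
    (fun v hv => by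
      rw [hb]
      split_ifs with a1
      · refine le_antisymm ?_ (hS.aV_nonneg v)
        by_contra hn
        obtain ⟨a2, a3⟩ := lt_min_iff.1 (not_le.1 hn)
        exact hv ⟨a1, a2, by linarith⟩
      · rfl)
  rw [hP] at c1 c2 c3 c4
  refine ⟨∑ v, α v, ∑ v, β v, ∑ v, ν v, P, ?_, ?_, hP, ?_, ?_, ?_, ?_, ?_, fun h => ?_, ?_,
    fun h v hv hv' => ?_⟩
  · push_cast
    rw [mul_sum, ← sum_add_distrib, ← sum_sub_distrib]
    exact sum_congr rfl fun v _ => (pt v).1
  · push_cast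
    rw [eA, ← sum_add_distrib]
    exact sum_congr rfl fun v _ => (pt v).2.1
  · rw [eA, eZ, sum_div, sF, sF, ← sum_sub_distrib, ← sum_add_distrib]
    exact sum_congr rfl fun v _ => (pt v).2.2.1
  · rw [eZ]
    positivity
  · rw [eA, eZ, mul_sum, mul_sum]
    exact sum_le_sum fun v _ => (pt v).2.2.2.1
  · push_cast
    rw [eZ, sum_congr rfl fun v _ => (pt v).2.2.2.2, sum_add_distrib]
    exact add_le_add (sum_sq_le_sq_sum_of_nonneg fun v _ => Nat.cast_nonneg _)
      (sum_sq_le_sq_sum_of_nonneg fun v _ => Nat.cast_nonneg _)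
  · rw [eA, eZ]
    exact c1
  · rw [eA]
    exact c2 (by rw [h, Nat.cast_zero])
  · rw [eA]
    exact c3
  · have e : b v = aV k G σ v := by rw [hb, if_pos hv]
    rw [eA, ← e]
    exact c4 (by rw [h, Nat.cast_one]) v (e ▸ hv')

end WR
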