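import Pool.Agent.MP_1392dc_co.TSt

/-! The normalised Perron vector and the basic identity. -/

namespace WR

open W5 WQ Finset
open scoped Classical

theorem st_Eig {L W Q e : ℝ} (hL : 0 ≤ L) (hW : 0 < W) (h1 : L * W = Q)
    (h2 : Q ^ 2 + Q * W ≤ 2 * e * W ^ 2) : L ^ 2 ≤ 2 * e := by
  subst h1
  have hW2 : 0 < W ^ 2 := by positivity
  refine le_of_mul_le_mul_right ?_ hW2
  nlinarith [mul_nonneg hL hW2.le]

theorem eigS (hP : PartS) (hS : StanS) : EigS := by
  intro V _ k m G σ h hψ
  obtain ⟨hL0, -, hx⟩ := perS V G
  have hk := h.kR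
  have hb := h.big
  have hL2 : (10 ^ 30 * (k : ℝ)) ^ 2 ≤ lam G ^ 2 := by
    nlinarith [mul_nonneg (show (0 : ℝ) ≤ k - 1 by linarith) hL0]
  have hL1 : 10 ^ 30 * (k : ℝ) ≤ lam G := abs_le_of_sq_le_sq' hL2 hL0 |>.2
  obtain ⟨x, hx⟩ := hx (by linarith)
  have hn : 0 < nn x := by rw [hx.nrm]; linarith
  have hup : lam G ^ 2 ≤ 2 * m := by
    have e1 : sg G (fun _ => true) true = G := by
      ext u v
      simp [sg]
    have e2 : sw x (fun _ => true) true = nn x := by simp [sw, wt, nn]
    have e3 : cr G (fun _ => true) x = 0 := by simp [cr]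
    have a := (hP V G (fun _ => true) x).1 (lam G) hx.eig true
    have b := hS V G (fun _ => true) x true
    rw [e1, e2] at a b
    rw [e3, add_zero] at a
    rw [← h.hm]
    exact st_Eig hL0 hn a b
  have hW : 0 < sw x σ true := by
    refine lt_of_le_of_ne (wt_nonneg _ _) fun e => ?_
    have hz : ∀ u, σ u = true → x u = 0 := fun u hu => by
      have := (sum_eq_zero_iff_of_nonneg (s := univ)
        (f := fun v => if σ v = true then x v ^ 2 else 0)
        fun v _ => by split_ifs <;> positivity).1 (by
          have := e.symm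
          unfold sw wt at this
          convert this) u (mem_univ u)
      simpa [hu] using this
    have e3 : cr G σ x = 0 := by
      unfold cr
      refine sum_eq_zero fun u _ => sum_eq_zero fun v _ => ?_
      split_ifs with a
      · rw [hz u a.2.1, zero_mul]
      · rfl
    have a := (hP V G σ x).1 (lam G) hx.eig false
    have b := hS V G σ x false
    rw [e3, add_zero] at a
    have c := sw_add x σ
    have d := st_Eig hL0 (by linarith) a b
    have t := h.ht
    unfold tF at t
    nlinarith
  have hs : 0 < Real.sqrt (sw x σ true) := Real.sqrt_pos.2 hW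
  refine ⟨fun v => (Real.sqrt (sw x σ true))⁻¹ * x v, h, fun v => ?_, fun v => ?_, ?_, hL1, hup, hψ⟩
  · exact mul_nonneg (inv_nonneg.2 hs.le) (hx.pos v)
  · rw [ns_smul_Per, hx.eig]; ring
  · have e : sw (fun v => (Real.sqrt (sw x σ true))⁻¹ * x v) σ true =
        (Real.sqrt (sw x σ true))⁻¹ ^ 2 * sw x σ true := by
      generalize (Real.sqrt (sw x σ true))⁻¹ = c
      unfold sw wt
      rw [mul_sum]
      refine sum_congr rfl fun v _ => ?_
      split_ifs <;> ring
    rw [e, inv_pow, Real.sq_sqrt hW.le, inv_mul_cancel₀ hW.ne']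

theorem idS : IdS := by
  intro V _ G σ L y he hn
  have e1 : L = ∑ u, if σ u = true then y u * ns G y u else 0 := by
    have : L = L * sw y σ true := by rw [hn, mul_one]
    rw [this]
    unfold sw wt
    rw [mul_sum]
    refine sum_congr rfl fun u _ => ?_
    rw [he]
    split_ifs <;> ring
  have e2 : (∑ u, if σ u = true then y u * ns G y u else 0) =
      (∑ u, ∑ v, if σ u = true ∧ σ v = true ∧ G.Adj u v then y u * y v else 0) +
      ∑ u, ∑ v, if σ u = true ∧ σ v = false ∧ G.Adj u v then y u * y v else 0 := by
    rw [← sum_add_distrib]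
    refine sum_congr rfl fun u _ => ?_
    rw [← sum_add_distrib]
    unfold ns
    by_cases a : σ u = true
    · rw [if_pos a, mul_sum]
      refine sum_congr rfl fun v _ => ?_
      by_cases b : G.Adj u v <;> cases σ v <;> simp [a, b]
    · simp [a]
  have e3 : SK σ y ^ 2 =
      (∑ u, ∑ v, if σ u = true ∧ σ v = true ∧ G.Adj u v then y u * y v else 0) + M2 G σ y +
        sw y σ true := by
    have : sw y σ true = ∑ u, ∑ v, if u = v then (if σ u = true then y u * y v else 0) else 0 := by
      unfold sw wt
      refine sum_congr rfl fun u _ => ?_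
      rw [sum_ite_eq, if_pos (mem_univ u)]
      by_cases a : σ u = true <;> simp [a, sq]
    rw [this]
    unfold SK M2
    rw [sq, sum_mul_sum, ← sum_add_distrib, ← sum_add_distrib]
    refine sum_congr rfl fun u _ => ?_
    rw [← sum_add_distrib, ← sum_add_distrib]
    refine sum_congr rfl fun v _ => ?_
    by_cases c : u = v
    · subst c
      by_cases a : σ u = true <;> simp [a]
    · by_cases a : σ u = true <;> by_cases b : σ v = true <;> by_cases d : G.Adj u v <;>
        simp [a, b, c, d]
  have e4 : (∑ u, ∑ v, if σ u = true ∧ σ v = false ∧ G.Adj u v then y u * y v else 0) =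
      sF σ fun v => y v * sN G σ y true v := by
    rw [sum_comm]
    unfold sF sN
    refine sum_congr rfl fun v _ => ?_
    by_cases a : σ v = false
    · rw [if_pos a]
      beta_reduce
      rw [mul_sum]
      refine sum_congr rfl fun u _ => ?_
      by_cases b : G.Adj v u
      · by_cases c : σ u = true <;> simp [a, b, b.symm, c, mul_comm]
      · have b' : ¬ G.Adj u v := fun h => b h.symm
        simp [b, b']
    · simp [a]
  have e5 : L * (sF σ fun v => y v * sN G σ y true v) =
      sF σ (fun v => sN G σ y true v ^ 2) + Gam G σ y := by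
    unfold Gam sF
    rw [mul_sum, ← sum_add_distrib]
    refine sum_congr rfl fun v _ => ?_
    have a := he v
    rw [ns_split G σ] at a
    split_ifs
    · linear_combination (-sN G σ y true v) * a
    · ring
  rw [e2, e4] at e1
  rw [hn] at e3
  linear_combination L * e1 - L * e3 + e5

end WR
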