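import Pool.Agent.MP_1392dc_co.TSt

/-! The structure of the exceptional graphs. -/

namespace WR

open W5 WQ Finset
open scoped Classical

theorem pairs_Exc {V : Type} [Fintype V] (r : V → V → Prop) [∀ u v, Decidable (r u v)]
    (T : Finset (V × V)) (hT : ∀ p ∈ T, r p.1 p.2) : (T.card : ℝ) ≤ ∑ u, ∑ v, if r u v then (1 : ℝ) else 0 := by
  rw [← Fintype.sum_prod_type' fun u v => if r u v then (1 : ℝ) else 0, sum_boole]
  exact Nat.cast_le.2 (card_le_card fun p hp => mem_filter.2 ⟨mem_univ _, hT p hp⟩)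

theorem card_Exc {V : Type} [Fintype V] (S : V → Prop) (T : Finset V) (hT : ∀ v ∈ T, S v) :
    (T.card : ℝ) ≤ ct S := by
  rw [ct_eq]
  exact Nat.cast_le.2 (card_le_card fun p hp => mem_filter.2 ⟨mem_univ _, hT p hp⟩)

theorem uniq_Exc {k q r n d : ℕ} (h : k * q + r = k * n + d) (hr : r < k) (hd : d < k) :
    r = d ∧ q = n := by
  have h1 := congrArg (· % k) h
  simp only [Nat.mul_add_mod, Nat.mod_eq_of_lt hr, Nat.mod_eq_of_lt hd] at h1
  subst h1
  exact ⟨rfl, Nat.eq_of_mul_eq_mul_left (by omega) (Nat.add_right_cancel h)⟩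

theorem excS (hC : CntS) (hI : Iso2S) : ExcS := by
  intro V _ k m q r e G σ hS hN hr hm hj hP ht he
  obtain ⟨c1, -, c3, -, -⟩ := hC V k m G σ hS
  have k0 : (0 : ℝ) < k := by linarith [hS.kR]
  have hcl : ∀ u v, σ u = true → σ v = true → u ≠ v → G.Adj u v := fun u v a b c => by
    by_contra d
    have := pairs_Exc (fun u v => σ u = true ∧ σ v = true ∧ u ≠ v ∧ ¬ G.Adj u v) {(u, v)}
      fun p hp => by rw [mem_singleton.1 hp]; exact ⟨a, b, c, d⟩
    have e1 : M2 G σ (fun _ => 1) = ∑ u, ∑ v,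
        if σ u = true ∧ σ v = true ∧ u ≠ v ∧ ¬ G.Adj u v then (1 : ℝ) else 0 := by
      simp only [M2, mul_one]
    rw [hj, e1] at c3
    rw [card_singleton] at this
    have e2 : ((1 : ℕ) : ℝ) ≤ 2 * 0 := this.trans_eq c3.symm
    norm_num at e2
  have hT : ∀ T : Finset (V × V), (∀ p ∈ T, (sg G σ false).Adj p.1 p.2) →
      (T.card : ℝ) ≤ 2 * (if e = true then 1 else 0) := fun T h => by
    rw [← ht, tF, two_ed]
    exact pairs_Exc _ T h
  have e0 : e = false → ∀ u v, ¬ (sg G σ false).Adj u v := fun h u v a => by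
    have := hT {(u, v)} fun p hp => by rw [mem_singleton.1 hp]; exact a
    rw [h, card_singleton] at this
    norm_num at this
  have e1 : e = true → ∃ a b, a ≠ b ∧ Fu k G σ a ∧ Fu k G σ b ∧
      ∀ u v, (sg G σ false).Adj u v ↔ (u = a ∧ v = b) ∨ (u = b ∧ v = a) := fun h => by
    obtain ⟨a, b, hab, ha, hb⟩ := he h
    have h1 : (sg G σ false).Adj a b := ⟨hab, ha.1, hb.1⟩
    refine ⟨a, b, hab.ne, ha, hb, fun u v => ⟨fun huv => ?_, ?_⟩⟩
    · by_contra d
      rw [not_or] at d
      have := hT {(u, v), (a, b), (b, a)} fun p hp => by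
        simp only [mem_insert, mem_singleton] at hp
        rcases hp with rfl | rfl | rfl
        exacts [huv, h1, h1.symm]
      rw [card_insert_of_notMem (by simpa only [mem_insert, mem_singleton, Prod.mk.injEq, not_or]
        using d), card_pair (fun x => hab.ne (Prod.mk.inj x).1), if_pos h] at this
      norm_num at this
    · rintro (⟨rfl, rfl⟩ | ⟨rfl, rfl⟩)
      exacts [h1, h1.symm]
  have hF : ∀ v, σ v = false → ¬ Pt k G σ v → dK G σ v = k := fun v a b => by
    have h0 : 0 < dK G σ v := by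
      obtain ⟨u, hu⟩ := hN v
      cases hσ : σ u
      · have h1 : (sg G σ false).Adj v u := ⟨hu, a, hσ⟩
        cases e
        · exact absurd h1 (e0 rfl v u)
        · obtain ⟨x, y, -, hx, hy, h2⟩ := e1 rfl
          rcases (h2 v u).1 h1 with ⟨rfl, -⟩ | ⟨rfl, -⟩
          · rw [hx.2]; exact k0
          · rw [hy.2]; exact k0
      · have := card_Exc (fun u => G.Adj v u ∧ σ u = true) {u} fun x hx => by
          rw [mem_singleton.1 hx]; exact ⟨hu, hσ⟩
        rw [card_singleton, Nat.cast_one] at this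
        exact one_pos.trans_le this
    exact le_antisymm (hS.dK_le v) (not_lt.1 fun h => b ⟨a, h0, h⟩)
  obtain ⟨n, hn⟩ : ∃ n : ℕ, ct (fun v => σ v = false ∧ ¬ Pt k G σ v) = n := ⟨_, ct_eq _⟩
  have hs : ∀ (f : V → ℝ) (c : ℝ), (∀ v, dK G σ v = k → f v = c) →
      sF σ f = c * n + ∑ v, if Pt k G σ v then f v else 0 := fun f c h => by
    rw [← hn, ct, mul_sum, ← sum_add_distrib]
    refine sum_congr rfl fun v _ => ?_
    by_cases a : Pt k G σ v
    · rw [if_pos a.1, if_neg fun x => x.2 a, if_pos a, mul_zero, zero_add]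
    · by_cases b : σ v = false
      · rw [if_pos b, if_pos ⟨b, a⟩, if_neg a, h v (hF v b a), mul_one, add_zero]
      · rw [if_neg b, if_neg fun x => b x.1, if_neg a, mul_zero, add_zero]
  have ha : ∀ v, dK G σ v = k → aV k G σ v = 0 := fun v h => by
    rw [aV, h, sub_self, min_eq_right k0.le]
  have s1 := hs (dK G σ) k fun _ h => h
  have s2 : AA k G σ = _ := hs (aV k G σ) 0 ha
  have s3 : ZZ k G σ = _ := hs (fun v => aV k G σ v ^ 2) 0 fun v h => by rw [ha v h]; norm_num
  rw [zero_mul, zero_add] at s2 s3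
  have s4 : (k : ℝ) * q + r = k * n + ∑ v, if Pt k G σ v then dK G σ v else 0 := by linarith
  have key : (∀ w, Pt k G σ w → dK G σ w = r) ∧ ct (Pt k G σ) = (min r 1 : ℕ) ∧ q = n ∧
      AA k G σ = min (r : ℝ) (k - r) ∧ ZZ k G σ = min (r : ℝ) (k - r) ^ 2 := by
    by_cases hw : ∃ w, Pt k G σ w
    · obtain ⟨w, hw⟩ := hw
      have u1 : ∀ v, Pt k G σ v → v = w := fun v hv => by
        by_contra d
        have := card_Exc (Pt k G σ) {v, w} fun x hx => by
          simp only [mem_insert, mem_singleton] at hx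
          rcases hx with rfl | rfl
          exacts [hv, hw]
        rw [card_pair d] at this
        have := this.trans hP
        norm_num at this
      have u2 : ∀ f : V → ℝ, (∑ v, if Pt k G σ v then f v else 0) = f w := fun f => by
        rw [sum_eq_single w (fun v _ h => if_neg fun x => h (u1 v x)) (by simp), if_pos hw]
      obtain ⟨d, hd⟩ := dK_nat G σ w
      have d1 : 0 < d := by exact_mod_cast hd ▸ hw.2.1
      have d2 : d < k := by exact_mod_cast hd ▸ hw.2.2
      rw [u2, hd] at s4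
      obtain ⟨rfl, rfl⟩ := uniq_Exc (by exact_mod_cast s4) hr d2
      rw [u2, aV, hd] at s2 s3
      refine ⟨fun v hv => by rw [u1 v hv, hd], ?_, rfl, s2, s3⟩
      rw [min_eq_right d1, Nat.cast_one]
      exact u2 fun _ => 1
    · have u2 : ∀ f : V → ℝ, (∑ v, if Pt k G σ v then f v else 0) = 0 := fun f =>
        sum_eq_zero fun v _ => if_neg fun x => hw ⟨v, x⟩
      rw [u2] at s2 s3 s4
      obtain ⟨rfl, rfl⟩ := uniq_Exc (d := 0) (by exact_mod_cast s4) hr (by omega)
      refine ⟨fun v hv => absurd ⟨v, hv⟩ hw, ?_, rfl, by simp [s2], by simp [s3]⟩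
      rw [Nat.zero_min, Nat.cast_zero]
      exact u2 fun _ => 1
  obtain ⟨k1, k2, rfl, k4, k5⟩ := key
  refine ⟨hI V k q r e G σ (Pt k G σ) hr hS.hK hcl (fun w hw => ⟨hw.1, k1 w hw⟩) k2 hn
    (fun u v a b c => (hS.full (hF v b c) a).symm) e0 fun h => ?_, ?_, k4.trans_le (min_le_left _ _)⟩
  · obtain ⟨a, b, hab, ha, hb, h2⟩ := e1 h
    exact ⟨a, b, hab, ha.1, hb.1, fun x => x.2.2.ne ha.2, fun x => x.2.2.ne hb.2, h2⟩
  · rw [k4, k5]
    rcases min_choice (r : ℝ) (k - r) with h | h <;> rw [h]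
    field_simp
    ring

end WR
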