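import Pool.Agent.MP_1392dc_co.TSt

namespace WR

open W5 WQ Finset
open scoped Classical

theorem ar1_Gam1 {L S X k t A sv sw yv yw dw : ℝ} (hL : 0 < L) (hS : 0 ≤ S) (h1 : sv ≤ S)
    (h2 : 0 ≤ sw) (h3 : 0 ≤ yw) (h4 : L * yw ≤ sw + t * X) (h5 : yv ≤ X)
    (hX : L * X = 1.0001 * S) (hk : S ^ 2 ≤ k) (h6 : S * sw ≤ 1.01 * dw) (h7 : dw ≤ 9 * A)
    (hA : 0 ≤ A) (ht : 0 ≤ t) : sv * yw + sw * yv ≤ 19 * A / L + 2 * t * k / L ^ 2 := by
  have a1 : L * (sv * yw) ≤ S * sw + t * (S * X) := by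
    have b1 := mul_le_mul_of_nonneg_right h1 (mul_nonneg hL.le h3)
    have b2 := mul_le_mul_of_nonneg_left h4 hS
    linarith
  have a2 : L * (sw * yv) ≤ 1.0001 * (S * sw) := by
    have b1 := mul_le_mul_of_nonneg_left h5 (mul_nonneg hL.le h2)
    have b2 : L * sw * X = 1.0001 * (S * sw) := by
      rw [mul_right_comm, hX]
      ring
    linarith
  have a3 : t * (S * X) ≤ 2 * t * k / L := by
    rw [le_div_iff₀ hL]
    have b1 : t * (S * X) * L = 1.0001 * (t * S ^ 2) := by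
      rw [mul_assoc, mul_assoc, mul_comm X, hX]
      ring
    have b2 := mul_le_mul_of_nonneg_left hk ht
    have b3 := mul_nonneg ht (sq_nonneg S)
    linarith
  have a4 : 19 * A / L + 2 * t * k / L ^ 2 = (19 * A + 2 * t * k / L) / L := by
    field_simp
  rw [a4, le_div_iff₀ hL]
  linarith

theorem ar2_Gam1 {L S X k t δ sv sw yv yw : ℝ} (hL : 10 ≤ L) (h1 : sv ≤ S)
    (h1' : sw ≤ S) (h2 : 0 ≤ sv) (h2' : 0 ≤ sw) (h4 : L * yv ≤ S + (yw + (t - 1) * X))
    (h4' : L * yw ≤ S + (yv + (t - 1) * X)) (hX : L * X = 1.0001 * S) (hX0 : 0 ≤ X)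
    (hk : S ^ 2 ≤ k) (h6 : S * sv + S * sw ≤ 2 * S ^ 2 - 0.99 * δ) (ht : 1 ≤ t) :
    sv * yw + sw * yv ≤ (2 * k - 0.99 * δ) / (L - 1) + 3 * (t - 1) * k / L ^ 2 := by
  have hL0 : 0 < L := by linarith
  have hL1 : 0 < L - 1 := by linarith
  have ht0 : 0 ≤ t - 1 := by linarith
  have hk0 : 0 ≤ k := (sq_nonneg S).trans hk
  obtain ⟨Y, y1, y2, y3⟩ : ∃ Y, yv ≤ Y ∧ yw ≤ Y ∧ (L - 1) * Y ≤ S + (t - 1) * X := by
    rcases le_total yv yw with h | h
    · exact ⟨yw, h, le_rfl, by linarith⟩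
    · exact ⟨yv, le_rfl, h, by linarith⟩
  have a1 : sv * yw + sw * yv ≤ (sv + sw) * Y := by
    have b1 := mul_le_mul_of_nonneg_left y2 h2
    have b2 := mul_le_mul_of_nonneg_left y1 h2'
    linarith
  have a2 := mul_le_mul_of_nonneg_left y3 (add_nonneg h2 h2')
  have a3 : (sv + sw) * ((t - 1) * X) ≤ 3 * (t - 1) * k / L ^ 2 * (L - 1) := by
    have b1 : (sv + sw) * ((t - 1) * X) ≤ 2 * S * ((t - 1) * X) :=
      mul_le_mul_of_nonneg_right (by linarith) (mul_nonneg ht0 hX0)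
    refine b1.trans ?_
    rw [div_mul_eq_mul_div, le_div_iff₀ (by positivity)]
    have b2 : 2 * S * ((t - 1) * X) * L ^ 2 = 2.0002 * ((t - 1) * L * S ^ 2) := by
      have : 2 * S * ((t - 1) * X) * L ^ 2 = 2 * S * (t - 1) * L * (L * X) := by ring
      rw [this, hX]
      ring
    have b3 := mul_le_mul_of_nonneg_left hk (mul_nonneg ht0 hL0.le)
    have b4 := mul_le_mul_of_nonneg_left hL (mul_nonneg ht0 hk0)
    have b5 := mul_nonneg ht0 hk0
    linarith
  refine a1.trans (le_of_mul_le_mul_right ?_ hL1)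
  rw [add_mul _ _ (L - 1), div_mul_cancel₀ _ hL1.ne']
  linarith

section
variable {V : Type} [Fintype V] {G : SimpleGraph V} {σ : V → Bool} {y : V → ℝ}

theorem sa_Gam1 (hu : ∀ u, σ u = true → SK σ y * y u ≤ 1.01) (z : V) :
    SK σ y * sN G σ y true z ≤ 1.01 * dK G σ z := by
  unfold sN dK ct
  rw [mul_sum, mul_sum]
  refine sum_le_sum fun u _ => ?_
  by_cases h : G.Adj z u ∧ σ u = true
  · simpa [h] using hu u h.2
  · simp [h]

theorem sb_Gam1 (hu : ∀ u, σ u = true → 0.99 ≤ SK σ y * y u) (z : V) :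
    SK σ y * sN G σ y true z ≤
      SK σ y ^ 2 - 0.99 * (ct (fun v => σ v = true) - dK G σ z) := by
  have e : SK σ y ^ 2 = ∑ u, SK σ y * (if σ u = true then y u else 0) := by
    rw [← mul_sum, sq]
    rfl
  rw [e]
  unfold sN dK ct
  rw [mul_sum, ← sum_sub_distrib, mul_sum, ← sum_sub_distrib]
  refine sum_le_sum fun u _ => ?_
  by_cases h : σ u = true
  · by_cases h' : G.Adj z u
    · simp [h, h']
    · simpa [h, h'] using hu u h
  · simp [h]

theorem nc_Gam1 {X : ℝ} (hx : ∀ u, σ u = false → y u ≤ X) {v w : V}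
    (h : (sg G σ false).Adj v w) :
    sN G σ y false v ≤ y w + (dg (sg G σ false) v - 1) * X := by
  have e : y w + (dg (sg G σ false) v - 1) * X = ∑ u,
      ((if (sg G σ false).Adj v u then (1 : ℝ) else 0) * X + if u = w then y w - X else 0) := by
    rw [sum_add_distrib, ← sum_mul, sum_ite_eq' univ w, if_pos (mem_univ w)]
    have : (∑ u, if (sg G σ false).Adj v u then (1 : ℝ) else 0) = dg (sg G σ false) v := rfl
    rw [this]
    ring
  rw [e]
  unfold sN
  refine sum_le_sum fun u _ => ?_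
  by_cases a : u = w
  · subst a
    rw [if_pos ⟨h.1, h.2.2⟩, if_pos h, if_pos rfl]
    linarith
  · rw [if_neg a, add_zero]
    by_cases b : G.Adj v u ∧ σ u = false
    · rw [if_pos b, if_pos (show (sg G σ false).Adj v u from ⟨b.1, h.2.1, b.2⟩), one_mul]
      exact hx u b.2
    · rw [if_neg b, if_neg (show ¬ (sg G σ false).Adj v u from fun c => b ⟨c.1, c.2.2⟩), zero_mul]

theorem one_Gam1 {H : SimpleGraph V} {v w : V} (h : H.Adj v w) : 1 ≤ dg H v :=
  le_trans (by simp [h]) (single_le_sum (f := fun u => if H.Adj v u then (1 : ℝ) else 0)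
    (fun u _ => by split_ifs <;> norm_num) (mem_univ w))

end

theorem gam1S (hV : SvS) (hX : XS) (hU : UniS) : Gam1S := by
  intro V _ k m G σ L y hc
  have hk := (hV V k m G σ L y hc).1
  have hx := (hX V k m G σ L y hc).1
  have hu := (hU V k m G σ L y hc).1
  have hk3 := hc.str.kR
  have hL1 := hc.L1
  have hL : 10 ≤ L := by linarith
  have hL0 : 0 < L := by linarith
  have hS : 0 ≤ SK σ y := sum_nonneg fun u _ => by
    split_ifs
    · exact hc.pos u
    · exact le_rfl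
  obtain ⟨X, hX1⟩ : ∃ X, L * X = 1.0001 * SK σ y :=
    ⟨1.0001 * SK σ y / L, mul_div_cancel₀ _ hL0.ne'⟩
  have hX0 : 0 ≤ X := le_of_mul_le_mul_left (by rw [hX1, mul_zero]; positivity) hL0
  have hxX : ∀ u, σ u = false → y u ≤ X := fun u h =>
    le_of_mul_le_mul_left (by rw [hX1]; exact hx u h) hL0
  have hn : ∀ v w, (sg G σ false).Adj v w →
      L * y v ≤ sN G σ y true v + (y w + (tF G σ - 1) * X) := fun v w h => by
    have a1 := nc_Gam1 hxX h
    have a2 := mul_le_mul_of_nonneg_right (dg_le_ed (sg G σ false) v) hX0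
    rw [← hc.eig, ns_split G σ]
    unfold tF
    linarith
  have key : ∀ v w, (sg G σ false).Adj v w → 10 * dK G σ w < 9 * k →
      sN G σ y true v * y w + sN G σ y true w * y v ≤
        19 * AA k G σ / L + 2 * tF G σ * k / L ^ 2 := fun v w h hd => by
    have a1 := hn w v h.symm
    have a2 := hxX v h.2.1
    have a3 : aV k G σ w ≤ AA k G σ := le_trans (by simp [h.2.2])
      (single_le_sum (f := fun u => if σ u = false then aV k G σ u else 0) (fun u _ => by
        split_ifs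
        · exact hc.str.aV_nonneg u
        · exact le_rfl) (mem_univ w))
    have a4 : dK G σ w ≤ 9 * aV k G σ w := by
      have := dK_nonneg G σ w
      unfold aV
      rcases min_cases (dK G σ w) (k - dK G σ w) with b | b <;> rw [b.1] <;> linarith
    exact ar1_Gam1 hL0 hS (sN_le G σ hc.pos v) (sN_nonneg G σ hc.pos _ w) (hc.pos w)
      (by linarith) a2 hX1 hk (sa_Gam1 (fun u h => (hu u h).2) w) (by linarith)
      hc.str.AA_nonneg (ed_nonneg _)
  intro v w h
  refine ⟨fun hr => ?_, ?_⟩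
  · by_cases a : 10 * dK G σ w < 9 * k
    · exact key v w h a
    · rw [add_comm]
      refine key w v h.symm (not_le.1 fun b => hr ⟨h.1, h.2.1, h.2.2, b, not_lt.1 a⟩)
  · have a1 := hn v w h
    have a2 := hn w v h.symm
    have a3 := sN_le G σ hc.pos v
    have a4 := sN_le G σ hc.pos w
    have a5 := sb_Gam1 (G := G) (fun u h => (hu u h).1) v
    have a6 := sb_Gam1 (G := G) (fun u h => (hu u h).1) w
    rw [hc.str.hK] at a5 a6
    exact ar2_Gam1 hL a3 a4 (sN_nonneg G σ hc.pos _ v) (sN_nonneg G σ hc.pos _ w)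
      (by linarith) (by linarith) hX1 hX0 hk (by linarith)
      ((one_Gam1 h).trans (dg_le_ed _ v))

end WR
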