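import Pool.Agent.MP_1392dc_co.TSt

/-! Summing the bounds for the edges on side `false`. -/

namespace WR

open W5 WQ Finset
open scoped Classical

section
variable {V : Type} [Fintype V]

theorem one_Gam2 (G : SimpleGraph V) (σ : V → Bool) (y : V → ℝ) :
    Gam G σ y = ∑ v, ∑ w, if (sg G σ false).Adj v w then sN G σ y true v * y w else 0 := by
  unfold Gam sF
  refine sum_congr rfl fun v _ => ?_
  by_cases hv : σ v = false
  · rw [if_pos hv]
    show sN G σ y true v * (∑ u, if G.Adj v u ∧ σ u = false then y u else 0) = _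
    rw [mul_sum]
    refine sum_congr rfl fun w _ => ?_
    by_cases hw : G.Adj v w ∧ σ w = false
    · rw [if_pos hw, if_pos (show (sg G σ false).Adj v w from ⟨hw.1, hv, hw.2⟩)]
    · rw [if_neg hw, if_neg (fun h : (sg G σ false).Adj v w => hw ⟨h.1, h.2.2⟩), mul_zero]
  · rw [if_neg hv]
    exact (sum_eq_zero fun w _ => if_neg fun h : (sg G σ false).Adj v w => hv h.2.1).symm

theorem two_Gam2 (G : SimpleGraph V) (σ : V → Bool) (y : V → ℝ) :
    2 * Gam G σ y = ∑ v, ∑ w, if (sg G σ false).Adj v w then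
      sN G σ y true v * y w + sN G σ y true w * y v else 0 := by
  have h1 := one_Gam2 G σ y
  have h2 : Gam G σ y =
      ∑ v, ∑ w, if (sg G σ false).Adj v w then sN G σ y true w * y v else 0 := by
    rw [h1, sum_comm]
    refine sum_congr rfl fun v _ => sum_congr rfl fun w _ => ?_
    by_cases h : (sg G σ false).Adj v w
    · rw [if_pos h, if_pos h.symm]
    · rw [if_neg h, if_neg fun h' => h h'.symm]
  rw [two_mul]
  nth_rewrite 1 [h1]
  rw [h2, ← sum_add_distrib]
  refine sum_congr rfl fun v _ => ?_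
  rw [← sum_add_distrib]
  refine sum_congr rfl fun w _ => ?_
  split_ifs <;> simp

theorem all_Gam2 (H : SimpleGraph V) (f : V → V → ℝ) (c : ℝ) (h : ∀ v w, H.Adj v w → f v w ≤ c) :
    (∑ v, ∑ w, if H.Adj v w then f v w else 0) ≤ c * (2 * ed H) := by
  rw [two_ed, mul_sum]
  refine sum_le_sum fun v _ => ?_
  rw [mul_sum]
  refine sum_le_sum fun w _ => ?_
  split_ifs with a
  · simpa using h v w a
  · simp

theorem pt_Gam2 (a b : V) (d : ℝ) : (∑ v, ∑ w, if v = a ∧ w = b then d else 0) = d := by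
  simp [ite_and]

theorem but_Gam2 (H : SimpleGraph V) (f : V → V → ℝ) (c g : ℝ) (a b : V) (hab : H.Adj a b)
    (h1 : f a b ≤ g) (h2 : f b a ≤ g)
    (h : ∀ v w, H.Adj v w → ¬ (v = a ∧ w = b) → ¬ (v = b ∧ w = a) → f v w ≤ c) :
    (∑ v, ∑ w, if H.Adj v w then f v w else 0) ≤ c * (2 * ed H) + 2 * (g - c) := by
  have e : c * (2 * ed H) + 2 * (g - c) = ∑ v, ∑ w, (c * (if H.Adj v w then (1 : ℝ) else 0) +
      (if v = a ∧ w = b then g - c else 0) + if v = b ∧ w = a then g - c else 0) := by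
    simp only [sum_add_distrib, ← mul_sum]
    rw [pt_Gam2, pt_Gam2, two_ed]
    ring
  rw [e]
  refine sum_le_sum fun v _ => sum_le_sum fun w _ => ?_
  by_cases p : v = a ∧ w = b
  · obtain ⟨rfl, rfl⟩ := p
    rw [if_pos hab, if_pos hab, if_pos ⟨rfl, rfl⟩, if_neg fun q => hab.ne q.1]
    linarith
  · by_cases q : v = b ∧ w = a
    · obtain ⟨rfl, rfl⟩ := q
      rw [if_pos hab.symm, if_pos hab.symm, if_neg p, if_pos ⟨rfl, rfl⟩]
      linarith
    · rw [if_neg p, if_neg q]
      split_ifs with r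
      · have := h v w r p q
        linarith
      · simp

end

theorem gam2S (hC : CntS) (hR : RichS) (h1 : Gam1S) : Gam2S := by
  intro V _ k m G σ L y H hF
  have h2 := two_Gam2 G σ y
  have hk : (0 : ℝ) ≤ k := Nat.cast_nonneg k
  have hq : 0 ≤ (k : ℝ) / L ^ 2 := by positivity
  refine ⟨fun hn => ?_, fun a b hab => ?_⟩
  · have h3 := all_Gam2 (sg G σ false) (fun v w => sN G σ y true v * y w + sN G σ y true w * y v)
      _ fun v w h => (h1 V k m G σ L y H v w h).1 (hn v w)
    rw [← h2] at h3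
    have e : ed (sg G σ false) = tF G σ := rfl
    rw [e] at h3
    have h4 := mul_nonneg (sq_nonneg (tF G σ)) hq
    have e1 : (19 * AA k G σ / L + 2 * tF G σ * k / L ^ 2) * (2 * tF G σ) =
        2 * (19 * tF G σ * AA k G σ / L) + 4 * (tF G σ ^ 2 * (k / L ^ 2)) := by ring
    have e2 : 7 * tF G σ ^ 2 * k / L ^ 2 = 7 * (tF G σ ^ 2 * (k / L ^ 2)) := by ring
    rw [e2]
    linarith
  · have had : (sg G σ false).Adj a b := ⟨hab.1, hab.2.1, hab.2.2.1⟩
    have ht : 1 ≤ tF G σ := by
      refine le_trans ?_ (dg_le_ed (sg G σ false) a)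
      exact le_trans (by simp [had])
        (single_le_sum (f := fun w => if (sg G σ false).Adj a w then (1 : ℝ) else 0)
          (fun w _ => by split_ifs <;> norm_num) (mem_univ b))
    refine ⟨ht, ?_⟩
    have g1 := (h1 V k m G σ L y H a b had).2
    have h3 := but_Gam2 (sg G σ false) (fun v w => sN G σ y true v * y w + sN G σ y true w * y v)
      (19 * AA k G σ / L + 2 * tF G σ * k / L ^ 2) _ a b had g1 (by rw [add_comm]; exact g1)
      fun v w h p q => (h1 V k m G σ L y H v w h).1 fun r =>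
        (hR V k m G σ H.str hF a b v w hab r).elim p q
    rw [← h2] at h3
    have e : ed (sg G σ false) = tF G σ := rfl
    rw [e] at h3
    obtain ⟨t, et⟩ := (hC V k m G σ H.str).2.2.2.2
    have h5 : tF G σ - 1 ≤ (tF G σ - 1) ^ 2 := by
      rw [et] at ht ⊢
      have t1 : 1 ≤ t := by exact_mod_cast ht
      obtain ⟨p, rfl⟩ := Nat.exists_eq_add_of_le t1
      have : p ≤ p ^ 2 := Nat.le_self_pow (by norm_num) p
      have : (p : ℝ) ≤ (p : ℝ) ^ 2 := by exact_mod_cast this
      push_cast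
      nlinarith
    have h4 := mul_le_mul_of_nonneg_right h5 hq
    generalize (2 * k - 0.99 * ((k - dK G σ a) + (k - dK G σ b))) / (L - 1) = g at h3 ⊢
    generalize tF G σ = T at h3 h4 ⊢
    have e1 : (19 * AA k G σ / L + 2 * T * k / L ^ 2) * (2 * T) +
        2 * (g + 3 * (T - 1) * k / L ^ 2 - (19 * AA k G σ / L + 2 * T * k / L ^ 2)) =
        2 * g + 2 * (19 * (T - 1) * AA k G σ / L) + 10 * ((T - 1) * (k / L ^ 2)) +
          4 * ((T - 1) ^ 2 * (k / L ^ 2)) := by ring
    have e2 : 7 * (T - 1) ^ 2 * k / L ^ 2 = 7 * ((T - 1) ^ 2 * (k / L ^ 2)) := by ring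
    rw [e2]
    linarith

end WR
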