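import Pool.Agent.MP_1392dc_co.TSt

namespace WR

open W5 WQ Finset
open scoped Classical

theorem ari_Hstr (K l W W' Q M E e s m : ℝ) (hK : 3 ≤ K) (hl : 10 ^ 30 * K ≤ l) (hW : 0 < W)
    (hQ : Q ≤ (K - 1) * W) (h1 : l * W = Q + M) (h2 : l * W' = M)
    (h3 : M ^ 2 ≤ E * (W * W' - s)) (hs : 0 ≤ s) (hE : 0 ≤ E)
    (h4 : Q ^ 2 + Q * W ≤ 2 * e * W ^ 2) (h5 : m = e + E)
    (h6 : m ≤ l ^ 2 - (K - 1) * l + K * (K - 1) / 2 + K / 4) (h7 : W + W' ≤ 2 * l) :
    ∃ t : ℝ, 0 ≤ t ∧ t ≤ 1 / 10 ^ 30 ∧ Q = (K - 1 - t) * W ∧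
      l ^ 2 - (K - 1) * l + K * (K - 1) / 2 ≤ m ∧ K * (K - 1) / 2 - e ≤ t * K ∧
      e ≤ K * (K - 1) / 2 + K / 4 ∧ s ≤ K / 3 := by
  obtain ⟨t, rfl⟩ : ∃ t, Q = (K - 1 - t) * W := ⟨K - 1 - Q / W, by field_simp; ring⟩
  have ht : 0 ≤ t := by
    have := le_of_mul_le_mul_right hQ hW
    linarith
  have hlK : 100 * K ≤ l := by linarith
  have hl0 : 0 < l := by linarith
  have hM : M = (l - (K - 1 - t)) * W := by linarith
  have hM0 : 0 < M := by
    rw [hM]
    exact mul_pos (by linarith) hW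
  have hW' : 0 < W' := by
    rw [← h2] at hM0
    exact (mul_pos_iff_of_pos_left hl0).1 hM0
  have hWW := mul_pos hW hW'
  have hM2 : M ^ 2 = (l - (K - 1 - t)) * l * (W * W') := by
    calc M ^ 2 = M * M := sq M
      _ = ((l - (K - 1 - t)) * W) * (l * W') := by rw [← hM, h2]
      _ = _ := by ring
  have hEs := mul_nonneg hE hs
  have g1 : (l - (K - 1 - t)) * l ≤ E := by
    refine le_of_mul_le_mul_right ?_ hWW
    linarith
  have g2 : (K - 1 - t) ^ 2 + (K - 1 - t) ≤ 2 * e := by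
    refine le_of_mul_le_mul_right ?_ (pow_pos hW 2)
    linarith
  have t2 := sq_nonneg t
  have t3 : t * (10 ^ 30 * K) ≤ t * l := mul_le_mul_of_nonneg_left hl ht
  have t4 : 0 ≤ t * K := mul_nonneg ht (by linarith)
  have g3 : t * l - t * K ≤ K / 4 := by linarith
  have g4 : t ≤ 1 / 10 ^ 30 := by
    refine le_of_mul_le_mul_right ?_ (show 0 < K by linarith)
    linarith
  have g5 : E ≤ (l - (K - 1 - t)) * l + K / 4 := by linarith
  have g6 : W * W' ≤ l ^ 2 := by nlinarith [sq_nonneg (W - W')]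
  have g7 : E * s ≤ K / 4 * l ^ 2 := by
    have a1 := mul_le_mul_of_nonneg_right g5 hWW.le
    have a2 := mul_le_mul_of_nonneg_left g6 (show 0 ≤ K / 4 by linarith)
    linarith
  have g8 : 0.99 * l ^ 2 ≤ E := by
    have a1 := mul_le_mul_of_nonneg_right hlK hl0.le
    have a2 : 0 ≤ t * l := mul_nonneg ht hl0.le
    linarith
  refine ⟨t, ht, g4, rfl, by linarith, by linarith, by linarith, ?_⟩
  refine le_of_mul_le_mul_right ?_ (pow_pos hl0 2)
  have a1 := mul_le_mul_of_nonneg_right g8 hs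
  have a2 : 0 ≤ K * l ^ 2 := by positivity
  linarith

theorem dg_zero_Hstr {V : Type} [Fintype V] (G : SimpleGraph V) (u : V)
    (h : ∀ v, ¬ G.Adj u v) : dg G u = 0 :=
  sum_eq_zero fun v _ => if_neg (h v)

theorem dg_lt_Hstr {V : Type} [Fintype V] (H : SimpleGraph V) (σ : V → Bool) (u : V)
    (hu : σ u = true) : dg (sg H σ true) u ≤ ct (fun v => σ v = true) - 1 := by
  have h2 : (1 : ℝ) = ∑ w, if w = u then (1 : ℝ) else 0 := by
    simp only [sum_ite_eq', mem_univ, if_true]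
  rw [le_sub_iff_add_le, dg_eq_ct]
  unfold ct
  rw [h2, ← sum_add_distrib]
  refine sum_le_sum fun w _ => ?_
  by_cases h3 : w = u
  · subst h3
    simp [hu]
  · by_cases h5 : (sg H σ true).Adj u w
    · simp [h3, h5, h5.2.2]
    · simp only [h3, h5, if_false, add_zero]
      split_ifs <;> norm_num

theorem hstrS (hP : PartS) (hS : StanS) : HstrS := by
  intro V _ k H l x u0 hc hmax h0 hpar hF
  obtain ⟨σ, hσ⟩ : ∃ σ, hs x u0 = σ := ⟨_, rfl⟩
  have hx : ∀ u, σ u = true → x u0 ≤ 10 * x u := fun u hu => by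
    rw [← hσ] at hu
    exact of_decide_eq_true hu
  have hu0 : σ u0 = true := by
    rw [← hσ]
    exact decide_eq_true (by linarith)
  rw [hσ] at hpar hF ⊢
  obtain ⟨p1, p2, p3, p4, p5, p6, p7⟩ := hP V H σ x
  have hk := hc.kR
  have hQF : qf (sg H σ false) x = 0 := by
    rw [qf_eq]
    exact sum_eq_zero fun u _ => sum_eq_zero fun v _ => if_neg (hF u v)
  have heF : ed (sg H σ false) = 0 := by
    unfold ed
    rw [sum_eq_zero fun u _ => dg_zero_Hstr _ u (hF u), zero_div]
  have hx0 := pow_pos h0 2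
  have hW : 0 < sw x σ true := by
    refine sum_pos' (fun v _ => by split_ifs <;> positivity) ⟨u0, mem_univ u0, ?_⟩
    rw [if_pos hu0]
    exact hx0
  obtain ⟨t, a0, a1, a2, a3, a4, a5, a6⟩ := ari_Hstr k l (sw x σ true) (sw x σ false)
    (qf (sg H σ true) x) (cr H σ x) (cr H σ fun _ => 1) (ed (sg H σ true)) (ms H σ x) (ed H) hk
    hc.big2 hW (p7 true _ fun u _ => hpar true u) (p1 l hc.eig true)
    (by rw [p1 l hc.eig false, hQF, zero_add]) p3 p4 p5 (hS V H σ x true)
    (by rw [p2, heF, add_zero]) hc.hm (by rw [sw_add]; exact hc.nn_le)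
  have hd0 : ∀ u, ¬ σ u = true → dg (sg H σ true) u = 0 := fun u hu =>
    dg_zero_Hstr _ u fun v hv => hu hv.2.1
  have htk : t * k ≤ 1 / 10 ^ 30 * k := mul_le_mul_of_nonneg_right a1 (by linarith)
  refine ⟨a3, ?_, by unfold jK; linarith, ?_⟩
  · obtain ⟨a, ha⟩ : ∃ a : ℕ, ct (fun v => σ v = true) = a := ⟨_, ct_eq _⟩
    have b1 : sw x σ true ≤ x u0 ^ 2 * a := by
      rw [← ha]
      exact wt_le_ct x _ _ fun v _ => pow_le_pow_left₀ (hc.pos v) (hmax v) 2
    have b2 : x u0 ^ 2 / 100 * (((k : ℝ) - 1) * a - 2 * ed (sg H σ true)) ≤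
        ((k : ℝ) - 1) * sw x σ true - ∑ u, dg (sg H σ true) u * x u ^ 2 := by
      rw [← ha]
      unfold ed ct sw wt
      rw [mul_div_cancel₀ _ (two_ne_zero (α := ℝ)), mul_sum, mul_sum, ← sum_sub_distrib,
        ← sum_sub_distrib, mul_sum]
      refine sum_le_sum fun u _ => ?_
      by_cases hu : σ u = true
      · have c1 := hpar true u
        have c2 : x u0 ^ 2 / 100 ≤ x u ^ 2 := by
          have := pow_le_pow_left₀ h0.le (hx u hu) 2
          linarith
        have c3 := mul_le_mul_of_nonneg_right c2 (sub_nonneg.2 c1)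
        simp only [hu, if_true]
        linarith
      · simp [hu, hd0 u hu]
    have b3 : ((k : ℝ) - 1) * a - 2 * ed (sg H σ true) ≤ 100 * (t * a) := by
      have c1 := p6 true
      rw [a2] at c1
      have c2 := mul_le_mul_of_nonneg_left b1 a0
      refine le_of_mul_le_mul_left ?_ (show 0 < x u0 ^ 2 / 100 by positivity)
      linarith
    have b4 : (a : ℝ) < k + 1 := by
      by_contra hn
      have c1 := mul_le_mul_of_nonneg_right (not_lt.1 hn)
        (show 0 ≤ (k : ℝ) - 1 - 100 * t by linarith)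
      linarith
    have b5 : (k : ℝ) < a + 1 := by
      have c1 := p7 true _ fun u hu => dg_lt_Hstr H σ u hu
      rw [a2, ha] at c1
      have c2 := le_of_mul_le_mul_right c1 hW
      linarith
    have b6 : a < k + 1 := by exact_mod_cast b4
    have b7 : k < a + 1 := by exact_mod_cast b5
    rw [ha, show a = k by omega]
  · have b1 : 1 / 401 * ct (fun v => σ v = false ∧ NI H v ∧ ∃ u, σ u = true ∧ ¬ H.Adj v u) ≤
        ms H σ x := by
      unfold ct ms
      rw [sum_comm, mul_sum]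
      refine sum_le_sum fun v _ => ?_
      have c0 : ∀ u ∈ (univ : Finset V), 0 ≤ if ¬ H.Adj u v ∧ σ u = true ∧ σ v = false
          then x u ^ 2 * x v ^ 2 else 0 := fun u _ => by split_ifs <;> positivity
      split_ifs with hv
      · obtain ⟨sv, ⟨w, hw⟩, u, su, hu⟩ := hv
        refine le_trans ?_ (single_le_sum c0 (mem_univ u))
        rw [if_pos ⟨fun h => hu h.symm, su, sv⟩]
        have c1 := hc.he v w hw
        have c2 := mul_le_mul_of_nonneg_left ((hmax w).trans (hx u su)) (hc.pos v)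
        have c3 : 0.04999 ≤ x u * x v := by
          unfold eps at c1
          linarith
        have c4 := pow_le_pow_left₀ (by norm_num) c3 2
        rw [mul_pow] at c4
        linarith
      · rw [mul_zero]
        exact sum_nonneg c0
    linarith

end WR
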