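import Pool.Agent.MP_1392dc_co.TSt

namespace WR

open W5 WQ Finset
open scoped Classical

theorem enum_Iso2 {V : Type} {N S : Finset V} (h : N ⊆ S) {k r : ℕ} (hS : S.card = k)
    (hN : N.card = r) : ∃ g : Fin k → V, Function.Injective g ∧ (∀ i, g i ∈ S) ∧
      (∀ v ∈ S, ∃ i, g i = v) ∧ ∀ i, g i ∈ N ↔ i.val < r := by
  obtain ⟨t, rfl⟩ : ∃ t, k = r + t := Nat.exists_eq_add_of_le (hS ▸ hN ▸ card_le_card h)
  have hT : (S \ N).card = t := by
    rw [card_sdiff_of_subset h]
    omega
  let e1 := (N.equivFinOfCardEq hN).symm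
  let e2 := ((S \ N).equivFinOfCardEq hT).symm
  have hs : ∀ v ∈ S, ∃ i, Fin.append (fun i => (e1 i : V)) (fun j => (e2 j : V)) i = v := by
    intro v hv
    by_cases hn : v ∈ N
    · exact ⟨Fin.castAdd t (e1.symm ⟨v, hn⟩), by simp⟩
    · exact ⟨Fin.natAdd r (e2.symm ⟨v, mem_sdiff.2 ⟨hv, hn⟩⟩), by simp⟩
  refine ⟨_, fun i j hij => ?_, fun i => ?_, hs, fun i => ?_⟩
  · induction i using Fin.addCases with
    | left i =>
      induction j using Fin.addCases with
      | left j =>
        rw [Fin.append_left, Fin.append_left] at hij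
        rw [e1.injective (Subtype.ext hij)]
      | right j =>
        rw [Fin.append_left, Fin.append_right] at hij
        exact absurd (hij ▸ (e1 i).2) (mem_sdiff.1 (e2 j).2).2
    | right i =>
      induction j using Fin.addCases with
      | left j =>
        rw [Fin.append_left, Fin.append_right] at hij
        exact absurd (hij ▸ (e1 j).2) (mem_sdiff.1 (e2 i).2).2
      | right j =>
        rw [Fin.append_right, Fin.append_right] at hij
        rw [e2.injective (Subtype.ext hij)]
  · induction i using Fin.addCases with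
    | left i => rw [Fin.append_left]; exact h (e1 i).2
    | right i => rw [Fin.append_right]; exact (mem_sdiff.1 (e2 i).2).1
  · induction i using Fin.addCases with
    | left i => rw [Fin.append_left]; exact iff_of_true (e1 i).2 i.2
    | right i =>
      rw [Fin.append_right]
      exact iff_of_false (mem_sdiff.1 (e2 i).2).2 (by simp)

theorem card_Iso2 {V : Type} [Fintype V] {S : V → Prop} [DecidablePred S] {n : ℕ}
    (h : ct S = n) : (univ.filter S).card = n := by
  rw [ct_eq] at h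
  have h1 := Nat.cast_injective (R := ℝ) h
  convert h1

theorem iso2S : Iso2S := by
  intro V _ k q r e G σ R hr hK hKK hR hRc hF hKF he0 he1
  have c1 := card_Iso2 hK
  have c2 := card_Iso2 hF
  have c3 := card_Iso2 hRc
  have hR1 : ∀ w w', R w → R w' → w = w' := fun w w' h h' =>
    card_le_one.1 (c3.trans_le (min_le_right r 1)) w (by simpa using h) w' (by simpa using h')
  obtain ⟨g3, i3, m3, s3, -⟩ := enum_Iso2 (empty_subset _) c3 card_empty
  obtain ⟨g1, i1, m1, s1, n1⟩ := enum_Iso2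
    (N := univ.filter fun u => σ u = true ∧ ∃ w, R w ∧ G.Adj w u) (r := r)
    (fun u hu => mem_filter.2 ⟨mem_univ _, (mem_filter.1 hu).2.1⟩) c1 (by
      by_cases hw : ∃ w, R w
      · obtain ⟨w, hw⟩ := hw
        rw [← card_Iso2 (hR w hw).2]
        congr 1
        ext u
        simp only [mem_filter, mem_univ, true_and]
        exact ⟨fun ⟨a, w', b, c⟩ => ⟨hR1 w' w b hw ▸ c, a⟩, fun ⟨a, b⟩ => ⟨b, w, hw, a⟩⟩
      · have h0 : min r 1 = 0 := by
          rw [← c3, card_eq_zero, filter_eq_empty_iff]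
          exact fun w _ h => hw ⟨w, h⟩
        rw [show r = 0 by omega, card_eq_zero, filter_eq_empty_iff]
        exact fun u _ ⟨_, w, h, _⟩ => hw ⟨w, h⟩)
  obtain ⟨g2, i2, m2, s2, n2⟩ : ∃ g : Fin q → V, Function.Injective g ∧
      (∀ i, g i ∈ univ.filter fun v => σ v = false ∧ ¬ R v) ∧
      (∀ v ∈ univ.filter fun v => σ v = false ∧ ¬ R v, ∃ i, g i = v) ∧
      ∀ i j, (sg G σ false).Adj (g i) (g j) ↔ e = true ∧ i.val + j.val = 1 := by
    cases e with
    | false =>
      obtain ⟨g, a, b, c, -⟩ := enum_Iso2 (empty_subset _) c2 card_empty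
      exact ⟨g, a, b, c, fun i j => iff_of_false (he0 rfl _ _) (by simp)⟩
    | true =>
      obtain ⟨a, b, hab, a1, b1, a2, b2, H⟩ := he1 rfl
      obtain ⟨g, p1, p2, p3, p4⟩ := enum_Iso2 (N := {a, b})
        (insert_subset (by simp [a1, a2]) (by simp [b1, b2])) c2 (card_pair hab)
      refine ⟨g, p1, p2, p3, fun i j => ?_⟩
      have q1 := p4 i
      have q2 := p4 j
      have q3 : g i = g j ↔ i.val = j.val := p1.eq_iff.trans Fin.ext_iff
      simp only [mem_insert, mem_singleton] at q1 q2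
      rw [H]
      constructor
      · rintro (⟨x, y⟩ | ⟨x, y⟩)
        · have := q1.1 (Or.inl x)
          have := q2.1 (Or.inr y)
          have := q3.not.1 (by rw [x, y]; exact hab)
          exact ⟨rfl, by omega⟩
        · have := q1.1 (Or.inr x)
          have := q2.1 (Or.inl y)
          have := q3.not.1 (by rw [x, y]; exact hab.symm)
          exact ⟨rfl, by omega⟩
      · rintro ⟨-, h⟩
        have q4 := q3.not.2 (by omega)
        rcases q1.2 (by omega) with x | x <;> rcases q2.2 (by omega) with y | y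
        · exact absurd (x.trans y.symm) q4
        · exact Or.inl ⟨x, y⟩
        · exact Or.inr ⟨x, y⟩
        · exact absurd (x.trans y.symm) q4
  simp only [mem_filter, mem_univ, true_and] at m1 m2 m3 s1 s2 s3 n1
  have hRF : ∀ w v, R w → σ v = false → ¬ G.Adj w v := by
    intro w v hw hv h
    have h1 : (sg G σ false).Adj w v := ⟨h, (hR w hw).1, hv⟩
    cases e with
    | false => exact he0 rfl _ _ h1
    | true =>
      obtain ⟨a, b, -, -, -, a2, b2, H⟩ := he1 rfl
      rcases (H w v).1 h1 with x | x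
      · exact a2 (x.1 ▸ hw)
      · exact b2 (x.1 ▸ hw)
  have hRK : ∀ i j, G.Adj (g3 j) (g1 i) ↔ i.val < r := fun i j =>
    Iff.trans ⟨fun h => ⟨m1 i, _, m3 j, h⟩, fun ⟨_, w, a, b⟩ => hR1 w _ a (m3 j) ▸ b⟩ (n1 i)
  have d12 : ∀ i j, g1 i ≠ g2 j := fun i j h => by simpa [← h, m1 i] using (m2 j).1
  have d13 : ∀ i j, g1 i ≠ g3 j := fun i j h => by simpa [← h, m1 i] using (hR _ (m3 j)).1
  have d23 : ∀ i j, g2 i ≠ g3 j := fun i j h => (m2 i).2 (h ▸ m3 j)
  have hb : Function.Bijective (Sum.elim g1 (Sum.elim g2 g3)) := by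
    refine ⟨i1.sumElim (i2.sumElim i3 d23) ?_, fun v => ?_⟩
    · rintro i (j | j)
      · exact d12 i j
      · exact d13 i j
    · by_cases h1 : σ v = true
      · exact (s1 v h1).elim fun i h => ⟨Sum.inl i, h⟩
      · by_cases h2 : R v
        · exact (s3 v h2).elim fun i h => ⟨Sum.inr (Sum.inr i), h⟩
        · exact (s2 v ⟨by simpa using h1, h2⟩).elim fun i h => ⟨Sum.inr (Sum.inl i), h⟩
  refine ⟨RelIso.symm ⟨Equiv.ofBijective _ hb, ?_⟩⟩
  rintro (i | i | i) (j | j | j)
  · exact ⟨fun h e => h.ne (congrArg g1 e), fun h => hKK _ _ (m1 i) (m1 j) (i1.ne h)⟩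
  · exact iff_of_true (hKF _ _ (m1 i) (m2 j).1 (m2 j).2) trivial
  · exact (G.adj_comm _ _).trans (hRK i j)
  · exact iff_of_true (hKF _ _ (m1 j) (m2 i).1 (m2 i).2).symm trivial
  · exact Iff.trans ⟨fun h => ⟨h, (m2 i).1, (m2 j).1⟩, fun h => h.1⟩ (n2 i j)
  · exact iff_of_false (fun h => hRF _ _ (m3 j) (m2 i).1 h.symm) id
  · exact hRK j i
  · exact iff_of_false (hRF _ _ (m3 i) (m2 j).1) id
  · exact iff_of_false (hRF _ _ (m3 i) (hR _ (m3 j)).1) id

end WR
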