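import Pool.Agent.MP_1392dc_co.TSt

namespace WR

open W5 WQ Finset
open scoped Classical

theorem sum_Main (hV : SvS) {V : Type} [Fintype V] {k m : ℕ} {G : SimpleGraph V} {σ : V → Bool}
    {L : ℝ} {y : V → ℝ} (h : Ctx k m G σ L y) {β : ℝ} (hβ : 0 < β) :
    sF σ (fun v => sN G σ y true v ^ 2) ≤ sF σ (fun v => dK G σ v ^ 2 / k) -
      (k - SK σ y ^ 2) * ct (Fu k G σ) + β * AA k G σ +
      ((k - SK σ y ^ 2) / β + (k - SK σ y ^ 2)) * ct (Pt k G σ) := by
  obtain ⟨-, -, v3, v4, v5⟩ := hV V k m G σ L y h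
  have k3 := h.str.kR
  have k0 : (k : ℝ) ≠ 0 := by linarith
  unfold AA sF ct
  rw [mul_sum, mul_sum, mul_sum, ← sum_sub_distrib, ← sum_add_distrib, ← sum_add_distrib]
  refine sum_le_sum fun v _ => ?_
  have a0 := mul_nonneg hβ.le (h.str.aV_nonneg v)
  by_cases s : σ v = false
  · simp only [if_pos s]
    rcases (h.str.dK_le v).eq_or_lt with e | e
    · rw [if_pos (show Fu k G σ v from ⟨s, e⟩), if_neg (fun p : Pt k G σ v => p.2.2.ne e), v3 v e, e]
      have : (k : ℝ) ^ 2 / k = k := by field_simp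
      linarith
    · rw [if_neg (fun p : Fu k G σ v => e.ne p.2)]
      rcases (dK_nonneg G σ v).eq_or_lt with z | z
      · rw [if_neg (fun p : Pt k G σ v => p.2.1.ne z), v4 v z.symm, ← z]
        simp only [mul_zero, ne_eq, OfNat.ofNat_ne_zero, not_false_eq_true, zero_pow, zero_div]
        linarith
      · rw [if_pos (show Pt k G σ v from ⟨s, z, e⟩)]
        have := v5 v β hβ z e
        linarith
  · rw [if_neg s, if_neg s, if_neg s, if_neg (fun p : Fu k G σ v => s p.1),
      if_neg (fun p : Pt k G σ v => s p.1)]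
    simp

theorem mainS (hI : IdS) (hV : SvS) (hC : CntS) (hC2 : Cnt2S) : MainS := by
  intro V _ k m G σ L y h
  have i1 := hI V G σ L y h.eig h.nrm
  obtain ⟨c1, c2, -⟩ := hC V k m G σ h.str
  obtain ⟨A, B, n, P, -, -, p1, c4, -, -, -, -, p0, -⟩ := hC2 V k m G σ h.str
  have e0 : 0 ≤ k - SK σ y ^ 2 := sub_nonneg.2 (hV V k m G σ L y h).1
  have k3 := h.str.kR
  have L1 := h.L1
  have L2 := h.L2
  have hP := h.str.hP
  have k0 : (0 : ℝ) < k := by linarith
  have L0 : 0 < L := by linarith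
  have key : sF σ (fun v => sN G σ y true v ^ 2) ≤ sF σ (fun v => dK G σ v ^ 2 / k) -
      (k - SK σ y ^ 2) * L ^ 2 / (8 * k) + 16 * ct (Pt k G σ) * k / L ^ 2 * AA k G σ := by
    set η := k - SK σ y ^ 2 with hη
    have f1 : L ^ 2 / (4 * k) ≤ ct (Fu k G σ) := by
      rw [div_le_iff₀ (by positivity)]
      linarith
    have f2 := mul_le_mul_of_nonneg_left f1 e0
    have e1 : η * (L ^ 2 / (4 * k)) = 4 * (η * L ^ 2 / (16 * k)) := by
      field_simp
      norm_num
    have e2 : η * L ^ 2 / (8 * k) = 2 * (η * L ^ 2 / (16 * k)) := by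
      field_simp
      ring
    have w0 : 0 ≤ η * L ^ 2 / (16 * k) := by positivity
    rcases Nat.eq_zero_or_pos P with z | z
    · have := sum_Main hV h one_pos
      rw [p1, p0 z, z] at this
      rw [p0 z]
      simp only [mul_zero, Nat.cast_zero, add_zero] at this ⊢
      linarith
    · have P0 : (0 : ℝ) < ct (Pt k G σ) := by
        rw [p1]
        exact_mod_cast z
      have := sum_Main hV h (β := 16 * ct (Pt k G σ) * k / L ^ 2) (by positivity)
      have e3 : η / (16 * ct (Pt k G σ) * k / L ^ 2) * ct (Pt k G σ) = η * L ^ 2 / (16 * k) := by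
        field_simp
      have f3 : ct (Pt k G σ) ≤ L ^ 2 / (16 * k) := by
        rw [le_div_iff₀ (by positivity)]
        nlinarith [mul_le_mul_of_nonneg_right hP k0.le, mul_self_le_mul_self (by positivity) L1,
          mul_pos k0 k0]
      have f4 := mul_le_mul_of_nonneg_left f3 e0
      rw [← mul_div_assoc] at f4
      rw [add_mul, e3] at this
      linarith
  have := mul_nonneg L0.le e0
  nlinarith [key]

end WR
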