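import Pool.Agent.MP_1392dc_co.TSt

/-! Passing the coarse structure from the core to the whole graph; invariance of the spectral
radius under isomorphism. -/

namespace WR

open W5 WQ Finset
open scoped Classical

section
variable {V : Type} [Fintype V]

theorem diff_Pass {G H : SimpleGraph V} (h : H ≤ G) :
    2 * (ed G - ed H) = ∑ u, ∑ v, if G.Adj u v ∧ ¬ H.Adj u v then (1 : ℝ) else 0 := by
  rw [mul_sub, two_ed, two_ed, ← sum_sub_distrib]
  refine sum_congr rfl fun u _ => ?_
  rw [← sum_sub_distrib]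
  refine sum_congr rfl fun v _ => ?_
  by_cases a : H.Adj u v
  · have b : G.Adj u v := h a
    simp [a, b]
  · by_cases b : G.Adj u v <;> simp [a, b]

theorem ed_mono_Pass {G H : SimpleGraph V} (h : H ≤ G) : ed H ≤ ed G := by
  have h1 := diff_Pass h
  have h2 : (0 : ℝ) ≤ ∑ u, ∑ v, if G.Adj u v ∧ ¬ H.Adj u v then (1 : ℝ) else 0 :=
    sum_nonneg fun u _ => sum_nonneg fun v _ => by split_ifs <;> norm_num
  linarith

theorem cross_Pass {G H : SimpleGraph V} (h : H ≤ G) (σ : V → Bool) :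
    (∑ v, ∑ u, if σ v = false ∧ σ u = true ∧ G.Adj v u ∧ ¬ H.Adj v u then (1 : ℝ) else 0) ≤
      ed G - ed H := by
  have h1 := diff_Pass h
  have h2 : (∑ v, ∑ u, if σ v = false ∧ σ u = true ∧ G.Adj v u ∧ ¬ H.Adj v u then (1 : ℝ) else 0) =
      ∑ v, ∑ u, if σ u = false ∧ σ v = true ∧ G.Adj u v ∧ ¬ H.Adj u v then (1 : ℝ) else 0 :=
    sum_comm
  have h3 : (∑ v, ∑ u, if σ v = false ∧ σ u = true ∧ G.Adj v u ∧ ¬ H.Adj v u then (1 : ℝ) else 0) +
      (∑ v, ∑ u, if σ u = false ∧ σ v = true ∧ G.Adj u v ∧ ¬ H.Adj u v then (1 : ℝ) else 0) ≤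
      ∑ u, ∑ v, if G.Adj u v ∧ ¬ H.Adj u v then (1 : ℝ) else 0 := by
    rw [← sum_add_distrib]
    refine sum_le_sum fun v _ => ?_
    rw [← sum_add_distrib]
    refine sum_le_sum fun u _ => ?_
    rw [G.adj_comm u v, H.adj_comm u v]
    by_cases a : G.Adj v u ∧ ¬ H.Adj v u
    · cases σ v <;> cases σ u <;> simp [a]
    · have b : ∀ p q : Prop, ¬ (p ∧ q ∧ G.Adj v u ∧ ¬ H.Adj v u) := fun p q c => a c.2.2
      rw [if_neg (b _ _), if_neg (b _ _), if_neg a]
      norm_num
  linarith

theorem sub_Pass {W : Type} [Fintype W] {G : SimpleGraph V} {G' : SimpleGraph W} (e : G ≃g G')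
    {μ : ℝ} (h : ∃ x : V → ℝ, x ≠ 0 ∧ (G.adjMatrix ℝ).mulVec x = μ • x) :
    ∃ x : W → ℝ, x ≠ 0 ∧ (G'.adjMatrix ℝ).mulVec x = μ • x := by
  obtain ⟨x, hx, hm⟩ := h
  refine ⟨fun w => x (e.symm w), fun h0 => hx ?_, ?_⟩
  · funext v
    have := congrFun h0 (e v)
    simpa using this
  · funext w
    have h1 := congrFun hm (e.symm w)
    rw [mulVec_Per] at h1
    rw [mulVec_Per]
    have h2 : ns G' (fun w => x (e.symm w)) w = ns G x (e.symm w) := by
      unfold ns
      rw [← Equiv.sum_comp e.symm.toEquiv]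
      refine sum_congr rfl fun u _ => ?_
      have : G.Adj (e.symm w) (e.symm u) ↔ G'.Adj w u := e.symm.map_adj_iff
      by_cases a : G'.Adj w u
      · rw [if_pos a]
        exact (if_pos (this.2 a)).symm
      · rw [if_neg a]
        exact (if_neg fun b => a (this.1 b)).symm
    rw [h2, h1]
    rfl

end

theorem passS : PassS := by
  intro V _ k G H σ h hK hF
  refine ⟨?_, ?_, ?_⟩
  · have h1 := diff_Pass h
    have h2 := two_ed (sg G σ false)
    have h3 : (∑ u, ∑ v, if (sg G σ false).Adj u v then (1 : ℝ) else 0) ≤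
        ∑ u, ∑ v, if G.Adj u v ∧ ¬ H.Adj u v then (1 : ℝ) else 0 := by
      refine sum_le_sum fun u _ => sum_le_sum fun v _ => ?_
      by_cases a : (sg G σ false).Adj u v
      · have b : G.Adj u v ∧ ¬ H.Adj u v := ⟨a.1, fun c => hF u v ⟨c, a.2.1, a.2.2⟩⟩
        rw [if_pos a, if_pos b]
      · rw [if_neg a]
        split_ifs <;> norm_num
    unfold tF
    linarith
  · have h1 : ed (sg H σ true) ≤ ed (sg G σ true) :=
      ed_mono_Pass fun u v a => ⟨h a.1, a.2.1, a.2.2⟩
    unfold jK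
    linarith
  · refine le_trans ?_ (add_le_add le_rfl (cross_Pass h σ))
    unfold ct
    rw [← sum_add_distrib]
    refine sum_le_sum fun v _ => ?_
    have n1 : (0 : ℝ) ≤
        ∑ u, if σ v = false ∧ σ u = true ∧ G.Adj v u ∧ ¬ H.Adj v u then (1 : ℝ) else 0 :=
      sum_nonneg fun u _ => by split_ifs <;> norm_num
    by_cases a : Pt k G σ v
    · rw [if_pos a]
      obtain ⟨a1, a2, a3⟩ := a
      by_cases b : NI H v
      · have c : ∃ u, σ u = true ∧ ¬ H.Adj v u := by
          by_contra hn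
          have h4 : ct (fun u => σ u = true) ≤ dK G σ v :=
            ct_mono fun u hu => ⟨by
              by_contra hc
              exact hn ⟨u, hu, fun d => hc (h d)⟩, hu⟩
          linarith
        rw [if_pos ⟨a1, b, c⟩]
        linarith
      · have c : ∃ u, G.Adj v u ∧ σ u = true := by
          by_contra hn
          have h4 : dK G σ v = 0 := sum_eq_zero fun u _ => if_neg fun d => hn ⟨u, d⟩
          linarith
        obtain ⟨u, c1, c2⟩ := c
        have h5 : (1 : ℝ) ≤
            ∑ u, if σ v = false ∧ σ u = true ∧ G.Adj v u ∧ ¬ H.Adj v u then (1 : ℝ) else 0 := by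
          refine le_trans ?_ (single_le_sum
            (f := fun u => if σ v = false ∧ σ u = true ∧ G.Adj v u ∧ ¬ H.Adj v u then (1 : ℝ) else 0)
            (fun w _ => by split_ifs <;> norm_num) (mem_univ u))
          exact (if_pos ⟨a1, c2, c1, fun d => b ⟨u, d⟩⟩).ge
        rw [if_neg fun d => b d.2.1]
        linarith
    · rw [if_neg a]
      split_ifs <;> linarith

theorem lamS : LamS := by
  rintro V W _ _ G G' ⟨e⟩
  unfold lam
  congr 1
  ext μ
  exact ⟨fun h => sub_Pass e h, fun h => sub_Pass e.symm h⟩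

end WR
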