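import Pool.Agent.MP_1392dc_co.TSt

namespace WR

open W5 WQ Finset
open scoped Classical

theorem enum_Rich {V : Type} {A B : Finset V} (h : A ⊆ B) (d : V) : ∃ c : ℕ → V,
    (∀ i < B.card, ∀ j < B.card, c i = c j → i = j) ∧ (∀ i < B.card, c i ∈ B) ∧
      ∀ i < A.card, c i ∈ A := by
  have hl : (A.toList ++ (B \ A).toList).length = B.card := by
    rw [List.length_append, length_toList, length_toList, add_comm, card_sdiff_add_card_eq_card h]
  have hn : (A.toList ++ (B \ A).toList).Nodup := by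
    refine List.nodup_append.2 ⟨nodup_toList _, nodup_toList _, fun a ha b hb e => ?_⟩
    subst e
    exact (mem_sdiff.1 (mem_toList.1 hb)).2 (mem_toList.1 ha)
  refine ⟨fun i => (A.toList ++ (B \ A).toList).getD i d, fun i hi j hj e => ?_, fun i hi => ?_,
    fun i hi => ?_⟩
  · simp only at e
    rw [List.getD_eq_getElem _ _ (hl ▸ hi), List.getD_eq_getElem _ _ (hl ▸ hj)] at e
    exact hn.getElem_inj_iff.1 e
  · simp only
    rw [List.getD_eq_getElem _ _ (hl ▸ hi)]
    rcases List.mem_append.1 (List.getElem_mem (l := A.toList ++ (B \ A).toList) (hl ▸ hi))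
      with a | a
    · exact h (mem_toList.1 a)
    · exact (mem_sdiff.1 (mem_toList.1 a)).1
  · simp only
    have hi' : i < A.toList.length := by rwa [length_toList]
    rw [List.getD_append _ _ _ _ hi', List.getD_eq_getElem _ _ hi']
    exact mem_toList.1 (List.getElem_mem hi')

theorem miss_Rich {V : Type} [Fintype V] {k : ℕ} {G : SimpleGraph V} {σ : V → Bool} {z : V}
    (hK : (univ.filter fun u => σ u = true).card = k) (h : 9 * (k : ℝ) ≤ 10 * dK G σ z) :
    10 * ((univ.filter fun u => σ u = true).filter fun u => ¬ G.Adj z u).card ≤ k := by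
  have h1 := card_filter_add_card_filter_not (s := univ.filter fun u => σ u = true) (G.Adj z)
  have h2 : dK G σ z = (((univ.filter fun u => σ u = true).filter (G.Adj z)).card : ℝ) := by
    rw [dK, ct_eq]
    congr 2
    ext u
    simp [and_comm]
  rw [h2] at h
  have h3 : 9 * k ≤ 10 * ((univ.filter fun u => σ u = true).filter (G.Adj z)).card := by
    exact_mod_cast h
  omega

theorem richS (hC : CntS) (h1 : Rich1S) : RichS := by
  intro V _ k m G σ hS hF v w v' w' r r'
  obtain ⟨-, c2, c3, -⟩ := hC V k m G σ hS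
  have k3 := hS.k3
  have kR := hS.kR
  have hK : (univ.filter fun u => σ u = true).card = k := by
    have := hS.hK
    rw [ct_eq, filter_congr_decidable] at this
    exact_mod_cast this
  have m1 := miss_Rich hK r.2.2.2.1
  have m2 := miss_Rich hK r.2.2.2.2
  have m3 := miss_Rich hK r'.2.2.2.1
  have m4 := miss_Rich hK r'.2.2.2.2
  have m5 : 10 * (univ.filter fun u => σ u = true ∧
      ∃ x, σ x = true ∧ u ≠ x ∧ ¬ G.Adj u x).card ≤ k := by
    have a : ((univ.filter fun u => σ u = true ∧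
        ∃ x, σ x = true ∧ u ≠ x ∧ ¬ G.Adj u x).card : ℝ) ≤ M2 G σ fun _ => 1 := by
      rw [card_filter, M2]
      push_cast
      refine sum_le_sum fun u _ => ?_
      split_ifs with hu
      · obtain ⟨a, x, b⟩ := hu
        refine le_trans ?_ (single_le_sum (f := fun x => if σ u = true ∧ σ x = true ∧ u ≠ x ∧
          ¬ G.Adj u x then (1 : ℝ) * 1 else 0) (fun _ _ => by split_ifs <;> norm_num) (mem_univ x))
        simp only [if_pos (And.intro a b), mul_one, le_refl]
      · exact sum_nonneg fun _ _ => by split_ifs <;> norm_num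
    have b := hS.hj
    have e : 10 * ((univ.filter fun u => σ u = true ∧
        ∃ x, σ x = true ∧ u ≠ x ∧ ¬ G.Adj u x).card : ℝ) ≤ k := by linarith
    exact_mod_cast e
  generalize hKf : (univ.filter fun u => σ u = true) = Kf at hK m1 m2 m3 m4
  have mK : ∀ u, u ∈ Kf ↔ σ u = true := fun u => by simp [← hKf]
  obtain ⟨D, hD, dD⟩ : ∃ D : Finset V, min 4 k ≤ D.card ∧ ∀ u ∈ D, σ u = true ∧ G.Adj v u ∧
      G.Adj w u ∧ G.Adj v' u ∧ G.Adj w' u ∧ ∀ x, σ x = true → u ≠ x → G.Adj u x := by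
    refine ⟨Kf \ ((Kf.filter fun u => ¬ G.Adj v u) ∪ ((Kf.filter fun u => ¬ G.Adj w u) ∪
      ((Kf.filter fun u => ¬ G.Adj v' u) ∪ ((Kf.filter fun u => ¬ G.Adj w' u) ∪
      (univ.filter fun u => σ u = true ∧ ∃ x, σ x = true ∧ u ≠ x ∧ ¬ G.Adj u x))))), ?_,
      fun u hu => ?_⟩
    · refine le_trans ?_ (le_card_sdiff _ _)
      refine le_trans ?_ (Nat.sub_le_sub_left ((card_union_le _ _).trans (Nat.add_le_add_left
        ((card_union_le _ _).trans (Nat.add_le_add_left ((card_union_le _ _).trans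
        (Nat.add_le_add_left (card_union_le _ _) _)) _)) _)) _)
      omega
    · simp only [mem_sdiff, mem_union, mem_filter, mem_univ, true_and, not_or, not_and,
        not_exists, not_not] at hu
      obtain ⟨a, b1, b2, b3, b4, b5⟩ := hu
      exact ⟨(mK u).1 a, b1 a, b2 a, b3 a, b4 a, b5 ((mK u).1 a)⟩
  obtain ⟨u, hu⟩ : D.Nonempty := card_pos.1 (by omega)
  have du := dD u hu
  have e1 : (Kf.erase u).card = k - 1 := by rw [card_erase_of_mem ((mK u).2 du.1), hK]
  have e2 : (D.erase u).card = D.card - 1 := card_erase_of_mem hu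
  obtain ⟨c, ci, cm, cD⟩ := enum_Rich (A := D.erase u) (B := Kf.erase u)
    (erase_subset_erase u fun x hx => (mK x).2 (dD x hx).1) u
  rw [e1] at ci cm
  have f1 : k + 4 ≤ (univ.filter (Fu k G σ)).card := by
    rw [ct_eq] at c2
    have b := hS.big
    have : (k : ℝ) + 4 ≤ (univ.filter (Fu k G σ)).card :=
      le_of_mul_le_mul_left (a := 2 * (k : ℝ)) (by nlinarith) (by linarith)
    exact_mod_cast this
  obtain ⟨B, hB, eB⟩ := exists_subset_card_eq (s := univ.filter (Fu k G σ) \ {v, w, v', w'})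
    (n := k - 1) (by
      have a := le_card_sdiff ({v, w, v', w'} : Finset V) (univ.filter (Fu k G σ))
      have b : ({v, w, v', w'} : Finset V).card ≤ 4 := card_le_four
      omega)
  obtain ⟨b, bi, bm, -⟩ := enum_Rich (empty_subset B) u
  rw [eB] at bi bm
  have bF : ∀ i < k - 1, Fu k G σ (b i) ∧ b i ≠ v ∧ b i ≠ w ∧ b i ≠ v' ∧ b i ≠ w' := fun i hi => by
    simpa only [mem_sdiff, mem_filter, mem_univ, true_and, mem_insert, mem_singleton, not_or]
      using hB (bm i hi)
  have cK : ∀ i < k - 1, σ (c i) = true := fun i hi => (mK _).1 (mem_erase.1 (cm i hi)).2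
  have c3D : ∀ i < 3, i < k - 1 → c i ∈ D := fun i a b =>
    (mem_erase.1 (cD i (by omega))).2
  refine h1 V k G σ u c b v w v' w' k3 hF ci bi (fun i hi => ⟨cK i hi, (bF i hi).1.1,
    du.2.2.2.2.2 _ (cK i hi) (mem_erase.1 (cm i hi)).1.symm,
    (hS.full (bF i hi).1.2 du.1).symm, (bF i hi).2⟩)
    (fun i hi j hj => (hS.full (bF j hj).1.2 (cK i hi)).symm) ?_ r.1 r'.1
  rintro z (rfl | rfl | rfl | rfl)
  · exact ⟨r.2.1, du.2.1.symm, fun i a b => (dD _ (c3D i a b)).2.1.symm⟩
  · exact ⟨r.2.2.1, du.2.2.1.symm, fun i a b => (dD _ (c3D i a b)).2.2.1.symm⟩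
  · exact ⟨r'.2.1, du.2.2.2.1.symm, fun i a b => (dD _ (c3D i a b)).2.2.2.1.symm⟩
  · exact ⟨r'.2.2.1, du.2.2.2.2.1.symm, fun i a b => (dD _ (c3D i a b)).2.2.2.2.1.symm⟩

end WR
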