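import Pool.Agent.MP_1392dc_co.TSt

namespace WR

open W5 WQ Finset
open scoped Classical

theorem tail_Rich1 (hW : WheelS) {V : Type} [Fintype V] {k r : ℕ} {G : SimpleGraph V} {u : V}
    {c b : ℕ → V} (h : ℕ → V) (hr : 1 ≤ r) (hrk : r + 1 ≤ k) (hF : Free k G)
    (hc : ∀ i < k - 1, ∀ j < k - 1, c i = c j → i = j)
    (hb : ∀ i < k - 1, ∀ j < k - 1, b i = b j → i = j)
    (hcb : ∀ i < k - 1, ∀ j < k - 1, G.Adj (c i) (b j))
    (hu : ∀ i < k - 1, G.Adj u (c i) ∧ G.Adj u (b i))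
    (h1 : ∀ i < 2 * r + 2, ∀ j < 2 * r + 2, h i = h j → i = j)
    (h2 : ∀ i, i + 1 < 2 * r + 2 → G.Adj (h i) (h (i + 1)))
    (h3 : ∀ i < 2 * r + 2, G.Adj u (h i))
    (h4 : ∀ i < 2 * r + 2, ∀ j < k - 1, (r ≤ j → h i ≠ c j) ∧ h i ≠ b j)
    (h5 : h 0 = c 0) (h6 : r < k - 1 → G.Adj (h (2 * r + 1)) (c r))
    (h7 : G.Adj (h (2 * r + 1)) (c 0)) : False := by
  let f : ℕ → V := fun n =>
    if n < 2 * r + 2 then h n else if n % 2 = 0 then c ((n - 2) / 2) else b ((n - 3) / 2)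
  have f1 : ∀ n, n < 2 * r + 2 → f n = h n := fun n hn => if_pos hn
  have f2 : ∀ n, ¬ n < 2 * r + 2 → n % 2 = 0 → f n = c ((n - 2) / 2) := fun n hn he =>
    (if_neg hn).trans (if_pos he)
  have f3 : ∀ n, ¬ n < 2 * r + 2 → ¬ n % 2 = 0 → f n = b ((n - 3) / 2) := fun n hn he =>
    (if_neg hn).trans (if_neg he)
  refine hF (hW V G u f (2 * k) (by omega) (fun i hi j hj e => ?_) (fun i hi => ?_) ?_
    fun i hi => ?_)
  · by_cases a1 : i < 2 * r + 2 <;> by_cases a2 : j < 2 * r + 2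
    · rw [f1 i a1, f1 j a2] at e
      exact h1 i a1 j a2 e
    · rw [f1 i a1] at e
      by_cases a3 : j % 2 = 0
      · rw [f2 j a2 a3] at e
        exact absurd e ((h4 i a1 _ (by omega)).1 (by omega))
      · rw [f3 j a2 a3] at e
        exact absurd e (h4 i a1 _ (by omega)).2
    · rw [f1 j a2] at e
      by_cases a3 : i % 2 = 0
      · rw [f2 i a1 a3] at e
        exact absurd e.symm ((h4 j a2 _ (by omega)).1 (by omega))
      · rw [f3 i a1 a3] at e
        exact absurd e.symm (h4 j a2 _ (by omega)).2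
    · by_cases a3 : i % 2 = 0 <;> by_cases a4 : j % 2 = 0
      · rw [f2 i a1 a3, f2 j a2 a4] at e
        have := hc _ (by omega) _ (by omega) e
        omega
      · rw [f2 i a1 a3, f3 j a2 a4] at e
        exact absurd e (hcb _ (by omega) _ (by omega)).ne
      · rw [f3 i a1 a3, f2 j a2 a4] at e
        exact absurd e.symm (hcb _ (by omega) _ (by omega)).ne
      · rw [f3 i a1 a3, f3 j a2 a4] at e
        have := hb _ (by omega) _ (by omega) e
        omega
  · by_cases a1 : i + 1 < 2 * r + 2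
    · rw [f1 i (by omega), f1 _ a1]
      exact h2 i a1
    · by_cases a2 : i < 2 * r + 2
      · have e : i = 2 * r + 1 := by omega
        rw [f1 i a2, f2 _ a1 (by omega), e, show (2 * r + 1 + 1 - 2) / 2 = r by omega]
        exact h6 (by omega)
      · by_cases a3 : i % 2 = 0
        · rw [f2 i a2 a3, f3 _ a1 (by omega)]
          exact hcb _ (by omega) _ (by omega)
        · rw [f3 i a2 a3, f2 _ a1 (by omega)]
          exact (hcb _ (by omega) _ (by omega)).symm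
  · rw [f1 0 (by omega), h5]
    by_cases a1 : 2 * k - 1 < 2 * r + 2
    · rw [f1 _ a1, show 2 * k - 1 = 2 * r + 1 by omega]
      exact h7
    · rw [f3 _ a1 (by omega)]
      exact (hcb _ (by omega) _ (by omega)).symm
  · by_cases a1 : i < 2 * r + 2
    · rw [f1 i a1]
      exact h3 i a1
    · by_cases a3 : i % 2 = 0
      · rw [f2 i a1 a3]
        exact (hu _ (by omega)).1
      · rw [f3 i a1 a3]
        exact (hu _ (by omega)).2

theorem rich1S (hW : WheelS) : Rich1S := by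
  intro V _ k G σ u c b v w v' w' hk hF hc hb h1 hcb h2 hvw hvw'
  have hu : ∀ i < k - 1, G.Adj u (c i) ∧ G.Adj u (b i) := fun i hi =>
    ⟨(h1 i hi).2.2.1, (h1 i hi).2.2.2.1⟩
  have hz : ∀ z, z = v ∨ z = w ∨ z = v' ∨ z = w' → G.Adj u z ∧ G.Adj (c 0) z ∧ G.Adj (c 1) z ∧
      (2 < k - 1 → G.Adj (c 2) z) ∧ ∀ j < k - 1, z ≠ c j ∧ z ≠ b j := by
    intro z hz
    obtain ⟨e1, e2, e3⟩ := h2 z hz
    refine ⟨e2, e3 0 (by omega) (by omega), e3 1 (by omega) (by omega), e3 2 (by omega),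
      fun j hj => ⟨fun e => ?_, ?_⟩⟩
    · have := (h1 j hj).1
      rw [← e, e1] at this
      exact Bool.false_ne_true this
    · obtain ⟨-, -, -, -, g1, g2, g3, g4⟩ := h1 j hj
      rcases hz with rfl | rfl | rfl | rfl
      exacts [g1.symm, g2.symm, g3.symm, g4.symm]
  have c0 : ∀ j < k - 1, (1 ≤ j → c 0 ≠ c j) ∧ c 0 ≠ b j := fun j hj =>
    ⟨fun g e => by have := hc 0 (by omega) j hj e; omega, (hcb 0 (by omega) j hj).ne⟩
  have c1 : ∀ j < k - 1, (2 ≤ j → c 1 ≠ c j) ∧ c 1 ≠ b j := fun j hj =>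
    ⟨fun g e => by have := hc 1 (by omega) j hj e; omega, (hcb 1 (by omega) j hj).ne⟩
  have path : ∀ p q p' : V, (p = v ∨ p = w ∨ p = v' ∨ p = w') →
      (q = v ∨ q = w ∨ q = v' ∨ q = w') → (p' = v ∨ p' = w ∨ p' = v' ∨ p' = w') →
      G.Adj p q → G.Adj q p' → p = p' := by
    intro p q p' e1 e2 e3 g1 g2
    by_contra hne
    obtain ⟨p1, p2, p3, p4, p5⟩ := hz p e1
    obtain ⟨q1, q2, q3, q4, q5⟩ := hz q e2
    obtain ⟨r1, r2, r3, r4, r5⟩ := hz p' e3
    have n1 := p2.ne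
    have n2 := q2.ne
    have n3 := r2.ne
    have n4 := g1.ne
    have n5 := g2.ne
    refine tail_Rich1 hW (r := 1) (fun n => [c 0, p, q, p'].getD n u) le_rfl (by omega) hF hc hb
      hcb hu (fun i hi j hj e => ?_) (fun i hi => ?_) (fun i hi => ?_) (fun i hi j hj => ?_) rfl
      (fun _ => r3.symm) r2.symm
    · interval_cases i <;> interval_cases j <;>
        first | rfl | exact absurd e (by assumption) | exact absurd e.symm (by assumption)
    · have hi' : i < 3 := by omega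
      interval_cases i
      exacts [p2, g1, g2]
    · interval_cases i
      exacts [(hu 0 (by omega)).1, p1, q1, r1]
    · interval_cases i
      exacts [c0 j hj, ⟨fun _ => (p5 j hj).1, (p5 j hj).2⟩, ⟨fun _ => (q5 j hj).1, (q5 j hj).2⟩,
        ⟨fun _ => (r5 j hj).1, (r5 j hj).2⟩]
  have mv : v = v ∨ v = w ∨ v = v' ∨ v = w' := Or.inl rfl
  have mw : w = v ∨ w = w ∨ w = v' ∨ w = w' := Or.inr (Or.inl rfl)
  have mv' : v' = v ∨ v' = w ∨ v' = v' ∨ v' = w' := Or.inr (Or.inr (Or.inl rfl))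
  have mw' : w' = v ∨ w' = w ∨ w' = v' ∨ w' = w' := Or.inr (Or.inr (Or.inr rfl))
  by_cases a1 : v' = v
  · exact Or.inl ⟨a1, path w' v w mw' mv mw (a1 ▸ hvw'.symm) hvw⟩
  by_cases a2 : v' = w
  · exact Or.inr ⟨a2, path w' w v mw' mw mv (a2 ▸ hvw'.symm) hvw.symm⟩
  by_cases a3 : w' = v
  · exact absurd (path v' v w mv' mv mw (a3 ▸ hvw') hvw) a2
  by_cases a4 : w' = w
  · exact absurd (path v' w v mv' mw mv (a4 ▸ hvw') hvw.symm) a1
  obtain ⟨p1, p2, p3, p4, p5⟩ := hz v mv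
  obtain ⟨q1, q2, q3, q4, q5⟩ := hz w mw
  obtain ⟨r1, r2, r3, r4, r5⟩ := hz v' mv'
  obtain ⟨s1, s2, s3, s4, s5⟩ := hz w' mw'
  have n0 : c 0 ≠ c 1 := (c0 1 (by omega)).1 le_rfl
  have n1 := p2.ne
  have n2 := q2.ne
  have n3 := r2.ne
  have n4 := s2.ne
  have n5 := p3.ne
  have n6 := q3.ne
  have n7 := r3.ne
  have n8 := s3.ne
  have n9 := hvw.ne
  have n10 := hvw'.ne
  refine (tail_Rich1 hW (r := 2) (fun n => [c 0, v, w, c 1, v', w'].getD n u) (by omega)
    (by omega) hF hc hb hcb hu (fun i hi j hj e => ?_) (fun i hi => ?_) (fun i hi => ?_)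
    (fun i hi j hj => ?_) rfl (fun g => (s4 g).symm) s2.symm).elim
  · interval_cases i <;> interval_cases j <;>
      first | rfl | exact absurd e (by assumption) | exact absurd e.symm (by assumption)
  · have hi' : i < 5 := by omega
    interval_cases i
    exacts [p2, hvw, q3.symm, r3, hvw']
  · interval_cases i
    exacts [(hu 0 (by omega)).1, p1, q1, (hu 1 (by omega)).1, r1, s1]
  · interval_cases i
    exacts [⟨fun g => (c0 j hj).1 (by omega), (c0 j hj).2⟩, ⟨fun _ => (p5 j hj).1, (p5 j hj).2⟩,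
      ⟨fun _ => (q5 j hj).1, (q5 j hj).2⟩, c1 j hj, ⟨fun _ => (r5 j hj).1, (r5 j hj).2⟩,
      ⟨fun _ => (s5 j hj).1, (s5 j hj).2⟩]

end WR
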