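import Pool.Agent.MP_1392dc_co.TSt

/-! The parameters of the candidate graphs. -/

namespace WR

open W5 WQ Finset
open scoped Classical

/-- Indicator of a proposition. -/
noncomputable def ind_Sp (p : Prop) : ℝ := if p then 1 else 0

theorem indT_Sp : ind_Sp True = 1 := if_pos trivial
theorem indF_Sp : ind_Sp False = 0 := if_neg id
theorem indP_Sp {p : Prop} (h : p) : ind_Sp p = 1 := if_pos h
theorem indN_Sp {p : Prop} (h : ¬ p) : ind_Sp p = 0 := if_neg h

theorem two_ed_Sp {V : Type} [Fintype V] (G : SimpleGraph V) :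
    2 * ed G = ∑ u, ∑ v, ind_Sp (G.Adj u v) := two_ed G

theorem ct_Sp {V : Type} [Fintype V] (S : V → Prop) : ct S = ∑ v, ind_Sp (S v) := rfl

theorem ne_Sp (k : ℕ) : ∑ i : Fin k, ∑ j : Fin k, ind_Sp (i ≠ j) = k * ((k : ℝ) - 1) := by
  have h : ∀ i : Fin k, ∑ j : Fin k, ind_Sp (i ≠ j) = (k : ℝ) - 1 := by
    intro i
    have e : ∀ j : Fin k, ind_Sp (i ≠ j) = 1 - if i = j then 1 else 0 := by
      intro j
      by_cases a : i = j
      · rw [indN_Sp (not_not.2 a), if_pos a]; ring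
      · rw [indP_Sp a, if_neg a]; ring
    simp only [e, sum_sub_distrib, sum_ite_eq, mem_univ, if_true, sum_const, card_univ,
      Fintype.card_fin, nsmul_eq_mul, mul_one]
  simp only [h, sum_const, card_univ, Fintype.card_fin, nsmul_eq_mul]

theorem lt_Sp (k r : ℕ) (h : r ≤ k) : ∑ i : Fin k, ind_Sp (i.val < r) = r := by
  rw [Fin.sum_univ_eq_sum_range (fun i => ind_Sp (i < r)) k, ← sum_range_add_sum_Ico _ h]
  have e1 : ∑ i ∈ range r, ind_Sp (i < r) = r := by
    rw [sum_congr rfl fun i hi => indP_Sp (mem_range.1 hi)]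
    simp
  have e2 : ∑ i ∈ Ico r k, ind_Sp (i < r) = 0 :=
    sum_eq_zero fun i hi => indN_Sp (not_lt.2 (mem_Ico.1 hi).1)
  rw [e1, e2, add_zero]

theorem min_Sp (r : ℕ) : (r : ℝ) * ((min r 1 : ℕ) : ℝ) = r := by
  rcases Nat.eq_zero_or_pos r with h | h
  · subst h; simp
  · rw [min_eq_right (show 1 ≤ r from h)]; simp

theorem one_Sp (q : ℕ) (hq : 2 ≤ q) (e : Bool) :
    ∑ a : Fin q, ∑ b : Fin q, ind_Sp (e = true ∧ a.val + b.val = 1) =
      2 * (if e = true then 1 else 0) := by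
  cases e
  · simp [indF_Sp]
  · obtain ⟨n, rfl⟩ : ∃ n, q = n + 2 := ⟨q - 2, by omega⟩
    have z : ∀ a b : ℕ, ind_Sp (a + b = 1) = if a + b = 1 then 1 else 0 := by
      intro a b
      by_cases h : a + b = 1
      · rw [indP_Sp h, if_pos h]
      · rw [indN_Sp h, if_neg h]
    simp only [true_and, z]
    rw [Fin.sum_univ_succ, Fin.sum_univ_succ (n := n) (fun a : Fin (n + 1) => ∑ b : Fin (n + 2),
      if (Fin.succ a).val + b.val = 1 then (1 : ℝ) else 0)]
    have e0 : ∑ b : Fin (n + 2), (if ((0 : Fin (n + 2)).val + b.val = 1) then (1 : ℝ) else 0) = 1 := by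
      rw [Fin.sum_univ_succ, Fin.sum_univ_succ, sum_eq_zero]
      · simp
      · intro b _
        rw [if_neg]
        simp only [Fin.val_succ, Fin.val_zero]
        omega
    have e1 : ∑ b : Fin (n + 2),
        (if ((Fin.succ (0 : Fin (n + 1))).val + b.val = 1) then (1 : ℝ) else 0) = 1 := by
      rw [Fin.sum_univ_succ, sum_eq_zero]
      · simp
      · intro b _
        rw [if_neg]
        simp only [Fin.val_succ, Fin.val_zero]
        omega
    have e2 : ∑ a : Fin n, ∑ b : Fin (n + 2),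
        (if ((Fin.succ (Fin.succ a)).val + b.val = 1) then (1 : ℝ) else 0) = 0 := by
      refine sum_eq_zero fun a _ => sum_eq_zero fun b _ => ?_
      rw [if_neg]
      simp only [Fin.val_succ]
      omega
    rw [e0, e1, e2]
    norm_num

section
variable (k q r : ℕ) (e : Bool)

theorem a11_Sp (i j : Fin k) : (sp k q r e).Adj (Sum.inl i) (Sum.inl j) ↔ i ≠ j := Iff.rfl
theorem a12_Sp (i : Fin k) (a : Fin q) :
    (sp k q r e).Adj (Sum.inl i) (Sum.inr (Sum.inl a)) ↔ True := Iff.rfl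
theorem a21_Sp (i : Fin k) (a : Fin q) :
    (sp k q r e).Adj (Sum.inr (Sum.inl a)) (Sum.inl i) ↔ True := Iff.rfl
theorem a13_Sp (i : Fin k) (c : Fin (min r 1)) :
    (sp k q r e).Adj (Sum.inl i) (Sum.inr (Sum.inr c)) ↔ i.val < r := Iff.rfl
theorem a31_Sp (i : Fin k) (c : Fin (min r 1)) :
    (sp k q r e).Adj (Sum.inr (Sum.inr c)) (Sum.inl i) ↔ i.val < r := Iff.rfl
theorem a22_Sp (a b : Fin q) :
    (sp k q r e).Adj (Sum.inr (Sum.inl a)) (Sum.inr (Sum.inl b)) ↔
      e = true ∧ a.val + b.val = 1 := Iff.rfl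
theorem a23_Sp (a : Fin q) (c : Fin (min r 1)) :
    (sp k q r e).Adj (Sum.inr (Sum.inl a)) (Sum.inr (Sum.inr c)) ↔ False := Iff.rfl
theorem a32_Sp (a : Fin q) (c : Fin (min r 1)) :
    (sp k q r e).Adj (Sum.inr (Sum.inr c)) (Sum.inr (Sum.inl a)) ↔ False := Iff.rfl
theorem a33_Sp (c d : Fin (min r 1)) :
    (sp k q r e).Adj (Sum.inr (Sum.inr c)) (Sum.inr (Sum.inr d)) ↔ False := Iff.rfl

end

theorem ed_Sp (k q r : ℕ) (e : Bool) (hr : r < k) (hq : 2 ≤ q) :
    ed (sp k q r e) = k * ((k : ℝ) - 1) / 2 + k * q + r + (if e = true then 1 else 0) := by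
  have h := two_ed_Sp (sp k q r e)
  simp only [Fintype.sum_sum_type, sum_add_distrib, a11_Sp, a12_Sp, a21_Sp, a13_Sp, a31_Sp,
    a22_Sp, a23_Sp, a32_Sp, a33_Sp, indT_Sp, indF_Sp, sum_const, card_univ, Fintype.card_fin,
    nsmul_eq_mul, mul_one, mul_zero, add_zero, lt_Sp k r hr.le, ← mul_sum] at h
  rw [ne_Sp, one_Sp q hq] at h
  have m := min_Sp r
  nlinarith

theorem sgT_Sp (k q r : ℕ) (e : Bool) :
    ed (sg (sp k q r e) Sum.isLeft true) = k * ((k : ℝ) - 1) / 2 := by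
  have h := two_ed_Sp (sg (sp k q r e) Sum.isLeft true)
  have a : ∀ u v, (sg (sp k q r e) Sum.isLeft true).Adj u v ↔
      (sp k q r e).Adj u v ∧ u.isLeft = true ∧ v.isLeft = true := fun _ _ => Iff.rfl
  simp only [a, Fintype.sum_sum_type, a11_Sp, Sum.isLeft_inl, Sum.isLeft_inr,
    and_true, Bool.false_eq_true, and_false, indF_Sp, sum_const, smul_zero,
    add_zero] at h
  rw [ne_Sp] at h
  linarith

theorem sgF_Sp (k q r : ℕ) (e : Bool) (hq : 2 ≤ q) :
    ed (sg (sp k q r e) Sum.isLeft false) = (if e = true then 1 else 0) := by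
  have h := two_ed_Sp (sg (sp k q r e) Sum.isLeft false)
  have a : ∀ u v, (sg (sp k q r e) Sum.isLeft false).Adj u v ↔
      (sp k q r e).Adj u v ∧ u.isLeft = false ∧ v.isLeft = false := fun _ _ => Iff.rfl
  simp only [a, Fintype.sum_sum_type, sum_add_distrib, a22_Sp, a23_Sp, a32_Sp, a33_Sp,
    Sum.isLeft_inl, Sum.isLeft_inr, and_true, Bool.true_eq_false, and_false, indF_Sp,
    sum_const, smul_zero, add_zero, zero_add] at h
  rw [one_Sp q hq] at h
  linarith

theorem dK_Sp (k q r : ℕ) (e : Bool) (a : Fin q) :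
    dK (sp k q r e) Sum.isLeft (Sum.inr (Sum.inl a)) = k := by
  unfold dK
  rw [ct_Sp]
  simp only [Fintype.sum_sum_type, a21_Sp, Sum.isLeft_inl, Sum.isLeft_inr, and_true,
    Bool.false_eq_true, and_false, indT_Sp, indF_Sp, sum_const, smul_zero, add_zero, card_univ,
    Fintype.card_fin, nsmul_eq_mul, mul_one]

theorem spS : SpS := by
  intro k q r e hk hr hq
  refine ⟨?_, ed_Sp k q r e hr hq, ?_, sgF_Sp k q r e hq, ?_, ?_⟩
  · rintro (i | a | c)
    · exact ⟨Sum.inr (Sum.inl ⟨0, by omega⟩), trivial⟩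
    · exact ⟨Sum.inl ⟨0, by omega⟩, trivial⟩
    · refine ⟨Sum.inl ⟨0, by omega⟩, ?_⟩
      have := c.2
      show 0 < r
      omega
  · rw [ct_Sp]
    simp only [Fintype.sum_sum_type, Sum.isLeft_inl, Sum.isLeft_inr, Bool.false_eq_true, indT_Sp,
      indF_Sp, sum_const, smul_zero, add_zero, card_univ, Fintype.card_fin, nsmul_eq_mul, mul_one]
  · unfold jK
    rw [sgT_Sp]
    ring
  · have h : ct (Pt k (sp k q r e) Sum.isLeft) ≤
        ct (fun v : Fin k ⊕ Fin q ⊕ Fin (min r 1) => ∃ c, v = Sum.inr (Sum.inr c)) := by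
      refine ct_mono ?_
      rintro (i | a | c) hv
      · exact absurd hv.1 (by simp)
      · have := hv.2.2
        rw [dK_Sp] at this
        exact absurd this (lt_irrefl _)
      · exact ⟨c, rfl⟩
    refine h.trans ?_
    rw [ct_Sp]
    simp only [Fintype.sum_sum_type, reduceCtorEq, exists_false, Sum.inr.injEq, exists_eq',
      indT_Sp, indF_Sp, sum_const, smul_zero, zero_add, card_univ, Fintype.card_fin, nsmul_eq_mul,
      mul_one]
    exact_mod_cast min_le_right r 1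

end WR
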