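import Pool.Agent.MP_1392dc_co.TSt

namespace WR

open W5 WQ Finset
open scoped Classical

theorem edge_SpFree {k q r : ℕ} {e : Bool} {u v u' v' : Fin k ⊕ Fin q ⊕ Fin (min r 1)}
    (h : (sp k q r e).Adj u v) (h' : (sp k q r e).Adj u' v') (hu : u ∉ Set.range Sum.inl)
    (hv : v ∉ Set.range Sum.inl) (hu' : u' ∉ Set.range Sum.inl) (hv' : v' ∉ Set.range Sum.inl) :
    (u = u' ∧ v = v') ∨ (u = v' ∧ v = u') := by
  rcases u with u | u | u <;> rcases v with v | v | v <;> rcases u' with u' | u' | u' <;>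
    rcases v' with v' | v' | v' <;> first | (exfalso; simp_all [sp]; done) | skip
  have h1 := h.2
  have h2 := h'.2
  simp only [Sum.inr.injEq, Sum.inl.injEq, Fin.ext_iff]
  omega

theorem spFreeS : SpFreeS := by
  rintro k q r e hk n hn ⟨f⟩
  obtain ⟨m, rfl⟩ : ∃ m, n = m + 3 := ⟨n - 3, by omega⟩
  have hi : ∀ {i j : Fin (m + 3)}, f (some i) = f (some j) → i = j := fun h =>
    Option.some_injective _ (f.injective h)
  have hh : ∀ i, (sp k q r e).Adj (f none) (f (some i)) := fun i => f.toHom.map_adj trivial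
  have hc : ∀ i, (sp k q r e).Adj (f (some i)) (f (some (i + 1))) := fun i =>
    f.toHom.map_adj (show (SimpleGraph.cycleGraph (m + 1 + 2)).Adj i (i + 1) from
      SimpleGraph.cycleGraph_adj.2 (.inr (add_sub_cancel_left _ _)))
  set A := univ.filter fun i : Fin (m + 3) => f (some i) ∈ Set.range Sum.inl with hA
  have hA1 : A.card ≤ (((univ : Finset (Fin k)).map .inl).erase (f none)).card :=
    card_le_card_of_injOn (fun i => f (some i)) (fun i h => by
      obtain ⟨a, ha⟩ := (mem_filter.1 (mem_coe.1 h)).2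
      exact mem_coe.2 (mem_erase.2 ⟨(hh i).ne', mem_map.2 ⟨a, mem_univ _, ha⟩⟩))
      fun i _ j _ h => hi h
  by_cases h0 : f none ∈ Set.range Sum.inl
  · obtain ⟨a, ha⟩ := h0
    rw [card_erase_of_mem (mem_map.2 ⟨a, mem_univ _, ha⟩), card_map, card_fin] at hA1
    have h1 : (A ∪ A.image fun i => i - 1).card ≤ A.card + A.card :=
      (card_union_le _ _).trans (Nat.add_le_add_left card_image_le _)
    have h2 := card_compl (A ∪ A.image fun i => i - 1)
    rw [Fintype.card_fin] at h2
    obtain ⟨i, hi1, j, hj1, hij⟩ := one_lt_card.1 (by omega : 1 < (A ∪ A.image fun i => i - 1)ᶜ.card)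
    have e1 : ∀ i ∈ (A ∪ A.image fun i => i - 1)ᶜ, f (some i) ∉ Set.range Sum.inl ∧
        f (some (i + 1)) ∉ Set.range Sum.inl := fun i h => by
      rw [mem_compl, mem_union, not_or] at h
      exact ⟨fun g => h.1 (mem_filter.2 ⟨mem_univ _, g⟩), fun g => h.2 (mem_image.2
        ⟨i + 1, mem_filter.2 ⟨mem_univ _, g⟩, add_sub_cancel_right _ _⟩)⟩
    rcases edge_SpFree (hc i) (hc j) (e1 i hi1).1 (e1 i hi1).2 (e1 j hj1).1 (e1 j hj1).2 with
      h | h
    · exact hij (hi h.1)
    · have h3 := hi h.1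
      rw [← hi h.2, add_assoc, left_eq_add] at h3
      have := congrArg Fin.val h3
      simp [Fin.val_add, Nat.mod_eq_of_lt] at this
  · have h1 : Aᶜ.card ≤ 1 := card_le_one.2 fun i h j h' => by
      rw [mem_compl, hA, mem_filter] at h h'
      rcases edge_SpFree (hh i) (hh j) h0 (fun g => h ⟨mem_univ _, g⟩) h0
        (fun g => h' ⟨mem_univ _, g⟩) with g | g
      · exact hi g.2
      · exact absurd g.1 (hh j).ne
    have h2 := hA1.trans card_erase_le
    rw [card_compl, Fintype.card_fin] at h1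
    rw [card_map, card_fin] at h2
    omega

end WR
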