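import Pool.Agent.MP_1392dc_co.TSt

/-! Lower bounds for the spectral radius of the candidates, by test vectors. -/

namespace WR

open W5 WQ Finset
open scoped Classical

/-- the test vector -/
noncomputable def y_SpLow (k q r : ℕ) (e : Bool) (L β δ ρ : ℝ) :
    Fin k ⊕ Fin q ⊕ Fin (min r 1) → ℝ :=
  Sum.elim (fun _ => L) (Sum.elim (fun a => β + if e = true ∧ a.val ≤ 1 then δ else 0) fun _ => ρ)

theorem s3_SpLow {k r : ℕ} (h : r ≤ k) (c : ℝ) :
    ∑ i : Fin k, (if i.val < r then c else 0) = r * c := by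
  rw [Fin.sum_univ_eq_sum_range (fun i => if i < r then c else 0) k, ← sum_filter]
  have : (range k).filter (fun i => i < r) = range r := by
    ext i; simp only [mem_filter, mem_range]; omega
  rw [this, sum_const, card_range, nsmul_eq_mul]

theorem s2_SpLow {q : ℕ} (h : 2 ≤ q) (e : Bool) (δ : ℝ) :
    ∑ a : Fin q, (if e = true ∧ a.val ≤ 1 then δ else 0) = if e = true then 2 * δ else 0 := by
  cases e
  · simp
  · simpa [Nat.lt_succ_iff] using s3_SpLow h δ

theorem n1_SpLow {k q r : ℕ} (hq : 2 ≤ q) (e : Bool) (L β δ ρ : ℝ) (i : Fin k) :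
    ns (sp k q r e) (y_SpLow k q r e L β δ ρ) (Sum.inl i) =
      (k - 1) * L + (q * β + if e = true then 2 * δ else 0) + if i.val < r then ρ else 0 := by
  unfold ns
  rw [Fintype.sum_sum_type, Fintype.sum_sum_type, add_assoc]
  congr 1
  · have : ∀ j : Fin k, (if (sp k q r e).Adj (Sum.inl i) (Sum.inl j) then
        y_SpLow k q r e L β δ ρ (Sum.inl j) else 0) = L - if j = i then L else 0 := fun j => by
      have a : (sp k q r e).Adj (Sum.inl i) (Sum.inl j) ↔ i ≠ j := Iff.rfl
      by_cases c : j = i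
      · rw [if_neg (fun h => a.1 h c.symm), if_pos c, sub_self]
      · rw [if_pos (a.2 (Ne.symm c)), if_neg c, sub_zero]; rfl
    simp only [this, sum_sub_distrib, sum_const, card_univ, Fintype.card_fin, nsmul_eq_mul,
      sum_ite_eq', mem_univ, if_true]
    ring
  congr 1
  · have : ∀ a : Fin q, (if (sp k q r e).Adj (Sum.inl i) (Sum.inr (Sum.inl a)) then
        y_SpLow k q r e L β δ ρ (Sum.inr (Sum.inl a)) else 0) =
        β + if e = true ∧ a.val ≤ 1 then δ else 0 := fun a => if_pos trivial
    simp only [this]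
    rw [sum_add_distrib, s2_SpLow hq]
    simp
  · by_cases c : i.val < r
    · have : ∀ b : Fin (min r 1), (if (sp k q r e).Adj (Sum.inl i) (Sum.inr (Sum.inr b)) then
          y_SpLow k q r e L β δ ρ (Sum.inr (Sum.inr b)) else 0) = ρ := fun b => if_pos c
      simp only [this, if_pos c, sum_const, card_univ, Fintype.card_fin, nsmul_eq_mul]
      rw [min_eq_right (by omega)]; simp
    · rw [if_neg c]
      exact sum_eq_zero fun b _ => if_neg c

theorem n2_SpLow {k q r : ℕ} (hq : 2 ≤ q) (e : Bool) (L β δ ρ : ℝ) (a : Fin q) :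
    ns (sp k q r e) (y_SpLow k q r e L β δ ρ) (Sum.inr (Sum.inl a)) =
      k * L + if e = true ∧ a.val ≤ 1 then β + δ else 0 := by
  unfold ns
  rw [Fintype.sum_sum_type, Fintype.sum_sum_type]
  congr 1
  · have : ∀ j : Fin k, (if (sp k q r e).Adj (Sum.inr (Sum.inl a)) (Sum.inl j) then
        y_SpLow k q r e L β δ ρ (Sum.inl j) else 0) = L := fun j => if_pos trivial
    simp only [this, sum_const, card_univ, Fintype.card_fin, nsmul_eq_mul]
  have ad : ∀ b : Fin q, (sp k q r e).Adj (Sum.inr (Sum.inl a)) (Sum.inr (Sum.inl b)) ↔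
      e = true ∧ a.val + b.val = 1 := fun b => Iff.rfl
  rw [sum_eq_zero (s := (univ : Finset (Fin (min r 1)))) fun b _ => by exact if_neg id, add_zero]
  by_cases c : e = true ∧ a.val ≤ 1
  · rw [if_pos c, sum_eq_single (⟨1 - a.val, by omega⟩ : Fin q)]
    · rw [if_pos ((ad _).2 ⟨c.1, by have := c.2; simp only; omega⟩)]
      exact congrArg (β + ·) (if_pos ⟨c.1, by simp only; omega⟩)
    · intro b _ hb
      exact if_neg fun h => hb (Fin.ext (by have := ((ad b).1 h).2; simp only; omega))
    · simp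
  · rw [if_neg c]
    exact sum_eq_zero fun b _ => if_neg fun h => c ⟨((ad b).1 h).1, by
      have := ((ad b).1 h).2; omega⟩

theorem n3_SpLow {k q r : ℕ} (hr : r ≤ k) (e : Bool) (L β δ ρ : ℝ) (b : Fin (min r 1)) :
    ns (sp k q r e) (y_SpLow k q r e L β δ ρ) (Sum.inr (Sum.inr b)) = r * L := by
  unfold ns
  rw [Fintype.sum_sum_type, Fintype.sum_sum_type,
    sum_eq_zero (s := (univ : Finset (Fin (min r 1)))) fun b _ => by exact if_neg id,
    sum_eq_zero (s := (univ : Finset (Fin q))) fun b _ => by exact if_neg id, add_zero, add_zero,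
    ← s3_SpLow hr]
  exact sum_congr rfl fun i _ => if_congr Iff.rfl rfl rfl

theorem spLowS : SpLowS := by
  intro k q r e hk hr hq
  have ray := (perS _ (sp k q r e)).2.1
  generalize lam (sp k q r e) = L at ray ⊢
  have hk' : (3 : ℝ) ≤ k := by exact_mod_cast hk
  have dif : ∀ y, ∑ u, y u * (ns (sp k q r e) y u - L * y u) ≤ 0 := fun y => by
    have h := ray y
    unfold qf nn at h
    rw [mul_sum, ← sub_nonpos, ← sum_sub_distrib] at h
    exact (sum_congr rfl fun u _ => by ring).trans_le h
  have h1 : (k : ℝ) - 1 ≤ L := by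
    have h := dif (y_SpLow k q r e 1 0 0 0)
    rw [Fintype.sum_sum_type, Fintype.sum_sum_type] at h
    simp only [n1_SpLow hq] at h
    simp [y_SpLow] at h
    nlinarith
  refine ⟨h1, ?_⟩
  have hL : 0 < L - 1 := by linarith
  have h := dif (y_SpLow k q r e L k (k / (L - 1)) r)
  rw [Fintype.sum_sum_type, Fintype.sum_sum_type,
    sum_eq_zero (s := (univ : Finset (Fin (min r 1)))) fun b _ => by
      rw [n3_SpLow hr.le]; simp only [y_SpLow, Sum.elim_inr]; ring,
    sum_eq_zero (s := (univ : Finset (Fin q))) fun a _ => by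
      rw [n2_SpLow hq]
      simp only [y_SpLow, Sum.elim_inr, Sum.elim_inl]
      refine mul_eq_zero_of_right _ ?_
      split_ifs
      · field_simp; ring
      · ring, add_zero, add_zero] at h
  simp only [n1_SpLow hq] at h
  simp only [y_SpLow, Sum.elim_inl] at h
  rw [← mul_sum, sum_sub_distrib, sum_add_distrib, s3_SpLow hr.le] at h
  simp only [sum_const, card_univ, Fintype.card_fin, nsmul_eq_mul] at h
  have h2 := nonpos_of_mul_nonpos_right h (by linarith)
  have e1 : (if e = true then 2 * (k : ℝ) / (L - 1) else 0) =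
      if e = true then 2 * ((k : ℝ) / (L - 1)) else 0 := by rw [mul_div_assoc]
  rw [e1]
  generalize (if e = true then 2 * ((k : ℝ) / (L - 1)) else 0) = E at h2 ⊢
  have h3 : (r : ℝ) ^ 2 / k ≤ L ^ 2 - (k - 1) * L - k * q - E := by
    rw [div_le_iff₀ (by linarith)]
    linarith
  linarith

end WR
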