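import Pool.Agent.MP_1392dc_co.RSt
import Pool.Agent.MP_1392dc_co.St2

/-! Nonzero residues: working definitions and the statements of the steps of the proof. -/

namespace WR

open W5 WQ Finset
open scoped Classical

section
variable {V : Type} [Fintype V]

/-- Number of neighbours on side `true`. -/
noncomputable def dK (G : SimpleGraph V) (σ : V → Bool) (v : V) : ℝ :=
  ct fun u => G.Adj v u ∧ σ u = true
/-- Sum of `y` over the neighbours on side `c`. -/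
noncomputable def sN (G : SimpleGraph V) (σ : V → Bool) (y : V → ℝ) (c : Bool) (v : V) : ℝ :=
  ∑ u, if G.Adj v u ∧ σ u = c then y u else 0
/-- Sum of `y` over side `true`. -/
noncomputable def SK (σ : V → Bool) (y : V → ℝ) : ℝ := ∑ u, if σ u = true then y u else 0
/-- Sum of a function over side `false`. -/
noncomputable def sF (σ : V → Bool) (f : V → ℝ) : ℝ := ∑ v, if σ v = false then f v else 0
/-- Sum of `y u * y v` over the ordered non-adjacent pairs of side `true`. -/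
noncomputable def M2 (G : SimpleGraph V) (σ : V → Bool) (y : V → ℝ) : ℝ :=
  ∑ u, ∑ v, if σ u = true ∧ σ v = true ∧ u ≠ v ∧ ¬ G.Adj u v then y u * y v else 0
/-- Number of missing edges on side `true`. -/
noncomputable def jK (k : ℕ) (G : SimpleGraph V) (σ : V → Bool) : ℝ :=
  k * ((k : ℝ) - 1) / 2 - ed (sg G σ true)
/-- Number of edges on side `false`. -/
noncomputable def tF (G : SimpleGraph V) (σ : V → Bool) : ℝ := ed (sg G σ false)
/-- Joined to some but not all of side `true`. -/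
def Pt (k : ℕ) (G : SimpleGraph V) (σ : V → Bool) (v : V) : Prop :=
  σ v = false ∧ 0 < dK G σ v ∧ dK G σ v < k
/-- Joined to all of side `true`. -/
def Fu (k : ℕ) (G : SimpleGraph V) (σ : V → Bool) (v : V) : Prop := σ v = false ∧ dK G σ v = k
/-- Distance of the degree from `0` and `k`. -/
noncomputable def aV (k : ℕ) (G : SimpleGraph V) (σ : V → Bool) (v : V) : ℝ :=
  min (dK G σ v) (k - dK G σ v)
noncomputable def AA (k : ℕ) (G : SimpleGraph V) (σ : V → Bool) : ℝ := sF σ (aV k G σ)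
noncomputable def ZZ (k : ℕ) (G : SimpleGraph V) (σ : V → Bool) : ℝ :=
  sF σ fun v => aV k G σ v ^ 2
noncomputable def Gam (G : SimpleGraph V) (σ : V → Bool) (y : V → ℝ) : ℝ :=
  sF σ fun v => sN G σ y true v * sN G σ y false v
/-- An edge on side `false` both of whose ends see nine tenths of side `true`. -/
def RE (k : ℕ) (G : SimpleGraph V) (σ : V → Bool) (v w : V) : Prop :=
  G.Adj v w ∧ σ v = false ∧ σ w = false ∧ 9 * (k : ℝ) ≤ 10 * dK G σ v ∧ 9 * (k : ℝ) ≤ 10 * dK G σ w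

/-- The coarse structure of a graph close to the extremal one. -/
structure Str (k m : ℕ) (G : SimpleGraph V) (σ : V → Bool) : Prop where
  k3 : 3 ≤ k
  hm : ed G = m
  big : 10 ^ 68 * (k : ℝ) ^ 2 ≤ m
  hK : ct (fun v => σ v = true) = k
  ht : tF G σ ≤ 10 ^ 7 * k
  hj : jK k G σ ≤ k / 10 ^ 29
  hP : ct (Pt k G σ) ≤ 10 ^ 7 * k

/-- The coarse structure together with a Perron vector of weight one on side `true`. -/
structure Ctx (k m : ℕ) (G : SimpleGraph V) (σ : V → Bool) (L : ℝ) (y : V → ℝ) : Prop where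
  str : Str k m G σ
  pos : ∀ v, 0 ≤ y v
  eig : ∀ v, ns G y v = L * y v
  nrm : sw y σ true = 1
  L1 : 10 ^ 30 * (k : ℝ) ≤ L
  L2 : L ^ 2 ≤ 2 * m
  psi : m - k * ((k : ℝ) - 1) / 2 - k / 4 ≤ L ^ 2 - ((k : ℝ) - 1) * L

theorem ns_split (G : SimpleGraph V) (σ : V → Bool) (y : V → ℝ) (v : V) :
    ns G y v = sN G σ y true v + sN G σ y false v := by
  unfold ns sN
  rw [← sum_add_distrib]
  refine sum_congr rfl fun u _ => ?_
  by_cases h : G.Adj v u <;> cases σ u <;> simp [h]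

theorem sN_nonneg (G : SimpleGraph V) (σ : V → Bool) {y : V → ℝ} (h : ∀ v, 0 ≤ y v) (c : Bool)
    (v : V) : 0 ≤ sN G σ y c v :=
  sum_nonneg fun u _ => by
    split_ifs
    · exact h u
    · exact le_rfl

theorem sN_le (G : SimpleGraph V) (σ : V → Bool) {y : V → ℝ} (h : ∀ v, 0 ≤ y v) (v : V) :
    sN G σ y true v ≤ SK σ y :=
  sum_le_sum fun u _ => by
    by_cases a : σ u = true
    · by_cases b : G.Adj v u <;> simp [a, b, h u]
    · simp [a]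

theorem dK_nonneg (G : SimpleGraph V) (σ : V → Bool) (v : V) : 0 ≤ dK G σ v := ct_nonneg _

theorem dK_nat (G : SimpleGraph V) (σ : V → Bool) (v : V) : ∃ n : ℕ, dK G σ v = n :=
  ⟨_, ct_eq _⟩

theorem sF_mono (σ : V → Bool) {f g : V → ℝ} (h : ∀ v, σ v = false → f v ≤ g v) :
    sF σ f ≤ sF σ g :=
  sum_le_sum fun v _ => by
    split_ifs with a
    · exact h v a
    · exact le_rfl

theorem dg_le_ed (G : SimpleGraph V) (v : V) : dg G v ≤ ed G := by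
  have h : ∑ u, ((if u = v then dg G v else 0) + if G.Adj v u then 1 else 0) ≤ ∑ u, dg G u := by
    refine sum_le_sum fun u _ => ?_
    by_cases a : u = v
    · subst a
      simp
    · rw [if_neg a, zero_add]
      split_ifs with b
      · exact le_trans (by simp [b.symm]) (single_le_sum (f := fun w => if G.Adj u w then (1 : ℝ) else 0)
          (fun w _ => by split_ifs <;> norm_num) (mem_univ v))
      · exact dg_nonneg G u
  rw [sum_add_distrib, sum_ite_eq' univ v, if_pos (mem_univ v)] at h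
  have e : (∑ u, if G.Adj v u then (1 : ℝ) else 0) = dg G v := rfl
  unfold ed
  linarith

variable {k m : ℕ} {G : SimpleGraph V} {σ : V → Bool}

theorem Str.kR (h : Str k m G σ) : (3 : ℝ) ≤ k := by exact_mod_cast h.k3

theorem Str.dK_le (h : Str k m G σ) (v : V) : dK G σ v ≤ k := by
  rw [← h.hK]
  exact ct_mono fun u a => a.2

theorem Str.aV_nonneg (h : Str k m G σ) (v : V) : 0 ≤ aV k G σ v :=
  le_min (dK_nonneg G σ v) (sub_nonneg.2 (h.dK_le v))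

theorem Str.AA_nonneg (h : Str k m G σ) : 0 ≤ AA k G σ :=
  sum_nonneg fun v _ => by
    split_ifs
    · exact h.aV_nonneg v
    · exact le_rfl

theorem Str.full (h : Str k m G σ) {v u : V} (hv : dK G σ v = k) (hu : σ u = true) :
    G.Adj v u := by
  by_contra hn
  have h1 : (univ.filter fun w => G.Adj v w ∧ σ w = true) ⊂ univ.filter fun w => σ w = true := by
    refine ⟨fun w hw => ?_, fun hs => ?_⟩
    · simp only [mem_filter, mem_univ, true_and] at hw ⊢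
      exact hw.2
    · have := hs (mem_filter.2 ⟨mem_univ u, hu⟩)
      exact hn (mem_filter.1 this).2.1
  have h2 := card_lt_card h1
  have h3 := h.hK
  unfold dK at hv
  rw [ct_eq] at hv h3
  have h4 : ((univ.filter fun w => G.Adj v w ∧ σ w = true).card : ℝ) <
      (univ.filter fun w => σ w = true).card := by exact_mod_cast h2
  have e1 : ((univ.filter fun w => G.Adj v w ∧ σ w = true).card : ℝ) = k := by convert hv
  have e2 : ((univ.filter fun w => σ w = true).card : ℝ) = k := by convert h3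
  linarith

end

def HstrS : Prop := ∀ (V : Type) [Fintype V] (k : ℕ) (H : SimpleGraph V) (l : ℝ) (x : V → ℝ)
  (u0 : V), Core k H l x → (∀ v, x v ≤ x u0) → 0 < x u0 → Par k H (hs x u0) →
    (∀ u v, ¬ (sg H (hs x u0) false).Adj u v) →
    l ^ 2 - ((k : ℝ) - 1) * l + k * ((k : ℝ) - 1) / 2 ≤ ed H ∧
    ct (fun v => hs x u0 v = true) = k ∧ jK k H (hs x u0) ≤ k / 10 ^ 29 ∧
    ct (fun v => hs x u0 v = false ∧ NI H v ∧ ∃ u, hs x u0 u = true ∧ ¬ H.Adj v u) ≤ 134 * k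

def PassS : Prop := ∀ (V : Type) [Fintype V] (k : ℕ) (G H : SimpleGraph V) (σ : V → Bool),
  H ≤ G → ct (fun v => σ v = true) = k → (∀ u v, ¬ (sg H σ false).Adj u v) →
    tF G σ ≤ ed G - ed H ∧ jK k G σ ≤ jK k H σ ∧
    ct (Pt k G σ) ≤ ct (fun v => σ v = false ∧ NI H v ∧ ∃ u, σ u = true ∧ ¬ H.Adj v u) +
      (ed G - ed H)

def EigS : Prop := ∀ (V : Type) [Fintype V] (k m : ℕ) (G : SimpleGraph V) (σ : V → Bool),
  Str k m G σ → m - k * ((k : ℝ) - 1) / 2 - k / 4 ≤ lam G ^ 2 - ((k : ℝ) - 1) * lam G →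
    ∃ y, Ctx k m G σ (lam G) y

def IdS : Prop := ∀ (V : Type) [Fintype V] (G : SimpleGraph V) (σ : V → Bool) (L : ℝ)
  (y : V → ℝ), (∀ v, ns G y v = L * y v) → sw y σ true = 1 →
    L ^ 2 + L = L * SK σ y ^ 2 - L * M2 G σ y + sF σ (fun v => sN G σ y true v ^ 2) + Gam G σ y

def SvS : Prop := ∀ (V : Type) [Fintype V] (k m : ℕ) (G : SimpleGraph V) (σ : V → Bool) (L : ℝ)
  (y : V → ℝ), Ctx k m G σ L y → SK σ y ^ 2 ≤ k ∧
    (∀ u, σ u = true → (y u - SK σ y / k) ^ 2 ≤ (k - SK σ y ^ 2) / k) ∧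
    (∀ v, dK G σ v = k → sN G σ y true v = SK σ y) ∧
    (∀ v, dK G σ v = 0 → sN G σ y true v = 0) ∧
    ∀ (v : V) (β : ℝ), 0 < β → 0 < dK G σ v → dK G σ v < k →
      sN G σ y true v ^ 2 ≤ dK G σ v ^ 2 / k + β * aV k G σ v + (k - SK σ y ^ 2) / β +
        (k - SK σ y ^ 2)

def CntS : Prop := ∀ (V : Type) [Fintype V] (k m : ℕ) (G : SimpleGraph V) (σ : V → Bool),
  Str k m G σ → (m : ℝ) = k * ((k : ℝ) - 1) / 2 - jK k G σ + sF σ (dK G σ) + tF G σ ∧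
    (m : ℝ) ≤ 2 * k * ct (Fu k G σ) ∧ 2 * jK k G σ = M2 G σ (fun _ => 1) ∧
    (∃ j : ℕ, jK k G σ = j) ∧ ∃ t : ℕ, tF G σ = t

def Cnt2S : Prop := ∀ (V : Type) [Fintype V] (k m : ℕ) (G : SimpleGraph V) (σ : V → Bool),
  Str k m G σ → ∃ A B n P : ℕ, sF σ (dK G σ) = k * n + A - B ∧ AA k G σ = A + B ∧
    ct (Pt k G σ) = P ∧
    sF σ (fun v => dK G σ v ^ 2 / k) = sF σ (dK G σ) - AA k G σ + ZZ k G σ / k ∧
    0 ≤ ZZ k G σ ∧ 2 * ZZ k G σ ≤ k * AA k G σ ∧ ZZ k G σ ≤ (A : ℝ) ^ 2 + (B : ℝ) ^ 2 ∧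
    ((P : ℝ) - 1) * AA k G σ ≤ AA k G σ ^ 2 - ZZ k G σ ∧ (P = 0 → AA k G σ = 0) ∧
    (P : ℝ) ≤ AA k G σ ∧ (P = 1 → ∀ v, σ v = false → 0 < aV k G σ v → AA k G σ = aV k G σ v)

def MainS : Prop := ∀ (V : Type) [Fintype V] (k m : ℕ) (G : SimpleGraph V) (σ : V → Bool) (L : ℝ)
  (y : V → ℝ), Ctx k m G σ L y →
    L ^ 2 - ((k : ℝ) - 1) * L - m + k * ((k : ℝ) - 1) / 2 ≤
      -((k - SK σ y ^ 2) * L ^ 2 / (8 * k)) - L * M2 G σ y + jK k G σ -
        (AA k G σ - ZZ k G σ / k) + 16 * ct (Pt k G σ) * k / L ^ 2 * AA k G σ - tF G σ + Gam G σ y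

def XS : Prop := ∀ (V : Type) [Fintype V] (k m : ℕ) (G : SimpleGraph V) (σ : V → Bool) (L : ℝ)
  (y : V → ℝ), Ctx k m G σ L y →
    (∀ v, σ v = false → L * y v ≤ 1.0001 * SK σ y) ∧ Gam G σ y ≤ tF G σ

def UniS : Prop := ∀ (V : Type) [Fintype V] (k m : ℕ) (G : SimpleGraph V) (σ : V → Bool) (L : ℝ)
  (y : V → ℝ), Ctx k m G σ L y →
    (∀ u, σ u = true → 0.99 ≤ SK σ y * y u ∧ SK σ y * y u ≤ 1.01) ∧
    10 ^ 30 * jK k G σ ≤ L * M2 G σ y

def Rich1S : Prop := ∀ (V : Type) [Fintype V] (k : ℕ) (G : SimpleGraph V) (σ : V → Bool) (u : V)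
  (c b : ℕ → V) (v w v' w' : V), 3 ≤ k → Free k G →
    (∀ i < k - 1, ∀ j < k - 1, c i = c j → i = j) → (∀ i < k - 1, ∀ j < k - 1, b i = b j → i = j) →
    (∀ i < k - 1, σ (c i) = true ∧ σ (b i) = false ∧ G.Adj u (c i) ∧ G.Adj u (b i) ∧
      b i ≠ v ∧ b i ≠ w ∧ b i ≠ v' ∧ b i ≠ w') →
    (∀ i < k - 1, ∀ j < k - 1, G.Adj (c i) (b j)) →
    (∀ z, z = v ∨ z = w ∨ z = v' ∨ z = w' →
      σ z = false ∧ G.Adj u z ∧ ∀ i < 3, i < k - 1 → G.Adj (c i) z) →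
    G.Adj v w → G.Adj v' w' → (v' = v ∧ w' = w) ∨ (v' = w ∧ w' = v)

def RichS : Prop := ∀ (V : Type) [Fintype V] (k m : ℕ) (G : SimpleGraph V) (σ : V → Bool),
  Str k m G σ → Free k G → ∀ v w v' w', RE k G σ v w → RE k G σ v' w' →
    (v' = v ∧ w' = w) ∨ (v' = w ∧ w' = v)

def Gam1S : Prop := ∀ (V : Type) [Fintype V] (k m : ℕ) (G : SimpleGraph V) (σ : V → Bool) (L : ℝ)
  (y : V → ℝ), Ctx k m G σ L y → ∀ v w, (sg G σ false).Adj v w →
    (¬ RE k G σ v w → sN G σ y true v * y w + sN G σ y true w * y v ≤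
      19 * AA k G σ / L + 2 * tF G σ * k / L ^ 2) ∧
    sN G σ y true v * y w + sN G σ y true w * y v ≤
      (2 * k - 0.99 * ((k - dK G σ v) + (k - dK G σ w))) / (L - 1) + 3 * (tF G σ - 1) * k / L ^ 2

def Gam2S : Prop := ∀ (V : Type) [Fintype V] (k m : ℕ) (G : SimpleGraph V) (σ : V → Bool) (L : ℝ)
  (y : V → ℝ), Ctx k m G σ L y → Free k G →
    ((∀ v w, ¬ RE k G σ v w) →
      Gam G σ y ≤ 19 * tF G σ * AA k G σ / L + 7 * tF G σ ^ 2 * k / L ^ 2) ∧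
    ∀ v w, RE k G σ v w → 1 ≤ tF G σ ∧
      Gam G σ y ≤ (2 * k - 0.99 * ((k - dK G σ v) + (k - dK G σ w))) / (L - 1) +
        19 * (tF G σ - 1) * AA k G σ / L + 7 * (tF G σ - 1) ^ 2 * k / L ^ 2

def AriS : Prop := ∀ (k r A B t j P : ℕ) (c : ℤ) (L Z δ : ℝ), 3 ≤ k → r < k →
  (A : ℤ) + t - B - j = r + k * c → 10 ^ 30 * (k : ℝ) ≤ L → 0 ≤ Z →
  2 * Z ≤ k * ((A : ℝ) + B) → Z ≤ (A : ℝ) ^ 2 + (B : ℝ) ^ 2 →
  ((P : ℝ) - 1) * ((A : ℝ) + B) ≤ ((A : ℝ) + B) ^ 2 - Z → (P = 0 → (A : ℝ) + B = 0) →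
  (P : ℝ) ≤ (A : ℝ) + B → (P : ℝ) ≤ 10 ^ 7 * k → (t : ℝ) ≤ 10 ^ 7 * k → 0 ≤ δ →
  (P = 1 → δ = 0 ∨ (A : ℝ) + B ≤ δ) →
  -((r : ℝ) - (r : ℝ) ^ 2 / k) ≤ -(10 ^ 29 * (j : ℝ)) - ((A : ℝ) + B - Z / k) +
    16 * P * k / L ^ 2 * ((A : ℝ) + B) - t + 19 * t * ((A : ℝ) + B) / L +
    7 * (t : ℝ) ^ 2 * k / L ^ 2 - 0.99 * δ / (L - 1) →
  t = 0 ∧ j = 0 ∧ P ≤ 1 ∧ δ = 0

def Iso2S : Prop := ∀ (V : Type) [Fintype V] (k q r : ℕ) (e : Bool) (G : SimpleGraph V)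
  (σ : V → Bool) (R : V → Prop), r < k → ct (fun v => σ v = true) = k →
    (∀ u v, σ u = true → σ v = true → u ≠ v → G.Adj u v) →
    (∀ w, R w → σ w = false ∧ dK G σ w = r) → ct R = (min r 1 : ℕ) →
    ct (fun v => σ v = false ∧ ¬ R v) = q →
    (∀ u v, σ u = true → σ v = false → ¬ R v → G.Adj u v) →
    (e = false → ∀ u v, ¬ (sg G σ false).Adj u v) →
    (e = true → ∃ a b, a ≠ b ∧ σ a = false ∧ σ b = false ∧ ¬ R a ∧ ¬ R b ∧
      ∀ u v, (sg G σ false).Adj u v ↔ (u = a ∧ v = b) ∨ (u = b ∧ v = a)) →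
    Nonempty (G ≃g sp k q r e)

def ExcS : Prop := ∀ (V : Type) [Fintype V] (k m q r : ℕ) (e : Bool) (G : SimpleGraph V)
  (σ : V → Bool), Str k m G σ → (∀ u, NI G u) → r < k →
    (m : ℝ) = k * ((k : ℝ) - 1) / 2 + k * q + r + (if e = true then 1 else 0) →
    jK k G σ = 0 → ct (Pt k G σ) ≤ 1 → tF G σ = (if e = true then 1 else 0) →
    (e = true → ∃ a b, G.Adj a b ∧ Fu k G σ a ∧ Fu k G σ b) →
    Nonempty (G ≃g sp k q r e) ∧ AA k G σ - ZZ k G σ / k = r - (r : ℝ) ^ 2 / k ∧ AA k G σ ≤ r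

def SpS : Prop := ∀ (k q r : ℕ) (e : Bool), 3 ≤ k → r < k → 2 ≤ q →
  (∀ u, NI (sp k q r e) u) ∧
  ed (sp k q r e) = k * ((k : ℝ) - 1) / 2 + k * q + r + (if e = true then 1 else 0) ∧
  ct (fun v : Fin k ⊕ Fin q ⊕ Fin (min r 1) => v.isLeft = true) = k ∧
  tF (sp k q r e) Sum.isLeft = (if e = true then 1 else 0) ∧
  jK k (sp k q r e) Sum.isLeft = 0 ∧ ct (Pt k (sp k q r e) Sum.isLeft) ≤ 1

def SpFreeS : Prop := ∀ (k q r : ℕ) (e : Bool), 3 ≤ k → ∀ n, 2 * k ≤ n →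
  ¬ (wheel n).IsContained (sp k q r e)

def SpLowS : Prop := ∀ (k q r : ℕ) (e : Bool), 3 ≤ k → r < k → 2 ≤ q →
  (k : ℝ) - 1 ≤ lam (sp k q r e) ∧
  k * q + (r : ℝ) ^ 2 / k + (if e = true then 2 * k / (lam (sp k q r e) - 1) else 0) ≤
    lam (sp k q r e) ^ 2 - ((k : ℝ) - 1) * lam (sp k q r e)

def LamS : Prop := ∀ (V W : Type) [Fintype V] [Fintype W] (G : SimpleGraph V)
  (G' : SimpleGraph W), Nonempty (G ≃g G') → lam G = lam G'

def DicS : Prop := ∀ k r m L A : ℝ, 3 ≤ k → 1 ≤ r → r ≤ k → 10 ^ 68 * k ^ 2 ≤ m → 10 ^ 30 * k ≤ L →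
  0 ≤ A → A ≤ r → m - k * (k - 1) / 2 - k / 4 ≤ L ^ 2 - (k - 1) * L →
  L ^ 2 - (k - 1) * L ≤ m →
    (2 * k / (L - 1) ≤ (2 * r - 1) / k + 16 * k / L ^ 2 * A → 3 * k ^ 4 < (2 * r - 1) ^ 2 * m) ∧
    ((2 * r - 1) / k ≤ 2 * k / (L - 1) + 16 * k / L ^ 2 * A → (2 * r - 1) ^ 2 * m < 5 * k ^ 4)

end WR
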