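import Pool.Agent.MP_1392dc_co.TSt

namespace WR

open W5 WQ Finset
open scoped Classical

theorem ari_Sv {k S d s a β D : ℝ} (hk : 0 < k) (hS : S ^ 2 ≤ k) (hβ : 0 < β) (hd : 0 < d)
    (hdk : d < k) (ha : a = min d (k - d)) (hD : D = s - d * S / k)
    (h : D ^ 2 ≤ (d - d ^ 2 / k) * ((k - S ^ 2) / k)) :
    s ^ 2 ≤ d ^ 2 / k + β * a + (k - S ^ 2) / β + (k - S ^ 2) := by
  have e0 : 0 ≤ k - S ^ 2 := by linarith
  have a0 : 0 < a := by rw [ha]; exact lt_min hd (by linarith)
  have ak : a ≤ k := by rw [ha]; exact (min_le_left _ _).trans hdk.le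
  have h1 : d - d ^ 2 / k ≤ a := by
    have x : d - d ^ 2 / k = d * (k - d) / k := by field_simp
    rw [ha]
    refine le_min (by have : 0 ≤ d ^ 2 / k := by positivity
                      linarith) ?_
    rw [x, div_le_iff₀ hk]
    nlinarith
  have h2 : D ^ 2 * k ≤ a * (k - S ^ 2) := by
    have := h.trans (mul_le_mul_of_nonneg_right h1 (div_nonneg e0 hk.le))
    rwa [← mul_div_assoc, le_div_iff₀ hk] at this
  have h3 : D ^ 2 ≤ k - S ^ 2 := by
    refine le_of_mul_le_mul_right (h2.trans ?_) hk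
    nlinarith
  set x := d * S / k with hx
  have h4 : x ^ 2 ≤ d ^ 2 / k := by
    rw [hx, div_pow, mul_pow, div_le_div_iff₀ (by positivity) hk]
    have := mul_le_mul_of_nonneg_left hS (show 0 ≤ d ^ 2 * k by positivity)
    nlinarith
  have h5 : x ^ 2 ≤ k := by
    refine h4.trans ?_
    rw [div_le_iff₀ hk]
    nlinarith
  have h6 : (x * D) ^ 2 ≤ a * (k - S ^ 2) := by
    have := mul_le_mul_of_nonneg_right h5 (sq_nonneg D)
    nlinarith
  have h7 : 2 * (x * D) ≤ β * a + (k - S ^ 2) / β := by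
    refine abs_le_of_sq_le_sq' ?_ (by positivity) |>.2
    have e : β * a * ((k - S ^ 2) / β) = a * (k - S ^ 2) := by field_simp
    nlinarith [sq_nonneg (β * a - (k - S ^ 2) / β)]
  have e : s = x + D := by rw [hD]; ring
  rw [e]
  nlinarith

theorem svS : SvS := by
  intro V _ k m G σ L y h
  have hk : (0 : ℝ) < k := by linarith [h.str.kR]
  set K := univ.filter fun u => σ u = true with hK
  have c1 : (K.card : ℝ) = k := by
    rw [← h.str.hK, ct_eq]
    convert rfl
  have c2 : SK σ y = ∑ u ∈ K, y u := by rw [SK, hK, sum_filter]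
  have c3 : ∑ u ∈ K, y u ^ 2 = 1 := by
    rw [← h.nrm, sw, wt, hK, sum_filter]
    refine sum_congr rfl fun u _ => ?_
    by_cases b : σ u = true <;> simp [b]
  have c4 : ∀ v, dK G σ v = ∑ u ∈ K, if G.Adj v u then (1 : ℝ) else 0 := fun v => by
    rw [dK, ct, hK, sum_filter]
    refine sum_congr rfl fun u _ => ?_
    by_cases a : G.Adj v u <;> by_cases b : σ u = true <;> simp [a, b]
  have c5 : ∀ v, sN G σ y true v = ∑ u ∈ K, (if G.Adj v u then (1 : ℝ) else 0) * y u := fun v => by
    rw [sN, hK, sum_filter]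
    refine sum_congr rfl fun u _ => ?_
    by_cases a : G.Adj v u <;> by_cases b : σ u = true <;> simp [a, b]
  have var : ∑ u ∈ K, (y u - SK σ y / k) ^ 2 = (k - SK σ y ^ 2) / k := by
    simp only [sub_sq, sum_add_distrib, sum_sub_distrib, ← sum_mul, ← mul_sum, c3, ← c2, sum_const,
      nsmul_eq_mul, c1]
    field_simp
    ring
  have hS : SK σ y ^ 2 ≤ k := by
    have : 0 ≤ (k - SK σ y ^ 2) / k := var ▸ sum_nonneg fun _ _ => sq_nonneg _
    have := (div_nonneg_iff.1 this).resolve_right fun a => absurd a.2 (not_le.2 hk)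
    linarith [this.1]
  refine ⟨hS, fun u hu => ?_, fun v hv => ?_, fun v hv => ?_, fun v β hβ h1 h2 => ?_⟩
  · rw [← var]
    exact single_le_sum (f := fun u => (y u - SK σ y / k) ^ 2) (fun _ _ => sq_nonneg _)
      (mem_filter.2 ⟨mem_univ u, hu⟩)
  · rw [c5, c2]
    exact sum_congr rfl fun u hu => by rw [if_pos (h.str.full hv (mem_filter.1 hu).2), one_mul]
  · rw [c4, sum_eq_zero_iff_of_nonneg fun u _ => by split_ifs <;> norm_num] at hv
    rw [c5]
    exact sum_eq_zero fun u hu => by rw [hv u hu, zero_mul]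
  · refine ari_Sv hk hS hβ h1 h2 rfl rfl ?_
    have cs := sum_mul_sq_le_sq_mul_sq K
      (fun u => (if G.Adj v u then (1 : ℝ) else 0) - dK G σ v / k) (fun u => y u - SK σ y / k)
    have sq : ∑ u ∈ K, (if G.Adj v u then (1 : ℝ) else 0) ^ 2 = dK G σ v := by
      rw [c4]
      exact sum_congr rfl fun u _ => by split_ifs <;> norm_num
    have e1 : ∑ u ∈ K, ((if G.Adj v u then (1 : ℝ) else 0) - dK G σ v / k) ^ 2 =
        dK G σ v - dK G σ v ^ 2 / k := by
      simp only [sub_sq, sum_add_distrib, sum_sub_distrib, ← sum_mul, ← mul_sum, sq, ← c4,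
        sum_const, nsmul_eq_mul, c1]
      field_simp
      ring
    have e2 : ∑ u ∈ K, ((if G.Adj v u then (1 : ℝ) else 0) - dK G σ v / k) *
        (y u - SK σ y / k) = sN G σ y true v - dK G σ v * SK σ y / k := by
      simp only [sub_mul, mul_sub, sum_sub_distrib, ← sum_mul, ← mul_sum, ← c5, ← c4, ← c2,
        sum_const, nsmul_eq_mul, c1]
      field_simp
      ring
    rwa [var, e1, e2] at cs

end WR
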