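import Pool.Agent.MP_1392dc_co.TSt
import Pool.Agent.MP_1392dc_co.RC

/-! Nonzero residues: the steps put together. -/

namespace WR

open W5 WQ Finset
open scoped Classical

theorem str_Up (hC : CoreS) (hL : LightS) (hX : XbS) (hF : LfinS) (h2 : H2S) (h3 : H3S)
    (h4 : H4S) (h5 : HstrS) (h6 : PassS) {V : Type} [Fintype V] {k m : ℕ} {G : SimpleGraph V}
    (hk : 3 ≤ k) (hf : Free k G) (hm : ed G = m) (hb : 10 ^ 68 * (k : ℝ) ^ 2 ≤ m)
    (hψ : m - k * ((k : ℝ) - 1) / 2 - k / 4 ≤ lam G ^ 2 - ((k : ℝ) - 1) * lam G) :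
    ∃ σ, Str k m G σ := by
  obtain ⟨H, l, x, hHG, hc, hpot⟩ := hC V k G hk hf (by rw [hm]; exact hb) (by rw [hm]; linarith)
  obtain ⟨u0, a1, a2, a3, a4⟩ := heavy_Up hL hX hF h2 h3 h4 hc
  obtain ⟨b1, b2, b3, b4⟩ := h5 V k H l x u0 hc a1 a2 a3 a4
  obtain ⟨c1, c2, c3⟩ := h6 V k G H (hs x u0) hHG b2 a4
  have kR := hc.kR
  have hν : ed G - ed H ≤ 5120000 * k := by
    unfold eps at hpot
    linarith
  exact ⟨hs x u0, hk, hm, hb, b2, by linarith, by linarith, by linarith⟩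

theorem small_Up {k L P A r : ℝ} (hk : 3 ≤ k) (hL : 10 ^ 30 * k ≤ L) (hP : P ≤ 1) (hA0 : 0 ≤ A)
    (hA : A ≤ r) (hr : r ≤ k) :
    16 * P * k / L ^ 2 * A ≤ 16 * k / L ^ 2 * A ∧ 16 * k / L ^ 2 * A ≤ 1 := by
  have l0 : 0 < L := by linarith
  constructor
  · refine mul_le_mul_of_nonneg_right (div_le_div_of_nonneg_right ?_ (by positivity)) hA0
    nlinarith
  · rw [div_mul_eq_mul_div, div_le_one (by positivity)]
    have h1 : (10 ^ 30 * k) ^ 2 ≤ L ^ 2 := pow_le_pow_left₀ (by positivity) hL 2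
    nlinarith [mul_le_mul_of_nonneg_left (hA.trans hr) (show 0 ≤ k by linarith)]

theorem aux_Up {k s : ℝ} (hk : 3 ≤ k) (h0 : 0 ≤ s) (h1 : s ≤ k) :
    s ^ 2 / k ≤ s ∧ 3 ≤ k * (k - 1) / 2 := by
  constructor
  · rw [div_le_iff₀ (by linarith)]
    nlinarith
  · nlinarith

theorem main_Up (hV : SvS) (hC : CntS) (hC2 : Cnt2S) (hM : MainS) (hX : XS) (hU : UniS)
    (hG : Gam2S) (hA : AriS) (hE : ExcS) (hD : DicS)
    {V : Type} [Fintype V] {k m q r : ℕ} {G : SimpleGraph V} {σ : V → Bool} {L : ℝ} {y : V → ℝ}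
    (hc : Ctx k m G σ L y) (hf : Free k G) (hni : ∀ u, NI G u) (hr : 1 ≤ r) (hr' : r < k)
    (hm : (m : ℝ) = k * ((k : ℝ) - 1) / 2 + k * q + r)
    (h0 : k * q + (r : ℝ) ^ 2 / k ≤ L ^ 2 - ((k : ℝ) - 1) * L)
    (h1 : k * q + ((r : ℝ) - 1) ^ 2 / k + 2 * k / (L - 1) ≤ L ^ 2 - ((k : ℝ) - 1) * L) :
    (tF G σ = 0 ∧ Nonempty (G ≃g sp k q r false) ∧
      3 * (k : ℝ) ^ 4 < (2 * r - 1) ^ 2 * m) ∨
    (tF G σ = 1 ∧ Nonempty (G ≃g sp k q (r - 1) true) ∧
      (2 * (r : ℝ) - 1) ^ 2 * m < 5 * (k : ℝ) ^ 4) := by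
  have hs := hc.str
  have kR := hs.kR
  have rR : (1 : ℝ) ≤ r := by exact_mod_cast hr
  have rR' : (r : ℝ) ≤ k := by exact_mod_cast hr'.le
  have l0 : 0 < L := by linarith [hc.L1]
  obtain ⟨c1, -, -, ⟨j, hj⟩, ⟨t, ht⟩⟩ := hC V k m G σ hs
  obtain ⟨A, B, n, P, d1, d2, d3, -, d5, d6, d7, d8, d9, d10, d11⟩ := hC2 V k m G σ hs
  have m1 := hM V k m G σ L y hc
  have m2 : 0 ≤ (k - SK σ y ^ 2) * L ^ 2 / (8 * k) :=
    div_nonneg (mul_nonneg (sub_nonneg.2 (hV V k m G σ L y hc).1) (sq_nonneg _)) (by linarith)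
  have m3 := (hU V k m G σ L y hc).2
  have m4 := (hX V k m G σ L y hc).2
  have j0 : (0 : ℝ) ≤ j := Nat.cast_nonneg j
  have hP := hs.hP
  have hT := hs.ht
  obtain ⟨g1, g2⟩ := hG V k m G σ L y hc hf
  have sq1 : ((r : ℝ) - 1) ^ 2 / k = (r : ℝ) ^ 2 / k - (2 * r - 1) / k := by ring
  rw [d3] at m1 hP
  rw [hj] at m1 m3 c1
  by_cases hR : ∃ v w, RE k G σ v w
  · obtain ⟨v, w, hvw⟩ := hR
    obtain ⟨t1, g3⟩ := g2 v w hvw
    obtain ⟨p, hp⟩ : ∃ p : ℕ, t = p + 1 := by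
      rw [ht] at t1
      have : 1 ≤ t := by exact_mod_cast t1
      exact ⟨t - 1, by omega⟩
    have e1 : tF G σ - 1 = p := by rw [ht, hp]; push_cast; ring
    obtain ⟨s, hs'⟩ : ∃ s : ℕ, r = s + 1 := ⟨r - 1, by omega⟩
    have e2 : (r : ℝ) - 1 = s := by rw [hs']; push_cast; ring
    have dv := hs.dK_le v
    have dw := hs.dK_le w
    rw [e1] at g3
    have g4 : (2 * k - 0.99 * ((k - dK G σ v) + (k - dK G σ w))) / (L - 1) =
        2 * k / (L - 1) - 0.99 * ((k - dK G σ v) + (k - dK G σ w)) / (L - 1) := by ring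
    obtain ⟨f1, f2, f3, f4⟩ := hA k s A B p j P (q - n) L (ZZ k G σ)
      ((k - dK G σ v) + (k - dK G σ w)) hs.k3 (by omega)
      (by
        have : (A : ℝ) + p - B - j = s + k * (q - n) := by linarith only [c1, d1, hm, e1, e2]
        exact_mod_cast this)
      hc.L1 d5 (by rwa [← d2]) d7 (by rwa [← d2]) (by rwa [← d2]) (by rwa [← d2]) hP
      (by linarith) (by linarith)
      (fun hP1 => by
        rw [← d2]
        have a1 := hvw.2.2.2.1
        have a2 := hvw.2.2.2.2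
        by_cases b1 : dK G σ v < k
        · have := d11 hP1 v hvw.2.1 (lt_min (by linarith) (by linarith))
          have b3 : aV k G σ v ≤ k - dK G σ v := min_le_right _ _
          exact Or.inr (by linarith)
        by_cases b2 : dK G σ w < k
        · have := d11 hP1 w hvw.2.2.1 (lt_min (by linarith) (by linarith))
          have b3 : aV k G σ w ≤ k - dK G σ w := min_le_right _ _
          exact Or.inr (by linarith)
        exact Or.inl (by linarith))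
      (by rw [← d2, ← e2]; linarith only [m1, m2, m3, g3, g4, h1, hm, e1, j0])
    subst f1 f2
    have P1 : (P : ℝ) ≤ 1 := by exact_mod_cast f3
    have t2 : tF G σ = 1 := by simpa [sub_eq_zero] using e1
    obtain ⟨i1, i2, i3⟩ := hE V k m q s true G σ hs hni (by omega) (by simp; linarith)
      (by simpa using hj) (by rwa [d3]) (by simpa using t2)
      fun _ => ⟨v, w, hvw.1, ⟨hvw.2.1, by linarith⟩, ⟨hvw.2.2.1, by linarith⟩⟩
    obtain ⟨s1, s2⟩ := small_Up kR hc.L1 P1 hs.AA_nonneg (i3.trans (by linarith)) rR'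
    refine Or.inr ⟨t2, by rwa [show r - 1 = s by omega], ?_⟩
    simp only [Nat.cast_zero, mul_zero, zero_mul, zero_div, add_zero, ne_eq, OfNat.ofNat_ne_zero,
      not_false_eq_true, zero_pow] at g3 m3 m1
    rw [g4, f4] at g3
    obtain ⟨s3, s4⟩ := aux_Up (s := (s : ℝ)) kR (Nat.cast_nonneg s) (by linarith only [e2, rR'])
    refine (hD k r m L (AA k G σ) kR rR rR' hs.big hc.L1 hs.AA_nonneg (by linarith only [i3, e2]) hc.psi
      (by linarith only [m1, m2, m3, m4, i2, s1, s2, s3, s4])).2 ?_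
    rw [← e2] at i2
    simp only [mul_zero, zero_div, sub_zero] at g3
    linarith only [m1, m2, m3, g3, i2, s1, h0, sq1, hm, t2]
  · have hR' : ∀ v w, ¬ RE k G σ v w := fun v w h => hR ⟨v, w, h⟩
    have g3 := g1 hR'
    rw [ht] at g3 m1 hT c1
    obtain ⟨f1, f2, f3, -⟩ := hA k r A B t j P (q - n) L (ZZ k G σ) 0 hs.k3 hr'
      (by
        have : (A : ℝ) + t - B - j = r + k * (q - n) := by linarith only [c1, d1, hm]
        exact_mod_cast this)
      hc.L1 d5 (by rwa [← d2]) d7 (by rwa [← d2]) (by rwa [← d2]) (by rwa [← d2]) hP hT le_rfl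
      (fun _ => Or.inl rfl) (by
        rw [← d2]
        simp only [mul_zero, zero_div, sub_zero]
        linarith only [m1, m2, m3, g3, h0, hm, j0])
    subst f1 f2
    have P1 : (P : ℝ) ≤ 1 := by exact_mod_cast f3
    have t2 : tF G σ = 0 := by simpa using ht
    obtain ⟨i1, i2, i3⟩ := hE V k m q r false G σ hs hni hr' (by simpa using hm)
      (by simpa using hj) (by rwa [d3]) (by simpa using t2) (by simp)
    obtain ⟨s1, s2⟩ := small_Up kR hc.L1 P1 hs.AA_nonneg i3 rR'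
    refine Or.inl ⟨t2, i1, ?_⟩
    simp only [Nat.cast_zero, mul_zero] at m3 m1
    rw [t2] at m4
    obtain ⟨s3, s4⟩ := aux_Up (s := (r : ℝ)) kR (Nat.cast_nonneg r) rR'
    refine (hD k r m L (AA k G σ) kR rR rR' hs.big hc.L1 hs.AA_nonneg i3 hc.psi
      (by linarith only [m1, m2, m3, m4, i2, s1, s2, s3, s4])).1 ?_
    linarith only [m1, m2, m3, m4, i2, s1, h1, sq1, hm]

theorem resid (hC : CoreS) (hL : LightS) (hXb : XbS) (hF : LfinS) (h2 : H2S) (h3 : H3S)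
    (h4 : H4S) (h5 : HstrS) (h6 : PassS) (hEig : EigS) (hV : SvS) (hCn : CntS) (hC2 : Cnt2S)
    (hM : MainS) (hX : XS) (hU : UniS) (hG : Gam2S) (hA : AriS) (hE : ExcS) (hD : DicS)
    (hSp : SpS) (hFr : SpFreeS) (hLo : SpLowS) (hLam : LamS)
    (k q r m : ℕ) (hk : 3 ≤ k) (hr : 1 ≤ r) (hr' : r < k) (hm : m = k.choose 2 + k * q + r)
    (hb : 10 ^ 68 * k ^ 2 ≤ m) :
    (∀ (V : Type) [Fintype V] (G : SimpleGraph V), (∀ v, ∃ w, G.Adj v w) →
      ¬ (wheel (2 * k)).IsContained G → G.edgeSet.ncard = m →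
      lam G ≤ max (lam (sp k q r false)) (lam (sp k q (r - 1) true)) ∧
        (lam G = max (lam (sp k q r false)) (lam (sp k q (r - 1) true)) →
          Nonempty (G ≃g sp k q r false) ∨ Nonempty (G ≃g sp k q (r - 1) true))) ∧
    ((∀ v, ∃ w, (sp k q r false).Adj v w) ∧ (sp k q r false).edgeSet.ncard = m) ∧
    ((∀ v, ∃ w, (sp k q (r - 1) true).Adj v w) ∧ (sp k q (r - 1) true).edgeSet.ncard = m) ∧
    (5 * k ^ 4 ≤ (2 * r - 1) ^ 2 * m → lam (sp k q (r - 1) true) < lam (sp k q r false)) ∧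
    ((2 * r - 1) ^ 2 * m ≤ 3 * k ^ 4 → lam (sp k q r false) < lam (sp k q (r - 1) true)) := by
  have kR : (3 : ℝ) ≤ k := by exact_mod_cast hk
  have rR : (1 : ℝ) ≤ r := by exact_mod_cast hr
  have rR' : (r : ℝ) ≤ k := by exact_mod_cast hr'.le
  have mR : (m : ℝ) = k * ((k : ℝ) - 1) / 2 + k * q + r := by
    rw [hm]
    push_cast
    rw [Nat.cast_choose_two]
  have bR : 10 ^ 68 * (k : ℝ) ^ 2 ≤ m := by exact_mod_cast hb
  have hq : 2 ≤ q := by
    by_contra h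
    have : (q : ℝ) ≤ 1 := by exact_mod_cast (by omega : q ≤ 1)
    nlinarith
  have e1 : ((r - 1 : ℕ) : ℝ) = r - 1 := by push_cast [Nat.cast_sub hr]; ring
  have e2 : ((2 * r - 1 : ℕ) : ℝ) = 2 * r - 1 := by
    rw [Nat.cast_sub (by omega)]; push_cast; ring
  obtain ⟨a1, a2, a3, a4, a5, a6⟩ := hSp k q r false hk hr' hq
  obtain ⟨b1, b2, b3, b4, b5, b6⟩ := hSp k q (r - 1) true hk (by omega) hq
  obtain ⟨l1, l2⟩ := hLo k q r false hk hr' hq
  obtain ⟨l3, l4⟩ := hLo k q (r - 1) true hk (by omega) hq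
  simp only [Bool.false_eq_true, if_false, add_zero] at a2 a4 l2
  simp only [if_true] at b2 b4 l4
  rw [e1] at b2 l4
  have low : ∀ L : ℝ, lam (sp k q r false) ≤ L → lam (sp k q (r - 1) true) ≤ L →
      k * q + (r : ℝ) ^ 2 / k ≤ L ^ 2 - ((k : ℝ) - 1) * L ∧
      k * q + ((r : ℝ) - 1) ^ 2 / k + 2 * k / (L - 1) ≤ L ^ 2 - ((k : ℝ) - 1) * L ∧
      m - k * ((k : ℝ) - 1) / 2 - k / 4 ≤ L ^ 2 - ((k : ℝ) - 1) * L := by
    intro L u1 u2
    have v1 := mul_nonneg (sub_nonneg.2 u1)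
      (show 0 ≤ L + lam (sp k q r false) - (k - 1) by linarith)
    have v2 := mul_nonneg (sub_nonneg.2 u2)
      (show 0 ≤ L + lam (sp k q (r - 1) true) - (k - 1) by linarith)
    have v3 : 2 * (k : ℝ) / (L - 1) ≤ 2 * k / (lam (sp k q (r - 1) true) - 1) :=
      div_le_div_of_nonneg_left (by linarith) (by linarith) (by linarith)
    have v4 : (r : ℝ) - k / 4 ≤ (r : ℝ) ^ 2 / k := by
      rw [le_div_iff₀ (by linarith)]
      nlinarith only [sq_nonneg ((r : ℝ) - k / 2)]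
    exact ⟨by linarith only [v1, l2], by linarith only [v2, v3, l4],
      by linarith only [v1, l2, v4, mR]⟩
  have key : ∀ (V : Type) [Fintype V] (G : SimpleGraph V) (σ : V → Bool), Str k m G σ →
      (∀ v, NI G v) → Free k G → lam (sp k q r false) ≤ lam G →
      lam (sp k q (r - 1) true) ≤ lam G →
      (tF G σ = 0 ∧ Nonempty (G ≃g sp k q r false) ∧ 3 * (k : ℝ) ^ 4 < (2 * r - 1) ^ 2 * m) ∨
      (tF G σ = 1 ∧ Nonempty (G ≃g sp k q (r - 1) true) ∧
        (2 * (r : ℝ) - 1) ^ 2 * m < 5 * (k : ℝ) ^ 4) := by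
    intro V _ G σ hs hni hf u1 u2
    obtain ⟨w1, w2, w3⟩ := low _ u1 u2
    obtain ⟨y, hy⟩ := hEig V k m G σ hs w3
    exact main_Up hV hCn hC2 hM hX hU hG hA hE hD hy hf hni hr hr' mR w1 w2
  have sA : Str k m (sp k q r false) Sum.isLeft :=
    ⟨hk, by rw [a2, mR], bR, a3, by rw [a4]; positivity, by rw [a5]; positivity, by linarith⟩
  have sB : Str k m (sp k q (r - 1) true) Sum.isLeft :=
    ⟨hk, by rw [b2, mR]; ring, bR, b3, by rw [b4]; linarith, by rw [b5]; positivity, by linarith⟩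
  refine ⟨fun V _ G hni hw hG' => ?_, ⟨a1, ?_⟩, ⟨b1, ?_⟩, fun h => ?_, fun h => ?_⟩
  · have hed : ed G = m := by rw [(edS V G).1, hG']
    have key2 : max (lam (sp k q r false)) (lam (sp k q (r - 1) true)) ≤ lam G →
        Nonempty (G ≃g sp k q r false) ∨ Nonempty (G ≃g sp k q (r - 1) true) := fun h => by
      have u1 := (le_max_left _ _).trans h
      have u2 := (le_max_right _ _).trans h
      obtain ⟨σ, hs⟩ := str_Up hC hL hXb hF h2 h3 h4 h5 h6 hk hw hed bR (low _ u1 u2).2.2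
      exact (key V G σ hs hni hw u1 u2).imp (fun a => a.2.1) fun a => a.2.1
    refine ⟨?_, fun h => key2 h.ge⟩
    by_contra h
    push Not at h
    rcases key2 h.le with i | i
    · rw [hLam _ _ _ _ i] at h
      exact absurd (le_max_left _ _) h.not_ge
    · rw [hLam _ _ _ _ i] at h
      exact absurd (le_max_right _ _) h.not_ge
  · exact_mod_cast (edS _ _).1.symm.trans sA.hm
  · exact_mod_cast (edS _ _).1.symm.trans sB.hm
  · by_contra g
    push Not at g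
    have h' : 5 * (k : ℝ) ^ 4 ≤ (2 * r - 1) ^ 2 * m := by
      rw [← e2]; exact_mod_cast h
    rcases key _ _ _ sB b1 (hFr k q _ _ hk _ le_rfl) g le_rfl with i | i
    · rw [b4] at i
      exact one_ne_zero i.1
    · linarith [i.2.2]
  · by_contra g
    push Not at g
    have h' : (2 * (r : ℝ) - 1) ^ 2 * m ≤ 3 * (k : ℝ) ^ 4 := by
      rw [← e2]; exact_mod_cast h
    rcases key _ _ _ sA a1 (hFr k q _ _ hk _ le_rfl) le_rfl g with i | i
    · linarith [i.2.2]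
    · rw [a4] at i
      exact zero_ne_one i.1

end WR
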