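import Pool.Agent.MP_1392dc_co.TSt

namespace WR

open W5 WQ Finset
open scoped Classical

section
variable {V : Type} [Fintype V]

theorem nle_X (G : SimpleGraph V) (σ : V → Bool) (y : V → ℝ) (X : ℝ)
    (h : ∀ u, σ u = false → y u ≤ X) {v : V} (hv : σ v = false) :
    sN G σ y false v ≤ dg (sg G σ false) v * X := by
  rw [dg_eq_ct]
  unfold sN ct
  rw [sum_mul]
  refine sum_le_sum fun u _ => ?_
  by_cases a : G.Adj v u ∧ σ u = false
  · rw [if_pos a, if_pos (show (sg G σ false).Adj v u from ⟨a.1, hv, a.2⟩), one_mul]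
    exact h u a.2
  · rw [if_neg a, if_neg (show ¬ (sg G σ false).Adj v u from fun b => a ⟨b.1, b.2.2⟩), zero_mul]

theorem SK_nonneg_X (σ : V → Bool) {y : V → ℝ} (h : ∀ v, 0 ≤ y v) : 0 ≤ SK σ y :=
  sum_nonneg fun u _ => by
    split_ifs
    · exact h u
    · exact le_rfl

theorem M2_nonneg_X (G : SimpleGraph V) (σ : V → Bool) {y : V → ℝ} (h : ∀ v, 0 ≤ y v) :
    0 ≤ M2 G σ y :=
  sum_nonneg fun u _ => sum_nonneg fun v _ => by
    split_ifs
    · exact mul_nonneg (h u) (h v)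
    · exact le_rfl

theorem M2_ge_X (G : SimpleGraph V) (σ : V → Bool) {y : V → ℝ} {c d : ℝ}
    (h : ∀ u v, σ u = true → σ v = true → c ≤ d * (y u * y v)) :
    c * M2 G σ (fun _ => 1) ≤ d * M2 G σ y := by
  unfold M2
  simp only [mul_sum]
  refine sum_le_sum fun u _ => sum_le_sum fun v _ => ?_
  split_ifs with a
  · rw [mul_one, mul_one]; exact h u v a.1 a.2.1
  · rw [mul_zero, mul_zero]

end

theorem xS (hV : SvS) : XS := by
  intro V _ k m G σ L y h
  have hk := h.str.kR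
  have hL := h.L1
  have ht := h.str.ht
  have ht0 : 0 ≤ tF G σ := ed_nonneg _
  have hS := SK_nonneg_X σ h.pos
  have hS2 := (hV V k m G σ L y h).1
  have hL0 : 0 < L := by linarith
  obtain ⟨X, hX0, hX1, hX2⟩ : ∃ X, 0 ≤ X ∧ (∀ v, σ v = false → y v ≤ X) ∧
      L * X ≤ 1.0001 * SK σ y := by
    by_cases hF : (univ.filter fun v => σ v = false).Nonempty
    · obtain ⟨v0, h0, h1⟩ := exists_max_image _ y hF
      have h2 : ∀ v, σ v = false → y v ≤ y v0 := fun v hv => h1 v (mem_filter.2 ⟨mem_univ _, hv⟩)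
      refine ⟨y v0, h.pos v0, h2, ?_⟩
      have e1 := h.eig v0
      rw [ns_split G σ] at e1
      have e2 := sN_le G σ h.pos v0
      have e3 := nle_X G σ y _ h2 (mem_filter.1 h0).2
      have e4 : dg (sg G σ false) v0 ≤ L / 10 ^ 23 := by
        have : dg (sg G σ false) v0 ≤ tF G σ := dg_le_ed _ _
        linarith
      have e5 := mul_le_mul_of_nonneg_right e4 (h.pos v0)
      have e6 : L / 10 ^ 23 * y v0 = L * y v0 / 10 ^ 23 := by ring
      linarith
    · exact ⟨0, le_rfl, fun v hv => absurd ⟨v, mem_filter.2 ⟨mem_univ _, hv⟩⟩ hF, by linarith⟩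
  refine ⟨fun v hv => (mul_le_mul_of_nonneg_left (hX1 v hv) hL0.le).trans hX2, ?_⟩
  have e1 : Gam G σ y ≤ ∑ v, SK σ y * X * dg (sg G σ false) v := by
    refine sum_le_sum fun v _ => ?_
    have d0 := dg_nonneg (sg G σ false) v
    split_ifs with hv
    · refine (mul_le_mul (sN_le G σ h.pos v) (nle_X G σ y X hX1 hv)
        (sN_nonneg G σ h.pos _ _) hS).trans (le_of_eq ?_)
      ring
    · positivity
  have e2 : ∑ v, dg (sg G σ false) v = 2 * tF G σ := by unfold tF ed; ring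
  rw [← mul_sum, e2] at e1
  have e3 : SK σ y * X ≤ 1 / 2 := by
    refine le_of_mul_le_mul_left ?_ hL0
    have := mul_le_mul_of_nonneg_left hX2 hS
    nlinarith
  nlinarith [mul_le_mul_of_nonneg_right e3 ht0]

theorem uniS (hV : SvS) (hC : CntS) (hC2 : Cnt2S) (hM : MainS) (hX : XS) : UniS := by
  intro V _ k m G σ L y h
  have hk := h.str.kR
  have hL := h.L1
  have hk0 : (0 : ℝ) < k := by linarith
  have hL0 : 0 < L := by linarith
  have hS := SK_nonneg_X σ h.pos
  obtain ⟨hS2, hy, -⟩ := hV V k m G σ L y h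
  obtain ⟨-, -, hj2, -⟩ := hC V k m G σ h.str
  obtain ⟨A, B, n, P, -, -, -, -, -, hZ, -⟩ := hC2 V k m G σ h.str
  have m1 := hM V k m G σ L y h
  have g1 := (hX V k m G σ L y h).2
  have psi := h.psi
  have hj := h.str.hj
  have hA := h.str.AA_nonneg
  have hM0 := mul_nonneg hL0.le (M2_nonneg_X G σ h.pos)
  have hL2 : (10 ^ 30 * (k : ℝ)) ^ 2 ≤ L ^ 2 := pow_le_pow_left₀ (by positivity) hL 2
  have z1 : ZZ k G σ / k ≤ AA k G σ / 2 := by
    rw [div_le_iff₀ hk0]; linarith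
  have z2 : 16 * ct (Pt k G σ) * k / L ^ 2 ≤ 1 / 2 := by
    rw [div_le_iff₀ (by positivity)]
    have := mul_le_mul_of_nonneg_right h.str.hP hk0.le
    nlinarith
  have z3 := mul_le_mul_of_nonneg_right z2 hA
  have z4 : (k - SK σ y ^ 2) * L ^ 2 / (8 * k) ≤ 3 * k / 8 := by linarith
  rw [div_le_iff₀ (by positivity)] at z4
  have z5 : k - SK σ y ^ 2 ≤ 3 / 10 ^ 60 := by
    have a := mul_le_mul_of_nonneg_left hL2 (sub_nonneg.2 hS2)
    have b : (0 : ℝ) < k ^ 2 := by positivity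
    refine le_of_mul_le_mul_right ?_ b
    nlinarith
  have key : ∀ u, σ u = true → 0.99 ≤ SK σ y * y u ∧ SK σ y * y u ≤ 1.01 := by
    intro u hu
    have a := mul_le_mul hS2 (hy u hu) (sq_nonneg _) hk0.le
    rw [mul_div_cancel₀ _ hk0.ne'] at a
    have b : SK σ y ^ 2 * (y u - SK σ y / k) ^ 2 = (SK σ y * y u - SK σ y ^ 2 / k) ^ 2 := by ring
    rw [b] at a
    have c : (SK σ y * y u - SK σ y ^ 2 / k) ^ 2 ≤ (1 / 1000 : ℝ) ^ 2 := by linarith
    obtain ⟨c1, c2⟩ := abs_le_of_sq_le_sq' c (by norm_num)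
    have d1 : SK σ y ^ 2 / k ≤ 1 := (div_le_one hk0).2 hS2
    have d2 : 0.999 ≤ SK σ y ^ 2 / k := by
      rw [le_div_iff₀ hk0]; linarith
    constructor <;> linarith
  refine ⟨key, ?_⟩
  have w1 := M2_ge_X G σ (y := y) (c := 0.98) (d := k) fun u v hu hv => by
    have a := mul_le_mul (key u hu).1 (key v hv).1 (by norm_num) (by linarith [(key u hu).1])
    have b := mul_le_mul_of_nonneg_right hS2 (mul_nonneg (h.pos u) (h.pos v))
    nlinarith
  have w2 := M2_nonneg_X G σ (y := fun _ => 1) fun _ => zero_le_one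
  have w3 := mul_le_mul_of_nonneg_right hL (M2_nonneg_X G σ h.pos)
  nlinarith

end WR
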